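import Pool.Agent.H9.TC.Defs

/-!
Project TC: calculus of `TW`, `near`, `small`, `cnt`, `ee`, `sgz`.
-/

namespace Pool.Agent.H9.TC

open Finset

/-! ### cnt -/

theorem cnt_le (M : ℕ) (P : ℕ → Prop) : cnt M P ≤ M := by
  classical
  unfold cnt
  refine (card_filter_le _ _).trans ?_
  simp

theorem cnt_mono {M : ℕ} {P Q : ℕ → Prop} (h : ∀ m < M, P m → Q m) : cnt M P ≤ cnt M Q := by
  classical
  unfold cnt
  refine card_le_card ?_
  intro m hm
  simp only [mem_filter, mem_range] at hm ⊢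
  exact ⟨hm.1, h m hm.1 hm.2⟩

theorem cnt_congr {M : ℕ} {P Q : ℕ → Prop} (h : ∀ m < M, (P m ↔ Q m)) : cnt M P = cnt M Q :=
  le_antisymm (cnt_mono fun m hm hp => (h m hm).1 hp) (cnt_mono fun m hm hp => (h m hm).2 hp)

theorem cnt_or (M : ℕ) (P Q : ℕ → Prop) :
    cnt M (fun m => P m ∨ Q m) ≤ cnt M P + cnt M Q := by
  classical
  unfold cnt
  have h : (range M).filter (fun m => P m ∨ Q m) ⊆ (range M).filter P ∪ (range M).filter Q := by
    intro m hm
    simp only [mem_filter, mem_union] at hm ⊢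
    rcases hm.2 with h | h
    · exact Or.inl ⟨hm.1, h⟩
    · exact Or.inr ⟨hm.1, h⟩
  have h2 := (card_le_card h).trans (card_union_le _ _)
  calc _ = ((range M).filter (fun m => P m ∨ Q m)).card := by congr
    _ ≤ _ := h2

theorem cnt_exists {ι : Type*} (M : ℕ) (s : Finset ι) (P : ι → ℕ → Prop) :
    cnt M (fun m => ∃ i ∈ s, P i m) ≤ ∑ i ∈ s, cnt M (P i) := by
  classical
  induction s using Finset.induction_on with
  | empty =>
    have : cnt M (fun m => ∃ i ∈ (∅ : Finset ι), P i m) = 0 := by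
      unfold cnt
      simp
    rw [this]; simp
  | insert a s ha ih =>
    rw [sum_insert ha]
    have h1 : cnt M (fun m => ∃ i ∈ insert a s, P i m) ≤
        cnt M (fun m => P a m ∨ ∃ i ∈ s, P i m) := by
      refine cnt_mono ?_
      rintro m _ ⟨i, hi, hp⟩
      rcases mem_insert.1 hi with rfl | hi
      · exact Or.inl hp
      · exact Or.inr ⟨i, hi, hp⟩
    have h2 := cnt_or M (P a) (fun m => ∃ i ∈ s, P i m)
    omega

theorem cnt_exists_fin {n : ℕ} (M : ℕ) (P : Fin n → ℕ → Prop) :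
    cnt M (fun m => ∃ i, P i m) ≤ ∑ i, cnt M (P i) := by
  have h := cnt_exists M (univ : Finset (Fin n)) P
  have h2 : cnt M (fun m => ∃ i, P i m) ≤ cnt M (fun m => ∃ i ∈ (univ : Finset (Fin n)), P i m) := by
    refine cnt_mono ?_
    rintro m _ ⟨i, hp⟩
    exact ⟨i, mem_univ _, hp⟩
  exact h2.trans h

/-- Markov. -/
theorem cnt_markov {M : ℕ} {P : ℕ → Prop} {f : ℕ → ℝ} {c : ℝ} (h0 : ∀ m < M, 0 ≤ f m)
    (hP : ∀ m < M, P m → c ≤ f m) : c * cnt M P ≤ ∑ m ∈ range M, f m := by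
  classical
  unfold cnt
  calc c * (((range M).filter P).card : ℝ) = ∑ m ∈ (range M).filter P, c := by
        rw [sum_const, nsmul_eq_mul, mul_comm]
    _ ≤ ∑ m ∈ (range M).filter P, f m := by
        refine sum_le_sum fun m hm => ?_
        simp only [mem_filter, mem_range] at hm
        exact hP m hm.1 hm.2
    _ ≤ ∑ m ∈ range M, f m := by
        refine sum_le_sum_of_subset_of_nonneg (filter_subset _ _) ?_
        intro m hm _
        exact h0 m (mem_range.1 hm)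

/-- Two functions bounded by one that agree outside the set `P`. -/
theorem abs_sum_sub_le {M : ℕ} {P : ℕ → Prop} {f g : ℕ → ℝ} (hf : ∀ m < M, |f m| ≤ 1)
    (hg : ∀ m < M, |g m| ≤ 1) (h : ∀ m < M, ¬ P m → f m = g m) :
    |∑ m ∈ range M, f m - ∑ m ∈ range M, g m| ≤ 2 * cnt M P := by
  classical
  rw [← sum_sub_distrib]
  refine (abs_sum_le_sum_abs _ _).trans ?_
  have h1 : ∀ m ∈ range M, |f m - g m| ≤ if P m then 2 else 0 := by
    intro m hm
    have hm' := mem_range.1 hm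
    split_ifs with hp
    · have := hf m hm'
      have := hg m hm'
      rw [abs_le] at *
      constructor <;> linarith [(hf m hm'), (hg m hm')]
    · rw [h m hm' hp]; simp
  refine (sum_le_sum h1).trans ?_
  rw [← sum_filter, sum_const, nsmul_eq_mul]
  unfold cnt
  linarith

/-! ### TW -/

theorem TW_pm (u v : ℕ) (x : ℤ) : TW u v x = 1 ∨ TW u v x = -1 := by
  unfold TW
  refine Finset.prod_induction _ (fun r : ℝ => r = 1 ∨ r = -1) ?_ (Or.inl rfl) ?_
  · rintro a b (rfl | rfl) (rfl | rfl) <;> simp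
  · intro i _
    split_ifs <;> simp

theorem abs_TW (u v : ℕ) (x : ℤ) : |TW u v x| = 1 := by
  rcases TW_pm u v x with h | h <;> simp [h]

theorem TW_mul_self (u v : ℕ) (x : ℤ) : TW u v x * TW u v x = 1 := by
  rcases TW_pm u v x with h | h <;> simp [h]

theorem TW_ne_zero (u v : ℕ) (x : ℤ) : TW u v x ≠ 0 := by
  rcases TW_pm u v x with h | h <;> simp [h]

theorem TW_self (u : ℕ) (x : ℤ) : TW u u x = 1 := by
  simp [TW]

theorem TW_split {u v w : ℕ} (h1 : u ≤ v) (h2 : v ≤ w) (x : ℤ) :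
    TW u v x * TW v w x = TW u w x := by
  unfold TW
  exact Finset.prod_Ico_consecutive _ h1 h2

/-- The product over consecutive windows. -/
theorem TW_levels {lv : ℕ → ℕ} (h : Monotone lv) (n : ℕ) (x : ℤ) :
    TW (lv 0) (lv n) x = ∏ w ∈ range n, TW (lv w) (lv (w + 1)) x := by
  induction n with
  | zero => simp [TW_self]
  | succ n ih =>
    rw [prod_range_succ, ← ih, TW_split (h (Nat.zero_le n)) (h (Nat.le_succ n))]

theorem TW_shift (u L : ℕ) (x : ℤ) : TW u (u + L) x = TW 0 L (x / 2 ^ u) := by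
  unfold TW
  have h := Finset.prod_Ico_add' (fun i : ℕ => if (x / 2 ^ i) % 2 = 0 then (1 : ℝ) else -1) 0 L u
  rw [zero_add, add_comm L u] at h
  rw [← h]
  refine prod_congr rfl fun i _ => ?_
  have h2 : x / 2 ^ (i + u) = x / 2 ^ u / 2 ^ i := by
    rw [pow_add, mul_comm, Int.ediv_ediv_of_nonneg (by positivity)]
  rw [h2]

theorem TW_of_ediv {u v : ℕ} {x y : ℤ} (h : x / 2 ^ u = y / 2 ^ u) : TW u v x = TW u v y := by
  rcases le_total u v with huv | huv
  · obtain ⟨L, rfl⟩ := Nat.exists_eq_add_of_le huv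
    rw [TW_shift, TW_shift, h]
  · simp [TW, Finset.Ico_eq_empty_of_le huv]

theorem ediv_pow_mod_two {v i : ℕ} (hi : i < v) (x k : ℤ) :
    ((x + 2 ^ v * k) / 2 ^ i) % 2 = (x / 2 ^ i) % 2 := by
  obtain ⟨j, rfl⟩ := Nat.exists_eq_add_of_lt hi
  have h : x + 2 ^ (i + j + 1) * k = x + 2 ^ i * (2 * (2 ^ j * k)) := by ring
  rw [h, Int.add_mul_ediv_left _ _ (by positivity)]
  omega

theorem TW_congr {u v : ℕ} {x y : ℤ} (h : (2 : ℤ) ^ v ∣ x - y) : TW u v x = TW u v y := by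
  obtain ⟨k, hk⟩ := h
  have hx : x = y + 2 ^ v * k := by linarith
  unfold TW
  refine prod_congr rfl fun i hi => ?_
  rw [hx, ediv_pow_mod_two (mem_Ico.1 hi).2]

/-- `TW 0 L (x + 2^L k) = TW 0 L x`. -/
theorem TW_add_mul (u v : ℕ) (x k : ℤ) : TW u v (x + 2 ^ v * k) = TW u v x :=
  TW_congr ⟨k, by ring⟩

/-- (T4) stability under small perturbations. -/
theorem TW_stable {u v : ℕ} {D x y : ℤ} (hn : ¬ near u D x) (hs : small v D (y - x)) :
    TW u v y = TW u v x := by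
  obtain ⟨s, hs1, hs2⟩ := hs
  have h1 : TW u v y = TW u v (x + s) := TW_congr (by
    have : y - (x + s) = y - x - s := by ring
    rw [this]; exact hs2)
  rw [h1]
  refine TW_of_ediv ?_
  unfold near at hn
  push Not at hn
  obtain ⟨h3, h4⟩ := hn
  have hp : (0 : ℤ) < 2 ^ u := by positivity
  have hsx := abs_le.1 hs1
  have hx : x = 2 ^ u * (x / 2 ^ u) + x % 2 ^ u := (Int.mul_ediv_add_emod x (2 ^ u)).symm
  have h5 : x + s = (x % 2 ^ u + s) + 2 ^ u * (x / 2 ^ u) := by linarith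
  rw [h5, Int.add_mul_ediv_left _ _ hp.ne', Int.ediv_eq_zero_of_lt (by linarith) (by linarith),
    zero_add]

/-- The splitting used for `x + 2^L k`. -/
theorem TW_low_high {L0 L : ℕ} (h : L0 ≤ L) (x k : ℤ) :
    TW 0 L (x + 2 ^ L0 * k) = TW 0 L0 x * TW 0 (L - L0) (x / 2 ^ L0 + k) := by
  obtain ⟨d, rfl⟩ := Nat.exists_eq_add_of_le h
  rw [← TW_split (Nat.zero_le L0) h, TW_add_mul, TW_shift,
    Int.add_mul_ediv_left _ _ (by positivity), Nat.add_sub_cancel_left]

/-! ### small, near -/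

theorem small_zero (v : ℕ) (D : ℤ) (hD : 0 ≤ D) : small v D 0 := ⟨0, by simpa using hD, by simp⟩

theorem small_of_dvd {v : ℕ} {x : ℤ} (h : (2 : ℤ) ^ v ∣ x) : small v 0 x :=
  ⟨0, by simp, by simpa using h⟩

theorem small_of_abs_le {v : ℕ} {D x : ℤ} (h : |x| ≤ D) : small v D x := ⟨x, h, by simp⟩

theorem small_mono {v : ℕ} {D E x : ℤ} (h : D ≤ E) (hs : small v D x) : small v E x := by
  obtain ⟨s, h1, h2⟩ := hs
  exact ⟨s, h1.trans h, h2⟩

theorem small_level {v w : ℕ} (h : w ≤ v) {D x : ℤ} (hs : small v D x) : small w D x := by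
  obtain ⟨s, h1, h2⟩ := hs
  exact ⟨s, h1, (pow_dvd_pow 2 h).trans h2⟩

theorem small_add {v : ℕ} {D E x y : ℤ} (hx : small v D x) (hy : small v E y) :
    small v (D + E) (x + y) := by
  obtain ⟨s, h1, h2⟩ := hx
  obtain ⟨r, h3, h4⟩ := hy
  refine ⟨s + r, (abs_add_le _ _).trans (add_le_add h1 h3), ?_⟩
  have : x + y - (s + r) = (x - s) + (y - r) := by ring
  rw [this]; exact dvd_add h2 h4

theorem small_neg {v : ℕ} {D x : ℤ} (hx : small v D x) : small v D (-x) := by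
  obtain ⟨s, h1, h2⟩ := hx
  refine ⟨-s, by rwa [abs_neg], ?_⟩
  have : -x - -s = -(x - s) := by ring
  rw [this]; exact (dvd_neg).2 h2

theorem small_mul {v : ℕ} {D x : ℤ} (n : ℤ) (hx : small v D x) : small v (|n| * D) (n * x) := by
  obtain ⟨s, h1, h2⟩ := hx
  refine ⟨n * s, by rw [abs_mul]; exact mul_le_mul_of_nonneg_left h1 (abs_nonneg n), ?_⟩
  have : n * x - n * s = n * (x - s) := by ring
  rw [this]; exact Dvd.dvd.mul_left h2 n

theorem small_sum {ι : Type*} {v : ℕ} (S : Finset ι) {D : ι → ℤ} {x : ι → ℤ}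
    (h : ∀ i ∈ S, small v (D i) (x i)) : small v (∑ i ∈ S, D i) (∑ i ∈ S, x i) := by
  classical
  induction S using Finset.induction_on with
  | empty => simpa using small_zero v 0 le_rfl
  | insert a s ha ih =>
    rw [sum_insert ha, sum_insert ha]
    exact small_add (h a (mem_insert_self _ _)) (ih fun i hi => h i (mem_insert_of_mem hi))

theorem small_congr {v : ℕ} {D x y : ℤ} (h : (2 : ℤ) ^ v ∣ x - y) (hx : small v D x) :
    small v D y := by
  obtain ⟨s, h1, h2⟩ := hx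
  refine ⟨s, h1, ?_⟩
  have : y - s = (x - s) - (x - y) := by ring
  rw [this]; exact dvd_sub h2 h

theorem small_of_near {u : ℕ} {D x : ℤ} (h : near u D x) : small u D x := by
  have hp : (0 : ℤ) < 2 ^ u := by positivity
  have h0 := Int.emod_nonneg x hp.ne'
  have h1 := Int.emod_lt_of_pos x hp
  have hx : x = 2 ^ u * (x / 2 ^ u) + x % 2 ^ u := (Int.mul_ediv_add_emod x (2 ^ u)).symm
  rcases h with h | h
  · exact ⟨x % 2 ^ u, by rw [abs_of_nonneg h0]; exact h.le, ⟨x / 2 ^ u, by linarith⟩⟩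
  · refine ⟨x % 2 ^ u - 2 ^ u, ?_, ⟨x / 2 ^ u + 1, by linarith⟩⟩
    rw [abs_of_nonpos (by linarith)]
    linarith

theorem near_congr {u : ℕ} {D x y : ℤ} (h : (2 : ℤ) ^ u ∣ x - y) : near u D x ↔ near u D y := by
  have : x % 2 ^ u = y % 2 ^ u :=
    Int.emod_eq_emod_iff_emod_sub_eq_zero.2 (Int.emod_eq_zero_of_dvd h)
  unfold near
  rw [this]

theorem near_mono {u : ℕ} {D E x : ℤ} (h : D ≤ E) (hn : near u D x) : near u E x := by
  rcases hn with h1 | h1
  · exact Or.inl (lt_of_lt_of_le h1 h)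
  · exact Or.inr (le_trans (by linarith) h1)

/-! ### ee -/

theorem ee_add (x y : ℝ) : ee (x + y) = ee x * ee y := by
  unfold ee
  rw [← Complex.exp_add]
  congr 1
  push_cast
  ring

theorem ee_zero : ee 0 = 1 := by simp [ee]

theorem norm_ee (x : ℝ) : ‖ee x‖ = 1 := by
  unfold ee
  exact Complex.norm_exp_ofReal_mul_I _

theorem ee_ne_zero (x : ℝ) : ee x ≠ 0 := by
  unfold ee
  exact Complex.exp_ne_zero _

theorem ee_int (n : ℤ) : ee (n : ℝ) = 1 := by
  unfold ee
  rw [Complex.exp_eq_one_iff]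
  exact ⟨n, by push_cast; ring⟩

theorem ee_nat (n : ℕ) : ee (n : ℝ) = 1 := by
  have := ee_int (n : ℤ)
  simpa using this

theorem ee_add_int (x : ℝ) (n : ℤ) : ee (x + n) = ee x := by
  rw [ee_add, ee_int, mul_one]

theorem ee_neg (x : ℝ) : ee (-x) = (starRingEnd ℂ) (ee x) := by
  unfold ee
  rw [← Complex.exp_conj]
  congr 1
  simp only [map_mul, Complex.conj_ofReal, Complex.conj_I]
  push_cast
  ring

theorem ee_re (x : ℝ) : (ee x).re = Real.cos (2 * Real.pi * x) := by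
  unfold ee
  rw [Complex.exp_ofReal_mul_I_re]

theorem ee_im (x : ℝ) : (ee x).im = Real.sin (2 * Real.pi * x) := by
  unfold ee
  rw [Complex.exp_ofReal_mul_I_im]

theorem ee_sub (x y : ℝ) : ee (x - y) = ee x * (starRingEnd ℂ) (ee y) := by
  rw [sub_eq_add_neg, ee_add, ee_neg]

theorem ee_mul_conj (x : ℝ) : ee x * (starRingEnd ℂ) (ee x) = 1 := by
  rw [← ee_sub, sub_self, ee_zero]

theorem ee_nat_mul (n : ℕ) (x : ℝ) : ee ((n : ℝ) * x) = ee x ^ n := by
  induction n with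
  | zero => simp [ee_zero]
  | succ n ih =>
    rw [pow_succ, ← ih, ← ee_add]
    congr 1
    push_cast
    ring

theorem ee_sum {ι : Type*} (S : Finset ι) (x : ι → ℝ) :
    ee (∑ i ∈ S, x i) = ∏ i ∈ S, ee (x i) := by
  classical
  induction S using Finset.induction_on with
  | empty => simp [ee_zero]
  | insert a s ha ih => rw [sum_insert ha, prod_insert ha, ee_add, ih]

/-! ### sgz -/

theorem abs_sgz (x : ℤ) : |sgz x| = 1 := by
  unfold sgz
  rw [abs_pow, abs_neg, abs_one, one_pow]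

theorem sgz_zero : sgz 0 = 1 := by simp [sgz]

theorem sgz_step {x : ℤ} (hx : 0 ≤ x) :
    sgz x = (if x % 2 = 0 then (1 : ℝ) else -1) * sgz (x / 2) := by
  obtain ⟨n, rfl⟩ := Int.eq_ofNat_of_zero_le hx
  rcases Nat.eq_zero_or_pos n with rfl | hn
  · simp [sgz]
  · unfold sgz
    have h1 : ((n : ℤ) / 2).toNat = n / 2 := by
      have : ((n : ℤ) / 2) = ((n / 2 : ℕ) : ℤ) := by push_cast; rfl
      rw [this, Int.toNat_natCast]
    rw [h1, Int.toNat_natCast, Nat.digits_def' (by norm_num) hn, List.sum_cons, pow_add]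
    congr 1
    rcases Nat.mod_two_eq_zero_or_one n with h | h
    · have h3 : (n : ℤ) % 2 = 0 := by omega
      rw [h, if_pos h3, pow_zero]
    · have h3 : (n : ℤ) % 2 ≠ 0 := by omega
      rw [h, if_neg h3, pow_one]

theorem sgz_eq (V : ℕ) {x : ℤ} (hx : 0 ≤ x) : sgz x = TW 0 V x * sgz (x / 2 ^ V) := by
  induction V with
  | zero => simp [TW_self]
  | succ V ih =>
    rw [ih, sgz_step (Int.ediv_nonneg hx (by positivity)), ← mul_assoc]
    congr 1
    · unfold TW
      rw [Finset.prod_Ico_succ_top (Nat.zero_le V)]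
    · rw [pow_succ, Int.ediv_ediv_of_nonneg (by positivity)]

/-- `|sum_t e(tθ)|^2` as a double sum. -/
theorem normSq_sum_ee {ι : Type*} (S : Finset ι) (x : ι → ℝ) :
    ((‖∑ i ∈ S, ee (x i)‖ ^ 2 : ℝ) : ℂ) = ∑ i ∈ S, ∑ j ∈ S, ee (x i - x j) := by
  have h : ((‖∑ i ∈ S, ee (x i)‖ ^ 2 : ℝ) : ℂ) =
      (∑ i ∈ S, ee (x i)) * (starRingEnd ℂ) (∑ i ∈ S, ee (x i)) := by
    rw [Complex.mul_conj, Complex.normSq_eq_norm_sq]
  rw [h, map_sum, sum_mul_sum]
  refine sum_congr rfl fun i _ => sum_congr rfl fun j _ => ?_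
  rw [ee_sub]

end Pool.Agent.H9.TC
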