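import Pool.Agent.H9.TC.Stm

/-!
Project TC (MP_b6022c_nt), row TC-29: the digits above `2ν + C'` do not change under shifts
(helper91). Telescoping: the quotient `F n = Q(n) / 2^V` is monotone for large `n`, so at most
`(j' - j) F(N + j')` of the `n < N` have `F (n + j) ≠ F (n + j')`.
-/

namespace Pool.Agent.H9.TC

open Finset

theorem cut_tele (F : ℕ → ℤ) (n0 : ℕ) (h0 : ∀ n, n0 ≤ n → 0 ≤ F n)
    (hm : ∀ n, n0 ≤ n → F n ≤ F (n + 1)) (K j t : ℕ) :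
    ∑ m ∈ range K, (F (n0 + m + j + t) - F (n0 + m + j)) ≤ t * F (n0 + K + j + t) := by
  induction t with
  | zero => simp
  | succ t ih =>
    have h1 : ∑ m ∈ range K, (F (n0 + m + j + (t + 1)) - F (n0 + m + j)) =
        ∑ m ∈ range K, (F (n0 + m + j + t) - F (n0 + m + j)) +
          (F (n0 + K + j + t) - F (n0 + 0 + j + t)) := by
      rw [← Finset.sum_range_sub (fun m => F (n0 + m + j + t)) K, ← Finset.sum_add_distrib]
      refine Finset.sum_congr rfl fun m _ => ?_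
      rw [show n0 + (m + 1) + j + t = n0 + m + j + (t + 1) by omega]
      ring
    have h2 : F (n0 + K + j + t) ≤ F (n0 + K + j + (t + 1)) := hm _ (by omega)
    have h3 := h0 (n0 + 0 + j + t) (by omega)
    have h5 : (t : ℤ) * F (n0 + K + j + t) ≤ t * F (n0 + K + j + (t + 1)) :=
      mul_le_mul_of_nonneg_left h2 (Nat.cast_nonneg _)
    rw [h1]
    push_cast
    linarith

theorem cut_mono (F : ℕ → ℤ) (n0 : ℕ) (hm : ∀ n, n0 ≤ n → F n ≤ F (n + 1)) (n t : ℕ)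
    (hn : n0 ≤ n) : F n ≤ F (n + t) := by
  induction t with
  | zero => exact le_rfl
  | succ t ih => exact ih.trans (hm _ (by omega))

open Classical in
theorem cut_cnt (F : ℕ → ℤ) (n0 : ℕ) (h0 : ∀ n, n0 ≤ n → 0 ≤ F n)
    (hm : ∀ n, n0 ≤ n → F n ≤ F (n + 1)) (K j t : ℕ) (P : ℕ → Prop)
    (hP : ∀ n, n0 ≤ n → F (n + j) = F (n + j + t) → ¬ P n) :
    (cnt (n0 + K) P : ℤ) ≤ n0 + t * F (n0 + K + j + t) := by
  unfold cnt
  rw [Finset.card_filter]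
  push_cast
  rw [Finset.sum_range_add]
  refine add_le_add ?_ ((Finset.sum_le_sum fun m _ => ?_).trans (cut_tele F n0 h0 hm K j t))
  · refine (Finset.sum_le_sum (g := fun _ => (1 : ℤ)) fun m _ => ?_).trans ?_
    · split_ifs
      · exact le_rfl
      · exact zero_le_one
    · simp
  · have h1 : F (n0 + m + j) ≤ F (n0 + m + j + t) := cut_mono F n0 hm _ _ (by omega)
    split_ifs with h
    · have h2 : F (n0 + m + j) ≠ F (n0 + m + j + t) := fun h3 => hP (n0 + m) (by omega) h3 h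
      omega
    · omega

/-- growth of the cubic polynomial -/
theorem cut_grow (c : ℕ) (d e f : ℤ) (hc : 1 ≤ c) (D : ℕ) (hD : |d| + |e| + |f| ≤ D) (n : ℕ)
    (hn : 2 * D + 1 ≤ n) :
    0 ≤ cub c d e f n ∧ cub c d e f n ≤ cub c d e f ((n + 1 : ℕ) : ℤ) ∧
      cub c d e f n ≤ (c + D) * (n : ℤ) ^ 3 := by
  unfold cub
  have hc' : (1 : ℤ) ≤ c := by exact_mod_cast hc
  have hn' : 2 * (D : ℤ) + 1 ≤ n := by exact_mod_cast hn
  have hD0 : (0 : ℤ) ≤ D := Nat.cast_nonneg _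
  have hd := abs_le.1 (le_refl |d|)
  have he := abs_le.1 (le_refl |e|)
  have hf := abs_le.1 (le_refl |f|)
  have hd0 := abs_nonneg d
  have he0 := abs_nonneg e
  have hf0 := abs_nonneg f
  set x : ℤ := (n : ℤ) with hx
  have hx1 : 1 ≤ x := by linarith
  have hx2 : 1 ≤ x ^ 2 := one_le_pow₀ hx1
  have hx3 : x ≤ x ^ 2 := by nlinarith
  have hx4 : x ^ 2 ≤ x ^ 3 := by nlinarith
  have h1 : |d| * x ^ 2 + |e| * x + |f| ≤ D * x ^ 2 := by nlinarith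
  have h2 : -(|d| * x ^ 2) ≤ d * x ^ 2 := by nlinarith
  have h3 : -(|e| * x) ≤ e * x := by nlinarith
  have h4 : d * x ^ 2 ≤ |d| * x ^ 2 := by nlinarith
  have h5 : e * x ≤ |e| * x := by nlinarith
  have h6 : x ^ 3 ≤ c * x ^ 3 := by nlinarith
  have h7 : (D : ℤ) * x ^ 2 ≤ x ^ 3 := by nlinarith
  refine ⟨by linarith, ?_, ?_⟩
  · push_cast
    rw [← hx]
    have h8 : 3 * x ^ 2 + 3 * x + 1 ≤ c * (3 * x ^ 2 + 3 * x + 1) := by nlinarith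
    have h9 : -(D * (2 * x + 1)) ≤ d * (2 * x + 1) + e := by nlinarith
    have h10 : (D : ℤ) * (2 * x + 1) ≤ 3 * x ^ 2 + 3 * x + 1 := by nlinarith
    nlinarith
  · have h8 : (D : ℤ) * x ^ 2 ≤ D * x ^ 3 := by nlinarith
    nlinarith

theorem cut_half (c : ℕ) (d e f : ℤ) (j t : ℕ) (ε : ℝ) (hc : 1 ≤ c) (hε : 0 < ε) :
    ∃ C0 : ℕ, ∀ C' ≥ C0, ∃ ν0 : ℕ,
    ∀ ν ≥ ν0, ∀ P : ℕ → Prop, (∀ n, P n → ¬ (0 ≤ cub c d e f ((n + j : ℕ) : ℤ) ∧
      0 ≤ cub c d e f ((n + j + t : ℕ) : ℤ) ∧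
      cub c d e f ((n + j : ℕ) : ℤ) / 2 ^ (2 * ν + C') =
        cub c d e f ((n + j + t : ℕ) : ℤ) / 2 ^ (2 * ν + C'))) →
      (cnt (2 ^ ν) P : ℝ) ≤ ε * 2 ^ ν := by
  obtain ⟨D, hD⟩ : ∃ D : ℕ, |d| + |e| + |f| ≤ D := ⟨(|d| + |e| + |f|).toNat, Int.self_le_toNat _⟩
  set n0 : ℕ := 2 * D + 1 with hn0
  set A : ℝ := t * ((c + D) * (1 + j + t) ^ 3) with hA
  obtain ⟨C0, hC0⟩ := pow_unbounded_of_one_lt (2 * A / ε) (one_lt_two : (1 : ℝ) < 2)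
  refine ⟨C0, fun C' hC' => ?_⟩
  obtain ⟨ν0, hν0⟩ := pow_unbounded_of_one_lt (2 * n0 / ε + n0) (one_lt_two : (1 : ℝ) < 2)
  refine ⟨ν0, fun ν hν P hP => ?_⟩
  have hA0 : 0 ≤ A := by rw [hA]; positivity
  have h2ν : (2 : ℝ) ^ ν0 ≤ 2 ^ ν := pow_le_pow_right₀ one_le_two hν
  have h2C : (2 : ℝ) ^ C0 ≤ 2 ^ C' := pow_le_pow_right₀ one_le_two hC'
  have hq0 : 0 ≤ 2 * (n0 : ℝ) / ε := by positivity
  have hge : n0 ≤ 2 ^ ν := by
    have h : (n0 : ℝ) ≤ 2 ^ ν := by linarith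
    exact_mod_cast h
  obtain ⟨K, hK⟩ := Nat.exists_eq_add_of_le hge
  have hV : (0 : ℤ) < 2 ^ (2 * ν + C') := by positivity
  have hgrow := cut_grow c d e f hc D hD
  have h0 : ∀ n, n0 ≤ n → 0 ≤ cub c d e f (n : ℤ) / 2 ^ (2 * ν + C') := fun n hn =>
    Int.ediv_nonneg (hgrow n hn).1 hV.le
  have hm : ∀ n, n0 ≤ n → cub c d e f (n : ℤ) / 2 ^ (2 * ν + C') ≤
      cub c d e f ((n + 1 : ℕ) : ℤ) / 2 ^ (2 * ν + C') := fun n hn =>
    Int.ediv_le_ediv hV (hgrow n hn).2.1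
  have h1 := cut_cnt (fun n => cub c d e f (n : ℤ) / 2 ^ (2 * ν + C')) n0 h0 hm K j t P
    fun n hn h2 h3 => hP n h3 ⟨(hgrow _ (by omega)).1, (hgrow _ (by omega)).1, h2⟩
  rw [← hK] at h1
  have h2 : (cnt (2 ^ ν) P : ℝ) ≤ n0 + t * ((cub c d e f ((2 ^ ν + j + t : ℕ) : ℤ) /
      2 ^ (2 * ν + C') : ℤ) : ℝ) := by exact_mod_cast h1
  have h3 : ((cub c d e f ((2 ^ ν + j + t : ℕ) : ℤ) / 2 ^ (2 * ν + C') : ℤ) : ℝ) *
      2 ^ (2 * ν + C') ≤ (c + D) * (1 + j + t) ^ 3 * 2 ^ (3 * ν) := by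
    have h4 : (cub c d e f ((2 ^ ν + j + t : ℕ) : ℤ) / 2 ^ (2 * ν + C')) * 2 ^ (2 * ν + C') ≤
        cub c d e f ((2 ^ ν + j + t : ℕ) : ℤ) := Int.ediv_mul_le _ hV.ne'
    have h5 := (hgrow (2 ^ ν + j + t) (by omega)).2.2
    have h6 : (2 : ℤ) ^ ν + j + t ≤ (1 + j + t) * 2 ^ ν := by
      have h7 : (1 : ℤ) ≤ 2 ^ ν := one_le_pow₀ (by norm_num)
      have h8 : (0 : ℤ) ≤ j := Nat.cast_nonneg _
      have h9 : (0 : ℤ) ≤ t := Nat.cast_nonneg _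
      nlinarith
    have h7 : ((2 : ℤ) ^ ν + j + t) ^ 3 ≤ ((1 + j + t) * 2 ^ ν) ^ 3 :=
      pow_le_pow_left₀ (by positivity) h6 3
    have h8 : ((c : ℤ) + D) * ((2 : ℤ) ^ ν + j + t) ^ 3 ≤ (c + D) * (1 + j + t) ^ 3 *
        2 ^ (3 * ν) := by
      have h9 := mul_le_mul_of_nonneg_left h7 (by positivity : (0 : ℤ) ≤ (c : ℤ) + D)
      refine h9.trans (le_of_eq ?_)
      rw [mul_pow, ← pow_mul, mul_comm ν 3]
      ring
    push_cast at h4 h5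
    have h9 := (h4.trans h5).trans h8
    push_cast
    exact_mod_cast h9
  have h4 : (t : ℝ) * ((cub c d e f ((2 ^ ν + j + t : ℕ) : ℤ) / 2 ^ (2 * ν + C') : ℤ) : ℝ) ≤
      ε / 2 * 2 ^ ν := by
    have h5 : (0 : ℝ) < 2 ^ (2 * ν + C') := by positivity
    refine le_of_mul_le_mul_right ?_ h5
    calc (t : ℝ) * ((cub c d e f ((2 ^ ν + j + t : ℕ) : ℤ) / 2 ^ (2 * ν + C') : ℤ) : ℝ) *
          2 ^ (2 * ν + C') ≤ t * ((c + D) * (1 + j + t) ^ 3 * 2 ^ (3 * ν)) := by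
          rw [mul_assoc]
          exact mul_le_mul_of_nonneg_left h3 (Nat.cast_nonneg _)
      _ = A * 2 ^ (3 * ν) := by rw [hA]; ring
      _ ≤ ε / 2 * 2 ^ C' * 2 ^ (3 * ν) := by
          refine mul_le_mul_of_nonneg_right ?_ (by positivity)
          have h6 : 2 * A / ε ≤ 2 ^ C' := by linarith
          rw [div_le_iff₀ hε] at h6
          linarith
      _ = ε / 2 * 2 ^ ν * 2 ^ (2 * ν + C') := by
          rw [pow_add, show 3 * ν = ν + 2 * ν by ring, pow_add]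
          ring
  have h5 : (n0 : ℝ) ≤ ε / 2 * 2 ^ ν := by
    have h6 : 2 * (n0 : ℝ) / ε ≤ 2 ^ ν := by
      have h7 : (0 : ℝ) ≤ n0 := Nat.cast_nonneg _
      linarith
    rw [div_le_iff₀ hε] at h6
    linarith
  linarith

theorem cut : CutStmt := by
  intro c d e f j j' ε hc hε
  rcases le_total j j' with h | h
  · obtain ⟨t, rfl⟩ := Nat.exists_eq_add_of_le h
    obtain ⟨C0, hC0⟩ := cut_half c d e f j t ε hc hε
    refine ⟨C0, fun C' hC' => ?_⟩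
    obtain ⟨ν0, hν0⟩ := hC0 C' hC'
    refine ⟨ν0, fun ν hν => hν0 ν hν _ fun n hn h1 => hn ?_⟩
    push_cast at h1 ⊢
    rw [← add_assoc]
    exact h1
  · obtain ⟨t, rfl⟩ := Nat.exists_eq_add_of_le h
    obtain ⟨C0, hC0⟩ := cut_half c d e f j' t ε hc hε
    refine ⟨C0, fun C' hC' => ?_⟩
    obtain ⟨ν0, hν0⟩ := hC0 C' hC'
    refine ⟨ν0, fun ν hν => hν0 ν hν _ fun n hn h1 => hn ?_⟩
    push_cast at h1 ⊢
    rw [← add_assoc]
    exact ⟨h1.2.1, h1.1, h1.2.2.symm⟩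

end Pool.Agent.H9.TC
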