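import Pool.Agent.H9.TC.Stm

/-!
Project TC (MP_b6022c_nt), row TC-6: elementary properties of the Fejer kernel.
-/

namespace Pool.Agent.H9.TC

open Finset

theorem f1_ee_zero : ee 0 = 1 := by
  unfold ee
  simp

theorem f1_pow_pos (v : ℕ) : (0 : ℤ) < 2 ^ v := by positivity

theorem f1_half {v W : ℕ} (hv : 1 ≤ v) (hW : W ≤ 2 ^ (v - 1)) : ((W : ℤ)) < 2 ^ v := by
  have h1 : (2 : ℕ) ^ v = 2 * 2 ^ (v - 1) := by
    rw [← pow_succ']
    congr 1
    omega
  have h2 : 0 < 2 ^ (v - 1) := by positivity
  have h3 : W < 2 ^ v := by omega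
  exact_mod_cast h3

theorem f1_eq_of_dvd {v : ℕ} {m : ℤ} (h : (2 : ℤ) ^ v ∣ m) (h2 : |m| < 2 ^ v) : m = 0 :=
  Int.eq_zero_of_abs_lt_dvd h h2

theorem f1 : F1Stmt := by
  intro v W hv hW hWv
  have hlt := f1_half hv hWv
  have hW0 : (0 : ℝ) < W := by exact_mod_cast hW
  refine ⟨?_, ?_, ?_, ?_, ?_, ?_, ?_⟩
  · unfold Fj
    have h1 : (((range W) ×ˢ (range W)).filter
        (fun ij : ℕ × ℕ => (2 : ℤ) ^ v ∣ 0 - ((ij.1 : ℤ) - (ij.2 : ℤ)))).card = W := by
      have h2 : ((range W) ×ˢ (range W)).filter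
          (fun ij : ℕ × ℕ => (2 : ℤ) ^ v ∣ 0 - ((ij.1 : ℤ) - (ij.2 : ℤ))) =
          (range W).image (fun i => (i, i)) := by
        ext ⟨i, j⟩
        simp only [mem_filter, mem_product, mem_range, mem_image, Prod.mk.injEq]
        constructor
        · rintro ⟨⟨hi, hj⟩, hd⟩
          have h3 := f1_eq_of_dvd hd (by rw [abs_lt]; constructor <;> omega)
          exact ⟨i, hi, rfl, by omega⟩
        · rintro ⟨a, ha, rfl, rfl⟩
          exact ⟨⟨ha, ha⟩, by simp⟩
      rw [h2, card_image_of_injective _ (fun a b h => (Prod.mk.inj h).1), card_range]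
    rw [h1]
    exact div_self hW0.ne'
  · intro x
    unfold Fj
    positivity
  · intro x
    unfold Fj
    rw [div_le_one hW0]
    have h1 : (((range W) ×ˢ (range W)).filter
        (fun ij : ℕ × ℕ => (2 : ℤ) ^ v ∣ x - ((ij.1 : ℤ) - (ij.2 : ℤ)))).card ≤ W := by
      have h2 := card_le_card_of_injOn (s := ((range W) ×ˢ (range W)).filter
        (fun ij : ℕ × ℕ => (2 : ℤ) ^ v ∣ x - ((ij.1 : ℤ) - (ij.2 : ℤ)))) (t := range W)
        (fun ij => ij.1) (by
          rintro ⟨i, j⟩ h
          have h' := mem_coe.1 h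
          simp only [mem_filter, mem_product, mem_range] at h'
          simp only [coe_range, Set.mem_Iio]
          exact h'.1.1) (by
          rintro ⟨i, j⟩ h ⟨i', j'⟩ h' he
          have h1 := mem_coe.1 h
          have h2 := mem_coe.1 h'
          simp only [mem_filter, mem_product, mem_range] at h1 h2
          simp only at he
          subst he
          have h3 := dvd_sub h1.2 h2.2
          have h4 := f1_eq_of_dvd h3 (by rw [abs_lt]; constructor <;> omega)
          have h5 : j = j' := by omega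
          rw [h5])
      rwa [card_range] at h2
    exact_mod_cast h1
  · intro x hx
    unfold Fj at hx
    have h1 : (((range W) ×ˢ (range W)).filter
        (fun ij : ℕ × ℕ => (2 : ℤ) ^ v ∣ x - ((ij.1 : ℤ) - (ij.2 : ℤ)))).card ≠ 0 := by
      intro h0
      apply hx
      rw [h0]
      simp
    obtain ⟨⟨i, j⟩, hij⟩ := card_ne_zero.1 h1
    simp only [mem_filter, mem_product, mem_range] at hij
    refine ⟨(i : ℤ) - j, ?_, hij.2⟩
    rw [abs_le]
    constructor <;> omega
  · intro x s hs hd
    unfold Fj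
    rw [le_div_iff₀ hW0]
    -- at least `W - |s|` pairs
    have h1 : W - s.natAbs ≤ (((range W) ×ˢ (range W)).filter
        (fun ij : ℕ × ℕ => (2 : ℤ) ^ v ∣ x - ((ij.1 : ℤ) - (ij.2 : ℤ)))).card := by
      have h2 := card_le_card_of_injOn (s := range (W - s.natAbs))
        (t := ((range W) ×ˢ (range W)).filter
          (fun ij : ℕ × ℕ => (2 : ℤ) ^ v ∣ x - ((ij.1 : ℤ) - (ij.2 : ℤ))))
        (fun n => if 0 ≤ s then (n + s.natAbs, n) else (n, n + s.natAbs)) (by
          intro n hn
          have hn' := mem_range.1 (mem_coe.1 hn)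
          by_cases h0 : 0 ≤ s
          · simp only [if_pos h0, coe_filter, mem_product, mem_range, Set.mem_ofPred_eq]
            refine ⟨by omega, ?_⟩
            have e : x - (((n + s.natAbs : ℕ) : ℤ) - (n : ℤ)) = x - s := by
              rw [Nat.cast_add, Int.natAbs_of_nonneg h0]
              ring
            rw [e]
            exact hd
          · simp only [if_neg h0, coe_filter, mem_product, mem_range, Set.mem_ofPred_eq]
            refine ⟨by omega, ?_⟩
            have e : x - ((n : ℤ) - ((n + s.natAbs : ℕ) : ℤ)) = x - s := by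
              omega
            rw [e]
            exact hd) (by
          intro n _ n' _ h
          by_cases h0 : 0 ≤ s
          · simp only [if_pos h0, Prod.mk.injEq] at h
            exact h.2
          · simp only [if_neg h0, Prod.mk.injEq] at h
            exact h.1)
      rwa [card_range] at h2
    have h3 : (W : ℝ) ≤ 2 * (((range W) ×ˢ (range W)).filter
        (fun ij : ℕ × ℕ => (2 : ℤ) ^ v ∣ x - ((ij.1 : ℤ) - (ij.2 : ℤ)))).card := by
      have h4 : W ≤ 2 * (((range W) ×ˢ (range W)).filter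
        (fun ij : ℕ × ℕ => (2 : ℤ) ^ v ∣ x - ((ij.1 : ℤ) - (ij.2 : ℤ)))).card := by
        have h5 : 2 * s.natAbs ≤ W := by
          rcases abs_cases s with h | h <;> omega
        omega
      exact_mod_cast h4
    linarith
  · intro a
    unfold Fh
    positivity
  · unfold Fh
    have h1 : ∑ i ∈ range W, ee (((0 : ℤ) : ℝ) * i / 2 ^ v) = (W : ℂ) := by
      have h2 : ∀ i ∈ range W, ee (((0 : ℤ) : ℝ) * i / 2 ^ v) = 1 := by
        intro i _
        rw [Int.cast_zero, zero_mul, zero_div, f1_ee_zero]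
      rw [sum_congr rfl h2]
      simp
    rw [h1, Complex.norm_natCast]
    field_simp

end Pool.Agent.H9.TC
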