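import Pool.Agent.H9.TC.F1

/-!
Project TC (MP_b6022c_nt), row TC-7: Fourier inversion, mass and tail of the Fejer kernel.
-/

namespace Pool.Agent.H9.TC

open Finset

theorem f2_ee_add (x y : ℝ) : ee (x + y) = ee x * ee y := by
  unfold ee
  rw [← Complex.exp_add]
  congr 1
  push_cast
  ring

theorem f2_ee_neg (x : ℝ) : ee (-x) = (starRingEnd ℂ) (ee x) := by
  unfold ee
  rw [← Complex.exp_conj, map_mul, Complex.conj_I, Complex.conj_ofReal]
  congr 1
  push_cast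
  ring

theorem f2_norm_ee (x : ℝ) : ‖ee x‖ = 1 := by
  unfold ee
  exact Complex.norm_exp_ofReal_mul_I _

theorem f2_ee_int (n : ℤ) : ee (n : ℝ) = 1 := by
  unfold ee
  rw [Complex.exp_eq_one_iff]
  refine ⟨n, ?_⟩
  push_cast
  ring

theorem f2_ee_nat_mul (n : ℕ) (x : ℝ) : ee ((n : ℝ) * x) = ee x ^ n := by
  unfold ee
  rw [← Complex.exp_nat_mul]
  congr 1
  push_cast
  ring

theorem f2_sin (x : ℝ) : ‖ee x - 1‖ = 2 * |Real.sin (Real.pi * x)| := by
  have h1 : ee x - 1 = ee (x / 2) * (2 * Complex.I * (Real.sin (Real.pi * x) : ℂ)) := by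
    have h2 : ee x = ee (x / 2) * ee (x / 2) := by
      rw [← f2_ee_add]
      congr 1
      ring
    have h3 : ee (x / 2) * ee (-(x / 2)) = 1 := by
      rw [← f2_ee_add]
      rw [add_neg_cancel]
      exact f1_ee_zero
    have h4 : (2 * Complex.I * (Real.sin (Real.pi * x) : ℂ)) = ee (x / 2) - ee (-(x / 2)) := by
      unfold ee
      have e1 : (((2 * Real.pi * (x / 2) : ℝ) : ℂ) * Complex.I) =
        ((Real.pi * x : ℝ) : ℂ) * Complex.I := by
        push_cast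
        ring
      have e2 : (((2 * Real.pi * (-(x / 2)) : ℝ) : ℂ) * Complex.I) =
        ((-(Real.pi * x) : ℝ) : ℂ) * Complex.I := by
        push_cast
        ring
      rw [e1, e2, Complex.exp_mul_I, Complex.exp_mul_I, Complex.ofReal_neg, Complex.cos_neg,
        Complex.sin_neg, Complex.ofReal_sin]
      ring
    rw [h4, mul_sub, ← h2, h3]
  rw [h1, norm_mul, f2_norm_ee, one_mul, norm_mul, norm_mul, Complex.norm_I, Complex.norm_real,
    Real.norm_eq_abs]
  norm_num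

/-- the chord is at least four times the distance to `0` -/
theorem f2_chord {x : ℝ} (h : |x| ≤ 1 / 2) : 4 * |x| ≤ ‖ee x - 1‖ := by
  rw [f2_sin]
  have h1 : |Real.sin (Real.pi * x)| = Real.sin (Real.pi * |x|) := by
    rcases abs_cases x with ⟨h2, h3⟩ | ⟨h2, h3⟩
    · rw [h2, abs_of_nonneg]
      apply Real.sin_nonneg_of_nonneg_of_le_pi (by positivity)
      nlinarith [Real.pi_pos]
    · rw [h2, mul_neg, Real.sin_neg, ← abs_neg, abs_of_nonneg]
      rw [← Real.sin_neg]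
      apply Real.sin_nonneg_of_nonneg_of_le_pi
      · nlinarith [Real.pi_pos]
      · nlinarith [Real.pi_pos]
  rw [h1]
  have h2 := Real.mul_le_sin (x := Real.pi * |x|) (by positivity)
    (by nlinarith [Real.pi_pos])
  have h3 : 2 / Real.pi * (Real.pi * |x|) = 2 * |x| := by
    field_simp
  rw [h3] at h2
  linarith

/-- geometric sums -/
theorem f2_geom (W : ℕ) {x : ℝ} (hx : x ≠ 0) (h : |x| ≤ 1 / 2) :
    ‖∑ i ∈ range W, ee (x * i)‖ ≤ 1 / (2 * |x|) := by
  have h0 : 0 < |x| := abs_pos.2 hx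
  have hc := f2_chord h
  have h1 : (∑ i ∈ range W, ee (x * i)) * (ee x - 1) = ee x ^ W - 1 := by
    have h2 : ∀ i ∈ range W, ee (x * i) = ee x ^ i := by
      intro i _
      rw [mul_comm, f2_ee_nat_mul]
    rw [sum_congr rfl h2, geom_sum_mul]
  have h2 : ‖∑ i ∈ range W, ee (x * i)‖ * ‖ee x - 1‖ ≤ 2 := by
    rw [← norm_mul, h1]
    calc ‖ee x ^ W - 1‖ ≤ ‖ee x ^ W‖ + ‖(1 : ℂ)‖ := norm_sub_le _ _
      _ = 2 := by rw [norm_pow, f2_norm_ee, one_pow, norm_one]; norm_num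
  rw [le_div_iff₀ (by positivity)]
  have h3 : 0 ≤ ‖∑ i ∈ range W, ee (x * i)‖ := norm_nonneg _
  nlinarith

theorem f2_reps_card {v : ℕ} (hv : 1 ≤ v) : ((reps v).card : ℤ) = 2 ^ v := by
  unfold reps
  rw [Int.card_Ioc]
  have h1 : (2 : ℤ) ^ v = 2 * 2 ^ (v - 1) := by
    rw [← pow_succ']
    congr 1
    omega
  have h2 : (0 : ℤ) < 2 ^ (v - 1) := by positivity
  rw [Int.toNat_of_nonneg (by omega)]
  omega

/-- orthogonality -/
theorem f2_orth {v : ℕ} (hv : 1 ≤ v) (n : ℤ) :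
    ∑ a ∈ reps v, ee ((a : ℝ) * n / 2 ^ v) = if (2 : ℤ) ^ v ∣ n then (2 : ℂ) ^ v else 0 := by
  have h2v : (2 : ℝ) ^ v ≠ 0 := by positivity
  split_ifs with h
  · obtain ⟨m, rfl⟩ := h
    have h1 : ∀ a ∈ reps v, ee ((a : ℝ) * ((2 ^ v * m : ℤ) : ℝ) / 2 ^ v) = 1 := by
      intro a _
      have e : (a : ℝ) * ((2 ^ v * m : ℤ) : ℝ) / 2 ^ v = ((a * m : ℤ) : ℝ) := by
        push_cast
        field_simp
      rw [e, f2_ee_int]
    rw [sum_congr rfl h1, sum_const, nsmul_eq_mul, mul_one]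
    have := f2_reps_card hv
    exact_mod_cast this
  · -- multiply by `z`
    set z : ℂ := ee ((n : ℝ) / 2 ^ v) with hz
    have hz1 : z ≠ 1 := by
      intro h1
      apply h
      rw [hz] at h1
      unfold ee at h1
      rw [Complex.exp_eq_one_iff] at h1
      obtain ⟨m, hm⟩ := h1
      refine ⟨m, ?_⟩
      have h3 : (((2 * Real.pi * ((n : ℝ) / 2 ^ v) : ℝ)) : ℂ) = ((m * (2 * Real.pi) : ℝ) : ℂ) := by
        have h4 : (((2 * Real.pi * ((n : ℝ) / 2 ^ v) : ℝ)) : ℂ) * Complex.I =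
          ((m * (2 * Real.pi) : ℝ) : ℂ) * Complex.I := by
          rw [hm]
          push_cast
          ring
        exact mul_right_cancel₀ Complex.I_ne_zero h4
      have h5 : 2 * Real.pi * ((n : ℝ) / 2 ^ v) = m * (2 * Real.pi) := Complex.ofReal_injective h3
      have h6 : (n : ℝ) = 2 ^ v * m := by
        have := Real.pi_pos
        field_simp at h5
        linarith
      exact_mod_cast h6
    have hmul : z * ∑ a ∈ reps v, ee ((a : ℝ) * n / 2 ^ v) =
        ∑ a ∈ reps v, ee ((a : ℝ) * n / 2 ^ v) := by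
      rw [mul_sum]
      have h1 : ∀ a ∈ reps v, z * ee ((a : ℝ) * n / 2 ^ v) = ee (((a + 1 : ℤ) : ℝ) * n / 2 ^ v) := by
        intro a _
        rw [hz, ← f2_ee_add]
        congr 1
        push_cast
        ring
      rw [sum_congr rfl h1]
      -- a bijection of the representatives
      have hN : (2 : ℤ) ^ v = 2 * 2 ^ (v - 1) := by
        rw [← pow_succ']
        congr 1
        omega
      have hNp : (0 : ℤ) < 2 ^ (v - 1) := by positivity
      refine sum_nbij' (fun a => if a = 2 ^ (v - 1) then -(2 : ℤ) ^ (v - 1) + 1 else a + 1)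
        (fun a => if a = -(2 : ℤ) ^ (v - 1) + 1 then 2 ^ (v - 1) else a - 1) ?_ ?_ ?_ ?_ ?_
      · intro a ha
        unfold reps at *
        rw [mem_Ioc] at *
        split_ifs <;> omega
      · intro a ha
        unfold reps at *
        rw [mem_Ioc] at *
        split_ifs <;> omega
      · intro a ha
        unfold reps at *
        rw [mem_Ioc] at *
        split_ifs <;> omega
      · intro a ha
        unfold reps at *
        rw [mem_Ioc] at *
        split_ifs <;> omega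
      · intro a ha
        by_cases h0 : a = 2 ^ (v - 1)
        · simp only [if_pos h0]
          have e : (((a + 1 : ℤ) : ℝ) * n / 2 ^ v) =
              ((-(2 : ℤ) ^ (v - 1) + 1 : ℤ) : ℝ) * n / 2 ^ v + ((n : ℤ) : ℝ) := by
            have h5 : ((2 : ℝ)) ^ v = 2 * 2 ^ (v - 1) := by exact_mod_cast hN
            have h6 : (2 : ℝ) ^ (v - 1) ≠ 0 := by positivity
            rw [h0]
            push_cast
            rw [h5]
            field_simp
            ring
          rw [e, f2_ee_add, f2_ee_int, mul_one]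
        · simp only [if_neg h0]
    have h1 : (z - 1) * ∑ a ∈ reps v, ee ((a : ℝ) * n / 2 ^ v) = 0 := by
      rw [sub_mul, one_mul, hmul, sub_self]
    rcases mul_eq_zero.1 h1 with h2 | h2
    · exact absurd (sub_eq_zero.1 h2) hz1
    · exact h2

/-- the square of the norm of the exponential sum -/
theorem f2_sq (v W : ℕ) (a : ℤ) :
    ((‖∑ i ∈ range W, ee ((a : ℝ) * i / 2 ^ v)‖ ^ 2 : ℝ) : ℂ) =
      ∑ i ∈ range W, ∑ j ∈ range W, ee ((a : ℝ) * ((i : ℝ) - j) / 2 ^ v) := by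
  rw [← Complex.normSq_eq_norm_sq, ← Complex.mul_conj, map_sum, sum_mul_sum]
  apply sum_congr rfl
  intro i _
  apply sum_congr rfl
  intro j _
  rw [← f2_ee_neg, ← f2_ee_add]
  congr 1
  ring

theorem f2_inv {v W : ℕ} (hv : 1 ≤ v) (hW : 1 ≤ W) (x : ℤ) :
    (Fj v W x : ℂ) = ∑ a ∈ reps v, (Fh v W a : ℂ) * ee ((a : ℝ) * x / 2 ^ v) := by
  have hW0 : (W : ℂ) ≠ 0 := by exact_mod_cast (by omega : W ≠ 0)
  have h2 : (2 : ℂ) ^ v ≠ 0 := pow_ne_zero _ two_ne_zero
  have h1 : ∀ a ∈ reps v, (Fh v W a : ℂ) * ee ((a : ℝ) * x / 2 ^ v) =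
      (1 / (W * 2 ^ v)) * ∑ i ∈ range W, ∑ j ∈ range W,
        ee ((a : ℝ) * ((x + i - j : ℤ) : ℝ) / 2 ^ v) := by
    intro a _
    unfold Fh
    rw [Complex.ofReal_div, f2_sq, Complex.ofReal_mul, Complex.ofReal_natCast, Complex.ofReal_pow,
      Complex.ofReal_ofNat, div_mul_eq_mul_div, div_eq_mul_one_div, mul_comm]
    congr 1
    rw [sum_mul]
    apply sum_congr rfl
    intro i _
    rw [sum_mul]
    apply sum_congr rfl
    intro j _
    rw [← f2_ee_add]
    congr 1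
    push_cast
    ring
  rw [sum_congr rfl h1, ← mul_sum, sum_comm]
  have h3 : ∀ i ∈ range W, (∑ a ∈ reps v, ∑ j ∈ range W,
      ee ((a : ℝ) * ((x + i - j : ℤ) : ℝ) / 2 ^ v)) =
      ∑ j ∈ range W, if (2 : ℤ) ^ v ∣ x + i - j then (2 : ℂ) ^ v else 0 := by
    intro i _
    rw [sum_comm]
    apply sum_congr rfl
    intro j _
    exact f2_orth hv _
  rw [sum_congr rfl h3]
  unfold Fj
  rw [card_filter, sum_product, sum_comm]
  push_cast
  rw [sum_div, mul_sum]
  apply sum_congr rfl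
  intro i _
  rw [sum_div, mul_sum]
  apply sum_congr rfl
  intro j _
  have e : x - ((j : ℤ) - (i : ℤ)) = x + i - j := by ring
  rw [e]
  split_ifs
  · push_cast
    field_simp
  · simp

theorem f2_bd {v W : ℕ} (hv : 1 ≤ v) (hW : 1 ≤ W) {a : ℤ} (ha : a ∈ reps v) (h0 : a ≠ 0) :
    Fh v W a ≤ (2 : ℝ) ^ v / (4 * W) * ((a : ℝ) ^ 2)⁻¹ := by
  have hW0 : (0 : ℝ) < W := by exact_mod_cast hW
  have h2v : (0 : ℝ) < 2 ^ v := by positivity
  have haR : (a : ℝ) ≠ 0 := by exact_mod_cast h0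
  have hx : (a : ℝ) / 2 ^ v ≠ 0 := div_ne_zero haR h2v.ne'
  have h5 : ((2 : ℝ)) ^ v = 2 * 2 ^ (v - 1) := by
    rw [← pow_succ']
    congr 1
    omega
  have hxa : |(a : ℝ) / 2 ^ v| ≤ 1 / 2 := by
    rw [abs_div, abs_of_pos h2v, div_le_iff₀ h2v, h5]
    have h6 : |(a : ℝ)| ≤ 2 ^ (v - 1) := by
      unfold reps at ha
      rw [mem_Ioc] at ha
      have h7 : |a| ≤ 2 ^ (v - 1) := by
        rw [abs_le]
        constructor <;> omega
      exact_mod_cast h7
    linarith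
  have h6 := f2_geom W hx hxa
  have h7 : ∀ i ∈ range W, ee ((a : ℝ) / 2 ^ v * i) = ee ((a : ℝ) * i / 2 ^ v) := by
    intro i _
    congr 1
    ring
  rw [sum_congr rfl h7] at h6
  unfold Fh
  have h8 : ‖∑ i ∈ range W, ee ((a : ℝ) * i / 2 ^ v)‖ ^ 2 ≤ (1 / (2 * |(a : ℝ) / 2 ^ v|)) ^ 2 :=
    pow_le_pow_left₀ (norm_nonneg _) h6 2
  have h9 : (1 / (2 * |(a : ℝ) / 2 ^ v|)) ^ 2 = (2 : ℝ) ^ v * 2 ^ v / 4 * ((a : ℝ) ^ 2)⁻¹ := by
    rw [div_pow, mul_pow, sq_abs]
    field_simp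
    ring
  rw [h9] at h8
  rw [div_le_iff₀ (by positivity)]
  calc _ ≤ _ := h8
    _ = _ := by field_simp

theorem f2_tail (v A : ℕ) (hA : 1 ≤ A) :
    ∑ a ∈ (reps v).filter (fun a => (A : ℤ) < |a|), ((a : ℝ) ^ 2)⁻¹ ≤ 2 / A := by
  have hA0 : (0 : ℝ) < A := by exact_mod_cast hA
  set T := (reps v).filter (fun a => (A : ℤ) < |a|) with hT
  have hpart : ∀ (U : Finset ℤ), U ⊆ T → Set.InjOn Int.natAbs (U : Set ℤ) →
      ∑ a ∈ U, ((a : ℝ) ^ 2)⁻¹ ≤ 1 / A := by
    intro U hU hinj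
    have h1 : ∑ a ∈ U, ((a : ℝ) ^ 2)⁻¹ = ∑ n ∈ U.image Int.natAbs, ((n : ℝ) ^ 2)⁻¹ := by
      rw [sum_image hinj]
      apply sum_congr rfl
      intro a _
      congr 1
      rw [← Int.cast_natCast (R := ℝ) a.natAbs, Int.natCast_natAbs, Int.cast_abs, sq_abs]
    rw [h1]
    have h2 : U.image Int.natAbs ⊆ Ioc A (max A (2 ^ (v - 1))) := by
      intro n hn
      rw [mem_image] at hn
      obtain ⟨a, ha, rfl⟩ := hn
      have h3 := hU ha
      rw [hT, mem_filter] at h3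
      unfold reps at h3
      rw [mem_Ioc] at h3
      rw [mem_Ioc]
      have h4 : (a.natAbs : ℤ) = |a| := Int.natCast_natAbs a
      constructor
      · omega
      · apply le_max_of_le_right
        have h5 : (a.natAbs : ℤ) ≤ ((2 ^ (v - 1) : ℕ) : ℤ) := by
          rw [h4]
          push_cast
          rw [abs_le]
          constructor <;> omega
        exact_mod_cast h5
    calc _ ≤ ∑ n ∈ Ioc A (max A (2 ^ (v - 1))), ((n : ℝ) ^ 2)⁻¹ :=
          sum_le_sum_of_subset_of_nonneg h2 (fun _ _ _ => by positivity)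
      _ ≤ (A : ℝ)⁻¹ - ((max A (2 ^ (v - 1)) : ℕ) : ℝ)⁻¹ :=
          sum_Ioc_inv_sq_le_sub (by omega) (le_max_left _ _)
      _ ≤ 1 / A := by
          rw [one_div]
          have : (0 : ℝ) ≤ ((max A (2 ^ (v - 1)) : ℕ) : ℝ)⁻¹ := by positivity
          linarith
  have h1 : ∑ a ∈ T, ((a : ℝ) ^ 2)⁻¹ =
      ∑ a ∈ T.filter (fun a => 0 ≤ a), ((a : ℝ) ^ 2)⁻¹ +
      ∑ a ∈ T.filter (fun a => ¬ 0 ≤ a), ((a : ℝ) ^ 2)⁻¹ :=
    (sum_filter_add_sum_filter_not T (fun a => 0 ≤ a) _).symm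
  rw [h1]
  have h2 := hpart (T.filter (fun a => 0 ≤ a)) (filter_subset _ _) (by
    intro a ha b hb h
    have ha' := (mem_filter.1 (mem_coe.1 ha)).2
    have hb' := (mem_filter.1 (mem_coe.1 hb)).2
    omega)
  have h3 := hpart (T.filter (fun a => ¬ 0 ≤ a)) (filter_subset _ _) (by
    intro a ha b hb h
    have ha' := (mem_filter.1 (mem_coe.1 ha)).2
    have hb' := (mem_filter.1 (mem_coe.1 hb)).2
    omega)
  have h4 : (2 : ℝ) / A = 1 / A + 1 / A := by ring
  rw [h4]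
  exact add_le_add h2 h3

theorem f2 : F2Stmt := by
  intro v W hv hW hWv
  have hW0 : (0 : ℝ) < W := by exact_mod_cast hW
  have hinv := f2_inv hv hW
  refine ⟨hinv, ?_, ?_⟩
  · have h1 := hinv 0
    rw [(f1 v W hv hW hWv).1] at h1
    have h2 : ∀ a ∈ reps v, (Fh v W a : ℂ) * ee ((a : ℝ) * ((0 : ℤ) : ℝ) / 2 ^ v) = (Fh v W a : ℂ) := by
      intro a _
      rw [Int.cast_zero, mul_zero, zero_div, f1_ee_zero, mul_one]
    rw [sum_congr rfl h2] at h1
    have h3 : ((∑ a ∈ reps v, Fh v W a : ℝ) : ℂ) = ((1 : ℝ) : ℂ) := by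
      push_cast
      push_cast at h1
      exact h1.symm
    exact Complex.ofReal_injective h3
  · intro A hA
    have h1 : ∀ a ∈ (reps v).filter (fun a => (A : ℤ) < |a|), Fh v W a ≤
        (2 : ℝ) ^ v / (4 * W) * ((a : ℝ) ^ 2)⁻¹ := by
      intro a ha
      rw [mem_filter] at ha
      apply f2_bd hv hW ha.1
      rintro rfl
      have := ha.2
      simp at this
      omega
    refine (sum_le_sum h1).trans ?_
    rw [← mul_sum]
    have hA0 : (0 : ℝ) < A := by exact_mod_cast hA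
    calc _ ≤ (2 : ℝ) ^ v / (4 * W) * (2 / A) :=
          mul_le_mul_of_nonneg_left (f2_tail v A hA) (by positivity)
      _ = _ := by field_simp; norm_num

end Pool.Agent.H9.TC
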