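import Pool.Agent.H9.TC.Stm

/-!
Project TC (MP_b6022c_nt), row TC-21: the deterministic core.
-/

namespace Pool.Agent.H9.TC

open Finset

/-! ### signs of digit blocks -/

lemma cd_TW_sq (u v : ℕ) (x : ℤ) : TW u v x * TW u v x = 1 := by
  unfold TW
  rw [← Finset.prod_mul_distrib]
  refine Finset.prod_eq_one fun i _ => ?_
  split_ifs <;> norm_num

lemma cd_TW_abs (u v : ℕ) (x : ℤ) : |TW u v x| = 1 := by
  have h2 : |TW u v x| * |TW u v x| = 1 := by rw [← abs_mul, cd_TW_sq, abs_one]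
  nlinarith [abs_nonneg (TW u v x)]

lemma cd_ediv (x : ℤ) (u i : ℕ) : x / 2 ^ (u + i) = x / 2 ^ u / 2 ^ i := by
  rw [Int.ediv_ediv, if_neg, sub_zero, pow_add]
  intro h
  have : (0 : ℤ) < 2 ^ u := by positivity
  linarith [h.1]

lemma cd_TW_shift (u L : ℕ) (x : ℤ) : TW u (u + L) x = TW 0 L (x / 2 ^ u) := by
  unfold TW
  rw [Finset.prod_Ico_eq_prod_range, Finset.prod_Ico_eq_prod_range, Nat.add_sub_cancel_left,
    Nat.sub_zero]
  refine Finset.prod_congr rfl fun i _ => ?_
  rw [cd_ediv, Nat.zero_add]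

lemma cd_TW_congr {u v : ℕ} {x y : ℤ} (h : (2 : ℤ) ^ v ∣ y - x) : TW u v y = TW u v x := by
  unfold TW
  refine Finset.prod_congr rfl fun i hi => ?_
  obtain ⟨a, ha⟩ := h
  have hiv : i < v := (Finset.mem_Ico.mp hi).2
  have hy : y = x + 2 ^ i * (2 * (2 ^ (v - i - 1) * a)) := by
    have e : (2 : ℤ) ^ v = 2 ^ i * (2 * 2 ^ (v - i - 1)) := by
      rw [← pow_succ', ← pow_add]
      congr 1
      omega
    rw [e] at ha
    linarith
  have e1 : y / 2 ^ i = x / 2 ^ i + 2 * (2 ^ (v - i - 1) * a) := by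
    rw [hy]
    exact Int.add_mul_ediv_left _ _ (by positivity)
  rw [e1, Int.add_mul_emod_self_left]

lemma cd_stable {u L : ℕ} {D x y s ψ : ℤ} (hn : ¬ near u D x) (hs : |s| ≤ D)
    (h : (2 : ℤ) ^ (u + L) ∣ y - (x + 2 ^ u * ψ + s)) :
    TW u (u + L) y = TW 0 L (x / 2 ^ u + ψ) := by
  rw [cd_TW_congr h, cd_TW_shift]
  congr 1
  unfold near at hn
  push Not at hn
  obtain ⟨h1, h2⟩ := hn
  obtain ⟨h3, h4⟩ := abs_le.mp hs
  have h5 := Int.emod_add_mul_ediv x (2 ^ u)
  have h6 : x + 2 ^ u * ψ + s = (x % 2 ^ u + s) + 2 ^ u * (x / 2 ^ u + ψ) := by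
    linear_combination -h5
  rw [h6, Int.add_mul_ediv_left _ _ (by positivity), Int.ediv_eq_zero_of_lt (by linarith)
    (by linarith), zero_add]

lemma cd_TW_prod (lv : ℕ → ℕ) (hm : Monotone lv) (h0 : lv 0 = 0) (x : ℤ) :
    ∀ n, TW 0 (lv n) x = ∏ w ∈ range n, TW (lv w) (lv (w + 1)) x := by
  intro n
  induction n with
  | zero => rw [h0, Finset.prod_range_zero]; unfold TW; simp
  | succ n ih =>
    rw [Finset.prod_range_succ, ← ih]
    unfold TW
    exact (Finset.prod_Ico_consecutive _ (Nat.zero_le _) (hm (Nat.le_succ n))).symm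

/-! ### pairing in one direction -/

lemma cd_pair {k : ℕ} (l : Fin k) (F : (Fin k → Bool) → ℝ) (h1 : ∀ η, F η * F η = 1)
    (h2 : ∀ η, F (Function.update η l (!η l)) = F η) : ∏ η, F η = 1 := by
  refine Finset.prod_involution (fun η _ => Function.update η l (!η l)) ?_ ?_ ?_ ?_
  · intro η _
    rw [h2 η, h1 η]
  · intro η _ _ h
    have := congrFun h l
    rw [Function.update_self] at this
    revert this
    cases η l <;> simp
  · intro η _
    exact Finset.mem_univ _
  · intro η _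
    funext x
    by_cases hx : x = l
    · subst hx
      rw [Function.update_self, Function.update_self, Bool.not_not]
    · rw [Function.update_of_ne hx, Function.update_of_ne hx]

lemma cd_psi_update {k : ℕ} (t0 : ℤ) (t : Fin k → ℤ) (η : Fin k → Bool)
    (j : ℕ × (Fin k × Bool → ℕ)) (l : Fin k) :
    psi t0 t (Function.update η l (!η l)) j =
      psi t0 t η j + ((j.2 (l, !η l) : ℤ) - (j.2 (l, η l) : ℤ)) * t l := by
  unfold psi
  have h : ∑ x, ((j.2 (x, Function.update η l (!η l) x) : ℤ) * t x - (j.2 (x, η x) : ℤ) * t x)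
      = ((j.2 (l, !η l) : ℤ) - (j.2 (l, η l) : ℤ)) * t l := by
    rw [Finset.sum_eq_single l]
    · rw [Function.update_self]
      ring
    · intro x _ hx
      rw [Function.update_of_ne hx, sub_self]
    · intro h
      exact absurd (Finset.mem_univ l) h
  rw [Finset.sum_sub_distrib] at h
  linarith

lemma cd_box_lt {k J : ℕ} {j : ℕ × (Fin k × Bool → ℕ)} (hj : j ∈ box k J) :
    j.1 < J ∧ ∀ x, j.2 x < J := by
  unfold box at hj
  rw [Finset.mem_product, Fintype.mem_piFinset] at hj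
  exact ⟨Finset.mem_range.mp hj.1, fun x => Finset.mem_range.mp (hj.2 x)⟩

/-! ### the product over `η` for one good pair `(m, j)` -/

/-- one factor of the windows -/
lemma cd_factor {k : ℕ} {u v g Z : ℕ} (huv : u ≤ v) (hu : g + Z ≤ u) (t0 : ℤ) (t : Fin k → ℤ)
    (l : Fin k) (σ Y : ℤ) (j : ℕ × (Fin k × Bool → ℕ)) (hj : j ∈ box k (2 ^ Z))
    (hs : small v ((2 : ℤ) ^ (u - g - Z)) (t l * σ))
    (hn : ∀ η, ¬ near u ((2 : ℤ) ^ (u - g)) (Y + psi t0 t η j * σ)) :
    ∏ η, TW u v (Y + psi t0 t η j * σ) = 1 := by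
  refine cd_pair l _ (fun η => cd_TW_sq _ _ _) fun η => ?_
  obtain ⟨s, hs1, a, ha⟩ := hs
  obtain ⟨_, hj2⟩ := cd_box_lt hj
  obtain ⟨L, rfl⟩ := Nat.exists_eq_add_of_le huv
  set e : ℤ := (j.2 (l, !η l) : ℤ) - (j.2 (l, η l) : ℤ) with he
  have he1 : |e| ≤ 2 ^ Z := by
    have a1 := hj2 (l, !η l)
    have a2 := hj2 (l, η l)
    have a3 : (j.2 (l, !η l) : ℤ) < 2 ^ Z := by exact_mod_cast a1
    have a4 : (j.2 (l, η l) : ℤ) < 2 ^ Z := by exact_mod_cast a2
    rw [he, abs_le]
    constructor <;> linarith [Int.natCast_nonneg (j.2 (l, !η l)), Int.natCast_nonneg (j.2 (l, η l))]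
  have hes : |e * s| ≤ 2 ^ (u - g) := by
    rw [abs_mul]
    have e2 : (2 : ℤ) ^ (u - g) = 2 ^ Z * 2 ^ (u - g - Z) := by
      rw [← pow_add]
      congr 1
      omega
    rw [e2]
    exact mul_le_mul he1 hs1 (abs_nonneg _) (by positivity)
  have h1 := cd_stable (L := L) (hn η) (s := e * s) (ψ := 0)
    (y := Y + psi t0 t (Function.update η l (!η l)) j * σ) hes (by
      rw [cd_psi_update, ← he]
      refine ⟨e * a, ?_⟩
      linear_combination e * ha)
  have h2 := cd_TW_shift u L (Y + psi t0 t η j * σ)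
  rw [add_zero] at h1
  rw [h1, h2]

/-- the first window -/
lemma cd_factor0 {k : ℕ} {v : ℕ} (t0 : ℤ) (t : Fin k → ℤ)
    (l : Fin k) (σ Y : ℤ) (j : ℕ × (Fin k × Bool → ℕ)) (hs : (2 : ℤ) ^ v ∣ t l * σ) :
    ∏ η, TW 0 v (Y + psi t0 t η j * σ) = 1 := by
  refine cd_pair l _ (fun η => cd_TW_sq _ _ _) fun η => ?_
  refine cd_TW_congr ?_
  rw [cd_psi_update]
  obtain ⟨a, ha⟩ := hs
  refine ⟨((j.2 (l, !η l) : ℤ) - (j.2 (l, η l) : ℤ)) * a, ?_⟩
  linear_combination ((j.2 (l, !η l) : ℤ) - (j.2 (l, η l) : ℤ)) * ha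

/-- the final window -/
lemma cd_final {k : ℕ} {u L g g9 Z : ℕ} (hu : g + Z ≤ u) (hg9 : g9 ≤ u)
    (hk : (k + 1) * 2 ^ (Z + g) ≤ 2 ^ g9) (t0 : ℤ) (t : Fin k → ℤ)
    (σ Y : ℤ) (j : ℕ × (Fin k × Bool → ℕ)) (hj : j ∈ box k (2 ^ Z))
    (h0 : small (u + L) ((2 : ℤ) ^ (u - g9)) (t0 * σ - (2 : ℤ) ^ u))
    (ht : ∀ x, small (u + L) ((2 : ℤ) ^ (u - g9)) (t x * σ - (2 : ℤ) ^ u))
    (hn : ¬ near u ((2 : ℤ) ^ (u - g)) Y) (η : Fin k → Bool) :
    TW u (u + L) (Y + psi t0 t η j * σ) = TW 0 L (Y / 2 ^ u + psi 1 (fun _ => 1) η j) := by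
  obtain ⟨s0, hs0, a0, ha0⟩ := h0
  choose s hs a ha using ht
  obtain ⟨hj1, hj2⟩ := cd_box_lt hj
  have hJ1 : |(j.1 : ℤ)| ≤ 2 ^ Z := by
    rw [abs_of_nonneg (Int.natCast_nonneg _)]
    exact_mod_cast hj1.le
  have hJ2 : ∀ x, |(j.2 x : ℤ)| ≤ 2 ^ Z := fun x => by
    rw [abs_of_nonneg (Int.natCast_nonneg _)]
    exact_mod_cast (hj2 x).le
  have hsum : |(j.1 : ℤ) * s0 + ∑ x, (j.2 (x, η x) : ℤ) * s x| ≤
      (k + 1 : ℤ) * (2 ^ Z * 2 ^ (u - g9)) := by
    have b1 : |(j.1 : ℤ) * s0| ≤ 2 ^ Z * 2 ^ (u - g9) := by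
      rw [abs_mul]
      exact mul_le_mul hJ1 hs0 (abs_nonneg _) (by positivity)
    have b2 : |∑ x, (j.2 (x, η x) : ℤ) * s x| ≤ ∑ _x : Fin k, (2 : ℤ) ^ Z * 2 ^ (u - g9) := by
      refine (Finset.abs_sum_le_sum_abs _ _).trans (Finset.sum_le_sum fun x _ => ?_)
      rw [abs_mul]
      exact mul_le_mul (hJ2 _) (hs x) (abs_nonneg _) (by positivity)
    rw [Finset.sum_const, Finset.card_univ, Fintype.card_fin, nsmul_eq_mul] at b2
    refine (abs_add_le _ _).trans ?_
    linarith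
  have hbound : (k + 1 : ℤ) * (2 ^ Z * 2 ^ (u - g9)) ≤ 2 ^ (u - g) := by
    have c1 : ((k : ℤ) + 1) * 2 ^ (Z + g) ≤ 2 ^ g9 := by exact_mod_cast hk
    have c2 : (2 : ℤ) ^ (u - g) * 2 ^ g = 2 ^ g9 * 2 ^ (u - g9) := by
      rw [← pow_add, ← pow_add]
      congr 1
      omega
    have c3 : (k + 1 : ℤ) * (2 ^ Z * 2 ^ (u - g9)) * 2 ^ g ≤ 2 ^ (u - g) * 2 ^ g := by
      rw [c2]
      have := mul_le_mul_of_nonneg_right c1 (by positivity : (0 : ℤ) ≤ 2 ^ (u - g9))
      rw [pow_add] at this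
      linarith
    exact le_of_mul_le_mul_right c3 (by positivity)
  refine cd_stable hn (s := (j.1 : ℤ) * s0 + ∑ x, (j.2 (x, η x) : ℤ) * s x)
    (hsum.trans hbound) ?_
  refine ⟨(j.1 : ℤ) * a0 + ∑ x, (j.2 (x, η x) : ℤ) * a x, ?_⟩
  have h3 : ∑ x, (j.2 (x, η x) : ℤ) * t x * σ = ∑ x, ((j.2 (x, η x) : ℤ) * 1 * 2 ^ u +
      (j.2 (x, η x) : ℤ) * s x + 2 ^ (u + L) * ((j.2 (x, η x) : ℤ) * a x)) := by
    refine Finset.sum_congr rfl fun x _ => ?_
    linear_combination (j.2 (x, η x) : ℤ) * ha x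
  rw [Finset.sum_add_distrib, Finset.sum_add_distrib, ← Finset.sum_mul, ← Finset.sum_mul,
    ← Finset.mul_sum] at h3
  unfold psi
  linear_combination (j.1 : ℤ) * ha0 + h3

open Classical in
lemma cd_cnt (M : ℕ) (P : ℕ → Prop) :
    ((cnt M P : ℕ) : ℝ) = ∑ m ∈ range M, if P m then (1 : ℝ) else 0 := by
  unfold cnt
  rw [Finset.sum_boole]

lemma cd_cnt_le {M g u : ℕ} {s : ℤ} (h : Nr M g u s) (y : ℤ) :
    ((cnt M (fun m => near u ((2 : ℤ) ^ (u - g)) (y + (m : ℤ) * s)) : ℕ) : ℝ) ≤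
      8 * M / 2 ^ g := by
  have h1 := h y
  have h2 : (2 : ℝ) ^ g * ((cnt M (fun m => near u ((2 : ℤ) ^ (u - g)) (y + (m : ℤ) * s)) : ℕ) : ℝ)
      ≤ 8 * M := by exact_mod_cast h1
  rw [le_div_iff₀ (by positivity)]
  linarith

lemma cd_prod_abs {ι : Type*} (s : Finset ι) (F : ι → ℝ) (h : ∀ i ∈ s, |F i| = 1) :
    |∏ i ∈ s, F i| = 1 := by
  rw [Finset.abs_prod]
  exact Finset.prod_eq_one h

/-- **Row TC-21**: the deterministic core. -/
theorem cd (hv : VStmt) : CDStmt := by
  classical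
  intro k q n Z g L g9 M L0 wf c S lv σ y is t0 t l hM hc hK hmono h0 hwf1 hwfn hlv hZL hgZ hg9 hkk
    hfirst hpairs hs0 hsx hNr hS
  set f : ℤ → ℝ := fun x => ∏ i, TW 0 (lv n) (y i + x * σ i) with hf
  have hf1 : ∀ x, |f x| ≤ 1 := fun x =>
    (cd_prod_abs _ _ fun i _ => cd_TW_abs _ _ _).le
  have hV := hv k f hf1 t0 t (2 ^ Z) M S (Nat.one_le_two_pow) hM (by push_cast; exact hS)
  refine hV.trans ?_
  have hMpos : (0 : ℝ) < M := by exact_mod_cast hM
  have hbox : 0 < (box k (2 ^ Z)).card := by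
    rw [Finset.card_pos]
    refine ⟨(0, fun _ => 0), ?_⟩
    unfold box
    rw [Finset.mem_product, Fintype.mem_piFinset]
    exact ⟨Finset.mem_range.mpr (by positivity), fun _ => Finset.mem_range.mpr (by positivity)⟩
  have hboxR : (0 : ℝ) < ((box k (2 ^ Z)).card : ℝ) := by exact_mod_cast hbox
  set δ : ℝ := (q * n * 2 ^ k + 1) * 8 / 2 ^ g with hδ
  have key : |∑ j ∈ box k (2 ^ Z), ∑ m ∈ range M, ∏ η : Fin k → Bool,
      f ((m : ℤ) + psi t0 t η j)| ≤
      (c ^ (Z / L0) + 2 * δ) * (M * (box k (2 ^ Z)).card) := by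
    set Km : ℕ → (ℕ × (Fin k × Bool → ℕ)) → ℝ := fun m j =>
      ∏ η, TW 0 L ((y is + (m : ℤ) * σ is) / 2 ^ lv wf + psi 1 (fun _ => 1) η j) with hKm
    set B : ℕ → (ℕ × (Fin k × Bool → ℕ)) → ℝ := fun m j =>
      (∑ i : Fin q, ∑ w ∈ Ico 1 n, ∑ η : Fin k → Bool,
        if near (lv w) ((2 : ℤ) ^ (lv w - g)) ((y i + psi t0 t η j * σ i) + (m : ℤ) * σ i)
          then (1 : ℝ) else 0) +
        (if near (lv wf) ((2 : ℤ) ^ (lv wf - g)) (y is + (m : ℤ) * σ is) then 1 else 0) with hB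
    -- comparison for one pair
    have h1 : ∀ j ∈ box k (2 ^ Z), ∀ m ∈ range M,
        |(∏ η : Fin k → Bool, f ((m : ℤ) + psi t0 t η j)) - Km m j| ≤ 2 * B m j := by
      intro j hj m _
      have b0 : ∀ i : Fin q, ∀ w ∈ Ico 1 n, ∀ η : Fin k → Bool, (0 : ℝ) ≤
          if near (lv w) ((2 : ℤ) ^ (lv w - g)) ((y i + psi t0 t η j * σ i) + (m : ℤ) * σ i)
          then (1 : ℝ) else 0 := by
        intro i w _ η
        split_ifs <;> norm_num
      have b1 : (0 : ℝ) ≤
          (if near (lv wf) ((2 : ℤ) ^ (lv wf - g)) (y is + (m : ℤ) * σ is) then 1 else 0) := by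
        split_ifs <;> norm_num
      by_cases hgood : (∀ i : Fin q, ∀ w ∈ Ico 1 n, ∀ η : Fin k → Bool,
          ¬ near (lv w) ((2 : ℤ) ^ (lv w - g)) ((y i + psi t0 t η j * σ i) + (m : ℤ) * σ i)) ∧
          ¬ near (lv wf) ((2 : ℤ) ^ (lv wf - g)) (y is + (m : ℤ) * σ is)
      · -- the good case: equality
        have e1 : (∏ η : Fin k → Bool, f ((m : ℤ) + psi t0 t η j)) = Km m j := by
          have e2 : ∀ η : Fin k → Bool, f ((m : ℤ) + psi t0 t η j) = ∏ i : Fin q,
              ∏ w ∈ range n, TW (lv w) (lv (w + 1))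
                ((y i + (m : ℤ) * σ i) + psi t0 t η j * σ i) := by
            intro η
            simp only [hf]
            refine Finset.prod_congr rfl fun i _ => ?_
            rw [cd_TW_prod lv hmono h0]
            refine Finset.prod_congr rfl fun w _ => ?_
            congr 1
            ring
          rw [Finset.prod_congr rfl fun η _ => e2 η, Finset.prod_comm]
          have e3 : ∀ i : Fin q, ∏ η : Fin k → Bool, ∏ w ∈ range n, TW (lv w) (lv (w + 1))
                ((y i + (m : ℤ) * σ i) + psi t0 t η j * σ i) =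
              ∏ w ∈ range n, ∏ η : Fin k → Bool, TW (lv w) (lv (w + 1))
                ((y i + (m : ℤ) * σ i) + psi t0 t η j * σ i) := fun i => Finset.prod_comm
          rw [Finset.prod_congr rfl fun i _ => e3 i]
          have e4 : ∀ i : Fin q, ∀ w ∈ range n, (i = is → w ≠ wf) →
              ∏ η : Fin k → Bool, TW (lv w) (lv (w + 1))
                ((y i + (m : ℤ) * σ i) + psi t0 t η j * σ i) = 1 := by
            intro i w hw hne
            have hwn : w < n := Finset.mem_range.mp hw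
            rcases Nat.eq_zero_or_pos w with rfl | hw1
            · rw [h0]
              exact cd_factor0 t0 t (l i 0) _ _ j (hfirst i)
            · refine cd_factor (g := g) (Z := Z) (hmono (Nat.le_succ w)) (hgZ w hw1) t0 t (l i w)
                _ _ j hj (hpairs i w hw1 hwn hne) fun η => ?_
              have := hgood.1 i w (Finset.mem_Ico.mpr ⟨hw1, hwn⟩) η
              rwa [show (y i + (m : ℤ) * σ i) + psi t0 t η j * σ i =
                (y i + psi t0 t η j * σ i) + (m : ℤ) * σ i by ring]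
          rw [Finset.prod_eq_single is]
          · rw [Finset.prod_eq_single wf]
            · simp only [hKm]
              refine Finset.prod_congr rfl fun η _ => ?_
              rw [hlv]
              exact cd_final (hgZ wf hwf1) hg9 hkk t0 t _ _ j hj hs0 hsx hgood.2 η
            · intro w hw hne
              exact e4 is w hw fun _ => hne
            · intro h
              exact absurd (Finset.mem_range.mpr hwfn) h
          · intro i _ hi
            exact Finset.prod_eq_one fun w hw => e4 i w hw fun h => absurd h hi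
          · intro h
            exact absurd (Finset.mem_univ _) h
        rw [e1, sub_self, abs_zero]
        refine mul_nonneg (by norm_num) (add_nonneg ?_ b1)
        exact Finset.sum_nonneg fun i _ => Finset.sum_nonneg fun w hw =>
          Finset.sum_nonneg fun η _ => b0 i w hw η
      · -- the bad case
        have hB1 : 1 ≤ B m j := by
          rw [not_and_or] at hgood
          rcases hgood with hb | hb
          · push Not at hb
            obtain ⟨i, w, hw, η, hnear⟩ := hb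
            have c1 : (1 : ℝ) ≤ ∑ η' : Fin k → Bool,
              if near (lv w) ((2 : ℤ) ^ (lv w - g))
                ((y i + psi t0 t η' j * σ i) + (m : ℤ) * σ i) then (1 : ℝ) else 0 := by
              have c0 : (if near (lv w) ((2 : ℤ) ^ (lv w - g))
                ((y i + psi t0 t η j * σ i) + (m : ℤ) * σ i) then (1 : ℝ) else 0) = 1 :=
                if_pos hnear
              refine le_trans (le_of_eq c0.symm) ?_
              exact Finset.single_le_sum (f := fun η' : Fin k → Bool =>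
                if near (lv w) ((2 : ℤ) ^ (lv w - g))
                ((y i + psi t0 t η' j * σ i) + (m : ℤ) * σ i) then (1 : ℝ) else 0)
                (fun η' _ => b0 i w hw η') (Finset.mem_univ η)
            have c2 : (∑ η' : Fin k → Bool,
              if near (lv w) ((2 : ℤ) ^ (lv w - g))
                ((y i + psi t0 t η' j * σ i) + (m : ℤ) * σ i) then (1 : ℝ) else 0) ≤
                ∑ w' ∈ Ico 1 n, ∑ η' : Fin k → Bool,
              if near (lv w') ((2 : ℤ) ^ (lv w' - g))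
                ((y i + psi t0 t η' j * σ i) + (m : ℤ) * σ i) then (1 : ℝ) else 0 :=
              Finset.single_le_sum (f := fun w' => ∑ η' : Fin k → Bool,
              if near (lv w') ((2 : ℤ) ^ (lv w' - g))
                ((y i + psi t0 t η' j * σ i) + (m : ℤ) * σ i) then (1 : ℝ) else 0)
                (fun w' hw' => Finset.sum_nonneg fun η' _ => b0 i w' hw' η') hw
            have c3 : (∑ w' ∈ Ico 1 n, ∑ η' : Fin k → Bool,
              if near (lv w') ((2 : ℤ) ^ (lv w' - g))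
                ((y i + psi t0 t η' j * σ i) + (m : ℤ) * σ i) then (1 : ℝ) else 0) ≤
                ∑ i' : Fin q, ∑ w' ∈ Ico 1 n, ∑ η' : Fin k → Bool,
              if near (lv w') ((2 : ℤ) ^ (lv w' - g))
                ((y i' + psi t0 t η' j * σ i') + (m : ℤ) * σ i') then (1 : ℝ) else 0 :=
              Finset.single_le_sum (f := fun i' => ∑ w' ∈ Ico 1 n, ∑ η' : Fin k → Bool,
              if near (lv w') ((2 : ℤ) ^ (lv w' - g))
                ((y i' + psi t0 t η' j * σ i') + (m : ℤ) * σ i') then (1 : ℝ) else 0)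
                (fun i' _ => Finset.sum_nonneg fun w' hw' =>
                  Finset.sum_nonneg fun η' _ => b0 i' w' hw' η') (Finset.mem_univ i)
            simp only [hB]
            linarith
          · push Not at hb
            simp only [hB]
            rw [if_pos hb]
            have : (0 : ℝ) ≤ ∑ i : Fin q, ∑ w ∈ Ico 1 n, ∑ η : Fin k → Bool,
              if near (lv w) ((2 : ℤ) ^ (lv w - g))
                ((y i + psi t0 t η j * σ i) + (m : ℤ) * σ i) then (1 : ℝ) else 0 :=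
              Finset.sum_nonneg fun i _ => Finset.sum_nonneg fun w hw =>
                Finset.sum_nonneg fun η _ => b0 i w hw η
            linarith
        have d1 : |∏ η : Fin k → Bool, f ((m : ℤ) + psi t0 t η j)| = 1 :=
          cd_prod_abs _ _ fun η _ => cd_prod_abs _ _ fun i _ => cd_TW_abs _ _ _
        have d2 : |Km m j| = 1 := cd_prod_abs _ _ fun η _ => cd_TW_abs _ _ _
        have d3 := abs_sub (∏ η : Fin k → Bool, f ((m : ℤ) + psi t0 t η j)) (Km m j)
        linarith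
    -- the count of the bad pairs
    have h2 : ∀ j ∈ box k (2 ^ Z), ∑ m ∈ range M, B m j ≤ M * δ := by
      intro j _
      simp only [hB]
      rw [Finset.sum_add_distrib]
      have c1 : ∑ m ∈ range M, ∑ i : Fin q, ∑ w ∈ Ico 1 n, ∑ η : Fin k → Bool,
          (if near (lv w) ((2 : ℤ) ^ (lv w - g)) ((y i + psi t0 t η j * σ i) + (m : ℤ) * σ i)
          then (1 : ℝ) else 0) ≤ ∑ _i : Fin q, ∑ _w ∈ Ico 1 n, ∑ _η : Fin k → Bool,
            (8 * M / 2 ^ g : ℝ) := by
        rw [Finset.sum_comm]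
        refine Finset.sum_le_sum fun i _ => ?_
        rw [Finset.sum_comm]
        refine Finset.sum_le_sum fun w hw => ?_
        rw [Finset.sum_comm]
        refine Finset.sum_le_sum fun η _ => ?_
        rw [← cd_cnt]
        have hw' := Finset.mem_Ico.mp hw
        exact cd_cnt_le (hNr i w hw'.1 hw'.2) _
      have c2 : ∑ m ∈ range M, (if near (lv wf) ((2 : ℤ) ^ (lv wf - g)) (y is + (m : ℤ) * σ is)
          then (1 : ℝ) else 0) ≤ 8 * M / 2 ^ g := by
        rw [← cd_cnt]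
        exact cd_cnt_le (hNr is wf hwf1 hwfn) _
      simp only [Finset.sum_const, Finset.card_univ, Fintype.card_fin, Nat.card_Ico, nsmul_eq_mul,
        Fintype.card_fun, Fintype.card_bool] at c1
      push_cast at c1
      have c3 : (q : ℝ) * (((n - 1 : ℕ) : ℝ) * (2 ^ k * (8 * M / 2 ^ g))) ≤
          q * (n * (2 ^ k * (8 * M / 2 ^ g))) := by
        have : (((n - 1 : ℕ) : ℝ)) ≤ n := by exact_mod_cast Nat.sub_le n 1
        gcongr
      have c4 : (M : ℝ) * δ = q * (n * (2 ^ k * (8 * M / 2 ^ g))) + 8 * M / 2 ^ g := by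
        rw [hδ]
        ring
      rw [c4]
      linarith
    have h3 : ∀ m : ℕ, |∑ j ∈ box k (2 ^ Z), Km m j| ≤
        c ^ (Z / L0) * (box k (2 ^ Z)).card := fun m =>
      hK Z L hZL fun _ => (y is + (m : ℤ) * σ is) / 2 ^ lv wf
    have h4 : ∑ j ∈ box k (2 ^ Z), ∑ m ∈ range M, ∏ η : Fin k → Bool,
        f ((m : ℤ) + psi t0 t η j) = (∑ m ∈ range M, ∑ j ∈ box k (2 ^ Z), Km m j) +
        ∑ j ∈ box k (2 ^ Z), ∑ m ∈ range M,
          ((∏ η : Fin k → Bool, f ((m : ℤ) + psi t0 t η j)) - Km m j) := by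
      rw [Finset.sum_comm (s := range M), ← Finset.sum_add_distrib]
      refine Finset.sum_congr rfl fun j _ => ?_
      rw [← Finset.sum_add_distrib]
      exact Finset.sum_congr rfl fun m _ => by ring
    rw [h4]
    have h5 : |∑ m ∈ range M, ∑ j ∈ box k (2 ^ Z), Km m j| ≤
        M * (c ^ (Z / L0) * (box k (2 ^ Z)).card) := by
      refine (Finset.abs_sum_le_sum_abs _ _).trans ?_
      refine (Finset.sum_le_sum fun m _ => h3 m).trans (le_of_eq ?_)
      rw [Finset.sum_const, Finset.card_range, nsmul_eq_mul]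
    have h6 : |∑ j ∈ box k (2 ^ Z), ∑ m ∈ range M,
          ((∏ η : Fin k → Bool, f ((m : ℤ) + psi t0 t η j)) - Km m j)| ≤
        (box k (2 ^ Z)).card * (2 * (M * δ)) := by
      refine (Finset.abs_sum_le_sum_abs _ _).trans ?_
      have : ∀ j ∈ box k (2 ^ Z), |∑ m ∈ range M,
          ((∏ η : Fin k → Bool, f ((m : ℤ) + psi t0 t η j)) - Km m j)| ≤ 2 * (M * δ) := by
        intro j hj
        refine (Finset.abs_sum_le_sum_abs _ _).trans ?_
        refine (Finset.sum_le_sum fun m hm => h1 j hj m hm).trans ?_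
        rw [← Finset.mul_sum]
        exact mul_le_mul_of_nonneg_left (h2 j hj) (by norm_num)
      refine (Finset.sum_le_sum this).trans (le_of_eq ?_)
      rw [Finset.sum_const, nsmul_eq_mul]
    refine (abs_add_le _ _).trans ?_
    linarith
  have h7 : |∑ j ∈ box k (2 ^ Z), ∑ m ∈ range M, ∏ η : Fin k → Bool,
      f ((m : ℤ) + psi t0 t η j)| / (M * (box k (2 ^ Z)).card) ≤ c ^ (Z / L0) + 2 * δ := by
    rw [div_le_iff₀ (by positivity)]
    exact key
  linarith

end Pool.Agent.H9.TC
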