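import Pool.Agent.H9.TC.Stm

/-!
Project TC (MP_b6022c_nt): normality of the Thue-Morse sequence along cubic polynomials.
-/

namespace Pool.Agent.H9.TC

open Finset Filter Topology

/-- The polynomial takes natural values at the natural numbers. -/
def NaturalValued (P : Polynomial ℚ) : Prop := ∀ n : ℕ, ∃ m : ℕ, P.eval (n : ℚ) = m

/-- The value as a natural number. -/
def val (P : Polynomial ℚ) (n : ℕ) : ℕ := (P.eval (n : ℚ)).num.toNat

/-- The Thue-Morse sequence. -/
def thueMorse (n : ℕ) : ℕ := (Nat.digits 2 n).sum % 2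

theorem val_cast {P : Polynomial ℚ} (hP : NaturalValued P) (n : ℕ) :
    ((val P n : ℕ) : ℚ) = P.eval (n : ℚ) := by
  obtain ⟨m, hm⟩ := hP n
  unfold val
  rw [hm]
  simp

/-- the sign -/
noncomputable def sg (P : Polynomial ℚ) (n : ℕ) : ℝ := sgz (val P n : ℤ)

theorem sg_eq (P : Polynomial ℚ) (n : ℕ) : sg P n = (-1 : ℝ) ^ thueMorse (val P n) := by
  unfold sg sgz thueMorse
  rw [Int.toNat_natCast, neg_one_pow_eq_pow_mod_two]

theorem abs_sgz_fin (x : ℤ) : |sgz x| = 1 := by
  unfold sgz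
  rw [abs_pow, abs_neg, abs_one, one_pow]

/-! ### Averages along residue classes -/

theorem sum_range_mul_aux (g : ℕ → ℝ) (D M : ℕ) :
    ∑ n ∈ range (D * M), g n = ∑ ρ ∈ range D, ∑ x ∈ range M, g (D * x + ρ) := by
  rw [sum_comm]
  induction M with
  | zero => simp
  | succ M ih => rw [Nat.mul_succ, sum_range_add, ih, sum_range_succ]

theorem tendsto_classes (g : ℕ → ℝ) (hg : ∀ n, |g n| ≤ 1) (D : ℕ) (hD : 1 ≤ D)
    (h : ∀ ρ < D, Tendsto (fun M : ℕ => (∑ x ∈ range M, g (D * x + ρ)) / (M : ℝ)) atTop (𝓝 0)) :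
    Tendsto (fun N : ℕ => (∑ n ∈ range N, g n) / (N : ℝ)) atTop (𝓝 0) := by
  have hdiv : Tendsto (fun N : ℕ => N / D) atTop atTop :=
    Nat.tendsto_div_const_atTop (by omega)
  have h1 : Tendsto (fun N : ℕ => ∑ ρ ∈ range D,
      |(∑ x ∈ range (N / D), g (D * x + ρ)) / ((N / D : ℕ) : ℝ)|) atTop (𝓝 0) := by
    have : (0 : ℝ) = ∑ _ρ ∈ range D, (0 : ℝ) := by simp
    rw [this]
    refine tendsto_finsetSum _ fun ρ hρ => ?_
    have h2 := (h ρ (mem_range.1 hρ)).comp hdiv
    have h3 := h2.abs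
    simpa using h3
  have h4 : Tendsto (fun N : ℕ => (D : ℝ) / N) atTop (𝓝 0) := tendsto_const_div_atTop_nhds_zero_nat _
  have h5 := h1.add h4
  rw [add_zero] at h5
  refine squeeze_zero_norm' ?_ h5
  filter_upwards [eventually_ge_atTop D] with N hN
  have hN0 : (0 : ℝ) < N := by exact_mod_cast (by omega : 0 < N)
  have hM0 : 0 < N / D := Nat.div_pos hN (by omega)
  have hM0' : (0 : ℝ) < ((N / D : ℕ) : ℝ) := by exact_mod_cast hM0
  have hMN : ((N / D : ℕ) : ℝ) ≤ N := by exact_mod_cast Nat.div_le_self N D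
  have e1 : N = D * (N / D) + N % D := (Nat.div_add_mod N D).symm
  have e2 : ∑ n ∈ range N, g n = (∑ ρ ∈ range D, ∑ x ∈ range (N / D), g (D * x + ρ)) +
      ∑ x ∈ range (N % D), g (D * (N / D) + x) := by
    conv_lhs => rw [e1]
    rw [sum_range_add, sum_range_mul_aux]
  have e3 : |∑ x ∈ range (N % D), g (D * (N / D) + x)| ≤ D := by
    refine (abs_sum_le_sum_abs _ _).trans ?_
    refine (sum_le_sum fun x _ => hg _).trans ?_
    rw [sum_const, card_range, nsmul_eq_mul, mul_one]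
    exact_mod_cast (Nat.mod_lt _ (by omega)).le
  rw [Real.norm_eq_abs, e2, abs_div, abs_of_pos hN0]
  have e4 : |∑ ρ ∈ range D, ∑ x ∈ range (N / D), g (D * x + ρ)| / N ≤
      ∑ ρ ∈ range D, |(∑ x ∈ range (N / D), g (D * x + ρ)) / ((N / D : ℕ) : ℝ)| := by
    rw [div_le_iff₀ hN0]
    refine (abs_sum_le_sum_abs _ _).trans ?_
    rw [sum_mul]
    refine sum_le_sum fun ρ _ => ?_
    rw [abs_div, abs_of_pos hM0']
    have : |∑ x ∈ range (N / D), g (D * x + ρ)| =
        |∑ x ∈ range (N / D), g (D * x + ρ)| / ((N / D : ℕ) : ℝ) * ((N / D : ℕ) : ℝ) := by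
      field_simp
    conv_lhs => rw [this]
    exact mul_le_mul_of_nonneg_left hMN (by positivity)
  calc |(∑ ρ ∈ range D, ∑ x ∈ range (N / D), g (D * x + ρ)) +
        ∑ x ∈ range (N % D), g (D * (N / D) + x)| / N
      ≤ (|∑ ρ ∈ range D, ∑ x ∈ range (N / D), g (D * x + ρ)| +
        |∑ x ∈ range (N % D), g (D * (N / D) + x)|) / N := by
        gcongr
        exact abs_add_le _ _
    _ = |∑ ρ ∈ range D, ∑ x ∈ range (N / D), g (D * x + ρ)| / N +
        |∑ x ∈ range (N % D), g (D * (N / D) + x)| / N := add_div _ _ _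
    _ ≤ _ := by
        refine add_le_add e4 ?_
        gcongr

/-! ### The polynomials on residue classes -/

theorem lead_pos {P : Polynomial ℚ} (hd : P.natDegree = 3) (hP : NaturalValued P) :
    0 < P.coeff 3 := by
  have hlc : P.leadingCoeff = P.coeff 3 := by rw [Polynomial.leadingCoeff, hd]
  rw [← hlc]
  by_contra hc
  push Not at hc
  have hdeg : 0 < P.degree := by
    rw [← Polynomial.natDegree_pos_iff_degree_pos, hd]
    norm_num
  have h1 := P.tendsto_atBot_of_leadingCoeff_nonpos hdeg hc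
  have h2 := h1.comp (tendsto_natCast_atTop_atTop (R := ℚ))
  obtain ⟨n, hn⟩ := (h2.eventually (eventually_lt_atBot 0)).exists
  obtain ⟨m, hm⟩ := hP n
  rw [Function.comp_apply, hm] at hn
  exact absurd hn (not_lt.2 (by positivity))

theorem eval_four {P : Polynomial ℚ} (hd : P.natDegree = 3) (x : ℚ) :
    P.eval x = P.coeff 0 + P.coeff 1 * x + P.coeff 2 * x ^ 2 + P.coeff 3 * x ^ 3 := by
  rw [Polynomial.eval_eq_sum_range, hd]
  simp only [sum_range_succ, sum_range_zero]
  ring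

theorem exists_denom (P : Polynomial ℚ) : ∃ D : ℕ, 1 ≤ D ∧ ∃ a1 a2 a3 : ℤ,
    (D : ℚ) * P.coeff 1 = a1 ∧ (D : ℚ) * P.coeff 2 = a2 ∧ (D : ℚ) * P.coeff 3 = a3 := by
  refine ⟨(P.coeff 1).den * (P.coeff 2).den * (P.coeff 3).den, ?_,
    (P.coeff 1).num * (P.coeff 2).den * (P.coeff 3).den,
    (P.coeff 2).num * (P.coeff 1).den * (P.coeff 3).den,
    (P.coeff 3).num * (P.coeff 1).den * (P.coeff 2).den, ?_, ?_, ?_⟩
  · exact Nat.mul_pos (Nat.mul_pos (P.coeff 1).pos (P.coeff 2).pos) (P.coeff 3).pos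
  · push_cast
    linear_combination ((P.coeff 2).den : ℚ) * (P.coeff 3).den * (Rat.mul_den_eq_num (P.coeff 1))
  · push_cast
    linear_combination ((P.coeff 1).den : ℚ) * (P.coeff 3).den * (Rat.mul_den_eq_num (P.coeff 2))
  · push_cast
    linear_combination ((P.coeff 1).den : ℚ) * (P.coeff 2).den * (Rat.mul_den_eq_num (P.coeff 3))

theorem mean_zero (h : ThmAStmt) {P : Polynomial ℚ} (hd : P.natDegree = 3)
    (hP : NaturalValued P) {k : ℕ} (S : Finset (Fin k)) (hS : S.Nonempty) :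
    Tendsto (fun N : ℕ => (∑ n ∈ range N, ∏ i ∈ S, sg P (n + i)) / (N : ℝ)) atTop (𝓝 0) := by
  obtain ⟨D, hD, a1, a2, a3, h1, h2, h3⟩ := exists_denom P
  have hD0 : (0 : ℚ) < D := by exact_mod_cast hD
  have ha3 : 0 < a3 := by
    have : (0 : ℚ) < a3 := by
      rw [← h3]
      exact mul_pos hD0 (lead_pos hd hP)
    exact_mod_cast this
  refine tendsto_classes _ ?_ D hD ?_
  · intro n
    rw [abs_prod]
    refine le_of_eq (prod_eq_one fun i _ => ?_)
    exact abs_sgz_fin _
  · intro ρ _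
    -- the cubic polynomials
    set q0 := S.card with hq0
    let σ : Fin q0 → Fin k := S.orderEmbOfFin rfl
    have hσ : Function.Injective σ := (S.orderEmbOfFin rfl).injective
    set c : ℕ := (a3 * D ^ 2).toNat with hc
    have hcz : (c : ℤ) = a3 * D ^ 2 := by
      rw [hc]
      exact Int.toNat_of_nonneg (by positivity)
    let dd : Fin q0 → ℤ := fun j => D * (3 * a3 * (ρ + (σ j : ℕ)) + a2)
    let ee' : Fin q0 → ℤ := fun j => 3 * a3 * (ρ + (σ j : ℕ)) ^ 2 + 2 * a2 * (ρ + (σ j : ℕ)) + a1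
    let ff : Fin q0 → ℤ := fun j => val P (ρ + (σ j : ℕ))
    have hval : ∀ (j : Fin q0) (x : ℕ), cub c (dd j) (ee' j) (ff j) x =
        (val P (D * x + ρ + (σ j : ℕ)) : ℤ) := by
      intro j x
      have hinj : Function.Injective (fun z : ℤ => (z : ℚ)) := Int.cast_injective
      apply hinj
      have hv := val_cast hP (ρ + (σ j : ℕ))
      have hv2 := val_cast hP (D * x + ρ + (σ j : ℕ))
      rw [eval_four hd] at hv hv2
      simp only [cub, dd, ee', ff, hcz]
      push_cast at hv hv2 ⊢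
      rw [hv, hv2, ← h1, ← h2, ← h3]
      ring
    have hinj : Function.Injective dd := by
      intro i j hij
      apply hσ
      have hDz : (D : ℤ) ≠ 0 := by
        have : (0 : ℤ) < D := by exact_mod_cast hD
        exact this.ne'
      have e1 : 3 * a3 * ((ρ : ℤ) + (σ i : ℕ)) + a2 = 3 * a3 * ((ρ : ℤ) + (σ j : ℕ)) + a2 :=
        mul_left_cancel₀ hDz hij
      have e2 : 3 * a3 * (((σ i : ℕ) : ℤ) - (σ j : ℕ)) = 0 := by linarith
      have e3 : ((σ i : ℕ) : ℤ) - (σ j : ℕ) = 0 :=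
        (mul_eq_zero.1 e2).resolve_left (by positivity)
      apply Fin.ext
      omega
    have hc1 : 1 ≤ c := by
      have : (0 : ℤ) < c := by
        rw [hcz]
        have : (0 : ℤ) < D := by exact_mod_cast hD
        positivity
      exact_mod_cast this
    have hA := h q0 c dd ee' ff (Finset.card_pos.2 hS) hc1 hinj
    refine hA.congr fun M => ?_
    congr 1
    refine sum_congr rfl fun x _ => ?_
    have e1 : ∏ i ∈ S, sg P (D * x + ρ + i) = ∏ j : Fin q0, sg P (D * x + ρ + (σ j : ℕ)) := by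
      have himg : S = Finset.univ.image σ := by
        have := Finset.image_orderEmbOfFin_univ S (k := q0) rfl
        exact this.symm
      conv_lhs => rw [himg]
      rw [prod_image fun i _ j _ hij => hσ hij]
    rw [e1]
    refine prod_congr rfl fun j _ => ?_
    rw [hval, sg]

/-! ### Theorem B -/

theorem ind_eq (a b : ℕ) (ha : a < 2) (hb : b < 2) :
    (if a = b then (1 : ℝ) else 0) = 1 / 2 * (1 + (-1) ^ b * (-1) ^ a) := by
  interval_cases a <;> interval_cases b <;> norm_num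

theorem thmB (h : ThmAStmt) (P : Polynomial ℚ) (hd : P.natDegree = 3) (hP : NaturalValued P)
    (k : ℕ) (w : Fin k → Fin 2) :
    Tendsto (fun N : ℕ => (((range N).filter
      (fun n => ∀ i : Fin k, thueMorse (val P (n + i)) = (w i : ℕ))).card : ℝ) / N)
      atTop (𝓝 ((1 / 2) ^ k)) := by
  have e1 : ∀ N : ℕ, (((range N).filter
      (fun n => ∀ i : Fin k, thueMorse (val P (n + i)) = (w i : ℕ))).card : ℝ) / N =
      ∑ S : Finset (Fin k), (1 / 2) ^ k * (∏ i ∈ S, (-1 : ℝ) ^ (w i : ℕ)) *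
        ((∑ n ∈ range N, ∏ i ∈ S, sg P (n + i)) / N) := by
    intro N
    have e2 : ∀ n : ℕ, (if ∀ i : Fin k, thueMorse (val P (n + i)) = (w i : ℕ) then (1 : ℝ) else 0)
        = ∑ S : Finset (Fin k), (1 / 2) ^ k * (∏ i ∈ S, (-1 : ℝ) ^ (w i : ℕ)) *
          ∏ i ∈ S, sg P (n + i) := by
      intro n
      have e3 : (if ∀ i : Fin k, thueMorse (val P (n + i)) = (w i : ℕ) then (1 : ℝ) else 0) =
          ∏ i : Fin k, (if thueMorse (val P (n + i)) = (w i : ℕ) then (1 : ℝ) else 0) := by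
        by_cases hall : ∀ i : Fin k, thueMorse (val P (n + i)) = (w i : ℕ)
        · rw [if_pos hall]
          exact (prod_eq_one fun i _ => if_pos (hall i)).symm
        · rw [if_neg hall]
          push Not at hall
          obtain ⟨i, hi⟩ := hall
          exact (prod_eq_zero (mem_univ i) (if_neg hi)).symm
      rw [e3]
      have e4 : ∀ i : Fin k, (if thueMorse (val P (n + i)) = (w i : ℕ) then (1 : ℝ) else 0) =
          1 / 2 * (1 + (-1) ^ (w i : ℕ) * sg P (n + i)) := by
        intro i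
        rw [sg_eq]
        exact ind_eq _ _ (Nat.mod_lt _ (by norm_num)) (w i).2
      rw [prod_congr rfl fun i _ => e4 i, prod_mul_distrib, prod_const, card_univ,
        Fintype.card_fin, prod_one_add, powerset_univ, mul_sum]
      refine sum_congr rfl fun S _ => ?_
      rw [prod_mul_distrib, mul_assoc]
    rw [card_filter]
    push_cast
    rw [sum_congr rfl fun n _ => e2 n, sum_comm, sum_div]
    refine sum_congr rfl fun S _ => ?_
    rw [← mul_sum, mul_div_assoc]
  have e5 : ((1 : ℝ) / 2) ^ k = ∑ S : Finset (Fin k), (if S = ∅ then ((1 : ℝ) / 2) ^ k else 0) := by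
    rw [sum_ite_eq' univ ∅]
    simp
  rw [e5]
  have e6 : (fun N : ℕ => (((range N).filter
      (fun n => ∀ i : Fin k, thueMorse (val P (n + i)) = (w i : ℕ))).card : ℝ) / N) =
      fun N : ℕ => ∑ S : Finset (Fin k), (1 / 2) ^ k * (∏ i ∈ S, (-1 : ℝ) ^ (w i : ℕ)) *
        ((∑ n ∈ range N, ∏ i ∈ S, sg P (n + i)) / N) := funext e1
  rw [e6]
  refine tendsto_finsetSum _ fun S _ => ?_
  rcases S.eq_empty_or_nonempty with hS | hS
  · subst hS
    simp only [prod_empty, if_pos, mul_one, sum_const, card_range, nsmul_eq_mul]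
    have : Tendsto (fun _ : ℕ => ((1 : ℝ) / 2) ^ k) atTop (𝓝 (((1 : ℝ) / 2) ^ k)) :=
      tendsto_const_nhds
    refine this.congr' ?_
    filter_upwards [eventually_ge_atTop 1] with N hN
    have hN0 : (N : ℝ) ≠ 0 := by
      have : N ≠ 0 := by omega
      exact_mod_cast this
    rw [div_self hN0, mul_one]
  · rw [if_neg hS.ne_empty]
    have := (mean_zero h hd hP S hS).const_mul ((1 / 2) ^ k * (∏ i ∈ S, (-1 : ℝ) ^ (w i : ℕ)))
    rwa [mul_zero] at this

end Pool.Agent.H9.TC
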