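import Pool.Agent.H9.TC.Stm
import Pool.Agent.H9.TC.Basic

/-!
Project TC (MP_b6022c_nt), row TC-18 (G1): near boundary counts for most `b`.
-/

namespace Pool.Agent.H9.TC

open Finset

theorem g1_triv {M g u : ℕ} {s : ℤ} (hg : g ≤ 3) : Nr M g u s := by
  intro y
  have h1 := cnt_le M (fun m => near u ((2 : ℤ) ^ (u - g)) (y + (m : ℤ) * s))
  have h2 : 2 ^ g ≤ 8 := by
    calc 2 ^ g ≤ 2 ^ 3 := Nat.pow_le_pow_right (by norm_num) hg
      _ = 8 := by norm_num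
  exact Nat.mul_le_mul h2 h1

theorem g1_det (h1 : F1Stmt) (h2 : F2Stmt) {M g r : ℕ} {s : ℤ} (hg : 4 ≤ g)
    (hS : ∀ h : ℤ, h ≠ 0 → |h| ≤ 4 ^ g →
      ‖∑ m ∈ range M, ee ((h : ℝ) * ((m : ℝ) * s) / 2 ^ (g + r))‖ ≤ (1 / 2) ^ g * M) :
    Nr M g (g + r) s := by
  intro y
  have hv : 1 ≤ g + r := by omega
  have hW1 : 1 ≤ 2 ^ (r + 1) := Nat.one_le_two_pow
  have hW2 : 2 ^ (r + 1) ≤ 2 ^ (g + r - 1) := Nat.pow_le_pow_right (by norm_num) (by omega)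
  obtain ⟨-, f0, f1, -, fhalf, fh0, fhz⟩ := h1 (g + r) (2 ^ (r + 1)) hv hW1 hW2
  obtain ⟨finv, fmass, ftail⟩ := h2 (g + r) (2 ^ (r + 1)) hv hW1 hW2
  set N : ℤ → ℝ := fun a => ‖∑ m ∈ range M, ee ((a : ℝ) * ((m : ℝ) * s) / 2 ^ (g + r))‖ with hN
  have hNM : ∀ a, N a ≤ M := by
    intro a
    refine (norm_sum_le _ _).trans ?_
    simp [norm_ee]
  have hN0 : ∀ a, 0 ≤ N a := fun a => norm_nonneg _
  have hM0 : (0 : ℝ) ≤ M := Nat.cast_nonneg _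
  -- Fourier expansion
  have hsum : ∑ m ∈ range M, Fj (g + r) (2 ^ (r + 1)) (y + (m : ℤ) * s) ≤
      ∑ a ∈ reps (g + r), Fh (g + r) (2 ^ (r + 1)) a * N a := by
    have e1 : ((∑ m ∈ range M, Fj (g + r) (2 ^ (r + 1)) (y + (m : ℤ) * s) : ℝ) : ℂ) =
        ∑ a ∈ reps (g + r), (Fh (g + r) (2 ^ (r + 1)) a : ℂ) *
          (ee ((a : ℝ) * y / 2 ^ (g + r)) *
            ∑ m ∈ range M, ee ((a : ℝ) * ((m : ℝ) * s) / 2 ^ (g + r))) := by
      push_cast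
      rw [sum_congr rfl fun (m : ℕ) _ => finv (y + (m : ℤ) * s), sum_comm]
      refine sum_congr rfl fun a _ => ?_
      rw [← mul_sum]
      congr 1
      rw [mul_sum]
      refine sum_congr rfl fun m _ => ?_
      rw [← ee_add]
      congr 1
      push_cast
      ring
    have e2 : ‖((∑ m ∈ range M, Fj (g + r) (2 ^ (r + 1)) (y + (m : ℤ) * s) : ℝ) : ℂ)‖ =
        ∑ m ∈ range M, Fj (g + r) (2 ^ (r + 1)) (y + (m : ℤ) * s) := by
      rw [Complex.norm_real, Real.norm_eq_abs, abs_of_nonneg (sum_nonneg fun m _ => f0 _)]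
    rw [← e2, e1]
    refine (norm_sum_le _ _).trans (sum_le_sum fun a _ => ?_)
    rw [norm_mul, norm_mul, norm_ee, one_mul, Complex.norm_real, Real.norm_eq_abs,
      abs_of_nonneg (fh0 a)]
  -- termwise bound
  have hterm : ∀ a ∈ reps (g + r), Fh (g + r) (2 ^ (r + 1)) a * N a ≤
      Fh (g + r) (2 ^ (r + 1)) a * ((1 / 2) ^ g * M) +
        ((if a = 0 then Fh (g + r) (2 ^ (r + 1)) a * M else 0) +
        (if (((4 ^ g : ℕ) : ℤ)) < |a| then Fh (g + r) (2 ^ (r + 1)) a * M else 0)) := by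
    intro a _
    have hF := fh0 a
    have hp : 0 ≤ Fh (g + r) (2 ^ (r + 1)) a * ((1 / 2) ^ g * M) := by positivity
    have hFM : 0 ≤ Fh (g + r) (2 ^ (r + 1)) a * (M : ℝ) := by positivity
    have hb : Fh (g + r) (2 ^ (r + 1)) a * N a ≤ Fh (g + r) (2 ^ (r + 1)) a * M :=
      mul_le_mul_of_nonneg_left (hNM a) hF
    by_cases ha : a = 0
    · rw [if_pos ha]
      have : 0 ≤ (if (((4 ^ g : ℕ) : ℤ)) < |a| then Fh (g + r) (2 ^ (r + 1)) a * (M : ℝ) else 0) := by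
        split_ifs
        · exact hFM
        · exact le_rfl
      linarith
    · rw [if_neg ha]
      by_cases hb2 : (((4 ^ g : ℕ) : ℤ)) < |a|
      · rw [if_pos hb2]
        linarith
      · rw [if_neg hb2]
        have h3 : N a ≤ (1 / 2) ^ g * M := hS a ha (by push_cast at hb2; exact not_lt.1 hb2)
        have := mul_le_mul_of_nonneg_left h3 hF
        linarith
  have hsum2 := hsum.trans (sum_le_sum hterm)
  rw [sum_add_distrib, sum_add_distrib, ← sum_mul, fmass, one_mul, ← sum_filter, ← sum_filter,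
    ← sum_mul, ← sum_mul] at hsum2
  have hz : ∑ a ∈ (reps (g + r)).filter (fun a => a = 0), Fh (g + r) (2 ^ (r + 1)) a ≤
      2 * (1 / 2) ^ g := by
    have h3 : ∑ a ∈ (reps (g + r)).filter (fun a => a = 0), Fh (g + r) (2 ^ (r + 1)) a ≤
        ∑ a ∈ ({0} : Finset ℤ), Fh (g + r) (2 ^ (r + 1)) a := by
      refine sum_le_sum_of_subset_of_nonneg ?_ (fun a _ _ => fh0 a)
      intro a ha
      rw [mem_filter] at ha
      rw [mem_singleton]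
      exact ha.2
    rw [sum_singleton, fhz] at h3
    refine h3.trans (le_of_eq ?_)
    push_cast
    rw [pow_add (2 : ℝ) g r, pow_succ (2 : ℝ) r, one_div, inv_pow]
    field_simp
  have ht := ftail (4 ^ g) (Nat.one_le_pow _ _ (by norm_num))
  have ht' : ∑ a ∈ (reps (g + r)).filter (fun a => (((4 ^ g : ℕ) : ℤ)) < |a|),
      Fh (g + r) (2 ^ (r + 1)) a ≤ 1 / 4 * (1 / 2) ^ g := by
    refine ht.trans (le_of_eq ?_)
    push_cast
    have e4 : (4 : ℝ) ^ g = 2 ^ g * 2 ^ g := by rw [← mul_pow]; norm_num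
    rw [e4, pow_add (2 : ℝ) g r, pow_succ (2 : ℝ) r, one_div (2 : ℝ), inv_pow]
    field_simp
    norm_num
  have hmark := cnt_markov (M := M) (P := fun m => near (g + r) ((2 : ℤ) ^ (g + r - g))
    (y + (m : ℤ) * s)) (f := fun m => Fj (g + r) (2 ^ (r + 1)) (y + (m : ℤ) * s)) (c := 1 / 2)
    (fun m _ => f0 _) (fun m _ hm => by
      obtain ⟨z, hz1, hz2⟩ := small_of_near hm
      refine fhalf _ z ?_ hz2
      rw [Nat.add_sub_cancel_left] at hz1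
      push_cast
      rw [pow_succ]
      linarith)
  have hcnt : (cnt M (fun m => near (g + r) ((2 : ℤ) ^ (g + r - g)) (y + (m : ℤ) * s)) : ℝ) ≤
      8 * ((1 / 2) ^ g * M) := by
    have h5 := mul_le_mul_of_nonneg_right hz hM0
    have h6 := mul_le_mul_of_nonneg_right ht' hM0
    have h7 : (0 : ℝ) ≤ (1 / 2) ^ g * M := by positivity
    linarith
  have h8 : (2 : ℝ) ^ g * (cnt M (fun m => near (g + r) ((2 : ℤ) ^ (g + r - g))
      (y + (m : ℤ) * s)) : ℝ) ≤ 8 * M := by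
    calc (2 : ℝ) ^ g * (cnt M (fun m => near (g + r) ((2 : ℤ) ^ (g + r - g))
          (y + (m : ℤ) * s)) : ℝ) ≤ 2 ^ g * (8 * ((1 / 2) ^ g * M)) :=
          mul_le_mul_of_nonneg_left hcnt (by positivity)
      _ = 8 * M * (2 ^ g * (1 / 2) ^ g) := by ring
      _ = 8 * M := by rw [← mul_pow]; norm_num
  exact_mod_cast h8

/-- number of `m' < M` congruent to `m` modulo `D` -/
theorem g1_count (M D m : ℕ) (hD : 0 < D) :
    (((range M).filter fun m' : ℕ => (D : ℤ) ∣ (m : ℤ) - m').card : ℝ) ≤ M / D + 1 := by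
  have h1 : (range M).filter (fun m' : ℕ => (D : ℤ) ∣ (m : ℤ) - m') =
      (range M).filter (fun m' : ℕ => m' ≡ m [MOD D]) := by
    refine filter_congr fun m' _ => ?_
    exact (Nat.modEq_iff_dvd (n := D) (a := m') (b := m)).symm
  rw [h1, ← Nat.count_eq_card_filter_range, Nat.count_modEq_card _ hD]
  have h2 : ((M / D : ℕ) : ℝ) ≤ (M : ℝ) / D := Nat.cast_div_le
  split_ifs
  · push_cast
    linarith
  · push_cast
    linarith

theorem g1_ndvd {α g p : ℕ} (hα : 1 ≤ α) {h d : ℤ} (h0 : h ≠ 0) (hh : |h| ≤ 4 ^ g)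
    (hd : ¬ (2 : ℤ) ^ (6 * p) ∣ d) : ¬ (2 : ℤ) ^ (6 * p + α + 2 * g) ∣ (α : ℤ) * h * d := by
  have hd0 : d ≠ 0 := fun h => hd (h ▸ dvd_zero _)
  have hα0 : (α : ℤ) ≠ 0 := by exact_mod_cast (by omega : α ≠ 0)
  have hprod : (α : ℤ) * h * d ≠ 0 := mul_ne_zero (mul_ne_zero hα0 h0) hd0
  have hv : ∀ (n : ℕ) (a : ℤ), a ≠ 0 → ((2 : ℤ) ^ n ∣ a ↔ n ≤ padicValInt 2 a) := by
    intro n a ha
    have := padicValInt_dvd_iff (p := 2) n a
    push_cast at this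
    rw [this]
    exact ⟨fun h => h.resolve_left ha, Or.inr⟩
  rw [hv _ _ hprod, padicValInt.mul (mul_ne_zero hα0 h0) hd0, padicValInt.mul hα0 h0]
  rw [hv _ _ hd0] at hd
  have ha : ¬ α ≤ padicValInt 2 (α : ℤ) := by
    rw [← hv _ _ hα0]
    intro hdv
    have h1 := Int.le_of_dvd (by omega) hdv
    have h2 : (α : ℤ) < 2 ^ α := by exact_mod_cast Nat.lt_two_pow_self
    linarith
  have hb : ¬ 2 * g + 1 ≤ padicValInt 2 h := by
    rw [← hv _ _ h0]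
    intro hdv
    have h1 := Int.le_of_dvd (abs_pos.2 h0) ((dvd_abs _ _).2 hdv)
    have h2 : (2 : ℤ) ^ (2 * g + 1) = 2 * 4 ^ g := by
      rw [pow_succ, pow_mul]
      norm_num
      ring
    rw [h2] at h1
    have h3 : (0 : ℤ) < 4 ^ g := by positivity
    linarith
  omega

theorem g1_mom (hq : QStmt) {α g : ℕ} (hα : 1 ≤ α) {p u β M : ℕ}
    (hp : α + 2 * g + 3 ≤ p) (hu : 24 * p ≤ u) (hβ : u + 24 * p ≤ 2 * β) (hM : 2 ^ p ≤ M)
    (l k : ℤ) {h : ℤ} (h0 : h ≠ 0) (hh : |h| ≤ 4 ^ g) :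
    ∑ b ∈ range (2 ^ β), ‖∑ m ∈ range M, ee ((h : ℝ) *
      ((m : ℝ) * (((α : ℤ) * (b : ℤ) ^ 2 + l * b + k : ℤ) : ℝ)) / 2 ^ u)‖ ^ 2 ≤
      4 * (1 / 2) ^ p * (2 ^ β * (M : ℝ) ^ 2) := by
  set x : ℕ → ℕ → ℝ := fun b m => (h : ℝ) *
      ((m : ℝ) * (((α : ℤ) * (b : ℤ) ^ 2 + l * b + k : ℤ) : ℝ)) / 2 ^ u with hx
  have e1 : ((∑ b ∈ range (2 ^ β), ‖∑ m ∈ range M, ee (x b m)‖ ^ 2 : ℝ) : ℂ) =
      ∑ m ∈ range M, ∑ m' ∈ range M, ∑ b ∈ range (2 ^ β), ee (x b m - x b m') := by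
    rw [Complex.ofReal_sum, sum_congr rfl fun b _ => normSq_sum_ee (range M) (x b), sum_comm]
    exact sum_congr rfl fun m _ => sum_comm
  have e2 : ‖((∑ b ∈ range (2 ^ β), ‖∑ m ∈ range M, ee (x b m)‖ ^ 2 : ℝ) : ℂ)‖ =
      ∑ b ∈ range (2 ^ β), ‖∑ m ∈ range M, ee (x b m)‖ ^ 2 := by
    rw [Complex.norm_real, Real.norm_eq_abs, abs_of_nonneg (sum_nonneg fun _ _ => by positivity)]
  rw [← e2, e1]
  refine (norm_sum_le _ _).trans ((sum_le_sum fun m _ => norm_sum_le _ _).trans ?_)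
  -- bound for one pair
  have hpair : ∀ m m' : ℕ, ‖∑ b ∈ range (2 ^ β), ee (x b m - x b m')‖ ≤
      2 ^ β * ((if (((2 ^ (6 * p) : ℕ) : ℤ)) ∣ (m : ℤ) - m' then 1 else 0) +
        2 * (1 / 2) ^ (4 * p)) := by
    intro m m'
    by_cases hd : (((2 ^ (6 * p) : ℕ) : ℤ)) ∣ (m : ℤ) - m'
    · rw [if_pos hd]
      have h1 : ‖∑ b ∈ range (2 ^ β), ee (x b m - x b m')‖ ≤ 2 ^ β := by
        refine (norm_sum_le _ _).trans ?_
        simp [norm_ee]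
      have h2 : (0 : ℝ) ≤ 2 * (1 / 2) ^ (4 * p) := by positivity
      have h3 : (0 : ℝ) < 2 ^ β := by positivity
      nlinarith
    · rw [if_neg hd, zero_add]
      push_cast at hd
      have hnd := g1_ndvd hα h0 hh hd
      have h1 := hq ((α : ℤ) * h * ((m : ℤ) - m')) u (6 * p + α + 2 * g) β
        ((h : ℝ) * ((m : ℝ) - m') * l / 2 ^ u) ((h : ℝ) * ((m : ℝ) - m') * k / 2 ^ u) hnd
        (by omega) (by omega)
      have e3 : ∑ b ∈ range (2 ^ β), ee (x b m - x b m') = ∑ b ∈ range (2 ^ β),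
          ee ((((α : ℤ) * h * ((m : ℤ) - m') : ℤ) : ℝ) * (b : ℝ) ^ 2 / 2 ^ u +
            ((h : ℝ) * ((m : ℝ) - m') * l / 2 ^ u) * b + (h : ℝ) * ((m : ℝ) - m') * k / 2 ^ u) := by
        refine sum_congr rfl fun b _ => ?_
        congr 1
        simp only [hx]
        push_cast
        ring
      rw [e3]
      refine abs_le_of_sq_le_sq' ?_ (by positivity) |>.2
      refine h1.trans ?_
      have h2 : (1 / 2 : ℝ) ^ ((u - (6 * p + α + 2 * g) - 3) / 2) ≤ (1 / 2) ^ (8 * p) :=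
        pow_le_pow_of_le_one (by norm_num) (by norm_num) (by omega)
      have h3 : (1 / 2 : ℝ) ^ (β - (u + 1) / 2) ≤ (1 / 2) ^ (8 * p) :=
        pow_le_pow_of_le_one (by norm_num) (by norm_num) (by omega)
      have e4 : (4 : ℝ) ^ β = (2 ^ β) ^ 2 := by
        rw [← pow_mul, mul_comm β 2, pow_mul]; norm_num
      have e5 : ((1 / 2 : ℝ) ^ (4 * p)) ^ 2 = (1 / 2) ^ (8 * p) := by
        rw [← pow_mul]; congr 1; omega
      rw [e4, mul_pow, mul_pow, e5]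
      refine mul_le_mul_of_nonneg_left ?_ (by positivity)
      have h4 : (0 : ℝ) ≤ (1 / 2) ^ (8 * p) := by positivity
      linarith
  refine (sum_le_sum fun m _ => sum_le_sum fun m' _ => hpair m m').trans ?_
  have hrow : ∀ m ∈ range M, ∑ m' ∈ range M,
      (2 : ℝ) ^ β * ((if (((2 ^ (6 * p) : ℕ) : ℤ)) ∣ (m : ℤ) - m' then 1 else 0) +
        2 * (1 / 2) ^ (4 * p)) ≤ 2 ^ β * ((M / ((2 ^ (6 * p) : ℕ) : ℝ) + 1) +
          M * (2 * (1 / 2) ^ (4 * p))) := by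
    intro m _
    rw [← mul_sum, sum_add_distrib, sum_const, card_range, nsmul_eq_mul]
    refine mul_le_mul_of_nonneg_left ?_ (by positivity)
    refine add_le_add ?_ le_rfl
    rw [← sum_filter, sum_const, nsmul_eq_mul, mul_one]
    exact g1_count M (2 ^ (6 * p)) m (by positivity)
  refine (sum_le_sum hrow).trans ?_
  rw [sum_const, card_range, nsmul_eq_mul]
  have hMr : (2 : ℝ) ^ p ≤ M := by exact_mod_cast hM
  have hM0 : (0 : ℝ) ≤ M := Nat.cast_nonneg _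
  have hMM : (M : ℝ) ≤ (1 / 2) ^ p * (M : ℝ) ^ 2 := by
    have e6 : (1 / 2 : ℝ) ^ p * 2 ^ p = 1 := by rw [← mul_pow]; norm_num
    calc (M : ℝ) = (1 / 2) ^ p * 2 ^ p * M := by rw [e6, one_mul]
      _ ≤ (1 / 2) ^ p * M * M := by
          have : (1 / 2 : ℝ) ^ p * 2 ^ p ≤ (1 / 2) ^ p * M :=
            mul_le_mul_of_nonneg_left hMr (by positivity)
          exact mul_le_mul_of_nonneg_right this hM0
      _ = (1 / 2) ^ p * (M : ℝ) ^ 2 := by ring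
  have h6 : (M : ℝ) / ((2 ^ (6 * p) : ℕ) : ℝ) ≤ (1 / 2) ^ p * M := by
    push_cast
    rw [div_eq_mul_inv, ← inv_pow, mul_comm, ← one_div]
    refine mul_le_mul_of_nonneg_right ?_ hM0
    exact pow_le_pow_of_le_one (by norm_num) (by norm_num) (by omega)
  have h7 : (1 / 2 : ℝ) ^ (4 * p) * 2 ≤ (1 / 2) ^ p := by
    have hp1 : 1 ≤ p := by omega
    calc (1 / 2 : ℝ) ^ (4 * p) * 2 ≤ (1 / 2) ^ (p + 1) * 2 := by
          refine mul_le_mul_of_nonneg_right ?_ (by norm_num)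
          exact pow_le_pow_of_le_one (by norm_num) (by norm_num) (by omega)
      _ = (1 / 2) ^ p := by rw [pow_succ]; ring
  have h8 : (M : ℝ) * ((M / ((2 ^ (6 * p) : ℕ) : ℝ) + 1) + M * (2 * (1 / 2) ^ (4 * p))) ≤
      4 * (1 / 2) ^ p * (M : ℝ) ^ 2 := by
    have h9 : (M : ℝ) * (M / ((2 ^ (6 * p) : ℕ) : ℝ)) ≤ (1 / 2) ^ p * (M : ℝ) ^ 2 := by
      calc (M : ℝ) * (M / ((2 ^ (6 * p) : ℕ) : ℝ)) ≤ M * ((1 / 2) ^ p * M) :=
            mul_le_mul_of_nonneg_left h6 hM0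
        _ = (1 / 2) ^ p * (M : ℝ) ^ 2 := by ring
    have h10 : (M : ℝ) * (M * (2 * (1 / 2) ^ (4 * p))) ≤ (1 / 2) ^ p * (M : ℝ) ^ 2 := by
      calc (M : ℝ) * (M * (2 * (1 / 2) ^ (4 * p))) = ((1 / 2) ^ (4 * p) * 2) * (M : ℝ) ^ 2 := by ring
        _ ≤ (1 / 2) ^ p * (M : ℝ) ^ 2 := mul_le_mul_of_nonneg_right h7 (by positivity)
    have h11 : (0 : ℝ) ≤ (1 / 2) ^ p * (M : ℝ) ^ 2 := by positivity
    nlinarith
  have h12 : (0 : ℝ) < 2 ^ β := by positivity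
  calc (M : ℝ) * (2 ^ β * ((M / ((2 ^ (6 * p) : ℕ) : ℝ) + 1) + M * (2 * (1 / 2) ^ (4 * p))))
      = 2 ^ β * ((M : ℝ) * ((M / ((2 ^ (6 * p) : ℕ) : ℝ) + 1) + M * (2 * (1 / 2) ^ (4 * p)))) := by
        ring
    _ ≤ 2 ^ β * (4 * (1 / 2) ^ p * (M : ℝ) ^ 2) := mul_le_mul_of_nonneg_left h8 h12.le
    _ = _ := by ring

theorem g1 (h1 : F1Stmt) (h2 : F2Stmt) (hq : QStmt) : G1Stmt := by
  intro α g hα hg
  refine ⟨12 * 16 ^ g, α + 2 * g + 3, ?_⟩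
  intro p hp u β M hu hβ hM l k
  have hMr : (2 : ℝ) ^ p ≤ M := by exact_mod_cast hM
  have hM0 : (0 : ℝ) < M := lt_of_lt_of_le (by positivity) hMr
  rcases Nat.lt_or_ge g 4 with hg4 | hg4
  · have h3 : cnt (2 ^ β) (fun b => ¬ Nr M g u ((α : ℤ) * (b : ℤ) ^ 2 + l * b + k)) ≤
        cnt (2 ^ β) (fun _ => False) :=
      cnt_mono fun b _ hb => hb (g1_triv (by omega))
    have h4 : cnt (2 ^ β) (fun _ => False) = 0 := by
      classical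
      unfold cnt
      simp
    have h5 : cnt (2 ^ β) (fun b => ¬ Nr M g u ((α : ℤ) * (b : ℤ) ^ 2 + l * b + k)) = 0 := by
      omega
    rw [h5]
    push_cast
    rw [zero_mul]
    positivity
  obtain ⟨r, rfl⟩ : ∃ r, u = g + r := ⟨u - g, by omega⟩
  classical
  set Nn : ℤ → ℕ → ℝ := fun h b => ‖∑ m ∈ range M, ee ((h : ℝ) *
      ((m : ℝ) * (((α : ℤ) * (b : ℤ) ^ 2 + l * b + k : ℤ) : ℝ)) / 2 ^ (g + r))‖ with hNn
  set H : Finset ℤ := (Icc (-(4 : ℤ) ^ g) (4 ^ g)).filter (fun h => h ≠ 0) with hH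
  have hcard : (H.card : ℝ) ≤ 3 * 4 ^ g := by
    have h3 : H.card ≤ (Icc (-(4 : ℤ) ^ g) (4 ^ g)).card := card_filter_le _ _
    rw [Int.card_Icc] at h3
    have h4 : ((4 : ℤ) ^ g + 1 - -4 ^ g).toNat = 2 * 4 ^ g + 1 := by
      have : ((4 : ℤ) ^ g + 1 - -4 ^ g) = ((2 * 4 ^ g + 1 : ℕ) : ℤ) := by push_cast; ring
      rw [this, Int.toNat_natCast]
    rw [h4] at h3
    have h5 : (H.card : ℝ) ≤ 2 * 4 ^ g + 1 := by exact_mod_cast h3
    have h6 : (1 : ℝ) ≤ 4 ^ g := one_le_pow₀ (by norm_num)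
    linarith
  have hone : ∀ h ∈ H, (cnt (2 ^ β) (fun b => (1 / 2) ^ g * (M : ℝ) < Nn h b) : ℝ) ≤
      4 * 4 ^ g * ((1 / 2) ^ p * 2 ^ β) := by
    intro h hh
    rw [hH, mem_filter, mem_Icc] at hh
    have h3 := g1_mom hq hα hp hu hβ hM l k hh.2 (abs_le.2 hh.1)
    have h4 := cnt_markov (M := 2 ^ β) (P := fun b => (1 / 2) ^ g * (M : ℝ) < Nn h b)
      (f := fun b => Nn h b ^ 2) (c := ((1 / 2) ^ g * (M : ℝ)) ^ 2) (fun _ _ => by positivity)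
      (fun b _ hb => pow_le_pow_left₀ (by positivity) hb.le 2)
    have h5 := h4.trans h3
    have e1 : ((1 / 2 : ℝ) ^ g * M) ^ 2 = (M : ℝ) ^ 2 * (1 / 4) ^ g := by
      rw [mul_pow, ← pow_mul, mul_comm g 2, pow_mul]
      norm_num
      ring
    rw [e1] at h5
    have e2 : (4 : ℝ) ^ g * (1 / 4) ^ g = 1 := by rw [← mul_pow]; norm_num
    have hM2 : (0 : ℝ) < (M : ℝ) ^ 2 := by positivity
    have h6 : (1 / 4 : ℝ) ^ g * (cnt (2 ^ β) (fun b => (1 / 2) ^ g * (M : ℝ) < Nn h b) : ℝ) ≤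
        4 * (1 / 2) ^ p * 2 ^ β := by
      refine le_of_mul_le_mul_left ?_ hM2
      calc (M : ℝ) ^ 2 * ((1 / 4 : ℝ) ^ g *
            (cnt (2 ^ β) (fun b => (1 / 2) ^ g * (M : ℝ) < Nn h b) : ℝ))
          = (M : ℝ) ^ 2 * (1 / 4) ^ g *
            (cnt (2 ^ β) (fun b => (1 / 2) ^ g * (M : ℝ) < Nn h b) : ℝ) := by ring
        _ ≤ 4 * (1 / 2) ^ p * (2 ^ β * (M : ℝ) ^ 2) := h5
        _ = (M : ℝ) ^ 2 * (4 * (1 / 2) ^ p * 2 ^ β) := by ring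
    calc (cnt (2 ^ β) (fun b => (1 / 2) ^ g * (M : ℝ) < Nn h b) : ℝ)
        = 4 ^ g * ((1 / 4 : ℝ) ^ g *
          (cnt (2 ^ β) (fun b => (1 / 2) ^ g * (M : ℝ) < Nn h b) : ℝ)) := by
          rw [← mul_assoc, e2, one_mul]
      _ ≤ 4 ^ g * (4 * (1 / 2) ^ p * 2 ^ β) := mul_le_mul_of_nonneg_left h6 (by positivity)
      _ = 4 * 4 ^ g * ((1 / 2) ^ p * 2 ^ β) := by ring
  have h3 : cnt (2 ^ β) (fun b => ¬ Nr M g (g + r) ((α : ℤ) * (b : ℤ) ^ 2 + l * b + k)) ≤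
      cnt (2 ^ β) (fun b => ∃ h ∈ H, (1 / 2) ^ g * (M : ℝ) < Nn h b) := by
    refine cnt_mono fun b _ hb => ?_
    by_contra hcon
    push Not at hcon
    refine hb (g1_det h1 h2 hg4 fun h h0 hh => ?_)
    refine hcon h ?_
    rw [hH, mem_filter, mem_Icc]
    exact ⟨abs_le.1 hh, h0⟩
  have h4 : (cnt (2 ^ β) (fun b => ¬ Nr M g (g + r) ((α : ℤ) * (b : ℤ) ^ 2 + l * b + k)) : ℝ) ≤
      3 * 4 ^ g * (4 * 4 ^ g * ((1 / 2) ^ p * 2 ^ β)) := by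
    calc (cnt (2 ^ β) (fun b => ¬ Nr M g (g + r) ((α : ℤ) * (b : ℤ) ^ 2 + l * b + k)) : ℝ)
        ≤ ((∑ h ∈ H, cnt (2 ^ β) (fun b => (1 / 2) ^ g * (M : ℝ) < Nn h b) : ℕ) : ℝ) := by
          exact_mod_cast h3.trans (cnt_exists _ H _)
      _ = ∑ h ∈ H, (cnt (2 ^ β) (fun b => (1 / 2) ^ g * (M : ℝ) < Nn h b) : ℝ) := by push_cast; rfl
      _ ≤ ∑ h ∈ H, 4 * 4 ^ g * ((1 / 2) ^ p * 2 ^ β) := sum_le_sum hone
      _ = H.card * (4 * 4 ^ g * ((1 / 2) ^ p * 2 ^ β)) := by rw [sum_const, nsmul_eq_mul]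
      _ ≤ 3 * 4 ^ g * (4 * 4 ^ g * ((1 / 2) ^ p * 2 ^ β)) :=
          mul_le_mul_of_nonneg_right hcard (by positivity)
  have e3 : (1 / 2 : ℝ) ^ p * 2 ^ p = 1 := by rw [← mul_pow]; norm_num
  have e4 : (16 : ℝ) ^ g = 4 ^ g * 4 ^ g := by rw [← mul_pow]; norm_num
  calc (cnt (2 ^ β) (fun b => ¬ Nr M g (g + r) ((α : ℤ) * (b : ℤ) ^ 2 + l * b + k)) : ℝ) * 2 ^ p
      ≤ 3 * 4 ^ g * (4 * 4 ^ g * ((1 / 2) ^ p * 2 ^ β)) * 2 ^ p :=
        mul_le_mul_of_nonneg_right h4 (by positivity)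
    _ = 12 * (4 ^ g * 4 ^ g) * 2 ^ β * ((1 / 2) ^ p * 2 ^ p) := by ring
    _ = 12 * 16 ^ g * 2 ^ β := by rw [e3, e4, mul_one]

end Pool.Agent.H9.TC
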