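import Pool.Agent.H9.TC.Stm
import Pool.Agent.H9.TC.Basic

/-!
Project TC, row TC-27: the pair estimate `P5aStmt` for one `n1` (helper81).
-/

namespace Pool.Agent.H9.TC

open Finset

/-- The derivative of `cub`. -/
def p5D (c d e x : ℤ) : ℤ := 3 * c * x ^ 2 + 2 * d * x + e

theorem p5_cub_add (c d e f x : ℤ) (a : ℕ) (m : ℤ) :
    (2 : ℤ) ^ (2 * a) ∣ cub c d e f (x + 2 ^ a * m) -
      (cub c d e f x + 2 ^ a * (m * p5D c d e x)) := by
  refine ⟨m ^ 2 * (3 * c * x + d + c * (2 ^ a * m)), ?_⟩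
  unfold cub p5D
  rw [two_mul a, pow_add]
  ring

theorem p5_near_down {a g : ℕ} (hg : g ≤ a) {X Y r : ℤ} (hX : X = 2 ^ a * Y + r) (h0 : 0 ≤ r)
    (h1 : r < 2 ^ a) (h : near (2 * a) ((2 : ℤ) ^ (2 * a - g)) X) :
    near a ((2 : ℤ) ^ (a - g)) Y := by
  have hp : (0 : ℤ) < 2 ^ a := by positivity
  have hY0 := Int.emod_nonneg Y hp.ne'
  have hY1 := Int.emod_lt_of_pos Y hp
  have hY : Y = 2 ^ a * (Y / 2 ^ a) + Y % 2 ^ a := (Int.mul_ediv_add_emod Y (2 ^ a)).symm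
  have h2a : (2 : ℤ) ^ (2 * a) = 2 ^ a * 2 ^ a := by rw [two_mul, pow_add]
  have h2g : (2 : ℤ) ^ (2 * a - g) = 2 ^ a * 2 ^ (a - g) := by
    rw [← pow_add]; congr 1; omega
  have hmod : X % 2 ^ (2 * a) = 2 ^ a * (Y % 2 ^ a) + r := by
    have e1 : X = (2 ^ a * (Y % 2 ^ a) + r) + 2 ^ (2 * a) * (Y / 2 ^ a) := by
      rw [hX, h2a]
      linear_combination (2 ^ a) * hY
    rw [e1, Int.add_mul_emod_self_left]
    refine Int.emod_eq_of_lt (by positivity) ?_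
    rw [h2a]
    nlinarith
  unfold near at h ⊢
  rw [hmod, h2a, h2g] at h
  rcases h with h | h
  · left
    by_contra hc
    push Not at hc
    nlinarith
  · right
    by_contra hc
    push Not at hc
    have : Y % 2 ^ a + 1 ≤ 2 ^ a - 2 ^ (a - g) := by linarith
    nlinarith

/-- The digits `[0, 2a)`. -/
theorem p5_TW (c d e f x : ℤ) (a : ℕ) (m : ℤ) :
    TW 0 (2 * a) (cub c d e f (x + 2 ^ a * m)) =
      TW 0 a (cub c d e f x) * TW 0 a (cub c d e f x / 2 ^ a + m * p5D c d e x) := by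
  rw [TW_congr (p5_cub_add c d e f x a m), TW_low_high (by omega : a ≤ 2 * a)]
  congr 2
  omega

theorem p5_near (c d e f x : ℤ) {a g : ℕ} (hg : g ≤ a) (m : ℤ)
    (h : near (2 * a) ((2 : ℤ) ^ (2 * a - g)) (cub c d e f (x + 2 ^ a * m))) :
    near a ((2 : ℤ) ^ (a - g)) (cub c d e f x / 2 ^ a + m * p5D c d e x) := by
  have hp : (0 : ℤ) < 2 ^ a := by positivity
  rw [near_congr (p5_cub_add c d e f x a m)] at h
  refine p5_near_down hg (r := cub c d e f x % 2 ^ a) ?_ (Int.emod_nonneg _ hp.ne')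
    (Int.emod_lt_of_pos _ hp) h
  have hY : cub c d e f x = 2 ^ a * (cub c d e f x / 2 ^ a) + cub c d e f x % 2 ^ a :=
    (Int.mul_ediv_add_emod _ _).symm
  linear_combination hY

/-- The sum over `m` for one `b`. -/
theorem p5_inner {q1 : ℕ} (c : ℤ) (d e f : Fin q1 → ℤ) {a V g M : ℕ} (hV : 2 * a ≤ V)
    (hg : g ≤ a) (x x' : ℤ)
    (hs : ∀ i, ∀ m < M, small V ((2 : ℤ) ^ (2 * a - g))
      (cub c (d i) (e i) (f i) (x' + 2 ^ a * (m : ℤ)) -
        cub c (d i) (e i) (f i) (x + 2 ^ a * (m : ℤ)))) {δ : ℝ}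
    (h1 : ∀ y : Fin (q1 + q1) → ℤ, |∑ m ∈ range M, ∏ i, TW 0 a (y i + (m : ℤ) *
      Fin.append (fun i => p5D c (d i) (e i) x) (fun i => p5D c (d i) (e i) x') i)| ≤ δ * M)
    (h2 : ∀ i, Nr M g a (p5D c (d i) (e i) x)) :
    |∑ m ∈ range M, ∏ i, (TW 0 V (cub c (d i) (e i) (f i) (x + 2 ^ a * (m : ℤ))) *
      TW 0 V (cub c (d i) (e i) (f i) (x' + 2 ^ a * (m : ℤ))))| ≤
        δ * M + 2 * (q1 * (8 * M / 2 ^ g)) := by
  set P : ℕ → Prop := fun m => ∃ i : Fin q1, near a ((2 : ℤ) ^ (a - g))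
    (cub c (d i) (e i) (f i) x / 2 ^ a + (m : ℤ) * p5D c (d i) (e i) x) with hP
  set K : ℝ := ∏ i, (TW 0 a (cub c (d i) (e i) (f i) x) * TW 0 a (cub c (d i) (e i) (f i) x'))
    with hK
  set y : Fin (q1 + q1) → ℤ := Fin.append (fun i => cub c (d i) (e i) (f i) x / 2 ^ a)
    (fun i => cub c (d i) (e i) (f i) x' / 2 ^ a) with hy
  set σ : Fin (q1 + q1) → ℤ := Fin.append (fun i => p5D c (d i) (e i) x)
    (fun i => p5D c (d i) (e i) x') with hσ
  have habsK : |K| = 1 := by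
    rw [hK, Finset.abs_prod]
    refine Finset.prod_eq_one fun i _ => ?_
    rw [abs_mul, abs_TW, abs_TW, one_mul]
  have hf : ∀ m < M, |∏ i, (TW 0 V (cub c (d i) (e i) (f i) (x + 2 ^ a * (m : ℤ))) *
      TW 0 V (cub c (d i) (e i) (f i) (x' + 2 ^ a * (m : ℤ))))| ≤ 1 := by
    intro m _
    rw [Finset.abs_prod]
    refine (Finset.prod_eq_one fun i _ => ?_).le
    rw [abs_mul, abs_TW, abs_TW, one_mul]
  have hgg : ∀ m < M, |K * ∏ i, TW 0 a (y i + (m : ℤ) * σ i)| ≤ 1 := by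
    intro m _
    rw [abs_mul, habsK, one_mul, Finset.abs_prod]
    exact (Finset.prod_eq_one fun i _ => abs_TW _ _ _).le
  have heq : ∀ m < M, ¬ P m →
      ∏ i, (TW 0 V (cub c (d i) (e i) (f i) (x + 2 ^ a * (m : ℤ))) *
        TW 0 V (cub c (d i) (e i) (f i) (x' + 2 ^ a * (m : ℤ)))) =
      K * ∏ i, TW 0 a (y i + (m : ℤ) * σ i) := by
    intro m hm hn
    have hprod : ∏ i, TW 0 a (y i + (m : ℤ) * σ i) =
        ∏ i, (TW 0 a (cub c (d i) (e i) (f i) x / 2 ^ a + (m : ℤ) * p5D c (d i) (e i) x) *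
          TW 0 a (cub c (d i) (e i) (f i) x' / 2 ^ a + (m : ℤ) * p5D c (d i) (e i) x')) := by
      rw [Fin.prod_univ_add, Finset.prod_mul_distrib]
      congr 1
      · refine Finset.prod_congr rfl fun i _ => ?_
        rw [hy, hσ, Fin.append_left, Fin.append_left]
      · refine Finset.prod_congr rfl fun i _ => ?_
        rw [hy, hσ, Fin.append_right, Fin.append_right]
    rw [hprod, hK, ← Finset.prod_mul_distrib]
    refine Finset.prod_congr rfl fun i _ => ?_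
    have hni : ¬ near (2 * a) ((2 : ℤ) ^ (2 * a - g))
        (cub c (d i) (e i) (f i) (x + 2 ^ a * (m : ℤ))) := fun h =>
      hn ⟨i, p5_near c (d i) (e i) (f i) x hg m h⟩
    have hst : TW (2 * a) V (cub c (d i) (e i) (f i) (x' + 2 ^ a * (m : ℤ))) =
        TW (2 * a) V (cub c (d i) (e i) (f i) (x + 2 ^ a * (m : ℤ))) :=
      TW_stable hni (hs i m hm)
    have e1 := TW_split (Nat.zero_le (2 * a)) hV (cub c (d i) (e i) (f i) (x + 2 ^ a * (m : ℤ)))
    have e2 := TW_split (Nat.zero_le (2 * a)) hV (cub c (d i) (e i) (f i) (x' + 2 ^ a * (m : ℤ)))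
    have e3 := TW_mul_self (2 * a) V (cub c (d i) (e i) (f i) (x + 2 ^ a * (m : ℤ)))
    rw [← e1, ← e2, hst, p5_TW, p5_TW]
    linear_combination (TW 0 a (cub c (d i) (e i) (f i) x) *
      TW 0 a (cub c (d i) (e i) (f i) x / 2 ^ a + (m : ℤ) * p5D c (d i) (e i) x) *
      (TW 0 a (cub c (d i) (e i) (f i) x') *
      TW 0 a (cub c (d i) (e i) (f i) x' / 2 ^ a + (m : ℤ) * p5D c (d i) (e i) x'))) * e3
  have hdiff := abs_sum_sub_le hf hgg heq
  have hmain : |∑ m ∈ range M, K * ∏ i, TW 0 a (y i + (m : ℤ) * σ i)| ≤ δ * M := by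
    rw [← Finset.mul_sum, abs_mul, habsK, one_mul]
    exact h1 y
  have hcnt : (cnt M P : ℝ) ≤ q1 * (8 * M / 2 ^ g) := by
    have hc1 := cnt_exists_fin M (fun (i : Fin q1) m => near a ((2 : ℤ) ^ (a - g))
      (cub c (d i) (e i) (f i) x / 2 ^ a + (m : ℤ) * p5D c (d i) (e i) x))
    have hc2 : (cnt M P : ℝ) ≤ ∑ i : Fin q1, (cnt M (fun m => near a ((2 : ℤ) ^ (a - g))
      (cub c (d i) (e i) (f i) x / 2 ^ a + (m : ℤ) * p5D c (d i) (e i) x)) : ℝ) := by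
      exact_mod_cast hc1
    refine hc2.trans ?_
    have hc3 : ∀ i ∈ (univ : Finset (Fin q1)), (cnt M (fun m => near a ((2 : ℤ) ^ (a - g))
      (cub c (d i) (e i) (f i) x / 2 ^ a + (m : ℤ) * p5D c (d i) (e i) x)) : ℝ) ≤
        8 * M / 2 ^ g := by
      intro i _
      rw [le_div_iff₀ (by positivity), mul_comm]
      exact_mod_cast h2 i (cub c (d i) (e i) (f i) x / 2 ^ a)
    refine (Finset.sum_le_sum hc3).trans ?_
    rw [Finset.sum_const, Finset.card_univ, Fintype.card_fin, nsmul_eq_mul]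
  have := abs_le.1 hdiff
  have := abs_le.1 hmain
  rw [abs_le]
  constructor <;> linarith [(abs_le.1 hdiff).1, (abs_le.1 hdiff).2, (abs_le.1 hmain).1,
    (abs_le.1 hmain).2]

theorem p5_lam {q1 : ℕ} {d : Fin q1 → ℤ} (hinj : Function.Injective d) {D B u v : ℤ}
    (hD : ∀ i i', |2 * d i - 2 * d i'| ≤ D) (hDB : D ≤ B) (huv : D < |u - v|)
    (huB : |u - v| + D ≤ B) (i i' : Fin (q1 + q1)) (h : i ≠ i') :
    Fin.append (fun i => u + 2 * d i) (fun i => v + 2 * d i) i ≠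
      Fin.append (fun i => u + 2 * d i) (fun i => v + 2 * d i) i' ∧
    |Fin.append (fun i => u + 2 * d i) (fun i => v + 2 * d i) i -
      Fin.append (fun i => u + 2 * d i) (fun i => v + 2 * d i) i'| ≤ B := by
  have key : ∀ i i' : Fin q1, u + 2 * d i ≠ v + 2 * d i' ∧
      |(u + 2 * d i) - (v + 2 * d i')| ≤ B := by
    intro i i'
    constructor
    · intro he
      have h1 : u - v = -(2 * d i - 2 * d i') := by linarith
      rw [h1, abs_neg] at huv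
      exact absurd (hD i i') (not_le.2 huv)
    · have h1 : (u + 2 * d i) - (v + 2 * d i') = (u - v) + (2 * d i - 2 * d i') := by ring
      rw [h1]
      exact (abs_add_le _ _).trans ((add_le_add le_rfl (hD i i')).trans huB)
  revert h
  refine Fin.addCases (fun i => ?_) (fun i => ?_) i <;>
    refine Fin.addCases (fun i' => ?_) (fun i' => ?_) i' <;> intro h
  · rw [Fin.append_left, Fin.append_left]
    have hne : i ≠ i' := fun he => h (by rw [he])
    constructor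
    · intro he
      exact hne (hinj (by linarith))
    · have h1 : (u + 2 * d i) - (u + 2 * d i') = 2 * d i - 2 * d i' := by ring
      rw [h1]
      exact (hD i i').trans hDB
  · rw [Fin.append_left, Fin.append_right]
    exact key i i'
  · rw [Fin.append_left, Fin.append_right]
    obtain ⟨k1, k2⟩ := key i' i
    refine ⟨fun he => k1 he.symm, ?_⟩
    rw [abs_sub_comm]
    exact k2
  · rw [Fin.append_right, Fin.append_right]
    have hne : i ≠ i' := fun he => h (by rw [he])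
    constructor
    · intro he
      exact hne (hinj (by linarith))
    · have h1 : (v + 2 * d i) - (v + 2 * d i') = 2 * d i - 2 * d i' := by ring
      rw [h1]
      exact (hD i i').trans hDB

theorem p5_sig {q1 : ℕ} (c : ℕ) (d e : Fin q1 → ℤ) (u v : ℤ) (b : ℕ) (i : Fin (q1 + q1)) :
    sig (3 * c) (Fin.append (fun i => 6 * c * u + 2 * d i) (fun i => 6 * c * v + 2 * d i))
      (Fin.append (fun i => 3 * c * u ^ 2 + 2 * d i * u + e i)
        (fun i => 3 * c * v ^ 2 + 2 * d i * v + e i)) b i =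
    Fin.append (fun i => p5D c (d i) (e i) (u + b)) (fun i => p5D c (d i) (e i) (v + b)) i := by
  unfold sig
  refine Fin.addCases (fun i => ?_) (fun i => ?_) i
  · rw [Fin.append_left, Fin.append_left, Fin.append_left]
    unfold p5D
    push_cast
    ring
  · rw [Fin.append_right, Fin.append_right, Fin.append_right]
    unfold p5D
    push_cast
    ring

/-- Summation over `b`. -/
theorem p5_sum {B M : ℕ} {S : ℕ → ℝ} {P : ℕ → Prop} {ε : ℝ} (h1 : ∀ b < B, |S b| ≤ M)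
    (h2 : ∀ b < B, P b → |S b| ≤ 3 * ε / 4 * M) (h3 : (cnt B (fun b => ¬ P b) : ℝ) ≤ ε / 4 * B)
    (hε : 0 ≤ ε) : |∑ b ∈ range B, S b| ≤ ε * (B * M) := by
  classical
  refine (abs_sum_le_sum_abs _ _).trans ?_
  have h4 : ∀ b ∈ range B, |S b| ≤ 3 * ε / 4 * M + if ¬ P b then (M : ℝ) else 0 := by
    intro b hb
    have hb' := mem_range.1 hb
    by_cases hp : P b
    · rw [if_neg (not_not.2 hp), add_zero]
      exact h2 b hb' hp
    · rw [if_pos hp]
      have : (0 : ℝ) ≤ 3 * ε / 4 * M := by positivity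
      linarith [h1 b hb']
  refine (Finset.sum_le_sum h4).trans ?_
  rw [Finset.sum_add_distrib, Finset.sum_const, card_range, nsmul_eq_mul, ← Finset.sum_filter,
    Finset.sum_const, nsmul_eq_mul]
  have h5 : (((range B).filter (fun b => ¬ P b)).card : ℝ) ≤ ε / 4 * B := by
    refine le_trans (le_of_eq ?_) h3
    unfold cnt
    congr
  have hM : (0 : ℝ) ≤ M := by positivity
  nlinarith [mul_le_mul_of_nonneg_right h5 hM]

theorem p5_params (q ν μ1 : ℕ) (h : 400 * C1 q * (μ1 + 1) ≤ ν) :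
    μ1 ≤ mu q ν ∧ 400 * mu q ν ≤ ν := by
  have hC : 1 ≤ C1 q := by unfold C1; omega
  have hp : μ1 + 1 ≤ pp q ν := by
    unfold pp
    rw [Nat.le_div_iff_mul_le (by positivity)]
    calc (μ1 + 1) * (400 * C1 q) = 400 * C1 q * (μ1 + 1) := by ring
      _ ≤ ν := h
  constructor
  · unfold mu
    nlinarith
  · have h1 : ν / (400 * C1 q) * (400 * C1 q) ≤ ν := Nat.div_mul_le_self _ _
    unfold mu pp
    calc 400 * (C1 q * (ν / (400 * C1 q))) = ν / (400 * C1 q) * (400 * C1 q) := by ring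
      _ ≤ ν := h1

theorem p5_exists_g (q1 : ℕ) {ε : ℝ} (hε : 0 < ε) :
    ∃ g : ℕ, 1 ≤ g ∧ ∀ M : ℕ, 2 * ((q1 : ℝ) * (8 * M / 2 ^ g)) ≤ ε / 2 * M := by
  obtain ⟨g, hg⟩ := pow_unbounded_of_one_lt (32 * (q1 : ℝ) / ε) (one_lt_two)
  refine ⟨g + 1, by omega, fun M => ?_⟩
  have h1 : 32 * (q1 : ℝ) < 2 ^ g * ε := by
    rwa [div_lt_iff₀ hε] at hg
  have h2 : (0 : ℝ) < 2 ^ (g + 1) := by positivity
  have h3 : 2 * ((q1 : ℝ) * (8 * M / 2 ^ (g + 1))) = (16 * q1 * M) / 2 ^ (g + 1) := by ring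
  rw [h3, div_le_iff₀ h2]
  have hM : (0 : ℝ) ≤ M := by positivity
  have h4 : (16 * (q1 : ℝ)) ≤ ε / 2 * 2 ^ (g + 1) := by
    rw [pow_succ]
    nlinarith
  calc 16 * (q1 : ℝ) * M ≤ (ε / 2 * 2 ^ (g + 1)) * M := mul_le_mul_of_nonneg_right h4 hM
    _ = ε / 2 * M * 2 ^ (g + 1) := by ring

theorem p5_exists_D {q1 : ℕ} (d : Fin q1 → ℤ) :
    ∃ D : ℕ, ∀ i i', |2 * d i - 2 * d i'| ≤ (D : ℤ) := by
  refine ⟨∑ i, ∑ i', (2 * d i - 2 * d i').natAbs, fun i i' => ?_⟩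
  rw [Nat.cast_sum]
  have h1 : |2 * d i - 2 * d i'| ≤ ((∑ i', (2 * d i - 2 * d i').natAbs : ℕ) : ℤ) := by
    rw [Nat.cast_sum, ← Int.natCast_natAbs]
    exact Finset.single_le_sum (f := fun i' => (((2 * d i - 2 * d i').natAbs : ℕ) : ℤ))
      (fun j _ => by positivity) (mem_univ i')
  refine h1.trans ?_
  exact Finset.single_le_sum
    (f := fun i => ((∑ i', (2 * d i - 2 * d i').natAbs : ℕ) : ℤ))
    (fun j _ => by positivity) (mem_univ i)

/-- The numerical facts about `r`. -/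
theorem p5_num {c C' g J0 D μ r' : ℕ} (hc : 1 ≤ c)
    (hμ : (C' + 2 * (C' + g + 2 + J0)) + (6 * c * J0 + D + 1) ≤ μ) (hr1 : 1 ≤ r')
    (hr2 : r' ≤ 2 ^ (5 * μ + 2 * (C' + g + 2 + J0))) :
    2 ^ (2 * μ + C') * r' ≤ 2 ^ (8 * μ) ∧ (D : ℤ) ≤ 2 ^ (8 * μ) ∧
    ∀ j < J0, ∀ j' < J0, j ≠ j' → ∀ n1 : ℤ,
      (D : ℤ) < |6 * c * (n1 + j * ((2 ^ (2 * μ + C') * r' : ℕ) : ℤ)) -
        6 * c * (n1 + j' * ((2 ^ (2 * μ + C') * r' : ℕ) : ℤ))| ∧
      |6 * c * (n1 + j * ((2 ^ (2 * μ + C') * r' : ℕ) : ℤ)) -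
        6 * c * (n1 + j' * ((2 ^ (2 * μ + C') * r' : ℕ) : ℤ))| + D ≤ 2 ^ (8 * μ) := by
  set κ := C' + 2 * (C' + g + 2 + J0) with hκ
  set H := 6 * c * J0 + D + 1 with hH
  set r := 2 ^ (2 * μ + C') * r' with hr
  have hr7 : r ≤ 2 ^ (7 * μ + κ) := by
    calc r ≤ 2 ^ (2 * μ + C') * 2 ^ (5 * μ + 2 * (C' + g + 2 + J0)) :=
          Nat.mul_le_mul_left _ hr2
      _ = 2 ^ (7 * μ + κ) := by
          rw [← pow_add]; congr 1; omega
  have hHr : H * 2 ^ (7 * μ + κ) ≤ 2 ^ (8 * μ) := by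
    calc H * 2 ^ (7 * μ + κ) ≤ 2 ^ H * 2 ^ (7 * μ + κ) :=
          Nat.mul_le_mul_right _ Nat.lt_two_pow_self.le
      _ = 2 ^ (H + (7 * μ + κ)) := by rw [← pow_add]
      _ ≤ 2 ^ (8 * μ) := Nat.pow_le_pow_right (by norm_num) (by omega)
  have hHr' : H * r ≤ 2 ^ (8 * μ) := (Nat.mul_le_mul_left _ hr7).trans hHr
  have hDr : D < r := by
    calc D < 2 ^ D := Nat.lt_two_pow_self
      _ ≤ 2 ^ (2 * μ + C') := Nat.pow_le_pow_right (by norm_num) (by omega)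
      _ ≤ r := Nat.le_mul_of_pos_right _ hr1
  have hr0 : 1 ≤ r := by omega
  have hH1 : 1 ≤ H := by omega
  have hD8 : D ≤ 2 ^ (8 * μ) := by nlinarith
  refine ⟨by nlinarith, by exact_mod_cast hD8, ?_⟩
  intro j hj j' hj' hne n1
  have e1 : 6 * (c : ℤ) * (n1 + j * (r : ℤ)) - 6 * c * (n1 + j' * (r : ℤ)) =
      (6 * c * r) * ((j : ℤ) - j') := by ring
  rw [e1, abs_mul, abs_of_nonneg (by positivity : (0 : ℤ) ≤ 6 * c * r)]
  have hj1 : (1 : ℤ) ≤ |(j : ℤ) - j'| := by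
    have : (j : ℤ) - j' ≠ 0 := by omega
    exact Int.one_le_abs this
  have hj2 : |(j : ℤ) - j'| ≤ J0 := by
    rw [abs_le]; constructor <;> omega
  have hcr : (r : ℤ) ≤ 6 * c * r := by
    have : (1 : ℤ) ≤ c := by exact_mod_cast hc
    nlinarith [(by exact_mod_cast hr0 : (1 : ℤ) ≤ r)]
  have hDr' : (D : ℤ) < r := by exact_mod_cast hDr
  have hr0' : (1 : ℤ) ≤ r := by exact_mod_cast hr0
  constructor
  · nlinarith
  · have h1 : (6 * (c : ℤ) * r) * |(j : ℤ) - j'| ≤ (6 * c * r) * J0 :=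
      mul_le_mul_of_nonneg_left hj2 (by positivity)
    have h2 : ((H * r : ℕ) : ℤ) ≤ ((2 ^ (8 * μ) : ℕ) : ℤ) := by exact_mod_cast hHr'
    have h3 : ((H * r : ℕ) : ℤ) = (6 * c * J0 + D + 1) * r := by rw [hH]; push_cast; ring
    rw [h3] at h2
    push_cast at h2
    have hD0 : (0 : ℤ) ≤ D := by positivity
    nlinarith

theorem p5a (hc : CoreStmt) (hd : DStmt) (hl : DelStmt) : P5aStmt := by
  intro q1 c d e f C' J0 ε hq1 hc1 hinj hε
  obtain ⟨g, hg1, hg2⟩ := p5_exists_g q1 hε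
  obtain ⟨ν1, hν1⟩ := hc (q1 + q1) (3 * c) g (ε / 4) (by omega) (by omega) hg1 (by positivity)
  choose μ0 hμ0 using fun i => hl c (d i) (e i) (f i) C' J0 g
  obtain ⟨D, hD⟩ := p5_exists_D d
  refine ⟨max ν1 (400 * C1 (q1 + q1) * ((∑ i, μ0 i) + (C' + 2 * (C' + g + 2 + J0)) +
    (6 * c * J0 + D + 1) + 1)), fun ν hν M hM1 hM2 s hs => ?_⟩
  obtain ⟨hμ1, hμ2⟩ := p5_params (q1 + q1) ν _ (le_trans (le_max_right _ _) hν)
  have hcore := hν1 ν (le_trans (le_max_left _ _) hν) M hM1 hM2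
  have hβ : aa (q1 + q1) ν = be (q1 + q1) ν + 9 * mu (q1 + q1) ν := by
    unfold be aa; omega
  have ha300 : 300 * mu (q1 + q1) ν ≤ aa (q1 + q1) ν := by unfold aa; omega
  have hV : 2 * ν + C' = 2 * aa (q1 + q1) ν + 2 * mu (q1 + q1) ν + C' := by unfold aa; omega
  rw [hV]
  clear hν hV
  revert hs hM1 hM2 hμ1 hcore hβ ha300
  generalize mu (q1 + q1) ν = μ
  generalize aa (q1 + q1) ν = a
  generalize be (q1 + q1) ν = β
  intro hM1 hM2 hs hμ1 hcore hβ ha300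
  have hn1 : 2 ^ β * s < 2 ^ a := by
    rw [hβ, pow_add]
    exact Nat.mul_lt_mul_of_pos_left hs (by positivity)
  obtain ⟨r', hr1, hr2, z, w, hz, hw⟩ := hd (6 * c * ((2 ^ β * s : ℕ) : ℤ))
    (3 * c * ((2 ^ β * s : ℕ) : ℤ) ^ 2) a (3 * μ + (C' + g + 2 + J0)) (2 * μ + (C' + g + 2 + J0))
  have hr2' : r' ≤ 2 ^ (5 * μ + 2 * (C' + g + 2 + J0)) := by
    refine hr2.trans (le_of_eq ?_)
    congr 1
    omega
  obtain ⟨hr8, hD8, hnum⟩ := p5_num (C' := C') (g := g) (J0 := J0) (D := D) (μ := μ) hc1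
    (by omega) hr1 hr2'
  refine ⟨2 ^ (2 * μ + C') * r', hr8, fun j hj j' hj' hjj => ?_⟩
  obtain ⟨hn2, hn3⟩ := hnum j hj j' hj' hjj ((2 ^ β * s : ℕ) : ℤ)
  set r : ℕ := 2 ^ (2 * μ + C') * r' with hr
  set u : ℤ := ((2 ^ β * s : ℕ) : ℤ) + j * (r : ℤ) with hu
  set v : ℤ := ((2 ^ β * s : ℕ) : ℤ) + j' * (r : ℤ) with hv
  have hcb := hcore (Fin.append (fun i => 6 * c * u + 2 * d i) (fun i => 6 * c * v + 2 * d i))
    (Fin.append (fun i => 3 * c * u ^ 2 + 2 * d i * u + e i)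
      (fun i => 3 * c * v ^ 2 + 2 * d i * v + e i))
    (fun i i' h => p5_lam hinj hD hD8 hn2 hn3 i i' h)
  have hcast : (2 : ℝ) ^ β = ((2 ^ β : ℕ) : ℝ) := by push_cast; rfl
  rw [hcast]
  refine p5_sum (P := fun b => (∀ y : Fin (q1 + q1) → ℤ,
      |∑ m ∈ range M, ∏ i, TW 0 a (y i + (m : ℤ) * sig (3 * c)
        (Fin.append (fun i => 6 * c * u + 2 * d i) (fun i => 6 * c * v + 2 * d i))
        (Fin.append (fun i => 3 * c * u ^ 2 + 2 * d i * u + e i)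
          (fun i => 3 * c * v ^ 2 + 2 * d i * v + e i)) b i)| ≤ ε / 4 * M) ∧
      (∀ i, Nr M g a (sig (3 * c)
        (Fin.append (fun i => 6 * c * u + 2 * d i) (fun i => 6 * c * v + 2 * d i))
        (Fin.append (fun i => 3 * c * u ^ 2 + 2 * d i * u + e i)
          (fun i => 3 * c * v ^ 2 + 2 * d i * v + e i)) b i))) ?_ ?_ ?_ hε.le
  · intro b _
    refine (abs_sum_le_sum_abs _ _).trans ?_
    refine (Finset.sum_le_sum fun m _ => (?_ : _ ≤ (1 : ℝ))).trans ?_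
    · rw [Finset.abs_prod]
      refine (Finset.prod_eq_one fun i _ => ?_).le
      rw [abs_mul, abs_TW, abs_TW, one_mul]
    · rw [Finset.sum_const, card_range, nsmul_eq_mul, mul_one]
  · intro b hb hP
    obtain ⟨hP1, hP2⟩ := hP
    simp only [p5_sig] at hP1 hP2
    have hx : ∀ m : ℕ, (2 : ℤ) ^ β * (s : ℤ) + b + 2 ^ a * (m : ℤ) + j * (r : ℤ) =
        (u + b) + 2 ^ a * (m : ℤ) := by
      intro m; rw [hu]; push_cast; ring
    have hx' : ∀ m : ℕ, (2 : ℤ) ^ β * (s : ℤ) + b + 2 ^ a * (m : ℤ) + j' * (r : ℤ) =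
        (v + b) + 2 ^ a * (m : ℤ) := by
      intro m; rw [hv]; push_cast; ring
    simp only [hx, hx']
    have hin := p5_inner (c : ℤ) d e f (a := a) (V := 2 * a + 2 * μ + C') (g := g) (M := M)
      (by omega) (by omega) (u + b) (v + b) ?_ hP1 (fun i => ?_)
    · refine hin.trans ?_
      linarith [hg2 M]
    · intro i m hm
      have hdel := hμ0 i μ ?_ a β hβ ha300 (2 ^ β * s) hn1 r' hr1 hr2' z w hz hw b hb m ?_
        j hj j' hj'
      · have e1 : (v + b) + 2 ^ a * (m : ℤ) = ((2 ^ β * s : ℕ) : ℤ) + b + 2 ^ a * m +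
            j' * (2 ^ (2 * μ + C') * r') := by
          rw [hv, hr]; push_cast; ring
        have e2 : (u + b) + 2 ^ a * (m : ℤ) = ((2 ^ β * s : ℕ) : ℤ) + b + 2 ^ a * m +
            j * (2 ^ (2 * μ + C') * r') := by
          rw [hu, hr]; push_cast; ring
        rw [e1, e2]
        exact hdel
      · have : μ0 i ≤ ∑ i, μ0 i :=
          Finset.single_le_sum (f := μ0) (fun j _ => Nat.zero_le _) (mem_univ i)
        show μ0 i ≤ μ
        omega
      · exact (hm.le).trans hM2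
    · have := hP2 (Fin.castAdd q1 i)
      rwa [Fin.append_left] at this
  · exact_mod_cast hcb

end Pool.Agent.H9.TC
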