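import Pool.Agent.H9.TC.Stm

/-!
Project TC (MP_b6022c_nt), row TC-22: most `b` are generic (union bound).
-/

namespace Pool.Agent.H9.TC

open Finset

theorem cp_cnt (B : ℕ) (P : ℕ → Prop) [DecidablePred P] :
    cnt B P = ((range B).filter P).card := by
  unfold cnt
  congr

theorem cp_mono {B : ℕ} {P Q : ℕ → Prop} (h : ∀ b, P b → Q b) : cnt B P ≤ cnt B Q := by
  classical
  rw [cp_cnt, cp_cnt]
  refine card_le_card fun b hb => ?_
  rw [mem_filter] at hb ⊢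
  exact ⟨hb.1, h b hb.2⟩

theorem cp_or {B : ℕ} (P Q : ℕ → Prop) (x y : ℝ) (h1 : (cnt B P : ℝ) ≤ x)
    (h2 : (cnt B Q : ℝ) ≤ y) : (cnt B (fun b => P b ∨ Q b) : ℝ) ≤ x + y := by
  classical
  have h : cnt B (fun b => P b ∨ Q b) ≤ cnt B P + cnt B Q := by
    rw [cp_cnt, cp_cnt, cp_cnt]
    refine le_trans (card_le_card fun b hb => ?_) (card_union_le _ _)
    rw [mem_filter] at hb
    rw [mem_union, mem_filter, mem_filter]
    rcases hb.2 with h | h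
    · exact Or.inl ⟨hb.1, h⟩
    · exact Or.inr ⟨hb.1, h⟩
  have h' : (cnt B (fun b => P b ∨ Q b) : ℝ) ≤ cnt B P + cnt B Q := by exact_mod_cast h
  linarith

theorem cp_exists {B : ℕ} {ι : Type} (s : Finset ι) (P : ι → ℕ → Prop) (x : ℝ)
    (h : ∀ i ∈ s, (cnt B (P i) : ℝ) ≤ x) :
    (cnt B (fun b => ∃ i ∈ s, P i b) : ℝ) ≤ s.card * x := by
  classical
  have h1 : cnt B (fun b => ∃ i ∈ s, P i b) ≤ ∑ i ∈ s, cnt B (P i) := by
    simp only [cp_cnt]
    refine le_trans (card_le_card fun b hb => ?_) card_biUnion_le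
    rw [mem_filter] at hb
    obtain ⟨hb1, i, hi, hb2⟩ := hb
    rw [mem_biUnion]
    exact ⟨i, hi, mem_filter.2 ⟨hb1, hb2⟩⟩
  have h2 : (cnt B (fun b => ∃ i ∈ s, P i b) : ℝ) ≤ ∑ i ∈ s, (cnt B (P i) : ℝ) := by
    exact_mod_cast h1
  refine h2.trans ((sum_le_sum h).trans (le_of_eq ?_))
  rw [sum_const, nsmul_eq_mul]

theorem cp_div {a C D : ℝ} {p : ℕ} {B : ℝ} (hB : 0 ≤ B) (h : a * 2 ^ p ≤ C * B) (hCD : C ≤ D) :
    a ≤ D * B / 2 ^ p := by
  rw [le_div_iff₀ (by positivity)]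
  exact h.trans (mul_le_mul_of_nonneg_right hCD hB)

/-- (CP) -/
theorem cp (h2 : N2Stmt) (h3 : N3Stmt) (h4 : N4Stmt) (h5 : N5Stmt) (h1 : G1Stmt)
    (h6 : G3Stmt) : CPStmt := by
  intro q α g L g9 Kn ε hq hα hg hL hε
  obtain ⟨c2, p2, H2⟩ := h2 q α L g9 hq hα hL
  obtain ⟨c3, p3, H3⟩ := h3 q α L g9 hq hα hL
  obtain ⟨c4, p4, H4⟩ := h4 q α L g9 hq hα hL
  obtain ⟨c5, p5, H5⟩ := h5 q α L g9 hq hα hL
  obtain ⟨c1, p1, H1⟩ := h1 α g hα hg
  obtain ⟨c6, H6⟩ := h6 α hα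
  obtain ⟨D, hD⟩ : ∃ D : ℝ, D = |c1| + |c2| + |c3| + |c4| + |c5| + |c6| := ⟨_, rfl⟩
  have a1 := abs_nonneg c1
  have a2 := abs_nonneg c2
  have a3 := abs_nonneg c3
  have a4 := abs_nonneg c4
  have a5 := abs_nonneg c5
  have a6 := abs_nonneg c6
  have hD1 : c1 ≤ D := by have := le_abs_self c1; linarith
  have hD2 : c2 ≤ D := by have := le_abs_self c2; linarith
  have hD3 : c3 ≤ D := by have := le_abs_self c3; linarith
  have hD4 : c4 ≤ D := by have := le_abs_self c4; linarith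
  have hD5 : c5 ≤ D := by have := le_abs_self c5; linarith
  have hD6 : c6 ≤ D := by have := le_abs_self c6; linarith
  have hD0 : 0 ≤ D := by linarith
  obtain ⟨NN, hNN⟩ : ∃ NN : ℝ, NN = q * (Kn + 1) + q + q * Kn + q * Kn + q * Kn + q +
    q * q + 1 := ⟨_, rfl⟩
  obtain ⟨p7, hp7⟩ : ∃ p7 : ℕ, NN * D / ε ≤ 2 ^ p7 := by
    obtain ⟨n, hn⟩ := pow_unbounded_of_one_lt (NN * D / ε) (one_lt_two)
    exact ⟨n, hn.le⟩
  refine ⟨p1 + p2 + p3 + p4 + p5 + p7 + 1, ?_⟩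
  intro p hp v1 K1 K2 M β Λ τ hK1 hK2 hv1 hv1' hM hβ hβ2 hΛ hpτ hτ hτ2 lam kap i0 hlam
  obtain ⟨x, hx⟩ : ∃ x : ℝ, x = D * 2 ^ β / 2 ^ p := ⟨_, rfl⟩
  have hx0 : 0 ≤ x := by rw [hx]; positivity
  have hβ0 : (0 : ℝ) ≤ 2 ^ β := by positivity
  have hqq : 24 * p ≤ (12 * q + 12) * p := Nat.mul_le_mul_right p (by omega)
  have hqq2 : 24 * p ≤ (16 * q + 16) * p := Nat.mul_le_mul_right p (by omega)
  have hj1 : ∀ j, j ≤ K1 → j * p ≤ K1 * p := fun j hj => Nat.mul_le_mul_right p hj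
  have hj2 : ∀ j, j ≤ K2 → j * p ≤ K2 * p := fun j hj => Nat.mul_le_mul_right p hj
  -- the events
  have e1 : ∀ i : Fin q, ∀ j ∈ range (K1 + 1),
      (cnt (2 ^ β) (fun b => ¬ Nr M g (v1 + j * p) (sig α lam kap b i)) : ℝ) ≤ x := by
    intro i j hj
    have hj' := hj1 j (Nat.lt_succ_iff.1 (mem_range.1 hj))
    rw [hx]
    exact cp_div hβ0 (H1 p (by omega) (v1 + j * p) β M (by omega) (by omega) hM (lam i) (kap i))
      hD1
  have e2 : ∀ i : Fin q,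
      (cnt (2 ^ β) (fun b => ¬ Nr M g (v1 + K1 * p + L) (sig α lam kap b i)) : ℝ) ≤ x := by
    intro i
    rw [hx]
    exact cp_div hβ0 (H1 p (by omega) (v1 + K1 * p + L) β M (by omega) (by omega) hM
      (lam i) (kap i)) hD1
  have e3 : ∀ i : Fin q, ∀ j ∈ range K2,
      (cnt (2 ^ β) (fun b => ¬ Nr M g (v1 + K1 * p + L + (2 * q + 4) * p + j * p)
        (sig α lam kap b i)) : ℝ) ≤ x := by
    intro i j hj
    have hj' := hj2 j (mem_range.1 hj).le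
    rw [hx]
    exact cp_div hβ0 (H1 p (by omega) (v1 + K1 * p + L + (2 * q + 4) * p + j * p) β M (by omega)
      (by omega) hM (lam i) (kap i)) hD1
  have e4 : ∀ is : Fin q, ∀ j ∈ range K1,
      (cnt (2 ^ β) (fun b => ¬ Dir univ (v1 + (j + 1) * p) (2 ^ (v1 + (j + 1) * p - 2 * p))
        (2 ^ ((2 * q + 2) * p)) (v1 + K1 * p) L g9 (sig α lam kap b)
        (sig α lam kap b is)) : ℝ) ≤ x := by
    intro is j hj
    have hj' := hj1 (j + 1) (mem_range.1 hj)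
    rw [hx]
    exact cp_div hβ0 (H2 p (by omega) (v1 + (j + 1) * p) (v1 + K1 * p) β (by omega) (by omega)
      (by omega) lam kap is) hD2
  have e5 : ∀ is : Fin q, ∀ j ∈ range K2,
      (cnt (2 ^ β) (fun b => ¬ Dir univ (v1 + K1 * p + L + (2 * q + 4) * p + (j + 1) * p)
        (2 ^ (v1 + K1 * p + L + (2 * q + 4) * p + (j + 1) * p - 2 * p))
        (2 ^ ((2 * q + 2) * p)) (v1 + K1 * p) L g9 (sig α lam kap b)
        (sig α lam kap b is)) : ℝ) ≤ x := by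
    intro is j hj
    have hj' := hj2 (j + 1) (mem_range.1 hj)
    rw [hx]
    exact cp_div hβ0 (H3 p (by omega) (v1 + K1 * p + L + (2 * q + 4) * p + (j + 1) * p)
      (v1 + K1 * p) β (by omega) (by omega) (by omega) lam kap is) hD3
  have e6 : ∀ is : Fin q,
      (cnt (2 ^ β) (fun b => ¬ Dir (∅ : Finset (Fin q)) 1 1 (2 ^ ((2 * q + 2) * p))
        (v1 + K1 * p) L g9 (sig α lam kap b) ((2 : ℤ) ^ v1 * sig α lam kap b is)) : ℝ) ≤ x := by
    intro is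
    rw [hx]
    exact cp_div hβ0 (H4 p (by omega) v1 (v1 + K1 * p) β (by omega) (by omega) lam kap is) hD4
  have e7 : ∀ ii ∈ (univ : Finset (Fin q × Fin q)),
      (cnt (2 ^ β) (fun b => ii.1 ≠ ii.2 ∧ ¬ Dir {ii.2} (v1 + K1 * p + L)
        (2 ^ (v1 + K1 * p + L - 2 * p)) (2 ^ ((2 * q + 2) * p)) (v1 + K1 * p) L g9
        (sig α lam kap b) (sig α lam kap b ii.1)) : ℝ) ≤ x := by
    rintro ⟨is, i'⟩ -
    by_cases hne : is = i'
    · have h0 : cnt (2 ^ β) (fun b => is ≠ i' ∧ ¬ Dir {i'} (v1 + K1 * p + L)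
        (2 ^ (v1 + K1 * p + L - 2 * p)) (2 ^ ((2 * q + 2) * p)) (v1 + K1 * p) L g9
        (sig α lam kap b) (sig α lam kap b is)) = 0 := by
        classical
        rw [cp_cnt, card_eq_zero, filter_eq_empty_iff]
        rintro b - ⟨h, -⟩
        exact h hne
      simp only
      rw [h0, Nat.cast_zero]
      exact hx0
    · rw [hx]
      obtain ⟨g1, g2⟩ := hlam is i' hne
      have h := H5 p (by omega) (v1 + K1 * p) β Λ (by omega) (by omega) (by omega) hΛ lam kap is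
        i' g1 g2
      refine cp_div hβ0 (le_trans (mul_le_mul_of_nonneg_right ?_ (by positivity)) h) hD5
      exact (Nat.cast_le (α := ℝ)).2 (cp_mono (B := 2 ^ β) (fun b hb => hb.2))
  have e8 : (cnt (2 ^ β) (fun b => ∃ t : ℕ, 1 ≤ t ∧ t ≤ 2 ^ τ ∧
      small (v1 + K1 * p + L + (2 * q + 4) * p)
        ((2 : ℤ) ^ (v1 + K1 * p + L + (2 * q + 4) * p - 2 * τ))
        ((t : ℤ) * ((α : ℤ) * (b : ℤ) ^ 2 + lam i0 * b + kap i0))) : ℝ) ≤ x := by
    rw [hx]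
    refine cp_div hβ0 (le_trans ?_ (H6 τ (v1 + K1 * p + L + (2 * q + 4) * p) β (by omega) hτ
      hτ2 (lam i0) (kap i0))) hD6
    refine mul_le_mul_of_nonneg_left ?_ (Nat.cast_nonneg _)
    exact pow_le_pow_right₀ (by norm_num) hpτ
  -- the unions
  have u1 := cp_exists (univ : Finset (Fin q)) (fun i b => ∃ j ∈ range (K1 + 1),
    ¬ Nr M g (v1 + j * p) (sig α lam kap b i)) _ fun i _ => cp_exists (range (K1 + 1))
    (fun j b => ¬ Nr M g (v1 + j * p) (sig α lam kap b i)) x (e1 i)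
  have u2 := cp_exists (univ : Finset (Fin q)) (fun i b =>
    ¬ Nr M g (v1 + K1 * p + L) (sig α lam kap b i)) x fun i _ => e2 i
  have u3 := cp_exists (univ : Finset (Fin q)) (fun i b => ∃ j ∈ range K2,
    ¬ Nr M g (v1 + K1 * p + L + (2 * q + 4) * p + j * p) (sig α lam kap b i)) _
    fun i _ => cp_exists (range K2) (fun j b =>
      ¬ Nr M g (v1 + K1 * p + L + (2 * q + 4) * p + j * p) (sig α lam kap b i)) x (e3 i)
  have u4 := cp_exists (univ : Finset (Fin q)) (fun is b => ∃ j ∈ range K1,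
    ¬ Dir univ (v1 + (j + 1) * p) (2 ^ (v1 + (j + 1) * p - 2 * p))
        (2 ^ ((2 * q + 2) * p)) (v1 + K1 * p) L g9 (sig α lam kap b)
        (sig α lam kap b is)) _
    fun is _ => cp_exists (range K1) (fun j b =>
      ¬ Dir univ (v1 + (j + 1) * p) (2 ^ (v1 + (j + 1) * p - 2 * p))
        (2 ^ ((2 * q + 2) * p)) (v1 + K1 * p) L g9 (sig α lam kap b)
        (sig α lam kap b is)) x (e4 is)
  have u5 := cp_exists (univ : Finset (Fin q)) (fun is b => ∃ j ∈ range K2,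
    ¬ Dir univ (v1 + K1 * p + L + (2 * q + 4) * p + (j + 1) * p)
        (2 ^ (v1 + K1 * p + L + (2 * q + 4) * p + (j + 1) * p - 2 * p))
        (2 ^ ((2 * q + 2) * p)) (v1 + K1 * p) L g9 (sig α lam kap b)
        (sig α lam kap b is)) _
    fun is _ => cp_exists (range K2) (fun j b =>
      ¬ Dir univ (v1 + K1 * p + L + (2 * q + 4) * p + (j + 1) * p)
        (2 ^ (v1 + K1 * p + L + (2 * q + 4) * p + (j + 1) * p - 2 * p))
        (2 ^ ((2 * q + 2) * p)) (v1 + K1 * p) L g9 (sig α lam kap b)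
        (sig α lam kap b is)) x (e5 is)
  have u6 := cp_exists (univ : Finset (Fin q)) (fun is b =>
    ¬ Dir (∅ : Finset (Fin q)) 1 1 (2 ^ ((2 * q + 2) * p))
        (v1 + K1 * p) L g9 (sig α lam kap b) ((2 : ℤ) ^ v1 * sig α lam kap b is)) x
    fun is _ => e6 is
  have u7 := cp_exists (univ : Finset (Fin q × Fin q)) (fun ii b =>
    ii.1 ≠ ii.2 ∧ ¬ Dir {ii.2} (v1 + K1 * p + L)
        (2 ^ (v1 + K1 * p + L - 2 * p)) (2 ^ ((2 * q + 2) * p)) (v1 + K1 * p) L g9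
        (sig α lam kap b) (sig α lam kap b ii.1)) x e7
  have U := cp_or _ _ _ _ u1 (cp_or _ _ _ _ u2 (cp_or _ _ _ _ u3 (cp_or _ _ _ _ u4
    (cp_or _ _ _ _ u5 (cp_or _ _ _ _ u6 (cp_or _ _ _ _ u7 e8))))))
  refine le_trans ((Nat.cast_le (α := ℝ)).2 (cp_mono (B := 2 ^ β) (fun b hb => ?_)))
    (U.trans ?_)
  · by_contra hcon
    push Not at hcon
    obtain ⟨f1, f2, f3, f4, f5, f6, f7, f8⟩ := hcon
    apply hb
    refine ⟨fun i j hj => ?_, fun i => f2 i (mem_univ _), fun i j hj => ?_,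
      fun is j hj => ?_, fun is j hj => ?_, fun is => f6 is (mem_univ _),
      fun is i' hne => ?_, fun t ht1 ht2 hsm => ?_⟩
    · exact f1 i (mem_univ _) j (mem_range.2 (Nat.lt_succ_of_le hj))
    · exact f3 i (mem_univ _) j (mem_range.2 hj)
    · exact f4 is (mem_univ _) j (mem_range.2 hj)
    · exact f5 is (mem_univ _) j (mem_range.2 hj)
    · exact f7 (is, i') (mem_univ _) hne
    · exact f8 t ht1 ht2 hsm
  simp only [card_univ, Fintype.card_fin, Fintype.card_prod, card_range]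
  have hK1r : (K1 : ℝ) ≤ Kn := by exact_mod_cast hK1
  have hK2r : (K2 : ℝ) ≤ Kn := by exact_mod_cast hK2
  have hq0 : (0 : ℝ) ≤ q := Nat.cast_nonneg _
  have hfin : NN * x ≤ ε * 2 ^ β := by
    rw [hx]
    have h7 : (2 : ℝ) ^ p7 ≤ 2 ^ p := pow_le_pow_right₀ (by norm_num) (by omega)
    have h8 : NN * D ≤ 2 ^ p * ε := by
      rw [div_le_iff₀ hε] at hp7
      exact hp7.trans (mul_le_mul_of_nonneg_right h7 hε.le)
    rw [mul_div_assoc', div_le_iff₀ (by positivity)]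
    calc NN * (D * 2 ^ β) = (NN * D) * 2 ^ β := by ring
      _ ≤ (2 ^ p * ε) * 2 ^ β := mul_le_mul_of_nonneg_right h8 hβ0
      _ = ε * 2 ^ β * 2 ^ p := by ring
  refine le_trans ?_ hfin
  rw [hNN]
  push_cast
  have k1 : (q : ℝ) * (K1 * x) ≤ q * (Kn * x) :=
    mul_le_mul_of_nonneg_left (mul_le_mul_of_nonneg_right hK1r hx0) hq0
  have k2 : (q : ℝ) * (K2 * x) ≤ q * (Kn * x) :=
    mul_le_mul_of_nonneg_left (mul_le_mul_of_nonneg_right hK2r hx0) hq0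
  nlinarith

end Pool.Agent.H9.TC
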