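import Pool.Agent.H9.TC.Stm

/-!
# Iterated van der Corput
-/

set_option autoImplicit false

namespace Pool.Agent.H9.TC

open Finset

theorem vdc_shift (f : ℤ → ℝ) (hf : ∀ x, |f x| ≤ 1) (M : ℕ) (s : ℤ) :
    |∑ m ∈ range M, f m - ∑ m ∈ range M, f ((m : ℤ) + s)| ≤ 2 * |(s : ℝ)| := by
  have key : ∀ s : ℤ, |∑ m ∈ range M, f ((m : ℤ) + (s + 1)) -
      ∑ m ∈ range M, f ((m : ℤ) + s)| ≤ 2 := by
    intro s
    rw [← Finset.sum_sub_distrib]
    have h1 : ∑ m ∈ range M, (f ((m : ℤ) + (s + 1)) - f ((m : ℤ) + s)) =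
        f ((M : ℤ) + s) - f ((0 : ℕ) + s) := by
      rw [← Finset.sum_range_sub (fun m : ℕ => f ((m : ℤ) + s))]
      refine Finset.sum_congr rfl fun m _ => ?_
      congr 2
      push_cast
      ring
    rw [h1]
    refine (abs_sub _ _).trans ?_
    have := hf ((M : ℤ) + s)
    have := hf (((0 : ℕ) : ℤ) + s)
    linarith
  induction s using Int.induction_on with
  | zero => simp
  | succ n ih =>
    have h := key n
    have e1 : |((((n : ℤ) + 1 : ℤ)) : ℝ)| = (n : ℝ) + 1 := by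
      push_cast
      rw [abs_of_nonneg (by positivity)]
    have e2 : |(((n : ℤ)) : ℝ)| = (n : ℝ) := by simp
    rw [e1]
    rw [e2] at ih
    rw [abs_le] at *
    constructor <;> linarith [h.1, h.2, ih.1, ih.2]
  | pred n ih =>
    have h := key (-(n : ℤ) - 1)
    have e0 : (-(n : ℤ) - 1 + 1 : ℤ) = -(n : ℤ) := by ring
    rw [e0] at h
    have e1 : |(((-(n : ℤ) - 1 : ℤ)) : ℝ)| = (n : ℝ) + 1 := by
      push_cast
      rw [abs_of_nonpos (by linarith [(Nat.cast_nonneg n : (0 : ℝ) ≤ n)])]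
      ring
    have e2 : |((-(n : ℤ) : ℤ) : ℝ)| = (n : ℝ) := by simp
    rw [e1]
    rw [e2] at ih
    rw [abs_le] at *
    constructor <;> linarith [h.1, h.2, ih.1, ih.2]

theorem sum_two_mul_le (J : ℕ) : ∑ a ∈ range J, 2 * (a : ℝ) ≤ (J : ℝ) ^ 2 := by
  induction J with
  | zero => simp
  | succ n ih =>
    rw [Finset.sum_range_succ]
    push_cast
    nlinarith [(Nat.cast_nonneg n : (0 : ℝ) ≤ n)]

theorem abs_sum_le_card {ι : Type*} (X : Finset ι) (g : ι → ℝ) (c : ℝ) (h : ∀ x ∈ X, |g x| ≤ c) :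
    |∑ x ∈ X, g x| ≤ X.card * c := by
  refine (Finset.abs_sum_le_sum_abs _ _).trans ?_
  refine (Finset.sum_le_sum h).trans ?_
  rw [Finset.sum_const, nsmul_eq_mul]

theorem vdc_close {ι : Type*} (X : Finset ι) (F : ι → ℤ → ℝ) (hF : ∀ x m, |F x m| ≤ 1)
    (t : ℤ) (J M : ℕ) :
    |(J : ℝ) * (∑ x ∈ X, ∑ m ∈ range M, F x m) -
      ∑ x ∈ X, ∑ m ∈ range M, ∑ a ∈ range J, F x ((m : ℤ) + a * t)| ≤
      X.card * ((J : ℝ) ^ 2 * |(t : ℝ)|) := by
  rw [Finset.mul_sum, ← Finset.sum_sub_distrib]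
  refine abs_sum_le_card X _ _ fun x _ => ?_
  rw [Finset.sum_comm]
  have h1 : (J : ℝ) * ∑ m ∈ range M, F x m = ∑ _a ∈ range J, ∑ m ∈ range M, F x m := by
    rw [Finset.sum_const, Finset.card_range, nsmul_eq_mul]
  rw [h1, ← Finset.sum_sub_distrib]
  refine (Finset.abs_sum_le_sum_abs _ _).trans ?_
  have h2 : ∀ a ∈ range J, |∑ m ∈ range M, F x m - ∑ m ∈ range M, F x ((m : ℤ) + a * t)| ≤
      2 * (a : ℝ) * |(t : ℝ)| := by
    intro a _
    refine (vdc_shift (F x) (hF x) M ((a : ℤ) * t)).trans ?_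
    push_cast
    rw [abs_mul, abs_of_nonneg (Nat.cast_nonneg a : (0 : ℝ) ≤ a)]
    linarith
  refine (Finset.sum_le_sum h2).trans ?_
  rw [← Finset.sum_mul]
  exact mul_le_mul_of_nonneg_right (sum_two_mul_le J) (abs_nonneg _)

theorem vdc_cs {ι : Type*} (X : Finset ι) (F : ι → ℤ → ℝ) (t : ℤ) (J M : ℕ) :
    (∑ x ∈ X, ∑ m ∈ range M, ∑ a ∈ range J, F x ((m : ℤ) + a * t)) ^ 2 ≤
      ((M : ℝ) * X.card) * ∑ x ∈ X, ∑ a ∈ range J, ∑ b ∈ range J, ∑ m ∈ range M,
        F x ((m : ℤ) + a * t) * F x ((m : ℤ) + b * t) := by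
  have h1 : ∑ x ∈ X, ∑ m ∈ range M, ∑ a ∈ range J, F x ((m : ℤ) + a * t) =
      ∑ p ∈ X ×ˢ range M, ∑ a ∈ range J, F p.1 ((p.2 : ℤ) + a * t) := by
    rw [Finset.sum_product]
  have h2 : ∑ x ∈ X, ∑ a ∈ range J, ∑ b ∈ range J, ∑ m ∈ range M,
        F x ((m : ℤ) + a * t) * F x ((m : ℤ) + b * t) =
      ∑ p ∈ X ×ˢ range M, (∑ a ∈ range J, F p.1 ((p.2 : ℤ) + a * t)) ^ 2 := by
    rw [Finset.sum_product]
    refine Finset.sum_congr rfl fun x _ => ?_
    have h3 : ∀ m ∈ range M, (∑ a ∈ range J, F x ((m : ℤ) + a * t)) ^ 2 =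
        ∑ a ∈ range J, ∑ b ∈ range J, F x ((m : ℤ) + a * t) * F x ((m : ℤ) + b * t) := by
      intro m _
      rw [sq, Finset.sum_mul_sum]
    symm
    rw [Finset.sum_congr rfl h3, Finset.sum_comm]
    refine Finset.sum_congr rfl fun a _ => ?_
    rw [Finset.sum_comm]
  rw [h1, h2]
  refine (sq_sum_le_card_mul_sum_sq).trans ?_
  rw [Finset.card_product, Finset.card_range]
  push_cast
  rw [mul_comm (X.card : ℝ)]

theorem vdc_step {ι : Type*} (X : Finset ι) (hX : 0 < X.card) (F : ι → ℤ → ℝ)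
    (hF : ∀ x m, |F x m| ≤ 1) (t : ℤ) (J M : ℕ) (hJ : 1 ≤ J) (hM : 1 ≤ M) :
    (|∑ x ∈ X, ∑ m ∈ range M, F x m| / (M * X.card)) ^ 2 ≤
      |∑ x ∈ X, ∑ a ∈ range J, ∑ b ∈ range J, ∑ m ∈ range M,
        F x ((m : ℤ) + a * t) * F x ((m : ℤ) + b * t)| / (M * (X.card * J * J)) +
        2 * (J * |(t : ℝ)| / M) := by
  set P := ∑ x ∈ X, ∑ m ∈ range M, F x m with hP
  set Q := ∑ x ∈ X, ∑ m ∈ range M, ∑ a ∈ range J, F x ((m : ℤ) + a * t) with hQ
  set R := ∑ x ∈ X, ∑ a ∈ range J, ∑ b ∈ range J, ∑ m ∈ range M,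
        F x ((m : ℤ) + a * t) * F x ((m : ℤ) + b * t) with hR
  have hXr : (0 : ℝ) < X.card := by exact_mod_cast hX
  have hJr : (0 : ℝ) < J := by exact_mod_cast hJ
  have hMr : (0 : ℝ) < M := by exact_mod_cast hM
  have h1 : |(J : ℝ) * P - Q| ≤ X.card * ((J : ℝ) ^ 2 * |(t : ℝ)|) := vdc_close X F hF t J M
  have h2 : Q ^ 2 ≤ ((M : ℝ) * X.card) * R := vdc_cs X F t J M
  have hP1 : |P| ≤ M * X.card := by
    have := abs_sum_le_card X (fun x => ∑ m ∈ range M, F x m) M (fun x _ => by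
      have := abs_sum_le_card (range M) (fun m : ℕ => F x m) 1 (fun m _ => hF x m)
      rwa [Finset.card_range, mul_one] at this)
    rw [mul_comm]
    exact this
  have hQ1 : |Q| ≤ M * X.card * J := by
    have := abs_sum_le_card X (fun x => ∑ m ∈ range M, ∑ a ∈ range J, F x ((m : ℤ) + a * t))
      (M * J) (fun x _ => by
      have := abs_sum_le_card (range M) (fun m : ℕ => ∑ a ∈ range J, F x ((m : ℤ) + a * t)) J
        (fun m _ => by
          have := abs_sum_le_card (range J) (fun a : ℕ => F x ((m : ℤ) + a * t)) 1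
            (fun a _ => hF x _)
          rwa [Finset.card_range, mul_one] at this)
      rwa [Finset.card_range] at this)
    calc |Q| ≤ _ := this
      _ = _ := by ring
  -- normalised
  set A := |P| / (M * X.card) with hA
  set A' := |Q| / (M * X.card * J) with hA'
  have hA1 : A ≤ 1 := by rw [hA, div_le_one (by positivity)]; exact hP1
  have hA'1 : A' ≤ 1 := by rw [hA', div_le_one (by positivity)]; exact hQ1
  have hA0 : 0 ≤ A := by positivity
  have hA'0 : 0 ≤ A' := by positivity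
  have hAA : A - A' ≤ J * |(t : ℝ)| / M := by
    rw [hA, hA', div_sub_div _ _ (by positivity) (by positivity), div_le_div_iff₀ (by positivity)
      hMr]
    have h3 : (J : ℝ) * |P| - |Q| ≤ X.card * ((J : ℝ) ^ 2 * |(t : ℝ)|) := by
      refine le_trans ?_ h1
      have : (J : ℝ) * |P| = |(J : ℝ) * P| := by rw [abs_mul, abs_of_pos hJr]
      rw [this]
      exact abs_sub_abs_le_abs_sub _ _
    have h4 : (|P| * (M * X.card * J) - M * X.card * |Q|) * M =
        (M * X.card * M) * ((J : ℝ) * |P| - |Q|) := by ring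
    rw [h4]
    calc (M * X.card * M : ℝ) * ((J : ℝ) * |P| - |Q|)
        ≤ (M * X.card * M : ℝ) * (X.card * ((J : ℝ) ^ 2 * |(t : ℝ)|)) :=
          mul_le_mul_of_nonneg_left h3 (by positivity)
      _ = _ := by ring
  have hA'2 : A' ^ 2 ≤ |R| / (M * (X.card * J * J)) := by
    rw [hA', div_pow, sq_abs, div_le_div_iff₀ (by positivity) (by positivity)]
    have h5 : Q ^ 2 ≤ ((M : ℝ) * X.card) * |R| :=
      h2.trans (mul_le_mul_of_nonneg_left (le_abs_self R) (by positivity))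
    calc Q ^ 2 * (M * (X.card * J * J)) ≤ (((M : ℝ) * X.card) * |R|) * (M * (X.card * J * J)) :=
          mul_le_mul_of_nonneg_right h5 (by positivity)
      _ = _ := by ring
  have hd : (0 : ℝ) ≤ J * |(t : ℝ)| / M := by positivity
  have : A ^ 2 ≤ A' ^ 2 + 2 * (J * |(t : ℝ)| / M) := by
    by_cases h : A ≤ A'
    · nlinarith
    · push Not at h
      nlinarith
  linarith

/-- Extension of a point of the box. -/
def extB {k : ℕ} (p : (ℕ × (Fin k × Bool → ℕ)) × (ℕ × ℕ)) : ℕ × (Fin (k + 1) × Bool → ℕ) :=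
  (p.1.1, fun x => Fin.cases (motive := fun _ => ℕ) (if x.2 then p.2.2 else p.2.1)
    (fun i => p.1.2 (i, x.2)) x.1)

theorem psi_ext {k : ℕ} (t0 : ℤ) (t : Fin (k + 1) → ℤ) (e : Bool) (η : Fin k → Bool)
    (p : (ℕ × (Fin k × Bool → ℕ)) × (ℕ × ℕ)) :
    psi t0 t (Fin.cons e η) (extB p) =
      psi t0 (fun l => t l.succ) η p.1 + ((if e then p.2.2 else p.2.1 : ℕ) : ℤ) * t 0 := by
  unfold psi extB
  rw [Fin.sum_univ_succ]
  simp only [Fin.cons_zero, Fin.cons_succ, Fin.cases_zero, Fin.cases_succ]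
  ring

theorem box_card (k J : ℕ) : (box k J).card = J * J ^ (k * 2) := by
  unfold box
  rw [Finset.card_product, Finset.card_range, Fintype.card_piFinset]
  simp

theorem sum_box_succ (k J : ℕ) (G : ℕ × (Fin (k + 1) × Bool → ℕ) → ℝ) :
    ∑ j ∈ box (k + 1) J, G j =
      ∑ j ∈ box k J, ∑ a ∈ range J, ∑ b ∈ range J, G (extB (j, (a, b))) := by
  have h1 : ∑ j ∈ box k J, ∑ a ∈ range J, ∑ b ∈ range J, G (extB (j, (a, b))) =
      ∑ p ∈ box k J ×ˢ (range J ×ˢ range J), G (extB p) := by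
    rw [Finset.sum_product]
    refine Finset.sum_congr rfl fun j _ => ?_
    rw [Finset.sum_product]
  rw [h1]
  symm
  refine Finset.sum_nbij' (fun p => extB p)
    (fun j => ((j.1, fun x => j.2 (x.1.succ, x.2)), (j.2 (0, false), j.2 (0, true)))) ?_ ?_ ?_ ?_ ?_
  · intro p hp
    simp only [box, Finset.mem_product, Fintype.mem_piFinset, Finset.mem_range] at hp ⊢
    refine ⟨hp.1.1, ?_⟩
    rintro ⟨i, e⟩
    refine Fin.cases ?_ (fun i => ?_) i
    · cases e
      · simpa [extB] using hp.2.1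
      · simpa [extB] using hp.2.2
    · simpa [extB] using hp.1.2 (i, e)
  · intro j hj
    simp only [box, Finset.mem_product, Fintype.mem_piFinset, Finset.mem_range] at hj ⊢
    exact ⟨⟨hj.1, fun x => hj.2 _⟩, hj.2 _, hj.2 _⟩
  · rintro ⟨⟨j0, h⟩, a, b⟩ _
    simp [extB]
  · rintro ⟨j0, h⟩ _
    simp only [extB, Prod.mk.injEq, true_and]
    funext ⟨i, e⟩
    refine Fin.cases ?_ (fun i => ?_) i
    · cases e <;> simp
    · simp
  · intro p _
    rfl

theorem prod_fun_succ (k : ℕ) (G : (Fin (k + 1) → Bool) → ℝ) :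
    ∏ η : Fin (k + 1) → Bool, G η =
      (∏ η : Fin k → Bool, G (Fin.cons false η)) * ∏ η : Fin k → Bool, G (Fin.cons true η) := by
  rw [← Fintype.prod_equiv (Fin.consEquiv (fun _ => Bool)) (fun p => G (Fin.cons p.1 p.2)) G
    (fun p => rfl)]
  rw [Fintype.prod_prod_type, Fintype.prod_bool, mul_comm]

theorem abs_prod_le_one {ι : Type*} (X : Finset ι) (g : ι → ℝ) (h : ∀ x ∈ X, |g x| ≤ 1) :
    |∏ x ∈ X, g x| ≤ 1 := by
  rw [Finset.abs_prod]
  exact Finset.prod_le_one (fun x _ => abs_nonneg _) h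

theorem vdc_zero (f : ℤ → ℝ) (hf : ∀ x, |f x| ≤ 1) (t0 : ℤ) (t : Fin 0 → ℤ) (J M : ℕ) (S : ℝ)
    (hJ : 1 ≤ J) (hM : 1 ≤ M) (hS : (J : ℝ) * (|(t0 : ℝ)| + ∑ l, |(t l : ℝ)|) ≤ S) :
    |(∑ m ∈ range M, f m) / M| ^ (2 ^ 0) ≤
      |∑ j ∈ box 0 J, ∑ m ∈ range M, ∏ η : Fin 0 → Bool, f ((m : ℤ) + psi t0 t η j)| /
        (M * (box 0 J).card) + 8 * 4 ^ 0 * S / M := by
  have hJr : (0 : ℝ) < J := by exact_mod_cast hJ
  have hMr : (0 : ℝ) < M := by exact_mod_cast hM
  have h1 := vdc_close ({()} : Finset Unit) (fun _ => f) (fun _ => hf) t0 J M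
  simp only [Finset.sum_singleton, Finset.card_singleton, Nat.cast_one, one_mul] at h1
  have h2 : ∑ j ∈ box 0 J, ∑ m ∈ range M, ∏ η : Fin 0 → Bool, f ((m : ℤ) + psi t0 t η j) =
      ∑ m ∈ range M, ∑ a ∈ range J, f ((m : ℤ) + a * t0) := by
    unfold box
    rw [Finset.sum_product, Finset.sum_comm (s := range M)]
    refine Finset.sum_congr rfl fun a _ => ?_
    rw [Fintype.piFinset_of_isEmpty, Fintype.sum_unique]
    simp [psi]
  have hS0 : (J : ℝ) * |(t0 : ℝ)| ≤ S := by simpa using hS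
  have hSn : 0 ≤ S := le_trans (by positivity) hS0
  rw [h2, box_card]
  set P := ∑ m ∈ range M, f m
  set Q := ∑ m ∈ range M, ∑ a ∈ range J, f ((m : ℤ) + a * t0)
  have h3 : (J : ℝ) * |P| ≤ |Q| + (J : ℝ) ^ 2 * |(t0 : ℝ)| := by
    have : (J : ℝ) * |P| = |(J : ℝ) * P| := by rw [abs_mul, abs_of_pos hJr]
    rw [this]
    have := abs_sub_abs_le_abs_sub ((J : ℝ) * P) Q
    linarith
  have h4 : |P / M| ^ (2 ^ 0) = |P| / M := by
    rw [pow_zero, pow_one, abs_div, abs_of_pos hMr]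
  have h5 : ((J * J ^ (0 * 2) : ℕ) : ℝ) = J := by simp
  rw [h4, h5]
  have h6 : |P| / M ≤ |Q| / (M * J) + S / M := by
    rw [div_add_div _ _ (by positivity) (by positivity), div_le_div_iff₀ hMr (by positivity)]
    have h7 : (J : ℝ) * ((J : ℝ) * |(t0 : ℝ)|) ≤ J * S := mul_le_mul_of_nonneg_left hS0 hJr.le
    have h8 : (J : ℝ) * |P| ≤ |Q| + J * S := by nlinarith
    nlinarith [mul_le_mul_of_nonneg_left h8 (by positivity : (0 : ℝ) ≤ M * M)]
  have h9 : S / M ≤ 8 * 4 ^ 0 * S / M := by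
    rw [div_le_div_iff_of_pos_right hMr]
    linarith
  linarith

theorem vdc : VStmt := by
  intro k
  induction k with
  | zero =>
    intro f hf t0 t J M S hJ hM hS
    exact vdc_zero f hf t0 t J M S hJ hM hS
  | succ k ih =>
    intro f hf t0 t J M S hJ hM hS
    have hJr : (0 : ℝ) < J := by exact_mod_cast hJ
    have hMr : (0 : ℝ) < M := by exact_mod_cast hM
    have hS1 : (J : ℝ) * (|(t0 : ℝ)| + ∑ l : Fin k, |(t l.succ : ℝ)|) + J * |(t 0 : ℝ)| ≤ S := by
      rw [Fin.sum_univ_succ] at hS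
      linarith
    have hS2 : (J : ℝ) * (|(t0 : ℝ)| + ∑ l : Fin k, |(t l.succ : ℝ)|) ≤ S :=
      le_trans (by linarith [mul_nonneg hJr.le (abs_nonneg (t 0 : ℝ))]) hS1
    have hS3 : (J : ℝ) * |(t 0 : ℝ)| ≤ S := by
      refine le_trans ?_ hS1
      have : (0 : ℝ) ≤ (J : ℝ) * (|(t0 : ℝ)| + ∑ l : Fin k, |(t l.succ : ℝ)|) := by positivity
      linarith
    have hS0 : 0 ≤ S := le_trans (by positivity) hS3
    have h0 := ih f hf t0 (fun l => t l.succ) J M S hJ hM hS2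
    set a := |(∑ m ∈ range M, f m) / M| with ha
    have ha0 : 0 ≤ a := abs_nonneg _
    have ha1 : a ≤ 1 := by
      rw [ha, abs_div, abs_of_pos hMr, div_le_one hMr]
      have := abs_sum_le_card (range M) (fun m : ℕ => f m) 1 (fun m _ => hf m)
      rwa [Finset.card_range, mul_one] at this
    have hcard : 0 < (box k J).card := by
      rw [box_card]
      positivity
    have hst := vdc_step (box k J) hcard
      (fun j m => ∏ η : Fin k → Bool, f (m + psi t0 (fun l => t l.succ) η j))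
      (fun j m => abs_prod_le_one _ _ fun η _ => hf _) (t 0) J M hJ hM
    have e1 : ∑ j ∈ box (k + 1) J, ∑ m ∈ range M,
        ∏ η : Fin (k + 1) → Bool, f ((m : ℤ) + psi t0 t η j) =
        ∑ j ∈ box k J, ∑ a ∈ range J, ∑ b ∈ range J, ∑ m ∈ range M,
          (∏ η : Fin k → Bool, f ((m : ℤ) + a * t 0 + psi t0 (fun l => t l.succ) η j)) *
          ∏ η : Fin k → Bool, f ((m : ℤ) + b * t 0 + psi t0 (fun l => t l.succ) η j) := by
      rw [sum_box_succ]
      refine Finset.sum_congr rfl fun j _ => Finset.sum_congr rfl fun a _ =>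
        Finset.sum_congr rfl fun b _ => Finset.sum_congr rfl fun m _ => ?_
      rw [prod_fun_succ]
      simp only [psi_ext]
      congr 1
      · refine Finset.prod_congr rfl fun η _ => ?_
        congr 1
        simp only [Bool.false_eq_true, if_false]
        ring
      · refine Finset.prod_congr rfl fun η _ => ?_
        congr 1
        simp only [if_true]
        ring
    have e2 : ((M : ℝ) * (box (k + 1) J).card) = (M * ((box k J).card * J * J)) := by
      rw [box_card, box_card]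
      push_cast
      ring
    rw [← e1, ← e2] at hst
    set A := |∑ j ∈ box k J, ∑ m ∈ range M,
      ∏ η : Fin k → Bool, f ((m : ℤ) + psi t0 (fun l => t l.succ) η j)| / (M * (box k J).card)
      with hA
    have hA0 : 0 ≤ A := by positivity
    have hA1 : A ≤ 1 := by
      have hc : (0 : ℝ) < (box k J).card := by exact_mod_cast hcard
      rw [hA, div_le_one (by positivity)]
      have := abs_sum_le_card (box k J) (fun j => ∑ m ∈ range M,
        ∏ η : Fin k → Bool, f ((m : ℤ) + psi t0 (fun l => t l.succ) η j)) M (fun j _ => by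
        have := abs_sum_le_card (range M) (fun m : ℕ =>
          ∏ η : Fin k → Bool, f ((m : ℤ) + psi t0 (fun l => t l.succ) η j)) 1
          (fun m _ => abs_prod_le_one _ _ fun η _ => hf _)
        rwa [Finset.card_range, mul_one] at this)
      rw [mul_comm]
      exact this
    have hB0 : 0 ≤ |∑ j ∈ box (k + 1) J, ∑ m ∈ range M,
        ∏ η : Fin (k + 1) → Bool, f ((m : ℤ) + psi t0 t η j)| / (M * (box (k + 1) J).card) := by
      positivity
    set B := |∑ j ∈ box (k + 1) J, ∑ m ∈ range M,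
        ∏ η : Fin (k + 1) → Bool, f ((m : ℤ) + psi t0 t η j)| / (M * (box (k + 1) J).card)
    have hpow : a ^ (2 ^ (k + 1)) = (a ^ (2 ^ k)) ^ 2 := by
      rw [pow_succ 2 k, pow_mul]
    have hak : a ^ (2 ^ k) ≤ 1 := pow_le_one₀ ha0 ha1
    have hak0 : 0 ≤ a ^ (2 ^ k) := by positivity
    rw [hpow]
    have hsm : (S / M : ℝ) ≤ 4 ^ k * S / M := by
      rw [div_le_div_iff_of_pos_right hMr]
      have : (1 : ℝ) ≤ 4 ^ k := one_le_pow₀ (by norm_num)
      nlinarith
    have hsm0 : 0 ≤ S / M := by positivity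
    have e3 : (8 * 4 ^ (k + 1) * S / M : ℝ) = 32 * (4 ^ k * S / M) := by ring
    have e4 : (8 * 4 ^ k * S / M : ℝ) = 8 * (4 ^ k * S / M) := by ring
    rw [e3]
    rw [e4] at h0
    set E : ℝ := 4 ^ k * S / M with hE
    have hE0 : 0 ≤ E := by positivity
    have hJt : (J : ℝ) * |(t 0 : ℝ)| / M ≤ S / M := by
      rw [div_le_div_iff_of_pos_right hMr]
      exact hS3
    by_cases hbig : 1 ≤ 8 * E
    · have : (a ^ (2 ^ k)) ^ 2 ≤ 1 := pow_le_one₀ hak0 hak
      linarith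
    · push Not at hbig
      have h1 : (a ^ (2 ^ k)) ^ 2 ≤ (A + 8 * E) ^ 2 := pow_le_pow_left₀ hak0 h0 2
      nlinarith

end Pool.Agent.H9.TC
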