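import Pool.Agent.H9.TC.Stm

/-!
Project TC (MP_b6022c_nt), row TC-24: the core proposition from (K), (CP), (CG), (G1).
-/

namespace Pool.Agent.H9.TC

open Finset

/-- linear arithmetic of the parameters (`X = q p`, `Y = q q p`, `m = mu`, `u = K1 p`,
`w = K2 p`) -/
theorem core_ar {a m b ν p X Y L C u w : ℕ} (_hp : 2 ≤ p) (hL : L ≤ p) (hν1 : 400 * m ≤ ν)
    (hν2 : ν < 400 * m + 400 * C) (ha : a = ν - m) (hb : b = a - 9 * m)
    (e1 : m = 6 * Y + 30 * X + 20 * p) (f1 : p ≤ X) (f2 : X ≤ Y) (f3 : 2 * C ≤ m)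
    (g1 : w ≤ a / 2) (g2 : a / 2 < w + p)
    (h1 : u ≤ a - w - (2 * X + 4 * p) - L - (12 * X + 12 * p))
    (h2 : a - w - (2 * X + 4 * p) - L - (12 * X + 12 * p) < u + p) :
    a - w - (2 * X + 4 * p) - L - u + u + L + (2 * X + 4 * p) + w = a ∧ u + w ≤ 800 * m ∧
      12 * X + 12 * p ≤ a - w - (2 * X + 4 * p) - L - u ∧
      a - w - (2 * X + 4 * p) - L - u ≤ 12 * X + 13 * p ∧
      12 * X + 12 * p ≤ u ∧ a + (16 * X + 16 * p) ≤ 2 * b ∧
      a - w - (2 * X + 4 * p) - L + L + 4 * p ≤ b ∧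
      8 * m + (2 * X + 3 * p) ≤ a - w - (2 * X + 4 * p) - L ∧
      16 * (2 * Y + 5 * X + 1) ≤ a - w ∧ a - w + 16 * (2 * Y + 5 * X + 1) ≤ 2 * b ∧
      24 * p ≤ a ∧ a + 24 * p ≤ 2 * b ∧ a - w - (2 * X + 4 * p) - L - u + u =
        a - w - (2 * X + 4 * p) - L ∧ a - w - (2 * X + 4 * p) - L + L + (2 * X + 4 * p) = a - w := by
  have k1 : 399 * m ≤ a := by omega
  have k2 : 2 * w ≤ a := by omega
  have k3 : a < 2 * w + 2 * p + 2 := by omega
  have k4 : 9 * m ≤ a := by omega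
  clear g1 g2
  have k5 : b + 9 * m = a := by omega
  have k6 : a < 400 * m + 400 * C := by omega
  clear hν1 hν2 ha hb
  have k7 : 2 * X + 4 * p + L + (12 * X + 12 * p) + w ≤ a := by omega
  obtain ⟨r, hr⟩ : ∃ r, a = r + (2 * X + 4 * p + L + (12 * X + 12 * p) + w) :=
    ⟨a - (2 * X + 4 * p + L + (12 * X + 12 * p) + w), by omega⟩
  have k8 : a - w - (2 * X + 4 * p) - L - (12 * X + 12 * p) = r := by omega
  rw [k8] at h1 h2
  have k9 : a - w - (2 * X + 4 * p) - L = r + (12 * X + 12 * p) := by omega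
  rw [k9]
  refine ⟨by omega, by omega, by omega, by omega, by omega, by omega, by omega, by omega,
    by omega, by omega, by omega, by omega, by omega, by omega⟩

/-- choice of the parameters -/
theorem core_par {q ν L : ℕ} (hq : 1 ≤ q) (hp : 2 ≤ pp q ν) (hL : L ≤ pp q ν) :
    ∃ v1 K1 K2 : ℕ,
      v1 + K1 * pp q ν + L + (2 * q + 4) * pp q ν + K2 * pp q ν = aa q ν ∧
      K1 + K2 ≤ 800 * C1 q ∧ (12 * q + 12) * pp q ν ≤ v1 ∧ v1 ≤ (12 * q + 13) * pp q ν ∧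
      v1 + (12 * q + 12) * pp q ν ≤ v1 + K1 * pp q ν ∧
      aa q ν + (16 * q + 16) * pp q ν ≤ 2 * be q ν ∧
      v1 + K1 * pp q ν + L + 4 * pp q ν ≤ be q ν ∧
      8 * mu q ν + (2 * q + 3) * pp q ν ≤ v1 + K1 * pp q ν ∧
      16 * (q * (2 * q + 5) * pp q ν + 1) ≤ v1 + K1 * pp q ν + L + (2 * q + 4) * pp q ν ∧
      v1 + K1 * pp q ν + L + (2 * q + 4) * pp q ν + 16 * (q * (2 * q + 5) * pp q ν + 1) ≤
        2 * be q ν ∧
      24 * pp q ν ≤ aa q ν ∧ aa q ν + 24 * pp q ν ≤ 2 * be q ν := by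
  have hC : 0 < 400 * C1 q := by unfold C1; positivity
  have hν1 : 400 * C1 q * pp q ν ≤ ν := Nat.mul_div_le _ _
  have hν2 : ν < 400 * C1 q * (pp q ν + 1) := Nat.lt_mul_div_succ _ hC
  have hmu : mu q ν = C1 q * pp q ν := rfl
  have ha : aa q ν = ν - mu q ν := rfl
  have hb : be q ν = aa q ν - 9 * mu q ν := rfl
  generalize be q ν = b at hb ⊢
  generalize aa q ν = a at ha hb ⊢
  generalize mu q ν = m at hmu ha hb ⊢
  generalize pp q ν = p at hp hL hν1 hν2 hmu ⊢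
  have e1 : m = 6 * (q * q * p) + 30 * (q * p) + 20 * p := by rw [hmu]; unfold C1; ring
  have e2 : 400 * m ≤ ν := by rw [hmu, ← mul_assoc]; exact hν1
  have e3 : ν < 400 * m + 400 * C1 q := by
    rw [hmu, ← mul_assoc]; rw [Nat.mul_add, mul_one] at hν2; exact hν2
  have e4 : (2 * q + 4) * p = 2 * (q * p) + 4 * p := by ring
  have e5 : (12 * q + 12) * p = 12 * (q * p) + 12 * p := by ring
  have e6 : (12 * q + 13) * p = 12 * (q * p) + 13 * p := by ring
  have e7 : (16 * q + 16) * p = 16 * (q * p) + 16 * p := by ring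
  have e8 : (2 * q + 3) * p = 2 * (q * p) + 3 * p := by ring
  have e9 : q * (2 * q + 5) * p = 2 * (q * q * p) + 5 * (q * p) := by ring
  have f1 : p ≤ q * p := Nat.le_mul_of_pos_left _ hq
  have f2 : q * p ≤ q * q * p := by
    rw [mul_assoc]; exact Nat.le_mul_of_pos_left _ hq
  have f3 : 2 * C1 q ≤ m := by rw [hmu, mul_comm]; exact Nat.mul_le_mul_left _ hp
  have hp0 : 0 < p := by omega
  have hdiv : ∀ x : ℕ, x < x / p * p + p := fun x => by
    have := Nat.lt_mul_div_succ x hp0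
    rw [Nat.mul_add, mul_one, mul_comm p (x / p)] at this
    exact this
  have g1 : a / 2 / p * p ≤ a / 2 := Nat.div_mul_le_self _ _
  have g2 : a / 2 < a / 2 / p * p + p := hdiv _
  generalize a / 2 / p = K2 at g1 g2
  have h1 : (a - K2 * p - (2 * (q * p) + 4 * p) - L - (12 * (q * p) + 12 * p)) / p * p ≤
    a - K2 * p - (2 * (q * p) + 4 * p) - L - (12 * (q * p) + 12 * p) := Nat.div_mul_le_self _ _
  have h2 : a - K2 * p - (2 * (q * p) + 4 * p) - L - (12 * (q * p) + 12 * p) <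
      (a - K2 * p - (2 * (q * p) + 4 * p) - L - (12 * (q * p) + 12 * p)) / p * p + p := hdiv _
  generalize (a - K2 * p - (2 * (q * p) + 4 * p) - L - (12 * (q * p) + 12 * p)) / p = K1 at h1 h2
  obtain ⟨r1, r2, r3, r4, r5, r6, r7, r8, r9, r10, r11, r12, r13, r14⟩ :=
    core_ar hp hL e2 e3 ha hb e1 f1 f2 f3 g1 g2 h1 h2
  refine ⟨a - K2 * p - (2 * (q * p) + 4 * p) - L - K1 * p, K1, K2, ?_⟩
  rw [e4, e5, e6, e7, e8, e9, r13, r14]
  refine ⟨?_, ?_, r3, r4, ?_, r6, r7, r8, r9, r10, r11, r12⟩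
  · rw [r13, r14] at r1; exact r1
  · have h4 : (K1 + K2) * p ≤ 800 * C1 q * p := by
      rw [Nat.add_mul, mul_assoc, ← hmu]; exact r2
    exact Nat.le_of_mul_le_mul_right h4 hp0
  · exact (Nat.add_le_add_left r5 _).trans_eq r13

open Classical in
theorem core_cnt_union {M q : ℕ} {R P : ℕ → Prop} {Q : Fin q → ℕ → Prop}
    (h : ∀ m < M, R m → P m ∨ ∃ i, Q i m) : cnt M R ≤ cnt M P + ∑ i, cnt M (Q i) := by
  unfold cnt
  calc ((range M).filter R).card
      ≤ ((range M).filter P ∪ Finset.univ.biUnion (fun i => (range M).filter (Q i))).card := by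
        refine Finset.card_le_card (fun m hm => ?_)
        rw [Finset.mem_filter, Finset.mem_range] at hm
        rw [Finset.mem_union, Finset.mem_filter, Finset.mem_biUnion, Finset.mem_range]
        rcases h m hm.1 hm.2 with h | ⟨i, h⟩
        · exact Or.inl ⟨hm.1, h⟩
        · exact Or.inr ⟨i, Finset.mem_univ i, Finset.mem_filter.2
            ⟨Finset.mem_range.2 hm.1, h⟩⟩
    _ ≤ ((range M).filter P).card +
        (Finset.univ.biUnion (fun i => (range M).filter (Q i))).card := Finset.card_union_le _ _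
    _ ≤ _ := Nat.add_le_add_left Finset.card_biUnion_le _

/-- a geometric sequence becomes small -/
theorem core_geo (K e : ℝ) (he : 0 < e) : ∃ n0 : ℕ, ∀ n ≥ n0, K / 2 ^ n ≤ e := by
  obtain ⟨n0, h0⟩ := exists_pow_lt_of_lt_one (div_pos he (show (0 : ℝ) < |K| + 1 by positivity))
    (show (1 / 2 : ℝ) < 1 by norm_num)
  refine ⟨n0, fun n hn => ?_⟩
  have h1 : (1 / 2 : ℝ) ^ n ≤ (1 / 2) ^ n0 := pow_le_pow_of_le_one (by norm_num) (by norm_num) hn
  have h2 : K / 2 ^ n = K * (1 / 2) ^ n := by rw [one_div_pow]; ring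
  have h3 : (1 / 2 : ℝ) ^ n * (|K| + 1) ≤ e := by
    have := (h1.trans_lt h0).le
    rwa [le_div_iff₀ (by positivity)] at this
  rw [h2]
  have h4 : K * (1 / 2 : ℝ) ^ n ≤ (|K| + 1) * (1 / 2) ^ n :=
    mul_le_mul_of_nonneg_right (by linarith [le_abs_self K]) (by positivity)
  linarith

/-- the last term -/
theorem core_last {q p v1 M m : ℕ} (hq : 1 ≤ q) (hp : 2 ≤ p) (hm : m = C1 q * p)
    (hv : v1 ≤ (12 * q + 13) * p) (hM : 2 ^ (m - 1) ≤ M) :
    (2 : ℝ) ^ p * 2 ^ max ((2 * q + 2) * p + v1) (3 * (q * (2 * q + 5) * p + 1)) ≤ M := by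
  have e1 : C1 q * p = 6 * (q * q * p) + 30 * (q * p) + 20 * p := by unfold C1; ring
  have e5 : (2 * q + 2) * p = 2 * (q * p) + 2 * p := by ring
  have e6 : (12 * q + 13) * p = 12 * (q * p) + 13 * p := by ring
  have e9 : q * (2 * q + 5) * p = 2 * (q * q * p) + 5 * (q * p) := by ring
  have f1 : p ≤ q * p := Nat.le_mul_of_pos_left _ hq
  have f2 : q * p ≤ q * q * p := by
    rw [mul_assoc]; exact Nat.le_mul_of_pos_left _ hq
  rw [← pow_add]
  have h1 : p + max ((2 * q + 2) * p + v1) (3 * (q * (2 * q + 5) * p + 1)) ≤ m - 1 := by omega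
  calc (2 : ℝ) ^ (p + max ((2 * q + 2) * p + v1) (3 * (q * (2 * q + 5) * p + 1)))
      ≤ 2 ^ (m - 1) := pow_le_pow_right₀ (by norm_num) h1
    _ ≤ M := by exact_mod_cast hM

theorem core (hk : KStmt) (hp : CPStmt) (hg : CGStmt) (h1 : G1Stmt) : CoreStmt := by
  intro q α g ε hq hα hg1 hε
  set k : ℕ := 800 * C1 q + q + 2 with hkdef
  obtain ⟨L0, hL0, c, hc0, hc1, hKB⟩ := hk k
  set e0 : ℝ := ε ^ (2 ^ k) / 3 with he0
  have he0p : 0 < e0 := by positivity
  -- choice of `g'`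
  obtain ⟨g0, hg0⟩ := core_geo (2 * ((q * (800 * C1 q + 3) * 2 ^ k + 1) * 8)) e0 he0p
  set g' : ℕ := max g0 (max g 1) with hg'
  have hg'0 : g0 ≤ g' := le_max_left _ _
  have hg'1 : 1 ≤ g' := (le_max_right g 1).trans (le_max_right _ _)
  -- choice of `Z`
  obtain ⟨j, hj⟩ := exists_pow_lt_of_lt_one he0p hc1
  set Z : ℕ := L0 * j with hZ
  have hZ0 : Z / L0 = j := Nat.mul_div_cancel_left j hL0
  set L : ℕ := Z + g' with hL
  set g9 : ℕ := g' + Z + k + 1 with hg9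
  -- the constants
  obtain ⟨p1, hp1⟩ := hp q α g' L g9 (800 * C1 q) (ε / 2) hq hα hg'1 (by omega) (by positivity)
  obtain ⟨C, p2, hp2⟩ := h1 α g hα hg1
  obtain ⟨p3, hp3⟩ := core_geo (8 * 4 ^ k * (2 ^ Z * (k + 1))) e0 he0p
  obtain ⟨p4, hp4⟩ := core_geo (q * C) (ε / 2) (by positivity)
  set P : ℕ := p1 + p2 + p3 + p4 + 2 * L + g9 + 2 with hP
  refine ⟨400 * C1 q * P, fun ν hν M hM1 hM2 lam kap hlk => ?_⟩
  have hCpos : 0 < 400 * C1 q := by unfold C1; omega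
  have hpP : P ≤ pp q ν := by
    unfold pp
    rw [Nat.le_div_iff_mul_le hCpos, mul_comm]
    exact hν
  obtain ⟨v1, K1, K2, q1, q2, q3, q4, q5, q6, q7, q8, q9, q10, q11, q12⟩ :=
    core_par (ν := ν) (L := L) hq (by omega) (by omega)
  have hmu : mu q ν = C1 q * pp q ν := rfl
  set p : ℕ := pp q ν with hpdef
  set τ : ℕ := q * (2 * q + 5) * p + 1 with hτ
  have hMp : 2 ^ p ≤ M := by
    refine (Nat.pow_le_pow_right (by norm_num) ?_).trans hM1
    have e1 : C1 q * p = 6 * (q * q * p) + 30 * (q * p) + 20 * p := by unfold C1; ring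
    rw [hmu]; omega
  have hM0 : 1 ≤ M := (Nat.one_le_two_pow).trans hMp
  have hMR : (0 : ℝ) < M := by exact_mod_cast hM0
  let i0 : Fin q := ⟨0, hq⟩
  have hpτ : p ≤ τ := by
    have e9 : q * (2 * q + 5) * p = 2 * (q * q * p) + 5 * (q * p) := by ring
    have f1 : p ≤ q * p := Nat.le_mul_of_pos_left _ hq
    omega
  have A1 := hp1 p (by omega) v1 K1 K2 M (be q ν) (8 * mu q ν) τ (by omega) (by omega) q3 q5 hMp
    (by rw [q1]; exact q6) q7 q8 hpτ q9 q10 lam kap i0 hlk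
  have A2 : ∀ i : Fin q, (cnt (2 ^ be q ν)
      (fun b => ¬ Nr M g (aa q ν) (sig α lam kap b i)) : ℝ) ≤ C / 2 ^ p * 2 ^ be q ν := by
    intro i
    have := hp2 p (by omega) (aa q ν) (be q ν) M q11 q12 hMp (lam i) (kap i)
    rw [div_mul_eq_mul_div, le_div_iff₀ (by positivity)]
    exact this
  -- the union bound
  have B1 : cnt (2 ^ be q ν) (fun b => ¬ (
      (∀ y : Fin q → ℤ,
        |∑ m ∈ range M, ∏ i, TW 0 (aa q ν) (y i + (m : ℤ) * sig α lam kap b i)| ≤ ε * M) ∧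
      (∀ i, Nr M g (aa q ν) (sig α lam kap b i)))) ≤
      cnt (2 ^ be q ν) (fun b => ¬ Gen p L g' g9 v1 K1 K2 M τ i0 (sig α lam kap b)) +
      ∑ i, cnt (2 ^ be q ν) (fun b => ¬ Nr M g (aa q ν) (sig α lam kap b i)) := by
    refine core_cnt_union (fun b _ hb => ?_)
    by_contra hcon
    push Not at hcon
    obtain ⟨hG, hN⟩ := hcon
    refine hb ⟨fun y => ?_, hN⟩
    have hbound := hg k q Z g' L g9 L0 p v1 K1 K2 M τ c i0 (sig α lam kap b) y (by omega) hM0 hc0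
      hKB rfl ?_ (by omega) ?_ (by omega) (by omega) hG
    · rw [q1] at hbound
      have t1 : c ^ (Z / L0) ≤ e0 := by rw [hZ0]; exact hj.le
      have t2 : 2 * (((q : ℝ) * (K1 + K2 + 3) * 2 ^ k + 1) * 8 / 2 ^ g') ≤ e0 := by
        refine le_trans ?_ (hg0 g' hg'0)
        rw [mul_div_assoc' ]
        have h5 : ((K1 : ℝ) + K2 + 3) ≤ 800 * C1 q + 3 := by
          have : ((K1 + K2 : ℕ) : ℝ) ≤ ((800 * C1 q : ℕ) : ℝ) := by exact_mod_cast q2
          push_cast at this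
          linarith
        gcongr
      have t3 : 8 * 4 ^ k * ((2 : ℝ) ^ Z * (k + 1) * 2 ^ max ((2 * q + 2) * p + v1) (3 * τ)) / M ≤
          e0 := by
        refine le_trans ?_ (hp3 p (by omega))
        have h6 := core_last (q := q) (p := p) (v1 := v1) (M := M) hq (by omega) hmu q4 hM1
        rw [div_le_div_iff₀ hMR (by positivity)]
        calc 8 * 4 ^ k * ((2 : ℝ) ^ Z * (k + 1) * 2 ^ max ((2 * q + 2) * p + v1) (3 * τ)) * 2 ^ p
            = 8 * 4 ^ k * ((2 : ℝ) ^ Z * (k + 1)) *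
              (2 ^ p * 2 ^ max ((2 * q + 2) * p + v1) (3 * τ)) := by ring
          _ ≤ 8 * 4 ^ k * ((2 : ℝ) ^ Z * (k + 1)) * M := by gcongr
      have t4 : |(∑ m ∈ range M, ∏ i, TW 0 (aa q ν)
          (y i + (m : ℤ) * sig α lam kap b i)) / M| ^ (2 ^ k) ≤ ε ^ (2 ^ k) := by
        refine hbound.trans ?_
        have : ε ^ (2 ^ k) = e0 + e0 + e0 := by rw [he0]; ring
        rw [this]
        linarith
      have t5 := (pow_le_pow_iff_left₀ (abs_nonneg _) hε.le (by positivity)).1 t4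
      rw [abs_div, abs_of_pos hMR, div_le_iff₀ hMR] at t5
      exact t5
    · calc (k + 1) * 2 ^ (Z + g') ≤ 2 ^ (k + 1) * 2 ^ (Z + g') :=
            Nat.mul_le_mul_right _ Nat.lt_two_pow_self.le
        _ = 2 ^ g9 := by rw [← pow_add, hg9]; congr 1; omega
    · have e5 : (12 * q + 12) * p = 12 * (q * p) + 12 * p := by ring
      omega
  have B2 : (∑ i : Fin q, (cnt (2 ^ be q ν)
      (fun b => ¬ Nr M g (aa q ν) (sig α lam kap b i)) : ℝ)) ≤ ε / 2 * 2 ^ be q ν := by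
    calc (∑ i : Fin q, (cnt (2 ^ be q ν)
        (fun b => ¬ Nr M g (aa q ν) (sig α lam kap b i)) : ℝ))
        ≤ ∑ _i : Fin q, C / 2 ^ p * 2 ^ be q ν := Finset.sum_le_sum fun i _ => A2 i
      _ = q * C / 2 ^ p * 2 ^ be q ν := by
          rw [Finset.sum_const, Finset.card_univ, Fintype.card_fin, nsmul_eq_mul]; ring
      _ ≤ ε / 2 * 2 ^ be q ν := by
          refine mul_le_mul_of_nonneg_right (hp4 p (by omega)) (by positivity)
  have B3 : ((cnt (2 ^ be q ν) (fun b => ¬ (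
      (∀ y : Fin q → ℤ,
        |∑ m ∈ range M, ∏ i, TW 0 (aa q ν) (y i + (m : ℤ) * sig α lam kap b i)| ≤ ε * M) ∧
      (∀ i, Nr M g (aa q ν) (sig α lam kap b i)))) : ℕ) : ℝ) ≤
      ((cnt (2 ^ be q ν) (fun b => ¬ Gen p L g' g9 v1 K1 K2 M τ i0 (sig α lam kap b)) +
      ∑ i, cnt (2 ^ be q ν) (fun b => ¬ Nr M g (aa q ν) (sig α lam kap b i)) : ℕ) : ℝ) := by
    exact_mod_cast B1
  push_cast at B3
  linarith

end Pool.Agent.H9.TC
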