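import Pool.Agent.H9.TC.Stm

/-!
Project TC (MP_b6022c_nt). Common part of the rows N2, N3, N4, N5.
-/

namespace Pool.Agent.H9.TC

open Finset

/-- From bounds for the exponential sums to the number of bad `b`. -/
theorem ncom (h0 : M0Stmt) (hg : GStmt) (q r : ℕ) (hrq : r ≤ q) (hq : 1 ≤ q)
    (S : Finset (Fin q)) (v W L g9 : ℕ) (D : ℝ) (hD : 0 ≤ D) (p uf β : ℕ)
    (hv : 1 ≤ v) (hW : 1 ≤ W) (hWv : W ≤ 2 ^ (v - 1)) (hg9 : g9 ≤ uf) (hL : 1 ≤ L)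
    (hWr : (1 / 2 : ℝ) ^ (2 * r * p) ≤ ((W : ℝ) / 2 ^ v) ^ S.card)
    (htail : (S.card : ℝ) * 2 ^ v / (2 * W * ((2 ^ ((2 * q + 3) * p) : ℕ) : ℝ)) ≤
      q * (1 / 2) ^ ((2 * r + 1) * p))
    (σ : ℕ → Fin q → ℤ) (s : ℕ → ℤ)
    (hexp : ∀ K : ℤ, |K| ≤ 2 * 4 ^ (L + g9) → ¬ (2 : ℤ) ^ L ∣ K →
      ∀ t : ℤ, t ≠ 0 → |t| < 2 ^ ((2 * q + 2) * p) → ∀ a : Fin q → ℤ,
      (∀ i ∈ S, |a i| ≤ 2 ^ ((2 * q + 3) * p)) →
      ‖∑ b ∈ range (2 ^ β), ee ((t : ℝ) * ((∑ i ∈ S, (a i : ℝ) * (σ b i : ℝ)) / 2 ^ v +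
        (K : ℝ) * (s b : ℝ) / 2 ^ (uf + L)))‖ ≤ D * (1 / 2) ^ ((2 * r + 1) * p) * 2 ^ β) :
    (cnt (2 ^ β) (fun b => ¬ Dir S v W (2 ^ ((2 * q + 2) * p)) uf L g9 (σ b) (s b)) : ℝ) * 2 ^ p
      ≤ (4 * 4 ^ (L + g9) + 1) * (4 * 2 ^ (L + g9)) * (1 + D + q) * 2 ^ β := by
  set T : ℕ := 2 ^ ((2 * q + 2) * p) with hT
  set x : ℝ := (1 / 2) ^ ((2 * r + 1) * p) with hx
  have hx0 : 0 < x := by positivity
  have hTx : (T : ℝ) ≤ (T : ℝ) ^ 2 * x := by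
    have h1 : (1 : ℝ) ≤ T * x := by
      rw [hT, hx]
      push_cast
      have h2 : (2 : ℝ) ^ ((2 * q + 2) * p) * (1 / 2) ^ ((2 * r + 1) * p) =
          2 ^ ((2 * q + 2) * p - (2 * r + 1) * p) := by
        have h3 : (2 * r + 1) * p ≤ (2 * q + 2) * p := Nat.mul_le_mul_right _ (by omega)
        obtain ⟨e, he⟩ := Nat.exists_eq_add_of_le h3
        rw [he, Nat.add_sub_cancel_left, pow_add, one_div, inv_pow]
        field_simp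
      rw [h2]
      exact one_le_pow₀ (by norm_num)
    nlinarith [(Nat.cast_nonneg T : (0 : ℝ) ≤ T)]
  have hA : 1 ≤ 2 ^ ((2 * q + 3) * p) := Nat.one_le_two_pow
  have hT1 : 1 ≤ T := Nat.one_le_two_pow
  have key := hg q S v W T uf L g9 (2 ^ β) σ s ((1 + D + q) * (1 / 2) ^ p) hv hW hWv hT1 hg9 hL
    (by
      intro K hK hKL
      have h1 := h0 q S v W T (2 ^ ((2 * q + 3) * p)) (2 ^ β) σ
        (fun b => (K : ℝ) * (s b : ℝ) / 2 ^ (uf + L)) (D * x) hv hW hWv hA (by positivity)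
        (by
          intro t ht htT a ha
          have h2 := hexp K hK hKL t ht (by rw [hT] at htT; exact_mod_cast htT) a
            (fun i hi => by exact_mod_cast ha i hi)
          refine h2.trans (le_of_eq ?_)
          push_cast
          ring)
      refine h1.trans ?_
      have h3 : (T : ℝ) + (T : ℝ) ^ 2 * (D * x) + (T : ℝ) ^ 2 *
          (S.card * 2 ^ v / (2 * W * ((2 ^ ((2 * q + 3) * p) : ℕ) : ℝ))) ≤
          (1 + D + q) * ((T : ℝ) ^ 2 * x) := by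
        have h4 : (T : ℝ) ^ 2 * (S.card * 2 ^ v / (2 * W * ((2 ^ ((2 * q + 3) * p) : ℕ) : ℝ))) ≤
            (T : ℝ) ^ 2 * (q * x) := by gcongr
        nlinarith
      have h5 : x = (1 / 2) ^ p * (1 / 2) ^ (2 * r * p) := by
        rw [hx, ← pow_add]
        congr 1
        ring
      calc ((2 ^ β : ℕ) : ℝ) * ((T : ℝ) + (T : ℝ) ^ 2 * (D * x) + (T : ℝ) ^ 2 *
          (S.card * 2 ^ v / (2 * W * ((2 ^ ((2 * q + 3) * p) : ℕ) : ℝ))))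
          ≤ ((2 ^ β : ℕ) : ℝ) * ((1 + D + q) * ((T : ℝ) ^ 2 * x)) := by gcongr
        _ = (1 + D + q) * (1 / 2) ^ p * ((2 ^ β : ℕ) : ℝ) * ((T : ℝ) ^ 2 *
            (1 / 2) ^ (2 * r * p)) := by rw [h5]; ring
        _ ≤ (1 + D + q) * (1 / 2) ^ p * ((2 ^ β : ℕ) : ℝ) * ((T : ℝ) ^ 2 *
            ((W : ℝ) / 2 ^ v) ^ S.card) := by gcongr)
  calc (cnt (2 ^ β) (fun b => ¬ Dir S v W T uf L g9 (σ b) (s b)) : ℝ) * 2 ^ p
      ≤ ((4 * 4 ^ (L + g9) + 1) * (4 * 2 ^ (L + g9)) * ((1 + D + q) * (1 / 2) ^ p) *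
          ((2 ^ β : ℕ) : ℝ)) * 2 ^ p := by gcongr
    _ = (4 * 4 ^ (L + g9) + 1) * (4 * 2 ^ (L + g9)) * (1 + D + q) * 2 ^ β *
          ((1 / 2) ^ p * 2 ^ p) := by push_cast; ring
    _ = _ := by rw [← mul_pow]; norm_num

/-- The quadratic sums. -/
theorem nquad (hq : QStmt) (q p : ℕ) (N2 : ℤ) (E X β : ℕ) (θ ζ : ℝ)
    (h1 : ¬ (2 : ℤ) ^ X ∣ N2) (h2 : X + 3 + (8 * q + 4) * p ≤ E)
    (h3 : (E + 1) / 2 + (4 * q + 2) * p ≤ β) :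
    ‖∑ b ∈ range (2 ^ β), ee ((N2 : ℝ) * (b : ℝ) ^ 2 / 2 ^ E + θ * b + ζ)‖ ≤
      2 * (1 / 2) ^ ((2 * q + 1) * p) * 2 ^ β := by
  have h4 := hq N2 E X β θ ζ h1 (by
    have : 0 ≤ (8 * q + 4) * p := Nat.zero_le _
    omega) (by omega)
  have h5 : (1 / 2 : ℝ) ^ ((E - X - 3) / 2) ≤ (1 / 2) ^ ((4 * q + 2) * p) := by
    apply pow_le_pow_of_le_one (by norm_num) (by norm_num)
    have : (8 * q + 4) * p = 2 * ((4 * q + 2) * p) := by ring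
    omega
  have h6 : (1 / 2 : ℝ) ^ (β - (E + 1) / 2) ≤ (1 / 2) ^ ((4 * q + 2) * p) :=
    pow_le_pow_of_le_one (by norm_num) (by norm_num) (by omega)
  have h7 : ‖∑ b ∈ range (2 ^ β), ee ((N2 : ℝ) * (b : ℝ) ^ 2 / 2 ^ E + θ * b + ζ)‖ ^ 2 ≤
      (2 * (1 / 2) ^ ((2 * q + 1) * p) * 2 ^ β) ^ 2 := by
    refine h4.trans ?_
    calc (4 : ℝ) ^ β * ((1 / 2) ^ ((E - X - 3) / 2) + (1 / 2) ^ (β - (E + 1) / 2))
        ≤ (4 : ℝ) ^ β * ((1 / 2) ^ ((4 * q + 2) * p) + (1 / 2) ^ ((4 * q + 2) * p)) := by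
          gcongr
      _ ≤ 4 * ((4 : ℝ) ^ β * (1 / 2) ^ ((4 * q + 2) * p)) := by
          have : 0 ≤ (4 : ℝ) ^ β * (1 / 2) ^ ((4 * q + 2) * p) := by positivity
          nlinarith
      _ = (2 * (1 / 2) ^ ((2 * q + 1) * p) * 2 ^ β) ^ 2 := by
          rw [mul_pow, mul_pow, ← pow_mul, ← pow_mul, mul_comm β 2, pow_mul 2 2 β,
            show (2 * q + 1) * p * 2 = (4 * q + 2) * p by ring]
          norm_num
          ring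
  exact (pow_le_pow_iff_left₀ (norm_nonneg _) (by positivity) two_ne_zero).1 h7

/-- The phases of the rows N2 - N5. -/
theorem nphase (q : ℕ) (S : Finset (Fin q)) (α v E : ℕ) (lam kap a : Fin q → ℤ) (is : Fin q)
    (t N : ℤ) (κ : ℝ) (hN : ((∑ i ∈ S, a i : ℤ) : ℝ) / 2 ^ v + κ = (N : ℝ) / 2 ^ E) (b : ℕ) :
    (t : ℝ) * ((∑ i ∈ S, (a i : ℝ) * (sig α lam kap b i : ℝ)) / 2 ^ v +
      κ * (sig α lam kap b is : ℝ)) =
    ((t * α * N : ℤ) : ℝ) * (b : ℝ) ^ 2 / 2 ^ E +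
      ((t : ℝ) * ((∑ i ∈ S, (a i : ℝ) * (lam i : ℝ)) / 2 ^ v + κ * lam is)) * b +
      (t : ℝ) * ((∑ i ∈ S, (a i : ℝ) * (kap i : ℝ)) / 2 ^ v + κ * kap is) := by
  have h1 : ∑ i ∈ S, (a i : ℝ) * (sig α lam kap b i : ℝ) =
      (α : ℝ) * (b : ℝ) ^ 2 * ((∑ i ∈ S, a i : ℤ) : ℝ) +
        (∑ i ∈ S, (a i : ℝ) * (lam i : ℝ)) * b + ∑ i ∈ S, (a i : ℝ) * (kap i : ℝ) := by
    push_cast
    rw [Finset.mul_sum, Finset.sum_mul, ← Finset.sum_add_distrib, ← Finset.sum_add_distrib]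
    apply Finset.sum_congr rfl
    intro i _
    unfold sig
    push_cast
    ring
  have h2 : ((sig α lam kap b is : ℤ) : ℝ) = (α : ℝ) * (b : ℝ) ^ 2 + lam is * b + kap is := by
    unfold sig
    push_cast
    ring
  have h3 : ((t * α * N : ℤ) : ℝ) * (b : ℝ) ^ 2 / 2 ^ E =
      (t : ℝ) * α * (b : ℝ) ^ 2 * ((N : ℝ) / 2 ^ E) := by
    push_cast
    ring
  rw [h1, h2, h3, ← hN]
  ring

/-- The combination of `nquad` and `nphase`. -/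
theorem nbound (hq : QStmt) (q p : ℕ) (S : Finset (Fin q)) (α v E Y β : ℕ) (hα : 1 ≤ α)
    (lam kap a : Fin q → ℤ) (is : Fin q) (t N : ℤ) (κ : ℝ)
    (hN : ((∑ i ∈ S, a i : ℤ) : ℝ) / 2 ^ v + κ = (N : ℝ) / 2 ^ E) (hN0 : N ≠ 0)
    (hNY : |N| ≤ 2 ^ Y) (ht : t ≠ 0) (htT : |t| < 2 ^ ((2 * q + 2) * p))
    (h2 : (2 * q + 2) * p + α + Y + 3 + (8 * q + 4) * p ≤ E)
    (h3 : (E + 1) / 2 + (4 * q + 2) * p ≤ β) (s : ℕ → ℝ)
    (hs : ∀ b, s b = κ * (sig α lam kap b is : ℝ)) :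
    ‖∑ b ∈ range (2 ^ β), ee ((t : ℝ) * ((∑ i ∈ S, (a i : ℝ) * (sig α lam kap b i : ℝ)) / 2 ^ v +
      s b))‖ ≤ 2 * (1 / 2) ^ ((2 * q + 1) * p) * 2 ^ β := by
  have h4 : ∀ b : ℕ, ee ((t : ℝ) * ((∑ i ∈ S, (a i : ℝ) * (sig α lam kap b i : ℝ)) / 2 ^ v +
      s b)) = ee (((t * α * N : ℤ) : ℝ) * (b : ℝ) ^ 2 / 2 ^ E +
      ((t : ℝ) * ((∑ i ∈ S, (a i : ℝ) * (lam i : ℝ)) / 2 ^ v + κ * lam is)) * b +
      (t : ℝ) * ((∑ i ∈ S, (a i : ℝ) * (kap i : ℝ)) / 2 ^ v + κ * kap is)) := by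
    intro b
    rw [hs, nphase q S α v E lam kap a is t N κ hN b]
  simp only [h4]
  apply nquad hq q p _ E ((2 * q + 2) * p + α + Y) β _ _ _ h2 h3
  intro hdvd
  have hne : t * α * N ≠ 0 := by
    refine mul_ne_zero (mul_ne_zero ht ?_) hN0
    exact_mod_cast (by omega : α ≠ 0)
  have h5 := Int.le_of_dvd (abs_pos.2 hne) ((dvd_abs _ _).2 hdvd)
  have h6 : |t * α * N| < 2 ^ ((2 * q + 2) * p + α + Y) := by
    rw [abs_mul, abs_mul, pow_add, pow_add]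
    have h7 : |(α : ℤ)| ≤ 2 ^ α := by
      rw [abs_of_nonneg (by positivity)]
      exact_mod_cast (Nat.lt_two_pow_self).le
    have h8 : 0 < |(α : ℤ)| := abs_pos.2 (by exact_mod_cast (by omega : α ≠ 0))
    have h9 : 0 < |N| := abs_pos.2 hN0
    calc |t| * |(α : ℤ)| * |N| < 2 ^ ((2 * q + 2) * p) * |(α : ℤ)| * |N| := by gcongr
      _ ≤ 2 ^ ((2 * q + 2) * p) * 2 ^ α * 2 ^ Y := by gcongr
  omega

theorem nW (v p : ℕ) (h : 2 * p ≤ v) :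
    ((2 ^ (v - 2 * p) : ℕ) : ℝ) / 2 ^ v = (1 / 2) ^ (2 * p) := by
  obtain ⟨e, rfl⟩ := Nat.exists_eq_add_of_le h
  rw [Nat.add_sub_cancel_left, pow_add]
  push_cast
  rw [one_div, inv_pow]
  field_simp

theorem ntail (q v p : ℕ) (h : 2 * p ≤ v) (c : ℝ) (hc : 0 ≤ c) :
    c * 2 ^ v / (2 * ((2 ^ (v - 2 * p) : ℕ) : ℝ) * ((2 ^ ((2 * q + 3) * p) : ℕ) : ℝ)) ≤
      c * (1 / 2) ^ ((2 * q + 1) * p) := by
  have h1 : c * 2 ^ v / (2 * ((2 ^ (v - 2 * p) : ℕ) : ℝ) * ((2 ^ ((2 * q + 3) * p) : ℕ) : ℝ)) =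
      c * ((1 / 2) ^ ((2 * q + 1) * p) / 2) := by
    obtain ⟨e, rfl⟩ := Nat.exists_eq_add_of_le h
    rw [Nat.add_sub_cancel_left, pow_add, show (2 * q + 3) * p = (2 * q + 1) * p + 2 * p by ring,
      pow_add 2 ((2 * q + 1) * p) (2 * p)]
    push_cast
    rw [one_div, inv_pow]
    field_simp
  rw [h1]
  have h2 : (0 : ℝ) < (1 / 2) ^ ((2 * q + 1) * p) := by positivity
  nlinarith

theorem nWv (v p : ℕ) (hp : 1 ≤ p) : 2 ^ (v - 2 * p) ≤ 2 ^ (v - 1) :=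
  Nat.pow_le_pow_right (by norm_num) (by omega)

/-- A sum of at most `q` integers. -/
theorem nsum {q : ℕ} (S : Finset (Fin q)) (a : Fin q → ℤ) (A : ℤ) (hA : 0 ≤ A)
    (ha : ∀ i ∈ S, |a i| ≤ A) : |∑ i ∈ S, a i| ≤ q * A := by
  calc |∑ i ∈ S, a i| ≤ ∑ i ∈ S, |a i| := Finset.abs_sum_le_sum_abs _ _
    _ ≤ ∑ i ∈ S, A := Finset.sum_le_sum ha
    _ = S.card * A := by rw [Finset.sum_const, nsmul_eq_mul]
    _ ≤ q * A := by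
      have : S.card ≤ q := by
        have := Finset.card_le_univ S
        rwa [Fintype.card_fin] at this
      have h2 : (S.card : ℤ) ≤ q := by exact_mod_cast this
      exact mul_le_mul_of_nonneg_right h2 hA

/-- Frequencies which are not divisible by `2 ^ L`. -/
theorem nK (L g9 : ℕ) (K : ℤ) (hK : |K| ≤ 2 * 4 ^ (L + g9)) :
    |K| ≤ 2 ^ (2 * (L + g9) + 1) := by
  refine hK.trans (le_of_eq ?_)
  rw [pow_succ, pow_mul]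
  norm_num
  ring

end Pool.Agent.H9.TC
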