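import Pool.Agent.H9.TC.Stm

/-!
Project TC (MP_b6022c_nt), row TC-20: the adjacent window, by the pigeonhole principle.
-/

namespace Pool.Agent.H9.TC

open Finset

/-- Pigeonhole: a multiple with all residues small. -/
theorem adj_pigeon {q : ℕ} (σ : Fin q → ℤ) (u w τ : ℕ) (h : q * w < τ) :
    ∃ tb : ℕ, 1 ≤ tb ∧ tb ≤ 2 ^ τ ∧ ∃ X : Fin q → ℤ, (∀ i, |X i| < 2 ^ u) ∧
      ∀ i, (2 : ℤ) ^ (u + w) ∣ (tb : ℤ) * σ i - X i := by
  classical
  have hP : (0 : ℤ) < 2 ^ (u + w) := by positivity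
  have hU : (0 : ℤ) < 2 ^ u := by positivity
  set f : ℕ → (Fin q → ℕ) := fun t i => ((((t : ℤ) * σ i) % 2 ^ (u + w)) / 2 ^ u).toNat with hf
  have hmaps : ∀ t ∈ range (2 ^ τ + 1), f t ∈ Fintype.piFinset (fun _ : Fin q => range (2 ^ w)) := by
    intro t _
    rw [Fintype.mem_piFinset]
    intro i
    rw [mem_range, hf]
    simp only
    have h1 := Int.emod_nonneg ((t : ℤ) * σ i) hP.ne'
    have h2 := Int.emod_lt_of_pos ((t : ℤ) * σ i) hP
    have h3 : (((t : ℤ) * σ i) % 2 ^ (u + w)) / 2 ^ u < 2 ^ w := by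
      rw [Int.ediv_lt_iff_lt_mul hU, ← pow_add, add_comm w u]
      exact h2
    have h4 : 0 ≤ (((t : ℤ) * σ i) % 2 ^ (u + w)) / 2 ^ u := Int.ediv_nonneg h1 hU.le
    zify
    rw [Int.toNat_of_nonneg h4]
    exact h3
  have hcard : (Fintype.piFinset (fun _ : Fin q => range (2 ^ w))).card < (range (2 ^ τ + 1)).card := by
    rw [Fintype.card_piFinset, prod_const, card_univ, Fintype.card_fin, card_range, card_range,
      ← pow_mul]
    have h1 : 2 ^ (w * q) ≤ 2 ^ τ := Nat.pow_le_pow_right (by norm_num) (by rw [mul_comm]; omega)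
    omega
  obtain ⟨t1, ht1, t2, ht2, hne, heq⟩ := exists_ne_map_eq_of_card_lt_of_maps_to hcard hmaps
  -- order them
  have key : ∀ s1 s2 : ℕ, s1 < s2 → s2 ∈ range (2 ^ τ + 1) → f s1 = f s2 →
      ∃ tb : ℕ, 1 ≤ tb ∧ tb ≤ 2 ^ τ ∧ ∃ X : Fin q → ℤ, (∀ i, |X i| < 2 ^ u) ∧
        ∀ i, (2 : ℤ) ^ (u + w) ∣ (tb : ℤ) * σ i - X i := by
    intro s1 s2 h12 hs2 hfe
    rw [mem_range] at hs2
    refine ⟨s2 - s1, by omega, by omega,
      fun i => ((s2 : ℤ) * σ i) % 2 ^ (u + w) - ((s1 : ℤ) * σ i) % 2 ^ (u + w), fun i => ?_,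
      fun i => ?_⟩
    · have h1 := congrFun hfe i
      rw [hf] at h1
      simp only at h1
      have a1 := Int.emod_nonneg ((s1 : ℤ) * σ i) hP.ne'
      have a2 := Int.emod_nonneg ((s2 : ℤ) * σ i) hP.ne'
      have b1 : 0 ≤ (((s1 : ℤ) * σ i) % 2 ^ (u + w)) / 2 ^ u := Int.ediv_nonneg a1 hU.le
      have b2 : 0 ≤ (((s2 : ℤ) * σ i) % 2 ^ (u + w)) / 2 ^ u := Int.ediv_nonneg a2 hU.le
      have h2 : (((s1 : ℤ) * σ i) % 2 ^ (u + w)) / 2 ^ u
          = (((s2 : ℤ) * σ i) % 2 ^ (u + w)) / 2 ^ u := by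
        rw [← Int.toNat_of_nonneg b1, ← Int.toNat_of_nonneg b2, h1]
      have c1 := Int.emod_add_mul_ediv (((s1 : ℤ) * σ i) % 2 ^ (u + w)) (2 ^ u)
      have c2 := Int.emod_add_mul_ediv (((s2 : ℤ) * σ i) % 2 ^ (u + w)) (2 ^ u)
      have d1 := Int.emod_nonneg (((s1 : ℤ) * σ i) % 2 ^ (u + w)) hU.ne'
      have d2 := Int.emod_nonneg (((s2 : ℤ) * σ i) % 2 ^ (u + w)) hU.ne'
      have e1 := Int.emod_lt_of_pos (((s1 : ℤ) * σ i) % 2 ^ (u + w)) hU
      have e2 := Int.emod_lt_of_pos (((s2 : ℤ) * σ i) % 2 ^ (u + w)) hU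
      rw [h2] at c1
      rw [abs_lt]
      constructor <;> linarith
    · have h1 : ((s2 - s1 : ℕ) : ℤ) = (s2 : ℤ) - s1 := by rw [Nat.cast_sub h12.le]
      rw [h1]
      have c1 := Int.emod_add_mul_ediv ((s1 : ℤ) * σ i) (2 ^ (u + w))
      have c2 := Int.emod_add_mul_ediv ((s2 : ℤ) * σ i) (2 ^ (u + w))
      refine ⟨((s2 : ℤ) * σ i) / 2 ^ (u + w) - ((s1 : ℤ) * σ i) / 2 ^ (u + w), ?_⟩
      linear_combination c1 - c2
  rcases lt_or_gt_of_ne hne with h1 | h1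
  · exact key t1 t2 h1 ht2 heq
  · exact key t2 t1 h1 ht1 heq.symm

/-- **Row TC-20.** -/
theorem adj : AStmt := by
  intro q σ i0 uf L p wa τ hLp hp hq hτ hno
  have hva : uf + L + wa = (uf + L - p) + (wa + p) := by omega
  obtain ⟨tb, htb1, htb2, X, hX, hdiv⟩ := adj_pigeon σ (uf + L - p) (wa + p) τ hq
  rw [← hva] at hdiv
  -- the largest residue
  obtain ⟨is, his⟩ := @Finite.exists_max (Fin q) ℤ _ ⟨i0⟩ _ fun i => |X i|
  set Y : ℤ := |X is| with hY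
  have hY0 : (2 : ℤ) ^ (uf + L + wa - 2 * τ) < Y := by
    by_contra h1
    push Not at h1
    exact hno tb htb1 htb2 ⟨X i0, (his i0).trans h1, hdiv i0⟩
  have hYpos : 0 < Y := lt_of_le_of_lt (by positivity) hY0
  have hYlt : Y < 2 ^ (uf + L - p) := hX is
  have hYuf : Y ≤ 2 ^ uf :=
    hYlt.le.trans (pow_le_pow_right₀ (by norm_num) (by omega))
  set c : ℤ := 2 ^ uf / Y with hc
  have hc0 : 0 ≤ c := Int.ediv_nonneg (by positivity) hYpos.le
  have hdec := Int.emod_add_mul_ediv ((2 : ℤ) ^ uf) Y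
  have hm0 := Int.emod_nonneg ((2 : ℤ) ^ uf) hYpos.ne'
  have hm1 := Int.emod_lt_of_pos ((2 : ℤ) ^ uf) hYpos
  rw [← hc] at hdec
  have hcY : c * Y ≤ 2 ^ uf := by linarith [mul_comm Y c]
  have hc2 : c ≤ 2 ^ (2 * τ) := by
    by_contra h1
    push Not at h1
    have h2 : (2 : ℤ) ^ (2 * τ) * 2 ^ (uf + L + wa - 2 * τ) < c * Y := by
      have h3 : (0 : ℤ) < 2 ^ (uf + L + wa - 2 * τ) := by positivity
      calc (2 : ℤ) ^ (2 * τ) * 2 ^ (uf + L + wa - 2 * τ) < c * 2 ^ (uf + L + wa - 2 * τ) :=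
            mul_lt_mul_of_pos_right h1 h3
        _ ≤ c * Y := mul_le_mul_of_nonneg_left hY0.le hc0
    rw [← pow_add, show 2 * τ + (uf + L + wa - 2 * τ) = uf + L + wa by omega] at h2
    have h4 : (2 : ℤ) ^ uf ≤ 2 ^ (uf + L + wa) := pow_le_pow_right₀ (by norm_num) (by omega)
    linarith
  -- the sign
  obtain ⟨ε, hε, hεX⟩ : ∃ ε : ℤ, |ε| = 1 ∧ ε * X is = Y := by
    rcases le_total 0 (X is) with h1 | h1
    · exact ⟨1, abs_one, by rw [hY, abs_of_nonneg h1, one_mul]⟩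
    · exact ⟨-1, by rw [abs_neg, abs_one], by rw [hY, abs_of_nonpos h1]; ring⟩
  refine ⟨is, ε * c * tb, ?_, fun i => ?_, ?_⟩
  · rw [abs_mul, abs_mul, hε, one_mul, abs_of_nonneg hc0, abs_of_nonneg (Int.natCast_nonneg tb)]
    have h1 : (tb : ℤ) ≤ 2 ^ τ := by exact_mod_cast htb2
    calc c * (tb : ℤ) ≤ 2 ^ (2 * τ) * 2 ^ τ :=
          mul_le_mul hc2 h1 (Int.natCast_nonneg tb) (by positivity)
      _ = 2 ^ (3 * τ) := by rw [← pow_add]; congr 1; ring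
  · refine ⟨ε * c * X i, ?_, ?_⟩
    · rw [abs_mul, abs_mul, hε, one_mul, abs_of_nonneg hc0]
      exact (mul_le_mul_of_nonneg_left (his i) hc0).trans hcY
    · have h1 : ε * c * tb * σ i - ε * c * X i = ε * c * (tb * σ i - X i) := by ring
      rw [h1]
      exact Dvd.dvd.mul_left (hdiv i) _
  · refine ⟨-((2 : ℤ) ^ uf % Y), ?_, ?_⟩
    · rw [abs_neg, abs_of_nonneg hm0]
      linarith
    · have h1 : ε * c * tb * σ is - 2 ^ uf - -((2 : ℤ) ^ uf % Y)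
          = ε * c * (tb * σ is - X is) := by
        have h2 : ε * c * X is = c * Y := by rw [← hεX]; ring
        linear_combination hdec + h2
      rw [h1]
      exact Dvd.dvd.mul_left (hdiv is) _

end Pool.Agent.H9.TC
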