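import Pool.Agent.H9.TC.Stm

/-!
Project TC (MP_b6022c_nt), row TC-23 (helper63): a generic `b` gives a small sum.
-/

set_option autoImplicit false

namespace Pool.Agent.H9.TC

open Finset

private theorem cg_small_mono {v : ℕ} {D D' x : ℤ} (h : small v D x) (hD : D ≤ D') :
    small v D' x := by
  obtain ⟨s, hs, hd⟩ := h
  exact ⟨s, hs.trans hD, hd⟩

private theorem cg_small_dvd {v v' : ℕ} {D x : ℤ} (h : small v D x) (hv : v' ≤ v) :
    small v' D x := by
  obtain ⟨s, hs, hd⟩ := h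
  exact ⟨s, hs, (pow_dvd_pow 2 hv).trans hd⟩

private theorem cg_pow {a b : ℕ} (h : a ≤ b) : (2 : ℤ) ^ a ≤ 2 ^ b :=
  pow_le_pow_right₀ (by norm_num) h

private theorem cg_pad (k : ℕ) (D : Type) [Fintype D] (h : Fintype.card D ≤ k) (td : D → ℤ)
    (d0 : D) : ∃ (t : Fin k → ℤ) (e : D → Fin k), (∀ d, t (e d) = td d) ∧ ∀ x, ∃ d, t x = td d := by
  classical
  obtain ⟨e⟩ := Function.Embedding.nonempty_of_card_le (α := D) (β := Fin k) (by simpa using h)
  refine ⟨Function.extend e td (fun _ => td d0), e, ?_, ?_⟩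
  · intro d
    exact e.injective.extend_apply td _ d
  · intro x
    by_cases hx : ∃ d, e d = x
    · obtain ⟨d, rfl⟩ := hx
      exact ⟨d, e.injective.extend_apply td _ d⟩
    · exact ⟨d0, Function.extend_apply' td _ x hx⟩

private theorem cg_cases (K1 w : ℕ) : w = 0 ∨ (∃ j < K1, w = j + 1) ∨ w = K1 + 1 ∨ w = K1 + 2 ∨
    ∃ j, w = K1 + 3 + j := by
  rcases Nat.lt_or_ge w (K1 + 3) with h | h
  · rcases Nat.eq_zero_or_pos w with h0 | h0
    · exact Or.inl h0
    · rcases Nat.lt_or_ge w (K1 + 1) with h1 | h1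
      · exact Or.inr (Or.inl ⟨w - 1, by omega, by omega⟩)
      · have : w = K1 + 1 ∨ w = K1 + 2 := by omega
        rcases this with h2 | h2
        · exact Or.inr (Or.inr (Or.inl h2))
        · exact Or.inr (Or.inr (Or.inr (Or.inl h2)))
  · exact Or.inr (Or.inr (Or.inr (Or.inr ⟨w - (K1 + 3), by omega⟩)))

theorem cg (ha : AStmt) (hc : CDStmt) : CGStmt := by
  intro k q Z g L g9 L0 p v1 K1 K2 M τ c i0 σ y hk hM hc0 hKB hL hg9 hp hv1 hτ1 hτ2 hG
  classical
  obtain ⟨G1, G2, G3, G4, G5, G6, G7, G8⟩ := hG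
  -- the adjacent window
  obtain ⟨is, ta, hta1, hta2, hta3⟩ := ha q σ i0 (v1 + K1 * p) L p ((2 * q + 4) * p) τ
    (by omega) (by
      have : 0 ≤ K1 * p := Nat.zero_le _
      omega) (by
      have e : q * ((2 * q + 4) * p + p) = q * (2 * q + 5) * p := by ring
      rw [e]
      exact hτ1) hτ2 G8
  set uf := v1 + K1 * p with huf
  set B : ℕ := max ((2 * q + 2) * p + v1) (3 * τ) with hB
  have hB1 : (2 * q + 2) * p + v1 ≤ B := le_max_left _ _
  have hB2 : 3 * τ ≤ B := le_max_right _ _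
  have huf2 : 2 * p ≤ uf := by
    have : 0 ≤ K1 * p := Nat.zero_le _
    omega
  -- the direction of the lowest window
  obtain ⟨t', ht1, -, ht3⟩ := G6 is
  set tz : ℤ := 2 ^ v1 * t' with htz
  have htz1 : |tz| ≤ 2 ^ B := by
    rw [htz, abs_mul, abs_of_nonneg (by positivity : (0 : ℤ) ≤ 2 ^ v1)]
    have h1 : (2 : ℤ) ^ v1 * |t'| ≤ 2 ^ v1 * 2 ^ ((2 * q + 2) * p) := by
      refine mul_le_mul_of_nonneg_left ?_ (by positivity)
      exact_mod_cast ht1.le
    rw [← pow_add] at h1
    exact h1.trans (cg_pow (by omega))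
  have htz3 : small (uf + L) ((2 : ℤ) ^ (uf - g9)) (tz * σ is - (2 : ℤ) ^ uf) := by
    have e : tz * σ is = t' * (2 ^ v1 * σ is) := by rw [htz]; ring
    rw [e]
    exact ht3
  have hbd : ∀ t : ℤ, |t| < ((2 ^ ((2 * q + 2) * p) : ℕ) : ℤ) → |t| ≤ 2 ^ B := by
    intro t ht
    have h1 : |t| ≤ 2 ^ ((2 * q + 2) * p) := by exact_mod_cast ht.le
    exact h1.trans (cg_pow (by omega))
  -- the other directions
  have hb : ∀ j : Fin K1, ∃ t : ℤ, |t| ≤ 2 ^ B ∧
      small (uf + L) ((2 : ℤ) ^ (uf - g9)) (t * σ is - (2 : ℤ) ^ uf) ∧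
      ∀ i, small (v1 + (j + 1) * p) (2 ^ (v1 + (j + 1) * p - 2 * p)) (t * σ i) := by
    intro j
    obtain ⟨t, h1, h2, h3⟩ := G4 is j j.2
    refine ⟨t, hbd t h1, h3, fun i => ?_⟩
    have := h2 i (Finset.mem_univ i)
    exact_mod_cast this
  have hab : ∀ j : Fin K2, ∃ t : ℤ, |t| ≤ 2 ^ B ∧
      small (uf + L) ((2 : ℤ) ^ (uf - g9)) (t * σ is - (2 : ℤ) ^ uf) ∧
      ∀ i, small (uf + L + (2 * q + 4) * p + (j + 1) * p)
        (2 ^ (uf + L + (2 * q + 4) * p + (j + 1) * p - 2 * p)) (t * σ i) := by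
    intro j
    obtain ⟨t, h1, h2, h3⟩ := G5 is j j.2
    refine ⟨t, hbd t h1, h3, fun i => ?_⟩
    have := h2 i (Finset.mem_univ i)
    exact_mod_cast this
  have hel : ∀ i' : Fin q, ∃ t : ℤ, |t| ≤ 2 ^ B ∧
      small (uf + L) ((2 : ℤ) ^ (uf - g9)) (t * σ is - (2 : ℤ) ^ uf) ∧
      (i' ≠ is → small (uf + L) (2 ^ (uf + L - 2 * p)) (t * σ i')) := by
    intro i'
    by_cases hi : i' = is
    · exact ⟨tz, htz1, htz3, fun h => absurd hi h⟩
    · obtain ⟨t, h1, h2, h3⟩ := G7 is i' (fun h => hi h.symm)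
      refine ⟨t, hbd t h1, h3, fun _ => ?_⟩
      have := h2 i' (Finset.mem_singleton_self i')
      exact_mod_cast this
  choose tb htb1 htb2 htb3 using hb
  choose tc htc1 htc2 htc3 using hab
  choose te hte1 hte2 hte3 using hel
  have hta4 : |ta| ≤ 2 ^ B := hta1.trans (cg_pow hB2)
  have hta5 : small (uf + L) ((2 : ℤ) ^ (uf - g9)) (ta * σ is - (2 : ℤ) ^ uf) := by
    refine cg_small_mono (cg_small_dvd hta3 (by omega)) (cg_pow ?_)
    omega
  -- all the directions
  let td : (Fin K1 ⊕ Fin K2) ⊕ (Fin q ⊕ Bool) → ℤ := Sum.elim (Sum.elim tb tc)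
    (Sum.elim te (fun b => if b then ta else tz))
  have htd1 : ∀ d, |td d| ≤ 2 ^ B := by
    rintro ((j | j) | (i | b))
    · exact htb1 j
    · exact htc1 j
    · exact hte1 i
    · cases b
      · exact htz1
      · exact hta4
  have htd2 : ∀ d, small (uf + L) ((2 : ℤ) ^ (uf - g9)) (td d * σ is - (2 : ℤ) ^ uf) := by
    rintro ((j | j) | (i | b))
    · exact htb2 j
    · exact htc2 j
    · exact hte2 i
    · cases b
      · exact htz3
      · exact hta5
  obtain ⟨t, e, het, hex⟩ := cg_pad k _ (by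
    simp only [Fintype.card_sum, Fintype.card_fin, Fintype.card_bool]
    omega) td (Sum.inr (Sum.inr false))
  -- the windows
  let lv : ℕ → ℕ := fun w => if w = 0 then 0 else if w ≤ K1 + 1 then v1 + (w - 1) * p
    else if w = K1 + 2 then uf + L else uf + L + (2 * q + 4) * p + (w - (K1 + 3)) * p
  have hlv0 : lv 0 = 0 := by simp [lv]
  have hlvA : ∀ j ≤ K1, lv (j + 1) = v1 + j * p := by
    intro j hj
    simp only [lv]
    rw [if_neg (by omega), if_pos (by omega), Nat.add_sub_cancel]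
  have hlvB : lv (K1 + 2) = uf + L := by
    simp only [lv]
    rw [if_neg (by omega), if_neg (by omega)]
    simp
  have hlvC : ∀ j, lv (K1 + 3 + j) = uf + L + (2 * q + 4) * p + j * p := by
    intro j
    simp only [lv]
    rw [if_neg (by omega), if_neg (by omega), if_neg (by omega), Nat.add_sub_cancel_left]
  have hlvF : lv (K1 + 1) = uf := hlvA K1 le_rfl
  have hmono : Monotone lv := by
    refine monotone_nat_of_le_succ fun w => ?_
    rcases cg_cases K1 w with rfl | ⟨j, hj, rfl⟩ | rfl | rfl | ⟨j, rfl⟩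
    · rw [hlv0]
      exact Nat.zero_le _
    · rw [hlvA j hj.le, hlvA (j + 1) hj, Nat.succ_mul]
      omega
    · rw [hlvF, hlvB]
      omega
    · rw [hlvB]
      have := hlvC 0
      rw [add_zero] at this
      rw [this]
      omega
    · have := hlvC (j + 1)
      rw [← add_assoc] at this
      have e : (j + 1) * p = j * p + p := by ring
      rw [hlvC j, this, e]
      omega
  have hlow : ∀ w, 1 ≤ w → v1 ≤ lv w := by
    intro w hw
    have h1 := hmono hw
    have h2 := hlvA 0 (Nat.zero_le _)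
    rw [zero_add, zero_mul, add_zero] at h2
    rwa [h2] at h1
  -- the direction of a window
  let dd : Fin q → ℕ → (Fin K1 ⊕ Fin K2) ⊕ (Fin q ⊕ Bool) := fun i w =>
    if h : 1 ≤ w ∧ w - 1 < K1 then Sum.inl (Sum.inl ⟨w - 1, h.2⟩)
    else if w = K1 + 1 then Sum.inr (Sum.inl i)
    else if w = K1 + 2 then Sum.inr (Sum.inr true)
    else if h : K1 + 3 ≤ w ∧ w - (K1 + 3) < K2 then Sum.inl (Sum.inr ⟨w - (K1 + 3), h.2⟩)
    else Sum.inr (Sum.inr false)
  have key := hc k q (K1 + K2 + 3) Z g L g9 M L0 (K1 + 1) c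
    (2 ^ Z * (k + 1) * 2 ^ B) lv σ y is tz t (fun i w => e (dd i w)) hM hc0 hKB hmono hlv0
    (by omega) (by omega) (by rw [hlvF]; exact hlvB) (by omega)
    (fun w hw => by have := hlow w hw; omega) (by rw [hlvF]; omega) hg9 ?_ ?_ ?_ ?_ ?_ ?_
  · have h1 : lv (K1 + K2 + 3) = uf + L + (2 * q + 4) * p + K2 * p := by
      have e : K1 + K2 + 3 = K1 + 3 + K2 := by ring
      rw [e, hlvC]
    rw [h1] at key
    push_cast at key
    exact key
  · -- the lowest window
    intro i
    have h1 : dd i 0 = Sum.inr (Sum.inr false) := by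
      simp only [dd]
      rw [dif_neg (by omega), if_neg (by omega), if_neg (by omega), dif_neg (by omega)]
    have h2 := hlvA 0 (Nat.zero_le _)
    rw [zero_add, zero_mul, add_zero] at h2
    simp only [h1, het, h2]
    change (2 : ℤ) ^ v1 ∣ tz * σ i
    rw [htz, mul_assoc]
    exact dvd_mul_right _ _
  · -- the other windows
    intro i w hw1 hw2 hw3
    rcases cg_cases K1 w with rfl | ⟨j, hj, rfl⟩ | rfl | rfl | ⟨j, rfl⟩
    · omega
    · have h1 : dd i (j + 1) = Sum.inl (Sum.inl ⟨j, hj⟩) := by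
        simp only [dd]
        rw [dif_pos ⟨by omega, by omega⟩]
        rfl
      rw [h1, het]
      change small (lv (j + 1 + 1)) _ (tb ⟨j, hj⟩ * σ i)
      rw [hlvA (j + 1) hj, hlvA j hj.le]
      refine cg_small_mono (htb3 ⟨j, hj⟩ i) (cg_pow ?_)
      have e : (j + 1) * p = j * p + p := by ring
      simp only [e]
      omega
    · have h1 : dd i (K1 + 1) = Sum.inr (Sum.inl i) := by
        simp only [dd]
        rw [dif_neg (by omega)]
        simp
      have hi : i ≠ is := fun h => hw3 h rfl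
      rw [h1, het]
      change small (lv (K1 + 2)) _ (te i * σ i)
      rw [hlvB, hlvF]
      exact cg_small_mono (hte3 i hi) (cg_pow (by omega))
    · have h1 : dd i (K1 + 2) = Sum.inr (Sum.inr true) := by
        simp only [dd]
        rw [dif_neg (by omega), if_neg (by omega)]
        simp
      have h3 := hlvC 0
      rw [add_zero, zero_mul, add_zero] at h3
      rw [h1, het]
      change small (lv (K1 + 3)) _ (ta * σ i)
      rw [h3, hlvB]
      exact cg_small_mono (hta2 i) (cg_pow (by omega))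
    · have hj : j < K2 := by omega
      have h1 : dd i (K1 + 3 + j) = Sum.inl (Sum.inr ⟨j, hj⟩) := by
        simp only [dd]
        rw [dif_neg (by omega), if_neg (by omega), if_neg (by omega),
          dif_pos ⟨by omega, by omega⟩]
        congr 3
        omega
      have h3 := hlvC (j + 1)
      rw [← add_assoc] at h3
      rw [h1, het]
      change small (lv (K1 + 3 + j + 1)) _ (tc ⟨j, hj⟩ * σ i)
      rw [h3, hlvC]
      refine cg_small_mono (htc3 ⟨j, hj⟩ i) (cg_pow ?_)
      have e : (j + 1) * p = j * p + p := by ring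
      simp only [e]
      omega
  · rw [hlvF]
    exact htz3
  · intro x
    obtain ⟨d, hd⟩ := hex x
    rw [hd, hlvF]
    exact htd2 d
  · intro i w hw1 hw2
    rcases cg_cases K1 w with rfl | ⟨j, hj, rfl⟩ | rfl | rfl | ⟨j, rfl⟩
    · omega
    · rw [hlvA j hj.le]
      exact G1 i j hj.le
    · rw [hlvF]
      exact G1 i K1 le_rfl
    · rw [hlvB]
      exact G2 i
    · rw [hlvC]
      exact G3 i j (by omega)
  · have h1 : |(tz : ℝ)| ≤ 2 ^ B := by exact_mod_cast htz1
    have h2 : ∑ x, |(t x : ℝ)| ≤ k * 2 ^ B := by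
      calc ∑ x, |(t x : ℝ)| ≤ ∑ _x : Fin k, (2 : ℝ) ^ B := by
            refine Finset.sum_le_sum fun x _ => ?_
            obtain ⟨d, hd⟩ := hex x
            rw [hd]
            exact_mod_cast htd1 d
        _ = k * 2 ^ B := by simp
    have h3 : (2 : ℝ) ^ Z * (|(tz : ℝ)| + ∑ x, |(t x : ℝ)|) ≤ 2 ^ Z * (2 ^ B + k * 2 ^ B) := by
      refine mul_le_mul_of_nonneg_left (add_le_add h1 h2) (by positivity)
    refine h3.trans (le_of_eq ?_)
    ring

end Pool.Agent.H9.TC
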