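import Pool.Agent.H9.TC.Stm

/-!
Project TC, row TC-25: two-dimensional Dirichlet approximation.
-/

set_option autoImplicit false

namespace Pool.Agent.H9.TC

/-- the cell of `j x` -/
theorem dd_cell {N P u v x y s t : ℤ} (hN : 0 < N) (hx : x = N * s + u) (hy : y = N * t + v)
    (h : u * P / N = v * P / N) : |(x - y) - (s - t) * N| * |P| ≤ N := by
  have h1 : (x - y) - (s - t) * N = u - v := by rw [hx, hy]; ring
  rw [h1, ← abs_mul]
  have h2 := Int.mul_ediv_add_emod (u * P) N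
  have h3 := Int.mul_ediv_add_emod (v * P) N
  have h4 := Int.emod_lt_of_pos (u * P) hN
  have h5 := Int.emod_lt_of_pos (v * P) hN
  have h6 := Int.emod_nonneg (u * P) hN.ne'
  have h7 := Int.emod_nonneg (v * P) hN.ne'
  rw [h] at h2
  rw [abs_le]
  constructor <;> nlinarith

theorem dd : DStmt := by
  intro x y a A B
  set N : ℤ := 2 ^ a with hN
  set M : ℤ := 2 ^ (2 * a) with hM
  have hN0 : 0 < N := by positivity
  have hM0 : 0 < M := by positivity
  let f : ℕ → ℤ × ℤ := fun j =>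
    (((j : ℤ) * x % N) * 2 ^ A / N, ((j : ℤ) * y % M) * 2 ^ B / M)
  have hmaps : ∀ j ∈ Finset.range (2 ^ (A + B) + 1), f j ∈
      (Finset.Ico (0 : ℤ) (2 ^ A)) ×ˢ (Finset.Ico (0 : ℤ) (2 ^ B)) := by
    intro j _
    have h1 := Int.emod_nonneg ((j : ℤ) * x) hN0.ne'
    have h2 := Int.emod_lt_of_pos ((j : ℤ) * x) hN0
    have h3 := Int.emod_nonneg ((j : ℤ) * y) hM0.ne'
    have h4 := Int.emod_lt_of_pos ((j : ℤ) * y) hM0
    have hA : (0 : ℤ) < 2 ^ A := by positivity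
    have hB : (0 : ℤ) < 2 ^ B := by positivity
    simp only [f, Finset.mem_product, Finset.mem_Ico]
    refine ⟨⟨Int.ediv_nonneg (by positivity) hN0.le, ?_⟩, ⟨Int.ediv_nonneg (by positivity) hM0.le, ?_⟩⟩
    · rw [Int.ediv_lt_iff_lt_mul hN0]
      nlinarith
    · rw [Int.ediv_lt_iff_lt_mul hM0]
      nlinarith
  have hcard : ((Finset.Ico (0 : ℤ) (2 ^ A)) ×ˢ (Finset.Ico (0 : ℤ) (2 ^ B))).card <
      (Finset.range (2 ^ (A + B) + 1)).card := by
    rw [Finset.card_product, Int.card_Ico, Int.card_Ico, Finset.card_range, pow_add]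
    have e1 : ((2 : ℤ) ^ A - 0).toNat = 2 ^ A := by
      rw [sub_zero]
      exact_mod_cast Int.toNat_natCast (2 ^ A)
    have e2 : ((2 : ℤ) ^ B - 0).toNat = 2 ^ B := by
      rw [sub_zero]
      exact_mod_cast Int.toNat_natCast (2 ^ B)
    rw [e1, e2]
    omega
  obtain ⟨i, hi, j, hj, hij, hfij⟩ := Finset.exists_ne_map_eq_of_card_lt_of_maps_to hcard hmaps
  wlog hlt : i < j generalizing i j with H
  · exact H j hj i hi hij.symm hfij.symm (by omega)
  rw [Finset.mem_range] at hi hj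
  have hf1 : ((j : ℤ) * x % N) * 2 ^ A / N = ((i : ℤ) * x % N) * 2 ^ A / N :=
    (congrArg Prod.fst hfij).symm
  have hf2 : ((j : ℤ) * y % M) * 2 ^ B / M = ((i : ℤ) * y % M) * 2 ^ B / M :=
    (congrArg Prod.snd hfij).symm
  have k1 := dd_cell hN0 (Int.mul_ediv_add_emod ((j : ℤ) * x) N).symm
    (Int.mul_ediv_add_emod ((i : ℤ) * x) N).symm hf1
  have k2 := dd_cell hM0 (Int.mul_ediv_add_emod ((j : ℤ) * y) M).symm
    (Int.mul_ediv_add_emod ((i : ℤ) * y) M).symm hf2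
  rw [abs_of_pos (by positivity : (0 : ℤ) < 2 ^ A)] at k1
  rw [abs_of_pos (by positivity : (0 : ℤ) < 2 ^ B)] at k2
  refine ⟨j - i, by omega, by omega, (j : ℤ) * x / N - (i : ℤ) * x / N,
    (j : ℤ) * y / M - (i : ℤ) * y / M, ?_, ?_⟩
  · have e : (((j - i : ℕ) : ℤ)) * x = (j : ℤ) * x - (i : ℤ) * x := by
      rw [Nat.cast_sub hlt.le]
      ring
    rw [e]
    exact k1
  · have e : (((j - i : ℕ) : ℤ)) * y = (j : ℤ) * y - (i : ℤ) * y := by
      rw [Nat.cast_sub hlt.le]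
      ring
    rw [e]
    exact k2

end Pool.Agent.H9.TC
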