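import Mathlib

/-!
Project TC (MP_b6022c_nt): the Thue-Morse sequence along cubic polynomials is normal.
Definitions used by all rows. The written proof is team note 5034 (see also the comments of `Stm.lean`).
-/

namespace Pool.Agent.H9.TC

open Finset

/-- `e(x) = exp(2 pi i x)`. -/
noncomputable def ee (x : ℝ) : ℂ := Complex.exp (((2 * Real.pi * x : ℝ) : ℂ) * Complex.I)

/-- The Thue-Morse sign of the binary digits `u, u+1, ..., v-1` of the integer `x`. -/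
noncomputable def TW (u v : ℕ) (x : ℤ) : ℝ :=
  ∏ i ∈ Ico u v, (if (x / 2 ^ i) % 2 = 0 then (1 : ℝ) else -1)

/-- `x mod 2^u` is in `[0, D)` or in `[2^u - D, 2^u)`. -/
def near (u : ℕ) (D : ℤ) (x : ℤ) : Prop := x % 2 ^ u < D ∨ 2 ^ u - D ≤ x % 2 ^ u

/-- `x` is congruent modulo `2^v` to some `s` with `|s| <= D`. -/
def small (v : ℕ) (D : ℤ) (x : ℤ) : Prop := ∃ s : ℤ, |s| ≤ D ∧ (2 : ℤ) ^ v ∣ x - s

open Classical in
/-- Number of `m < M` with `P m`. -/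
noncomputable def cnt (M : ℕ) (P : ℕ → Prop) : ℕ := ((range M).filter P).card

/-- The box `[0, J)^{1+2k}`: a point is `(j_0, (j_l^{(e)})_{l < k, e in Bool})`. -/
noncomputable def box (k J : ℕ) : Finset (ℕ × (Fin k × Bool → ℕ)) :=
  range J ×ˢ Fintype.piFinset (fun _ => range J)

/-- `t_eta(j) = j_0 t_0 + sum_l j_l^{(eta_l)} t_l`. -/
def psi {k : ℕ} (t0 : ℤ) (t : Fin k → ℤ) (η : Fin k → Bool) (j : ℕ × (Fin k × Bool → ℕ)) : ℤ :=
  (j.1 : ℤ) * t0 + ∑ l, (j.2 (l, η l) : ℤ) * t l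

/-- Fejer kernel on `Z / 2^v` of width `W`. -/
noncomputable def Fj (v W : ℕ) (x : ℤ) : ℝ :=
  ((((range W) ×ˢ (range W)).filter
    (fun ij : ℕ × ℕ => (2 : ℤ) ^ v ∣ x - ((ij.1 : ℤ) - (ij.2 : ℤ)))).card : ℝ) / W

/-- Its Fourier coefficients. -/
noncomputable def Fh (v W : ℕ) (a : ℤ) : ℝ :=
  ‖∑ i ∈ range W, ee ((a : ℝ) * i / 2 ^ v)‖ ^ 2 / (W * 2 ^ v)

/-- Representatives of the frequencies modulo `2^v` (for `v >= 1`). -/
noncomputable def reps (v : ℕ) : Finset ℤ := Ioc (-(2 : ℤ) ^ (v - 1)) ((2 : ℤ) ^ (v - 1))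

/-- `sum_{t1, t2 < T} prod_{i in S} F_{v,W}((t1 - t2) sigma_i) cos(2 pi (t1 - t2) theta)`. -/
noncomputable def PhiR {q : ℕ} (S : Finset (Fin q)) (v W T : ℕ) (σ : Fin q → ℤ) (θ : ℝ) : ℝ :=
  ∑ t1 ∈ range T, ∑ t2 ∈ range T,
    (∏ i ∈ S, Fj v W (((t1 : ℤ) - (t2 : ℤ)) * σ i)) *
      Real.cos (2 * Real.pi * (((t1 : ℝ) - (t2 : ℝ)) * θ))

/-- The slopes `sigma_i(b) = alpha b^2 + lambda_i b + kappa_i`. -/
def sig {q : ℕ} (α : ℕ) (lam kap : Fin q → ℤ) (b : ℕ) (i : Fin q) : ℤ :=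
  (α : ℤ) * (b : ℤ) ^ 2 + lam i * (b : ℤ) + kap i

/-- For every `y`, at most `8 M / 2^g` of the `m < M` have `y + m s` close to `0` modulo `2^u`
at the scale `2^(u-g)`. -/
def Nr (M g u : ℕ) (s : ℤ) : Prop :=
  ∀ y : ℤ, 2 ^ g * cnt M (fun m => near u ((2 : ℤ) ^ (u - g)) (y + (m : ℤ) * s)) ≤ 8 * M

/-- A good direction: `|t| < T`, `t sigma_i` is small modulo `2^v` for the `i` in `S`, and
`t s` is very close to `2^uf` modulo `2^(uf+L)`. -/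
def Dir {q : ℕ} (S : Finset (Fin q)) (v W T uf L g9 : ℕ) (σ : Fin q → ℤ) (s : ℤ) : Prop :=
  ∃ t : ℤ, |t| < T ∧ (∀ i ∈ S, small v W (t * σ i)) ∧
    small (uf + L) ((2 : ℤ) ^ (uf - g9)) (t * s - (2 : ℤ) ^ uf)

/-- The cubic polynomial `c x^3 + d x^2 + e x + f`. -/
def cub (c d e f x : ℤ) : ℤ := c * x ^ 3 + d * x ^ 2 + e * x + f

/-- Thue-Morse sign of the integer `x` (with `x.toNat`). -/
noncomputable def sgz (x : ℤ) : ℝ := (-1 : ℝ) ^ (Nat.digits 2 x.toNat).sum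

/-- The constant `C1` of the parameters. -/
def C1 (q : ℕ) : ℕ := 6 * q ^ 2 + 30 * q + 20

/-- The parameter `p`. -/
def pp (q ν : ℕ) : ℕ := ν / (400 * C1 q)

/-- The parameter `mu`. -/
def mu (q ν : ℕ) : ℕ := C1 q * pp q ν

/-- The parameter `a`. -/
def aa (q ν : ℕ) : ℕ := ν - mu q ν

/-- The parameter `beta`. -/
def be (q ν : ℕ) : ℕ := aa q ν - 9 * mu q ν

end Pool.Agent.H9.TC
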