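import Pool.Agent.H9.TC.Stm

/-!
Project TC (MP_b6022c_nt), row TC-26: size of the increment modulo `2^V`.
-/

set_option autoImplicit false

namespace Pool.Agent.H9.TC

theorem dl_mul {x y : ℤ} {k l : ℕ} (hx : |x| ≤ 2 ^ k) (hy : |y| ≤ 2 ^ l) :
    |x * y| ≤ 2 ^ (k + l) := by
  rw [abs_mul, pow_add]
  exact mul_le_mul hx hy (abs_nonneg _) (by positivity)

theorem dl_mono {x : ℤ} {k n : ℕ} (hx : |x| ≤ 2 ^ k) (h : k ≤ n) : |x| ≤ 2 ^ n :=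
  hx.trans (pow_le_pow_right₀ (by norm_num) h)

theorem dl_add {x y : ℤ} {k l n : ℕ} (hx : |x| ≤ 2 ^ k) (hy : |y| ≤ 2 ^ l) (hk : k + 1 ≤ n)
    (hl : l + 1 ≤ n) : |x + y| ≤ 2 ^ n := by
  obtain ⟨n, rfl⟩ : ∃ n', n = n' + 1 := ⟨n - 1, by omega⟩
  have h1 := dl_mono hx (show k ≤ n by omega)
  have h2 := dl_mono hy (show l ≤ n by omega)
  have h3 := abs_add_le x y
  rw [pow_succ]
  linarith

theorem dl_nat (n : ℕ) {k : ℕ} (h : n ≤ 2 ^ k) : |(n : ℤ)| ≤ 2 ^ k := by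
  rw [abs_of_nonneg (Int.natCast_nonneg n)]
  exact_mod_cast h

theorem dl_self (n : ℕ) : |(n : ℤ)| ≤ 2 ^ n := dl_nat n (Nat.lt_two_pow_self).le

theorem dl_natAbs (d : ℤ) : |d| ≤ 2 ^ d.natAbs := by
  have h := dl_self d.natAbs
  rwa [Int.natCast_natAbs, abs_abs] at h

/-- the remainders from the two Diophantine hypotheses -/
theorem dl_rem {μ C' J0 g a : ℕ} {δ1 δ2 m h : ℤ} (hm0 : 0 ≤ m) (hm : m ≤ 2 ^ μ)
    (hh : |h| ≤ 2 ^ J0)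
    (h1 : |δ1| * 2 ^ (3 * μ + (C' + g + 2 + J0)) ≤ 2 ^ a)
    (h2 : |δ2| * 2 ^ (2 * μ + (C' + g + 2 + J0)) ≤ 2 ^ (2 * a)) {N : ℕ} (hN : N + g + 4 = 2 * a) :
    |h * (2 ^ (2 * μ + C' + a) * m * δ1 + 2 ^ (2 * μ + C') * δ2)| ≤ 8 * 2 ^ N := by
  have e1 : |(2 : ℤ) ^ (2 * μ + C' + a) * m * δ1| * 2 ^ (g + 2 + J0) ≤ 2 ^ (2 * a) := by
    rw [abs_mul, abs_mul, abs_of_nonneg (by positivity : (0 : ℤ) ≤ 2 ^ (2 * μ + C' + a)),
      abs_of_nonneg hm0]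
    calc (2 : ℤ) ^ (2 * μ + C' + a) * m * |δ1| * 2 ^ (g + 2 + J0) ≤
        (2 : ℤ) ^ (2 * μ + C' + a) * 2 ^ μ * |δ1| * 2 ^ (g + 2 + J0) := by gcongr
      _ = 2 ^ a * (|δ1| * 2 ^ (3 * μ + (C' + g + 2 + J0))) := by
          have e5 : (2 : ℤ) ^ (3 * μ + (C' + g + 2 + J0)) =
              2 ^ (2 * μ + C') * 2 ^ μ * 2 ^ (g + 2 + J0) := by
            rw [← pow_add, ← pow_add]
            congr 1
            ring
          rw [e5, pow_add 2 (2 * μ + C') a]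
          ring
      _ ≤ 2 ^ a * 2 ^ a := by gcongr
      _ = 2 ^ (2 * a) := by rw [← pow_add, two_mul]
  have e2 : |(2 : ℤ) ^ (2 * μ + C') * δ2| * 2 ^ (g + 2 + J0) ≤ 2 ^ (2 * a) := by
    rw [abs_mul, abs_of_nonneg (by positivity : (0 : ℤ) ≤ 2 ^ (2 * μ + C'))]
    calc (2 : ℤ) ^ (2 * μ + C') * |δ2| * 2 ^ (g + 2 + J0) =
        |δ2| * 2 ^ (2 * μ + (C' + g + 2 + J0)) := by
          rw [pow_add, pow_add, pow_add]
          ring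
      _ ≤ 2 ^ (2 * a) := h2
  have e3 : |h * (2 ^ (2 * μ + C' + a) * m * δ1 + 2 ^ (2 * μ + C') * δ2)| * 2 ^ (g + 2) ≤
      2 * 2 ^ (2 * a) := by
    rw [abs_mul]
    calc |h| * |2 ^ (2 * μ + C' + a) * m * δ1 + 2 ^ (2 * μ + C') * δ2| * 2 ^ (g + 2) ≤
        2 ^ J0 * (|2 ^ (2 * μ + C' + a) * m * δ1| + |2 ^ (2 * μ + C') * δ2|) * 2 ^ (g + 2) := by
          gcongr
          exact abs_add_le _ _
      _ = |2 ^ (2 * μ + C' + a) * m * δ1| * 2 ^ (g + 2 + J0) +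
          |2 ^ (2 * μ + C') * δ2| * 2 ^ (g + 2 + J0) := by
          rw [pow_add 2 (g + 2) J0]
          ring
      _ ≤ 2 ^ (2 * a) + 2 ^ (2 * a) := add_le_add e1 e2
      _ = 2 * 2 ^ (2 * a) := by ring
  have e4 : (2 : ℤ) * 2 ^ (2 * a) = 8 * 2 ^ N * 2 ^ (g + 2) := by
    rw [← hN, show N + g + 4 = N + (g + 2) + 2 by ring, pow_add, pow_add]
    ring
  rw [e4] at e3
  exact le_of_mul_le_mul_right e3 (by positivity)

/-- the core estimate, all variables integers -/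
theorem dl_core (c : ℕ) (d e f : ℤ) (C' J0 g : ℕ) (μ a β : ℕ)
    (hμ : 20 * (c + d.natAbs + e.natAbs + J0 + C' + g + 10) ≤ μ) (ha : a = β + 9 * μ)
    (ha2 : 300 * μ ≤ a) (n1 : ℕ) (hn1 : n1 < 2 ^ a) (r' : ℕ)
    (hr' : r' ≤ 2 ^ (5 * μ + 2 * (C' + g + 2 + J0))) (z w : ℤ)
    (h1 : |(r' : ℤ) * (6 * c * n1) - z * 2 ^ a| * 2 ^ (3 * μ + (C' + g + 2 + J0)) ≤ 2 ^ a)
    (h2 : |(r' : ℤ) * (3 * c * n1 ^ 2) - w * 2 ^ (2 * a)| * 2 ^ (2 * μ + (C' + g + 2 + J0)) ≤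
      2 ^ (2 * a))
    (b m : ℤ) (hb0 : 0 ≤ b) (hb : b < 2 ^ β) (hm0 : 0 ≤ m) (hm : m ≤ 2 ^ μ) (j j' : ℕ)
    (hj : j < J0) (hj' : j' < J0) :
    small (2 * a + 2 * μ + C') ((2 : ℤ) ^ (2 * a - g))
      (cub c d e f (n1 + b + 2 ^ a * m + j' * (2 ^ (2 * μ + C') * r')) -
        cub c d e f (n1 + b + 2 ^ a * m + j * (2 ^ (2 * μ + C') * r'))) := by
  obtain ⟨S, hS⟩ : ∃ S : ℕ, S = c + d.natAbs + e.natAbs + J0 + C' + g + 10 := ⟨_, rfl⟩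
  rw [← hS] at hμ
  obtain ⟨r, hr⟩ : ∃ r : ℤ, r = 2 ^ (2 * μ + C') * r' := ⟨_, rfl⟩
  rw [← hr]
  obtain ⟨h, hh⟩ : ∃ h : ℤ, h = (j' : ℤ) - j := ⟨_, rfl⟩
  obtain ⟨A, hA⟩ : ∃ A : ℤ, A = n1 + 2 ^ a * m := ⟨_, rfl⟩
  obtain ⟨B, hB⟩ : ∃ B : ℤ, B = b + j * r := ⟨_, rfl⟩
  obtain ⟨δ1, hδ1⟩ : ∃ δ1 : ℤ, δ1 = (r' : ℤ) * (6 * c * n1) - z * 2 ^ a := ⟨_, rfl⟩
  obtain ⟨δ2, hδ2⟩ : ∃ δ2 : ℤ, δ2 = (r' : ℤ) * (3 * c * n1 ^ 2) - w * 2 ^ (2 * a) := ⟨_, rfl⟩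
  rw [← hδ1] at h1
  rw [← hδ2] at h2
  obtain ⟨N, hN⟩ : ∃ N, N + g + 4 = 2 * a := ⟨2 * a - g - 4, by omega⟩
  -- basic bounds
  have bc : |(c : ℤ)| ≤ 2 ^ S := dl_mono (dl_self c) (by omega)
  have bd : |d| ≤ 2 ^ S := dl_mono (dl_natAbs d) (by omega)
  have be' : |e| ≤ 2 ^ S := dl_mono (dl_natAbs e) (by omega)
  have bhJ : |h| ≤ 2 ^ J0 := by
    have h3 : |h| ≤ J0 := by
      rw [hh, abs_le]
      constructor <;> omega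
    have h4 := dl_self J0
    rw [abs_of_nonneg (Int.natCast_nonneg J0)] at h4
    exact h3.trans h4
  have bh : |h| ≤ 2 ^ S := dl_mono bhJ (by omega)
  have br' : |(r' : ℤ)| ≤ 2 ^ (5 * μ + 2 * (C' + g + 2 + J0)) := dl_nat r' hr'
  have b2 : |(2 : ℤ) ^ (2 * μ + C')| ≤ 2 ^ (2 * μ + C') := by
    rw [abs_of_nonneg (by positivity)]
  have br : |r| ≤ 2 ^ (7 * μ + 3 * S) := by
    rw [hr]
    exact dl_mono (dl_mul b2 br') (by omega)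
  have bm : |m| ≤ 2 ^ μ := by
    rw [abs_of_nonneg hm0]
    exact hm
  have b2a : |(2 : ℤ) ^ a| ≤ 2 ^ a := by rw [abs_of_nonneg (by positivity)]
  have bn1 : |(n1 : ℤ)| ≤ 2 ^ a := dl_nat n1 hn1.le
  have bA : |A| ≤ 2 ^ (a + μ + 1) := by
    rw [hA]
    exact dl_add bn1 (dl_mul b2a bm) (by omega) (by omega)
  have bb : |b| ≤ 2 ^ β := by rw [abs_of_nonneg hb0]; exact hb.le
  have bj : |(j : ℤ)| ≤ 2 ^ S := dl_mono (dl_nat j (hj.le.trans (Nat.lt_two_pow_self).le))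
    (by omega)
  have bB : |B| ≤ 2 ^ (β + 1) := by
    rw [hB]
    exact dl_add bb (dl_mono (dl_mul bj br) (show S + (7 * μ + 3 * S) ≤ β by omega)) le_rfl le_rfl
  have bx : |A + B| ≤ 2 ^ (a + μ + 2) := dl_add bA bB (by omega) (by omega)
  have n2 : |(2 : ℤ)| ≤ 2 ^ 1 := by norm_num
  have n3 : |(3 : ℤ)| ≤ 2 ^ 2 := by norm_num
  have n6 : |(6 : ℤ)| ≤ 2 ^ 3 := by norm_num
  -- the small terms
  have t1 : |h * (6 * c * r * A * B)| ≤ 2 ^ N :=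
    dl_mono (dl_mul bh (dl_mul (dl_mul (dl_mul (dl_mul n6 bc) br) bA) bB)) (by omega)
  have t2 : |h * (3 * c * r * (B * B))| ≤ 2 ^ N :=
    dl_mono (dl_mul bh (dl_mul (dl_mul (dl_mul n3 bc) br) (dl_mul bB bB))) (by omega)
  have t3 : |h * r * (2 * d * (A + B) + e)| ≤ 2 ^ N :=
    dl_mono (dl_mul (dl_mul bh br) (dl_add (n := S + a + μ + 4)
      (dl_mul (dl_mul n2 bd) bx) be' (by omega) (by omega))) (by omega)
  have t4 : |h * h * (r * r) * (3 * c * (A + B) + d)| ≤ 2 ^ N :=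
    dl_mono (dl_mul (dl_mul (dl_mul bh bh) (dl_mul br br)) (dl_add (n := S + a + μ + 5)
      (dl_mul (dl_mul n3 bc) bx) bd (by omega) (by omega))) (by omega)
  have t5 : |c * (h * h * h) * (r * r * r)| ≤ 2 ^ N :=
    dl_mono (dl_mul (dl_mul bc (dl_mul (dl_mul bh bh) bh)) (dl_mul (dl_mul br br) br))
      (by omega)
  have t0 := dl_rem (μ := μ) (C' := C') (J0 := J0) (g := g) (a := a) hm0 hm bhJ h1 h2 hN
  refine ⟨h * (2 ^ (2 * μ + C' + a) * m * δ1 + 2 ^ (2 * μ + C') * δ2) + h * (6 * c * r * A * B) +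
    h * (3 * c * r * (B * B)) + h * r * (2 * d * (A + B) + e) +
    h * h * (r * r) * (3 * c * (A + B) + d) + c * (h * h * h) * (r * r * r), ?_, ?_⟩
  · have e0 : (2 : ℤ) ^ (2 * a - g) = 16 * 2 ^ N := by
      rw [show 2 * a - g = N + 4 by omega, pow_add]
      ring
    rw [e0]
    have p0 : (0 : ℤ) ≤ 2 ^ N := by positivity
    rw [abs_le] at t0 t1 t2 t3 t4 t5 ⊢
    constructor
    · linarith [t0.1, t1.1, t2.1, t3.1, t4.1, t5.1]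
    · linarith [t0.2, t1.2, t2.2, t3.2, t4.2, t5.2]
  · refine ⟨h * (w + m * z + 3 * c * r' * m ^ 2), ?_⟩
    have ex : (n1 : ℤ) + b + 2 ^ a * m + j * r = A + B := by rw [hA, hB]; ring
    have ex' : (n1 : ℤ) + b + 2 ^ a * m + j' * r = A + B + h * r := by rw [hA, hB, hh]; ring
    have hrA : 3 * c * r * (A * A) = 2 ^ (2 * a + 2 * μ + C') * (w + m * z + 3 * c * r' * m ^ 2) +
        (2 ^ (2 * μ + C' + a) * m * δ1 + 2 ^ (2 * μ + C') * δ2) := by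
      rw [hA, hδ1, hδ2, hr]
      have p1 : (2 : ℤ) ^ (2 * a + 2 * μ + C') = 2 ^ a * 2 ^ a * 2 ^ (2 * μ + C') := by
        rw [show 2 * a + 2 * μ + C' = a + a + (2 * μ + C') by ring, pow_add, pow_add]
      have p2 : (2 : ℤ) ^ (2 * μ + C' + a) = 2 ^ (2 * μ + C') * 2 ^ a := pow_add _ _ _
      have p3 : (2 : ℤ) ^ (2 * a) = 2 ^ a * 2 ^ a := by rw [two_mul, pow_add]
      rw [p1, p2, p3]
      ring
    rw [ex, ex']
    unfold cub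
    linear_combination h * hrA

/-- **TC-26** -/
theorem del : DelStmt := by
  intro c d e f C' J0 g
  refine ⟨20 * (c + d.natAbs + e.natAbs + J0 + C' + g + 10), ?_⟩
  intro μ hμ a β ha ha2 n1 hn1 r' _ hr' z w h1 h2 b hb m hm j hj j' hj'
  exact dl_core c d e f C' J0 g μ a β hμ ha ha2 n1 hn1 r' hr' z w h1 h2 b m
    (Int.natCast_nonneg b) (by exact_mod_cast hb) (Int.natCast_nonneg m) (by exact_mod_cast hm)
    j j' hj hj'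

end Pool.Agent.H9.TC
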