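import Pool.Agent.H9.TC.Stm

/-!
Project TC (MP_b6022c_nt), row TC-10: existence of a good direction (helper78)
-/

namespace Pool.Agent.H9.TC

open Finset

theorem e_Fj_neg (v W : ℕ) (x : ℤ) : Fj v W (-x) = Fj v W x := by
  unfold Fj
  congr 2
  refine Finset.card_bij (fun ij _ => (ij.2, ij.1)) ?_ ?_ ?_
  · rintro ⟨i, j⟩ h
    rw [Finset.mem_filter, Finset.mem_product] at h ⊢
    refine ⟨⟨h.1.2, h.1.1⟩, ?_⟩
    have h2 := (dvd_neg (α := ℤ)).2 h.2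
    have h3 : -(-x - ((i : ℤ) - (j : ℤ))) = x - ((j : ℤ) - (i : ℤ)) := by ring
    rwa [h3] at h2
  · rintro ⟨i, j⟩ _ ⟨i', j'⟩ _ h
    simp only [Prod.mk.injEq] at h ⊢
    exact ⟨h.2, h.1⟩
  · rintro ⟨i, j⟩ h
    refine ⟨(j, i), ?_, rfl⟩
    rw [Finset.mem_filter, Finset.mem_product] at h ⊢
    refine ⟨⟨h.1.2, h.1.1⟩, ?_⟩
    have h2 := (dvd_neg (α := ℤ)).2 h.2
    have h3 : -(x - ((i : ℤ) - (j : ℤ))) = -x - ((j : ℤ) - (i : ℤ)) := by ring
    rwa [h3] at h2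

theorem e_ee_re (x : ℝ) : (ee x).re = Real.cos (2 * Real.pi * x) := by
  unfold ee
  exact Complex.exp_ofReal_mul_I_re _

/-- real form of the Fourier inversion -/
theorem e_cos (h2 : F2Stmt) (v W : ℕ) (hv : 1 ≤ v) (hW : 1 ≤ W) (hWv : W ≤ 2 ^ (v - 1)) (x : ℤ) :
    Fj v W x = ∑ a ∈ reps v, Fh v W a * Real.cos (2 * Real.pi * ((a : ℝ) * x / 2 ^ v)) := by
  have h := congrArg Complex.re ((h2 v W hv hW hWv).1 x)
  rw [Complex.ofReal_re, Complex.re_sum] at h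
  rw [h]
  refine Finset.sum_congr rfl fun a _ => ?_
  rw [Complex.re_ofReal_mul, e_ee_re]

/-- the sine sum vanishes -/
theorem e_sin {q : ℕ} (S : Finset (Fin q)) (v W T : ℕ) (σ : Fin q → ℤ) (θ : ℝ) :
    ∑ t1 ∈ range T, ∑ t2 ∈ range T,
    (∏ i ∈ S, Fj v W (((t1 : ℤ) - (t2 : ℤ)) * σ i)) *
      Real.sin (2 * Real.pi * (((t1 : ℝ) - (t2 : ℝ)) * θ)) = 0 := by
  set X := ∑ t1 ∈ range T, ∑ t2 ∈ range T,
    (∏ i ∈ S, Fj v W (((t1 : ℤ) - (t2 : ℤ)) * σ i)) *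
      Real.sin (2 * Real.pi * (((t1 : ℝ) - (t2 : ℝ)) * θ)) with hX
  have h : X = -X := by
    conv_lhs => rw [hX, Finset.sum_comm]
    rw [hX, ← Finset.sum_neg_distrib]
    refine Finset.sum_congr rfl fun t1 _ => ?_
    rw [← Finset.sum_neg_distrib]
    refine Finset.sum_congr rfl fun t2 _ => ?_
    have h1 : 2 * Real.pi * (((t2 : ℝ) - (t1 : ℝ)) * θ) =
        -(2 * Real.pi * (((t1 : ℝ) - (t2 : ℝ)) * θ)) := by ring
    rw [h1, Real.sin_neg, mul_neg]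
    congr 2
    refine Finset.prod_congr rfl fun i _ => ?_
    rw [← e_Fj_neg]
    congr 1
    ring
  linarith

/-- the count with the kernel `G` as a sum of `PhiR` -/
theorem e_sum (h2 : F2Stmt) {q : ℕ} (S : Finset (Fin q)) (v W T uf L W' : ℕ) (σ : Fin q → ℤ)
    (s : ℤ) (hv : 1 ≤ uf + L) (hW : 1 ≤ W') (hWv : W' ≤ 2 ^ (uf + L - 1)) :
    ∑ t1 ∈ range T, ∑ t2 ∈ range T, (∏ i ∈ S, Fj v W (((t1 : ℤ) - (t2 : ℤ)) * σ i)) *
      Fj (uf + L) W' (((t1 : ℤ) - (t2 : ℤ)) * s - 2 ^ uf) =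
    ∑ a ∈ reps (uf + L), Fh (uf + L) W' a *
      (Real.cos (2 * Real.pi * ((a : ℝ) / 2 ^ L)) *
        PhiR S v W T σ ((a : ℝ) * (s : ℝ) / 2 ^ (uf + L))) := by
  have h3 : ∀ t1 t2 : ℕ, (∏ i ∈ S, Fj v W (((t1 : ℤ) - (t2 : ℤ)) * σ i)) *
      Fj (uf + L) W' (((t1 : ℤ) - (t2 : ℤ)) * s - 2 ^ uf) =
      ∑ a ∈ reps (uf + L), Fh (uf + L) W' a *
        (Real.cos (2 * Real.pi * ((a : ℝ) / 2 ^ L)) *
          ((∏ i ∈ S, Fj v W (((t1 : ℤ) - (t2 : ℤ)) * σ i)) *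
            Real.cos (2 * Real.pi * (((t1 : ℝ) - (t2 : ℝ)) * ((a : ℝ) * (s : ℝ) / 2 ^ (uf + L))))) +
        Real.sin (2 * Real.pi * ((a : ℝ) / 2 ^ L)) *
          ((∏ i ∈ S, Fj v W (((t1 : ℤ) - (t2 : ℤ)) * σ i)) *
            Real.sin (2 * Real.pi *
              (((t1 : ℝ) - (t2 : ℝ)) * ((a : ℝ) * (s : ℝ) / 2 ^ (uf + L)))))) := by
    intro t1 t2
    rw [e_cos h2 _ _ hv hW hWv, Finset.mul_sum]
    refine Finset.sum_congr rfl fun a _ => ?_
    have h4 : 2 * Real.pi * ((a : ℝ) * (((((t1 : ℤ) - (t2 : ℤ)) * s - 2 ^ uf : ℤ)) : ℝ) /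
        2 ^ (uf + L)) = 2 * Real.pi * (((t1 : ℝ) - (t2 : ℝ)) * ((a : ℝ) * (s : ℝ) /
          2 ^ (uf + L))) - 2 * Real.pi * ((a : ℝ) / 2 ^ L) := by
      push_cast
      rw [pow_add]
      field_simp
    rw [h4, Real.cos_sub]
    ring
  simp_rw [h3]
  have h5 : ∀ F : ℕ → ℕ → ℤ → ℝ, ∑ t1 ∈ range T, ∑ t2 ∈ range T, ∑ a ∈ reps (uf + L), F t1 t2 a =
      ∑ a ∈ reps (uf + L), ∑ t1 ∈ range T, ∑ t2 ∈ range T, F t1 t2 a := by
    intro F
    calc ∑ t1 ∈ range T, ∑ t2 ∈ range T, ∑ a ∈ reps (uf + L), F t1 t2 a =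
          ∑ t1 ∈ range T, ∑ a ∈ reps (uf + L), ∑ t2 ∈ range T, F t1 t2 a :=
          Finset.sum_congr rfl fun t1 _ => Finset.sum_comm
      _ = _ := Finset.sum_comm
  rw [h5]
  refine Finset.sum_congr rfl fun a _ => ?_
  simp_rw [← Finset.mul_sum, Finset.sum_add_distrib, ← Finset.mul_sum]
  rw [e_sin, mul_zero, add_zero]
  rfl

/-- (E) existence of a good direction -/
theorem ex (h1 : F1Stmt) (h2 : F2Stmt) (h3 : PStmt) : EStmt := by
  intro q S v W T uf L g9 σ s hv hW hWv hT hg hL hK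
  have hvf : 1 ≤ uf + L := by omega
  set W' : ℕ := 2 ^ (uf - g9) with hW'
  have hW'1 : 1 ≤ W' := Nat.one_le_two_pow
  have hW'2 : W' ≤ 2 ^ (uf + L - 1) := Nat.pow_le_pow_right (by norm_num) (by omega)
  obtain ⟨-, g0, -, g1, -, g2, g3⟩ := h1 (uf + L) W' hvf hW'1 hW'2
  obtain ⟨-, f0, -, f1, -, -, -⟩ := h1 v W hv hW hWv
  obtain ⟨-, g4, g5⟩ := h2 (uf + L) W' hvf hW'1 hW'2
  set γ : ℝ := (1 / 2) ^ (L + g9) with hγ
  have hγ0 : 0 < γ := by positivity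
  have hγ1 : Fh (uf + L) W' 0 = γ := by
    rw [g3, hγ, hW']
    push_cast
    rw [one_div, inv_pow, div_eq_iff (by positivity), inv_mul_eq_div, eq_div_iff (by positivity),
      ← pow_add]
    congr 1
    omega
  set Φ0 : ℝ := PhiR S v W T σ 0 with hΦ0
  set R : ℝ := (T : ℝ) ^ 2 * ((W : ℝ) / 2 ^ v) ^ S.card with hR
  have hRpos : 0 < R := by
    have hT' : (0 : ℝ) < T := by exact_mod_cast hT
    have hW'' : (0 : ℝ) < W := by exact_mod_cast hW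
    positivity
  have hRΦ : R ≤ Φ0 := (h3 q S v W T σ 0 hv hW hWv).2.2
  have hΦpos : 0 < Φ0 := hRpos.trans_le hRΦ
  have hsum := e_sum h2 S v W T uf L W' σ s hvf hW'1 hW'2
  -- lower bound of the terms
  have hterm : ∀ a ∈ reps (uf + L), (if a = 0 then γ * Φ0 else 0) -
      Fh (uf + L) W' a * (γ / 4 * Φ0) -
      (if ((2 * 4 ^ (L + g9) : ℕ) : ℤ) < |a| then Fh (uf + L) W' a * Φ0 else 0) ≤
      Fh (uf + L) W' a * (Real.cos (2 * Real.pi * ((a : ℝ) / 2 ^ L)) *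
        PhiR S v W T σ ((a : ℝ) * (s : ℝ) / 2 ^ (uf + L))) := by
    intro a _
    have ha := g2 a
    obtain ⟨p1, p2, -⟩ := h3 q S v W T σ ((a : ℝ) * (s : ℝ) / 2 ^ (uf + L)) hv hW hWv
    have hA : 0 ≤ Fh (uf + L) W' a * (γ / 4 * Φ0) := by positivity
    have hB : 0 ≤ (if ((2 * 4 ^ (L + g9) : ℕ) : ℤ) < |a| then Fh (uf + L) W' a * Φ0 else 0) := by
      split_ifs
      · positivity
      · exact le_rfl
    by_cases hdiv : (2 : ℤ) ^ L ∣ a
    · have hcos : Real.cos (2 * Real.pi * ((a : ℝ) / 2 ^ L)) = 1 := by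
        obtain ⟨n, rfl⟩ := hdiv
        have h6 : 2 * Real.pi * ((((2 : ℤ) ^ L * n : ℤ) : ℝ) / 2 ^ L) = n * (2 * Real.pi) := by
          push_cast
          field_simp
        rw [h6]
        exact Real.cos_int_mul_two_pi n
      rw [hcos, one_mul]
      by_cases ha0 : a = 0
      · rw [if_pos ha0]
        have h7 : Fh (uf + L) W' a * PhiR S v W T σ ((a : ℝ) * (s : ℝ) / 2 ^ (uf + L)) =
            γ * Φ0 := by
          rw [ha0, hγ1, Int.cast_zero, zero_mul, zero_div]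
        rw [h7]
        linarith
      · rw [if_neg ha0]
        have h8 := mul_nonneg ha p1
        linarith
    · have ha0 : a ≠ 0 := by
        rintro rfl
        exact hdiv (dvd_zero _)
      rw [if_neg ha0]
      have hc := Real.neg_one_le_cos (2 * Real.pi * ((a : ℝ) / 2 ^ L))
      have h9 : -(Fh (uf + L) W' a * PhiR S v W T σ ((a : ℝ) * (s : ℝ) / 2 ^ (uf + L))) ≤
          Fh (uf + L) W' a * (Real.cos (2 * Real.pi * ((a : ℝ) / 2 ^ L)) *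
            PhiR S v W T σ ((a : ℝ) * (s : ℝ) / 2 ^ (uf + L))) := by
        have h10 := mul_nonneg ha p1
        nlinarith
      refine le_trans ?_ h9
      by_cases hbig : ((2 * 4 ^ (L + g9) : ℕ) : ℤ) < |a|
      · rw [if_pos hbig]
        have h11 := mul_le_mul_of_nonneg_left p2 ha
        linarith
      · rw [if_neg hbig]
        have h12 : |a| ≤ 2 * 4 ^ (L + g9) := by
          rw [not_lt] at hbig
          push_cast at hbig
          exact hbig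
        have h13 := hK a h12 hdiv
        have h14 : 1 / 4 * (1 / 2) ^ (L + g9) * R ≤ γ / 4 * Φ0 := by
          rw [← hγ]
          nlinarith
        have h15 := mul_le_mul_of_nonneg_left (h13.trans h14) ha
        linarith
  have hlow := Finset.sum_le_sum hterm
  rw [← hsum, Finset.sum_sub_distrib, Finset.sum_sub_distrib, ← Finset.sum_mul, g4, one_mul,
    ← Finset.sum_filter (p := fun a : ℤ => ((2 * 4 ^ (L + g9) : ℕ) : ℤ) < |a|),
    ← Finset.sum_mul, Finset.sum_ite_eq'] at hlow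
  have h0 : (0 : ℤ) ∈ reps (uf + L) := by
    unfold reps
    rw [Finset.mem_Ioc]
    constructor
    · have : (0 : ℤ) < 2 ^ (uf + L - 1) := by positivity
      linarith
    · positivity
  rw [if_pos h0] at hlow
  have htail : ∑ a ∈ (reps (uf + L)).filter (fun a => ((2 * 4 ^ (L + g9) : ℕ) : ℤ) < |a|),
      Fh (uf + L) W' a ≤ γ / 4 := by
    refine (g5 (2 * 4 ^ (L + g9)) (Nat.one_le_iff_ne_zero.2 (by positivity))).trans (le_of_eq ?_)
    have h16 : (2 : ℝ) ^ (uf + L) = 2 ^ (uf - g9) * 2 ^ (L + g9) := by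
      rw [← pow_add]
      congr 1
      omega
    have h17 : (4 : ℝ) ^ (L + g9) = 2 ^ (L + g9) * 2 ^ (L + g9) := by
      rw [← mul_pow]
      norm_num
    rw [hγ, hW']
    push_cast
    rw [h16, h17, one_div, inv_pow]
    field_simp
    norm_num
  have hpos : 0 < ∑ t1 ∈ range T, ∑ t2 ∈ range T,
      (∏ i ∈ S, Fj v W (((t1 : ℤ) - (t2 : ℤ)) * σ i)) *
      Fj (uf + L) W' (((t1 : ℤ) - (t2 : ℤ)) * s - 2 ^ uf) := by
    refine lt_of_lt_of_le ?_ hlow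
    have h18 := mul_le_mul_of_nonneg_right htail hΦpos.le
    have h19 : 0 < γ * Φ0 := mul_pos hγ0 hΦpos
    nlinarith
  obtain ⟨t1, ht1, h20⟩ := Finset.exists_ne_zero_of_sum_ne_zero hpos.ne'
  obtain ⟨t2, ht2, h21⟩ := Finset.exists_ne_zero_of_sum_ne_zero h20
  have h22 := left_ne_zero_of_mul h21
  have h23 := right_ne_zero_of_mul h21
  refine ⟨(t1 : ℤ) - (t2 : ℤ), ?_, fun i hi => ?_, ?_⟩
  · rw [Finset.mem_range] at ht1 ht2
    rw [abs_lt]
    constructor <;> omega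
  · exact f1 _ (Finset.prod_ne_zero_iff.1 h22 i hi)
  · have h24 := g1 _ h23
    rw [hW'] at h24
    push_cast at h24
    exact h24

end Pool.Agent.H9.TC
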