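import Pool.Agent.H9.TC.Defs

/-!
Project TC (MP_b6022c_nt). Statements of the rows. Every row proves `theorem xxx : XxxStmt`
(or `theorem xxx (h : YyyStmt) ... : XxxStmt`) in its own file `Pool/Agent/H9/TC/Xxx.lean`.
Mathematics: team note 5034, with the SIMPLIFICATION that `PhiR >= 0` for every angle, so a FIRST
moment of `PhiR` (row M0) replaces the second moment (M) of the note.
-/

namespace Pool.Agent.H9.TC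

open Finset

/-! ### 1. van der Corput -/

/-- (V0) single shift: `(sum g)^2 <= (B/J^2) sum_{j,j'} sum_b g(b+jr) g(b+j'r) + 2 J r B`. -/
def V0Stmt : Prop :=
  ∀ (G : ℤ → ℝ), (∀ x, |G x| ≤ 1) → ∀ (J B r : ℕ), 1 ≤ J →
    (∑ b ∈ range B, G b) ^ 2 ≤
      (B : ℝ) / (J : ℝ) ^ 2 * (∑ j ∈ range J, ∑ j' ∈ range J, ∑ b ∈ range B,
        G ((b : ℤ) + j * r) * G ((b : ℤ) + j' * r)) + 2 * J * r * B

/-- (V) iterated van der Corput. Induction on `k`: base `k = 0`: shift by `j_0 t_0`, cost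
`2 |t| / M`; step: shift `m` by `j' t_(k+1)`, Cauchy-Schwarz over `(m, j)`, open the square. -/
def VStmt : Prop :=
  ∀ (k : ℕ) (f : ℤ → ℝ), (∀ x, |f x| ≤ 1) → ∀ (t0 : ℤ) (t : Fin k → ℤ) (J M : ℕ) (S : ℝ),
    1 ≤ J → 1 ≤ M → (J : ℝ) * (|(t0 : ℝ)| + ∑ l, |(t l : ℝ)|) ≤ S →
    |(∑ m ∈ range M, f m) / M| ^ (2 ^ k) ≤
      |∑ j ∈ box k J, ∑ m ∈ range M, ∏ η : Fin k → Bool, f ((m : ℤ) + psi t0 t η j)| /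
        (M * (box k J).card) + 8 * 4 ^ k * S / M

/-! ### 2. Contraction lemma -/

/-- (K1) the claim of section 2: two points of the box with the same quotients and opposite
signs. -/
def K1Stmt : Prop :=
  ∀ k : ℕ, ∃ L0 : ℕ, 1 ≤ L0 ∧ ∀ N : (Fin k → Bool) → ℤ,
    ∃ j ∈ box k (2 ^ L0), ∃ j' ∈ box k (2 ^ L0),
      (∀ η, (N η + psi 1 (fun _ => 1) η j) / 2 ^ L0 = (N η + psi 1 (fun _ => 1) η j') / 2 ^ L0) ∧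
      ∏ η, TW 0 L0 (N η + psi 1 (fun _ => 1) η j) =
        -∏ η, TW 0 L0 (N η + psi 1 (fun _ => 1) η j')

/-- The bound of (K) for one `k` with given constants. -/
def KBound (k L0 : ℕ) (c : ℝ) : Prop :=
  ∀ Z L : ℕ, Z ≤ L → ∀ N : (Fin k → Bool) → ℤ,
    |∑ j ∈ box k (2 ^ Z), ∏ η, TW 0 L (N η + psi 1 (fun _ => 1) η j)| ≤
      c ^ (Z / L0) * (box k (2 ^ Z)).card

/-- (K) contraction lemma. -/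
def KStmt : Prop :=
  ∀ k : ℕ, ∃ L0 : ℕ, 1 ≤ L0 ∧ ∃ c : ℝ, 0 ≤ c ∧ c < 1 ∧ KBound k L0 c

/-! ### 3. Fourier tools -/

/-- (F1) elementary properties of the Fejer kernel. -/
def F1Stmt : Prop :=
  ∀ v W : ℕ, 1 ≤ v → 1 ≤ W → W ≤ 2 ^ (v - 1) →
    Fj v W 0 = 1 ∧ (∀ x, 0 ≤ Fj v W x) ∧ (∀ x, Fj v W x ≤ 1) ∧
    (∀ x, Fj v W x ≠ 0 → small v W x) ∧
    (∀ x s : ℤ, 2 * |s| ≤ W → (2 : ℤ) ^ v ∣ x - s → 1 / 2 ≤ Fj v W x) ∧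
    (∀ a, 0 ≤ Fh v W a) ∧ Fh v W 0 = (W : ℝ) / 2 ^ v

/-- (F2) Fourier inversion, total mass and tail. (`|sum_{i<W} e(ai/2^v)| <= 2^v/(2|a|)` for
`0 < |a| <= 2^(v-1)`, so `Fh a <= 2^v/(4 a^2 W)`, and `sum_{n > A} 1/n^2 <= 1/A`.) -/
def F2Stmt : Prop :=
  ∀ v W : ℕ, 1 ≤ v → 1 ≤ W → W ≤ 2 ^ (v - 1) →
    (∀ x : ℤ, (Fj v W x : ℂ) = ∑ a ∈ reps v, (Fh v W a : ℂ) * ee ((a : ℝ) * x / 2 ^ v)) ∧
    (∑ a ∈ reps v, Fh v W a = 1) ∧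
    (∀ A : ℕ, 1 ≤ A →
      ∑ a ∈ (reps v).filter (fun a => (A : ℤ) < |a|), Fh v W a ≤ (2 : ℝ) ^ v / (2 * W * A))

/-- (P) positivity of `PhiR`: expand, `PhiR = sum_a prod Fh(a_i) |sum_{t<T} e(t (sum a_i sigma_i /
2^v + theta))|^2`; at `theta = 0` keep the term `a = 0`. -/
def PStmt : Prop :=
  ∀ (q : ℕ) (S : Finset (Fin q)) (v W T : ℕ) (σ : Fin q → ℤ) (θ : ℝ),
    1 ≤ v → 1 ≤ W → W ≤ 2 ^ (v - 1) →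
    0 ≤ PhiR S v W T σ θ ∧ PhiR S v W T σ θ ≤ PhiR S v W T σ 0 ∧
    (T : ℝ) ^ 2 * ((W : ℝ) / 2 ^ v) ^ S.card ≤ PhiR S v W T σ 0

/-- (M0) first moment of `PhiR` from bounds for exponential sums: diagonal `t1 = t2` gives
`T B`; terms with all `|a_i| <= A` give `<= T^2 δ B`; the others have total weight
`<= |S| 2^v/(2WA)`. -/
def M0Stmt : Prop :=
  ∀ (q : ℕ) (S : Finset (Fin q)) (v W T A B : ℕ) (σ : ℕ → Fin q → ℤ) (θ : ℕ → ℝ) (δ : ℝ),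
    1 ≤ v → 1 ≤ W → W ≤ 2 ^ (v - 1) → 1 ≤ A → 0 ≤ δ →
    (∀ t : ℤ, t ≠ 0 → |t| < T → ∀ a : Fin q → ℤ, (∀ i ∈ S, |a i| ≤ A) →
      ‖∑ b ∈ range B, ee ((t : ℝ) * ((∑ i ∈ S, (a i : ℝ) * (σ b i : ℝ)) / 2 ^ v + θ b))‖
        ≤ δ * B) →
    ∑ b ∈ range B, PhiR S v W T (σ b) (θ b) ≤
      B * (T + (T : ℝ) ^ 2 * δ + (T : ℝ) ^ 2 * (S.card * 2 ^ v / (2 * W * A)))

/-- (Q) quadratic exponential sum. `N2/2^E = p'/2^e`, `p'` odd, `e >= E-X+1`, `s = (e+1)/2`,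
`b = b0 + 2^s x`, Cauchy-Schwarz over `b0`. -/
def QStmt : Prop :=
  ∀ (N2 : ℤ) (E X β : ℕ) (θ ζ : ℝ), ¬ (2 : ℤ) ^ X ∣ N2 → X + 3 ≤ E → (E + 1) / 2 ≤ β →
    ‖∑ b ∈ range (2 ^ β), ee ((N2 : ℝ) * (b : ℝ) ^ 2 / 2 ^ E + θ * b + ζ)‖ ^ 2 ≤
      (4 : ℝ) ^ β * ((1 / 2) ^ ((E - X - 3) / 2) + (1 / 2) ^ (β - (E + 1) / 2))

/-- (Q') linear exponential sum. -/
def QlStmt : Prop :=
  ∀ (N1 : ℤ) (E B : ℕ) (ζ : ℝ), ¬ (2 : ℤ) ^ E ∣ N1 →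
    ‖∑ b ∈ range B, ee ((N1 : ℝ) * (b : ℝ) / 2 ^ E + ζ)‖ ≤ 2 ^ E

/-- (E) existence of a good direction from upper bounds for `PhiR` at the frequencies `K` not
divisible by `2^L`. With `G = F_{vf, 2^(uf-g9)}`, `vf = uf + L`, `Gh(0) = 2^(-L-g9) =: γ`:
`sum_{t1,t2} prod F((t1-t2)σ_i) G((t1-t2)σs - 2^uf) = sum_K Gh(K) cos(2 pi (..)) ... =
Re sum_K Gh(K) e(-K/2^L) PhiR(Kσs/2^vf) >= γ PhiR(0) - (γ/4) PhiR(0) - (γ/4) PhiR(0) > 0`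
(for `2^L | K` the term is `>= 0`; `|K| > Kmax` by the tail bound and `PhiR <= PhiR(0)`). -/
def EStmt : Prop :=
  ∀ (q : ℕ) (S : Finset (Fin q)) (v W T uf L g9 : ℕ) (σ : Fin q → ℤ) (s : ℤ),
    1 ≤ v → 1 ≤ W → W ≤ 2 ^ (v - 1) → 1 ≤ T → g9 ≤ uf → 1 ≤ L →
    (∀ K : ℤ, |K| ≤ 2 * 4 ^ (L + g9) → ¬ (2 : ℤ) ^ L ∣ K →
      PhiR S v W T σ ((K : ℝ) * (s : ℝ) / 2 ^ (uf + L)) ≤
        1 / 4 * (1 / 2) ^ (L + g9) * ((T : ℝ) ^ 2 * ((W : ℝ) / 2 ^ v) ^ S.card)) →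
    Dir S v W T uf L g9 σ s

/-- (G) Markov and union bound from (E) and (P). -/
def GStmt : Prop :=
  ∀ (q : ℕ) (S : Finset (Fin q)) (v W T uf L g9 B : ℕ) (σ : ℕ → Fin q → ℤ) (s : ℕ → ℤ) (δ : ℝ),
    1 ≤ v → 1 ≤ W → W ≤ 2 ^ (v - 1) → 1 ≤ T → g9 ≤ uf → 1 ≤ L →
    (∀ K : ℤ, |K| ≤ 2 * 4 ^ (L + g9) → ¬ (2 : ℤ) ^ L ∣ K →
      ∑ b ∈ range B, PhiR S v W T (σ b) ((K : ℝ) * (s b : ℝ) / 2 ^ (uf + L)) ≤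
        δ * B * ((T : ℝ) ^ 2 * ((W : ℝ) / 2 ^ v) ^ S.card)) →
    (cnt B (fun b => ¬ Dir S v W T uf L g9 (σ b) (s b)) : ℝ) ≤
      (4 * 4 ^ (L + g9) + 1) * (4 * 2 ^ (L + g9)) * δ * B

/-! ### 4. Generic `b` -/

/-- (N2) directions for the windows BELOW the final window. `S = univ`, top `v <= uf`,
`T = 2^((2q+2)p)`, `W = 2^(v-2p)`, `A = 2^((2q+3)p)`. Quadratic coefficient
`t α (2^d As + K)/2^(uf+L)`, `d = uf+L-v >= L`, nonzero as `2^L` does not divide `K`;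
`X = (4q+5)p + d + α + q + Kmax`, `E - X >= (8q+7)p - C`. -/
def N2Stmt : Prop :=
  ∀ (q α L g9 : ℕ), 1 ≤ q → 1 ≤ α → 1 ≤ L → ∃ C : ℝ, ∃ p0 : ℕ, ∀ p ≥ p0, ∀ v uf β : ℕ,
    (12 * q + 12) * p ≤ v → v ≤ uf → uf + L + (16 * q + 16) * p ≤ 2 * β →
    ∀ (lam kap : Fin q → ℤ) (is : Fin q),
      (cnt (2 ^ β) (fun b => ¬ Dir univ v (2 ^ (v - 2 * p)) (2 ^ ((2 * q + 2) * p)) uf L g9
        (sig α lam kap b) (sig α lam kap b is)) : ℝ) * 2 ^ p ≤ C * 2 ^ β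

/-- (N3) directions for the windows ABOVE: top `v >= uf + L + (2q+4)p`. Quadratic coefficient
`t α (As + 2^d K)/2^v`, `d = v-uf-L >= (2q+4)p`, nonzero as `|As| <= q 2^((2q+3)p) < 2^d`. -/
def N3Stmt : Prop :=
  ∀ (q α L g9 : ℕ), 1 ≤ q → 1 ≤ α → 1 ≤ L → ∃ C : ℝ, ∃ p0 : ℕ, ∀ p ≥ p0, ∀ v uf β : ℕ,
    (12 * q + 12) * p ≤ uf → uf + L + (2 * q + 4) * p ≤ v → v + (16 * q + 16) * p ≤ 2 * β →
    ∀ (lam kap : Fin q → ℤ) (is : Fin q),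
      (cnt (2 ^ β) (fun b => ¬ Dir univ v (2 ^ (v - 2 * p)) (2 ^ ((2 * q + 2) * p)) uf L g9
        (sig α lam kap b) (sig α lam kap b is)) : ℝ) * 2 ^ p ≤ C * 2 ^ β

/-- (N4) direction for the window `[0, v1)`: `S = ∅`, slope `2^v1 sigma_*`. Quadratic coefficient
`t α K 2^v1/2^(uf+L)`. (`PhiR ∅` does not depend on `v, W`; take any admissible ones.) -/
def N4Stmt : Prop :=
  ∀ (q α L g9 : ℕ), 1 ≤ q → 1 ≤ α → 1 ≤ L → ∃ C : ℝ, ∃ p0 : ℕ, ∀ p ≥ p0, ∀ v1 uf β : ℕ,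
    v1 + (12 * q + 12) * p ≤ uf → uf + L + (16 * q + 16) * p ≤ 2 * β →
    ∀ (lam kap : Fin q → ℤ) (is : Fin q),
      (cnt (2 ^ β) (fun b => ¬ Dir (∅ : Finset (Fin q)) 1 1 (2 ^ ((2 * q + 2) * p)) uf L g9
        (sig α lam kap b) ((2 : ℤ) ^ v1 * sig α lam kap b is)) : ℝ) * 2 ^ p ≤ C * 2 ^ β

/-- (N5) directions for the eliminations: `S = {i'}`, `v = uf + L`. Quadratic coefficient
`t α (a + K)/2^(uf+L)`; if `a = -K` the phase is linear with the nonzero slope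
`t K (lam is - lam i')/2^(uf+L)` and (Q') applies. -/
def N5Stmt : Prop :=
  ∀ (q α L g9 : ℕ), 1 ≤ q → 1 ≤ α → 1 ≤ L → ∃ C : ℝ, ∃ p0 : ℕ, ∀ p ≥ p0, ∀ uf β Λ : ℕ,
    (12 * q + 12) * p ≤ uf → uf + L + (16 * q + 16) * p ≤ 2 * β → uf + L + 4 * p ≤ β →
    Λ + (2 * q + 3) * p ≤ uf →
    ∀ (lam kap : Fin q → ℤ) (is i' : Fin q), lam is ≠ lam i' → |lam is - lam i'| ≤ 2 ^ Λ →
      (cnt (2 ^ β) (fun b => ¬ Dir {i'} (uf + L) (2 ^ (uf + L - 2 * p)) (2 ^ ((2 * q + 2) * p))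
        uf L g9 (sig α lam kap b) (sig α lam kap b is)) : ℝ) * 2 ^ p ≤ C * 2 ^ β

/-- (G1) near boundary counts: for most `b`, `Nr M g u (α b^2 + l b + k)`. -/
def G1Stmt : Prop :=
  ∀ (α g : ℕ), 1 ≤ α → 1 ≤ g → ∃ C : ℝ, ∃ p0 : ℕ, ∀ p ≥ p0, ∀ u β M : ℕ,
    24 * p ≤ u → u + 24 * p ≤ 2 * β → 2 ^ p ≤ M → ∀ l k : ℤ,
      (cnt (2 ^ β) (fun b => ¬ Nr M g u ((α : ℤ) * (b : ℤ) ^ 2 + l * b + k)) : ℝ) * 2 ^ p ≤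
        C * 2 ^ β

/-- (G3) lower bound for `t sigma` modulo `2^va` for all `1 <= t <= 2^τ`. -/
def G3Stmt : Prop :=
  ∀ (α : ℕ), 1 ≤ α → ∃ C : ℝ, ∀ τ va β : ℕ, 1 ≤ τ → 16 * τ ≤ va → va + 16 * τ ≤ 2 * β →
    ∀ l k : ℤ,
      (cnt (2 ^ β) (fun b => ∃ t : ℕ, 1 ≤ t ∧ t ≤ 2 ^ τ ∧
        small va ((2 : ℤ) ^ (va - 2 * τ)) ((t : ℤ) * ((α : ℤ) * (b : ℤ) ^ 2 + l * b + k))) : ℝ)
        * 2 ^ τ ≤ C * 2 ^ β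

/-- (A) the adjacent window (deterministic, pigeonhole). `va = uf + L + wa`. -/
def AStmt : Prop :=
  ∀ (q : ℕ) (σ : Fin q → ℤ) (i0 : Fin q) (uf L p wa τ : ℕ),
    L ≤ p → p ≤ uf + L → q * (wa + p) < τ → 2 * τ ≤ uf + L + wa →
    (∀ t : ℕ, 1 ≤ t → t ≤ 2 ^ τ →
      ¬ small (uf + L + wa) ((2 : ℤ) ^ (uf + L + wa - 2 * τ)) ((t : ℤ) * σ i0)) →
    ∃ is : Fin q, ∃ ta : ℤ, |ta| ≤ 2 ^ (3 * τ) ∧
      (∀ i, small (uf + L + wa) ((2 : ℤ) ^ uf) (ta * σ i)) ∧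
      small (uf + L + wa) ((2 : ℤ) ^ (uf + L - p)) (ta * σ is - (2 : ℤ) ^ uf)

/-- (CD) deterministic core, from (V), a `KBound` and the digit calculus. Windows
`[lv w, lv (w+1))`, `w < n`; final window `wf`; `l i w` = the direction of the window `w` of the
factor `i`. For a non final pair `(i, w)` the factors for `η, η'` differing only in the
coordinate `l i w` are equal unless `y_i + (m + t_η(j)) σ_i` is near `0` modulo `2^(lv w)`; so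
the product over `η` of these factors is `1` for all `(m, j)` outside a set of density
`<= 2^k 8/2^g`. -/
def CDStmt : Prop :=
  ∀ (k q n Z g L g9 M L0 wf : ℕ) (c S : ℝ) (lv : ℕ → ℕ) (σ y : Fin q → ℤ) (is : Fin q) (t0 : ℤ)
    (t : Fin k → ℤ) (l : Fin q → ℕ → Fin k),
    1 ≤ M → 0 ≤ c → KBound k L0 c → Monotone lv → lv 0 = 0 → 1 ≤ wf → wf < n →
    lv (wf + 1) = lv wf + L → Z ≤ L → (∀ w, 1 ≤ w → g + Z ≤ lv w) → g9 ≤ lv wf →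
    (k + 1) * 2 ^ (Z + g) ≤ 2 ^ g9 →
    (∀ i, (2 : ℤ) ^ lv 1 ∣ t (l i 0) * σ i) →
    (∀ i w, 1 ≤ w → w < n → (i = is → w ≠ wf) →
      small (lv (w + 1)) ((2 : ℤ) ^ (lv w - g - Z)) (t (l i w) * σ i)) →
    small (lv wf + L) ((2 : ℤ) ^ (lv wf - g9)) (t0 * σ is - (2 : ℤ) ^ lv wf) →
    (∀ x, small (lv wf + L) ((2 : ℤ) ^ (lv wf - g9)) (t x * σ is - (2 : ℤ) ^ lv wf)) →
    (∀ i w, 1 ≤ w → w < n → Nr M g (lv w) (σ i)) →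
    (2 : ℝ) ^ Z * (|(t0 : ℝ)| + ∑ x, |(t x : ℝ)|) ≤ S →
    |(∑ m ∈ range M, ∏ i, TW 0 (lv n) (y i + (m : ℤ) * σ i)) / M| ^ (2 ^ k) ≤
      c ^ (Z / L0) + 2 * ((q * n * 2 ^ k + 1) * 8 / 2 ^ g) + 8 * 4 ^ k * S / M

/-- The generic `b` of the core proposition: `uf = v1 + K1 p`, `vf = uf + L`,
`va = vf + (2q+4)p`, `a = va + K2 p`. -/
def Gen {q : ℕ} (p L g g9 v1 K1 K2 M τ : ℕ) (i0 : Fin q) (σ : Fin q → ℤ) : Prop :=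
  (∀ i, ∀ j ≤ K1, Nr M g (v1 + j * p) (σ i)) ∧
  (∀ i, Nr M g (v1 + K1 * p + L) (σ i)) ∧
  (∀ i, ∀ j < K2, Nr M g (v1 + K1 * p + L + (2 * q + 4) * p + j * p) (σ i)) ∧
  (∀ is, ∀ j < K1, Dir univ (v1 + (j + 1) * p) (2 ^ (v1 + (j + 1) * p - 2 * p))
    (2 ^ ((2 * q + 2) * p)) (v1 + K1 * p) L g9 σ (σ is)) ∧
  (∀ is, ∀ j < K2, Dir univ (v1 + K1 * p + L + (2 * q + 4) * p + (j + 1) * p)
    (2 ^ (v1 + K1 * p + L + (2 * q + 4) * p + (j + 1) * p - 2 * p))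
    (2 ^ ((2 * q + 2) * p)) (v1 + K1 * p) L g9 σ (σ is)) ∧
  (∀ is, Dir (∅ : Finset (Fin q)) 1 1 (2 ^ ((2 * q + 2) * p)) (v1 + K1 * p) L g9 σ
    ((2 : ℤ) ^ v1 * σ is)) ∧
  (∀ is i', is ≠ i' → Dir {i'} (v1 + K1 * p + L) (2 ^ (v1 + K1 * p + L - 2 * p))
    (2 ^ ((2 * q + 2) * p)) (v1 + K1 * p) L g9 σ (σ is)) ∧
  (∀ t : ℕ, 1 ≤ t → t ≤ 2 ^ τ → ¬ small (v1 + K1 * p + L + (2 * q + 4) * p)
    ((2 : ℤ) ^ (v1 + K1 * p + L + (2 * q + 4) * p - 2 * τ)) ((t : ℤ) * σ i0))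

/-- (CP) most `b` are generic (union bound over (N2)-(N5), (G1), (G3)). -/
def CPStmt : Prop :=
  ∀ (q α g L g9 Kn : ℕ) (ε : ℝ), 1 ≤ q → 1 ≤ α → 1 ≤ g → 1 ≤ L → 0 < ε → ∃ p0 : ℕ, ∀ p ≥ p0,
    ∀ v1 K1 K2 M β Λ τ : ℕ, K1 ≤ Kn → K2 ≤ Kn → (12 * q + 12) * p ≤ v1 →
    v1 + (12 * q + 12) * p ≤ v1 + K1 * p → 2 ^ p ≤ M →
    v1 + K1 * p + L + (2 * q + 4) * p + K2 * p + (16 * q + 16) * p ≤ 2 * β →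
    v1 + K1 * p + L + 4 * p ≤ β → Λ + (2 * q + 3) * p ≤ v1 + K1 * p →
    p ≤ τ → 16 * τ ≤ v1 + K1 * p + L + (2 * q + 4) * p →
    v1 + K1 * p + L + (2 * q + 4) * p + 16 * τ ≤ 2 * β →
    ∀ (lam kap : Fin q → ℤ) (i0 : Fin q),
      (∀ i i', i ≠ i' → lam i ≠ lam i' ∧ |lam i - lam i'| ≤ 2 ^ Λ) →
      (cnt (2 ^ β) (fun b => ¬ Gen p L g g9 v1 K1 K2 M τ i0 (sig α lam kap b)) : ℝ) ≤
        ε * 2 ^ β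

/-- (CG) a generic `b` gives a small sum: `k = K1 + K2 + q + 2`-ish directions, padded to the
fixed number `k` (unused directions = a copy of the one of (N4)). -/
def CGStmt : Prop :=
  ∀ (k q Z g L g9 L0 p v1 K1 K2 M τ : ℕ) (c : ℝ) (i0 : Fin q) (σ y : Fin q → ℤ),
    K1 + K2 + q + 2 ≤ k → 1 ≤ M → 0 ≤ c → KBound k L0 c → L = Z + g →
    (k + 1) * 2 ^ (Z + g) ≤ 2 ^ g9 → 2 * L + g9 ≤ p → 2 * p ≤ v1 →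
    q * (2 * q + 5) * p < τ → 2 * τ ≤ v1 + K1 * p + L + (2 * q + 4) * p →
    Gen p L g g9 v1 K1 K2 M τ i0 σ →
    |(∑ m ∈ range M, ∏ i, TW 0 (v1 + K1 * p + L + (2 * q + 4) * p + K2 * p)
        (y i + (m : ℤ) * σ i)) / M| ^ (2 ^ k) ≤
      c ^ (Z / L0) + 2 * ((q * (K1 + K2 + 3) * 2 ^ k + 1) * 8 / 2 ^ g) +
        8 * 4 ^ k * (2 ^ Z * (k + 1) * 2 ^ max ((2 * q + 2) * p + v1) (3 * τ)) / M

/-- (CORE) the core proposition. -/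
def CoreStmt : Prop :=
  ∀ (q α g : ℕ) (ε : ℝ), 1 ≤ q → 1 ≤ α → 1 ≤ g → 0 < ε → ∃ ν0 : ℕ, ∀ ν ≥ ν0, ∀ M : ℕ,
    2 ^ (mu q ν - 1) ≤ M → M ≤ 2 ^ mu q ν → ∀ lam kap : Fin q → ℤ,
    (∀ i i', i ≠ i' → lam i ≠ lam i' ∧ |lam i - lam i'| ≤ 2 ^ (8 * mu q ν)) →
    (cnt (2 ^ be q ν) (fun b => ¬ (
      (∀ y : Fin q → ℤ,
        |∑ m ∈ range M, ∏ i, TW 0 (aa q ν) (y i + (m : ℤ) * sig α lam kap b i)| ≤ ε * M) ∧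
      (∀ i, Nr M g (aa q ν) (sig α lam kap b i)))) : ℝ) ≤ ε * 2 ^ be q ν

/-! ### 5. Theorem A and Theorem B -/

/-- (D) two-dimensional Dirichlet, integer form. -/
def DStmt : Prop :=
  ∀ (x y : ℤ) (a A B : ℕ), ∃ r : ℕ, 1 ≤ r ∧ r ≤ 2 ^ (A + B) ∧ ∃ z w : ℤ,
    |(r : ℤ) * x - z * 2 ^ a| * 2 ^ A ≤ 2 ^ a ∧ |(r : ℤ) * y - w * 2 ^ (2 * a)| * 2 ^ B ≤ 2 ^ (2 * a)

/-- (DEL) the digits `[2a, V)`: with `r = 2^(2μ+C') r'` and `V = 2a + 2μ + C'`,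
`Q(n + j' r) - Q(n + j r)` is within `2^(2a-g)` of a multiple of `2^V`. -/
def DelStmt : Prop :=
  ∀ (c : ℕ) (d e f : ℤ) (C' J0 g : ℕ), ∃ μ0 : ℕ, ∀ μ ≥ μ0, ∀ a β : ℕ, a = β + 9 * μ →
    300 * μ ≤ a → ∀ n1 : ℕ, n1 < 2 ^ a → ∀ r' : ℕ, 1 ≤ r' →
    r' ≤ 2 ^ (5 * μ + 2 * (C' + g + 2 + J0)) → ∀ z w : ℤ,
    |(r' : ℤ) * (6 * c * n1) - z * 2 ^ a| * 2 ^ (3 * μ + (C' + g + 2 + J0)) ≤ 2 ^ a →
    |(r' : ℤ) * (3 * c * n1 ^ 2) - w * 2 ^ (2 * a)| * 2 ^ (2 * μ + (C' + g + 2 + J0)) ≤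
      2 ^ (2 * a) →
    ∀ b : ℕ, b < 2 ^ β → ∀ m : ℕ, m ≤ 2 ^ μ → ∀ j : ℕ, j < J0 → ∀ j' : ℕ, j' < J0 →
      small (2 * a + 2 * μ + C') ((2 : ℤ) ^ (2 * a - g))
        (cub c d e f (n1 + b + 2 ^ a * m + j' * (2 ^ (2 * μ + C') * r')) -
          cub c d e f (n1 + b + 2 ^ a * m + j * (2 ^ (2 * μ + C') * r')))

/-- (P5a) pair estimate for one `n1 = 2^β s` (from CORE, D, DEL and the digit calculus);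
`q = q1 + q1`. -/
def P5aStmt : Prop :=
  ∀ (q1 c : ℕ) (d e f : Fin q1 → ℤ) (C' J0 : ℕ) (ε : ℝ), 1 ≤ q1 → 1 ≤ c →
    Function.Injective d → 0 < ε → ∃ ν0 : ℕ, ∀ ν ≥ ν0, ∀ M : ℕ,
    2 ^ (mu (q1 + q1) ν - 1) ≤ M → M ≤ 2 ^ mu (q1 + q1) ν →
    ∀ s : ℕ, s < 2 ^ (9 * mu (q1 + q1) ν) → ∃ r : ℕ, r ≤ 2 ^ (8 * mu (q1 + q1) ν) ∧
    ∀ j : ℕ, j < J0 → ∀ j' : ℕ, j' < J0 → j ≠ j' →
      |∑ b ∈ range (2 ^ be (q1 + q1) ν), ∑ m ∈ range M, ∏ i,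
        (TW 0 (2 * ν + C') (cub c (d i) (e i) (f i)
          (2 ^ be (q1 + q1) ν * s + b + 2 ^ aa (q1 + q1) ν * m + j * r)) *
        TW 0 (2 * ν + C') (cub c (d i) (e i) (f i)
          (2 ^ be (q1 + q1) ν * s + b + 2 ^ aa (q1 + q1) ν * m + j' * r)))| ≤
        ε * (2 ^ be (q1 + q1) ν * M)

/-- (P5) truncated theorem A, from (P5a) and (V0). -/
def P5Stmt : Prop :=
  ∀ (q1 c : ℕ) (d e f : Fin q1 → ℤ) (C' : ℕ) (ε : ℝ), 1 ≤ q1 → 1 ≤ c →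
    Function.Injective d → 0 < ε → ∃ ν0 : ℕ, ∀ ν ≥ ν0, ∀ N : ℕ, 2 ^ (ν - 1) ≤ N → N ≤ 2 ^ ν →
      |∑ n ∈ range N, ∏ i, TW 0 (2 * ν + C') (cub c (d i) (e i) (f i) n)| ≤ ε * N

/-- (CUT) the digits above `V = 2ν + C'` do not change under shifts `j, j'`. -/
def CutStmt : Prop :=
  ∀ (c : ℕ) (d e f : ℤ) (j j' : ℕ) (ε : ℝ), 1 ≤ c → 0 < ε → ∃ C0 : ℕ, ∀ C' ≥ C0, ∃ ν0 : ℕ,
    ∀ ν ≥ ν0, (cnt (2 ^ ν) (fun n => ¬ (0 ≤ cub c d e f (n + j) ∧ 0 ≤ cub c d e f (n + j') ∧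
      cub c d e f (n + j) / 2 ^ (2 * ν + C') = cub c d e f (n + j') / 2 ^ (2 * ν + C'))) : ℝ) ≤
      ε * 2 ^ ν

/-- (THM A). -/
def ThmAStmt : Prop :=
  ∀ (q0 c : ℕ) (d e f : Fin q0 → ℤ), 1 ≤ q0 → 1 ≤ c → Function.Injective d →
    Filter.Tendsto (fun N : ℕ => (∑ n ∈ range N, ∏ i, sgz (cub c (d i) (e i) (f i) n)) / (N : ℝ))
      Filter.atTop (nhds 0)

end Pool.Agent.H9.TC
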