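import Pool.Agent.H9.TC.Basic
import Pool.Agent.H9.TC.Stm

/-!
Project TC: Fourier expansion of `prod_{i in S} F_{v,W}(x_i)`.
-/

namespace Pool.Agent.H9.TC

open Finset

/-- The frequency vectors: `a i in reps v` for `i in S`, `a i = 0` otherwise. -/
noncomputable def exps {q : ℕ} (S : Finset (Fin q)) (v : ℕ) : Finset (Fin q → ℤ) :=
  Fintype.piFinset (fun i => if i ∈ S then reps v else {0})

/-- The weight of a frequency vector. -/
noncomputable def wt {q : ℕ} (S : Finset (Fin q)) (v W : ℕ) (a : Fin q → ℤ) : ℝ :=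
  ∏ i ∈ S, Fh v W (a i)

theorem mem_exps {q : ℕ} {S : Finset (Fin q)} {v : ℕ} {a : Fin q → ℤ} :
    a ∈ exps S v ↔ (∀ i ∈ S, a i ∈ reps v) ∧ ∀ i ∉ S, a i = 0 := by
  unfold exps
  rw [Fintype.mem_piFinset]
  constructor
  · intro h
    refine ⟨fun i hi => ?_, fun i hi => ?_⟩
    · simpa [hi] using h i
    · simpa [hi] using h i
  · rintro ⟨h1, h2⟩ i
    by_cases hi : i ∈ S
    · simpa [hi] using h1 i hi
    · simpa [hi] using h2 i hi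

/-- General expansion of a product of sums indexed by `S`. -/
theorem prod_exps {q : ℕ} {R : Type*} [CommSemiring R] (S : Finset (Fin q)) (v : ℕ)
    (g : Fin q → ℤ → R) :
    ∏ i ∈ S, ∑ a ∈ reps v, g i a = ∑ a ∈ exps S v, ∏ i ∈ S, g i (a i) := by
  have h1 : ∏ i ∈ S, ∑ a ∈ reps v, g i a =
      ∏ i : Fin q, ∑ a ∈ (if i ∈ S then reps v else {0}), (if i ∈ S then g i a else 1) := by
    rw [← Finset.prod_subset (subset_univ S)]
    · refine prod_congr rfl fun i hi => ?_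
      simp [hi]
    · intro i _ hi
      simp [hi]
  rw [h1, Finset.prod_univ_sum]
  refine sum_congr rfl fun a _ => ?_
  rw [← Finset.prod_subset (subset_univ S)]
  · refine prod_congr rfl fun i hi => ?_
    simp [hi]
  · intro i _ hi
    simp [hi]

/-- Fourier expansion of the product of the Fejer kernels. -/
theorem prodF_expand (h2 : F2Stmt) {q : ℕ} (S : Finset (Fin q)) {v W : ℕ} (hv : 1 ≤ v)
    (hW : 1 ≤ W) (hWv : W ≤ 2 ^ (v - 1)) (x : Fin q → ℤ) :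
    ((∏ i ∈ S, Fj v W (x i) : ℝ) : ℂ) =
      ∑ a ∈ exps S v, (wt S v W a : ℂ) *
        ee ((∑ i ∈ S, (a i : ℝ) * (x i : ℝ)) / 2 ^ v) := by
  have h3 := (h2 v W hv hW hWv).1
  rw [Complex.ofReal_prod]
  have h4 : ∏ i ∈ S, ((Fj v W (x i) : ℝ) : ℂ) =
      ∏ i ∈ S, ∑ a ∈ reps v, (Fh v W a : ℂ) * ee ((a : ℝ) * (x i : ℝ) / 2 ^ v) :=
    prod_congr rfl fun i _ => h3 (x i)
  rw [h4, prod_exps]
  refine sum_congr rfl fun a _ => ?_
  rw [prod_mul_distrib, sum_div, ee_sum]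
  unfold wt
  rw [Complex.ofReal_prod]

theorem wt_nonneg (h1 : F1Stmt) {q : ℕ} (S : Finset (Fin q)) {v W : ℕ} (hv : 1 ≤ v)
    (hW : 1 ≤ W) (hWv : W ≤ 2 ^ (v - 1)) (a : Fin q → ℤ) : 0 ≤ wt S v W a :=
  prod_nonneg fun i _ => (h1 v W hv hW hWv).2.2.2.2.2.1 (a i)

theorem sum_wt (h2 : F2Stmt) {q : ℕ} (S : Finset (Fin q)) {v W : ℕ} (hv : 1 ≤ v)
    (hW : 1 ≤ W) (hWv : W ≤ 2 ^ (v - 1)) : ∑ a ∈ exps S v, wt S v W a = 1 := by
  unfold wt
  rw [← prod_exps S v (fun _ a => Fh v W a), (h2 v W hv hW hWv).2.1]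
  simp

theorem zero_mem_exps {q : ℕ} (S : Finset (Fin q)) (v : ℕ) : (0 : Fin q → ℤ) ∈ exps S v := by
  rw [mem_exps]
  refine ⟨fun i _ => ?_, fun i _ => rfl⟩
  unfold reps
  rw [mem_Ioc]
  have : (0 : ℤ) < 2 ^ (v - 1) := by positivity
  simp only [Pi.zero_apply]
  exact ⟨by linarith, this.le⟩

theorem wt_zero (h1 : F1Stmt) {q : ℕ} (S : Finset (Fin q)) {v W : ℕ} (hv : 1 ≤ v)
    (hW : 1 ≤ W) (hWv : W ≤ 2 ^ (v - 1)) :
    wt S v W (0 : Fin q → ℤ) = ((W : ℝ) / 2 ^ v) ^ S.card := by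
  unfold wt
  simp only [Pi.zero_apply]
  rw [(h1 v W hv hW hWv).2.2.2.2.2.2, prod_const]

/-- Fourier expansion of `prod_{i in S} F((t1-t2) sigma_i) ee((t1-t2) theta)`. -/
theorem phi_term (h2 : F2Stmt) {q : ℕ} (S : Finset (Fin q)) {v W : ℕ} (hv : 1 ≤ v)
    (hW : 1 ≤ W) (hWv : W ≤ 2 ^ (v - 1)) (σ : Fin q → ℤ) (t : ℤ) (θ : ℝ) :
    ((∏ i ∈ S, Fj v W (t * σ i) : ℝ) : ℂ) * ee (t * θ) =
      ∑ a ∈ exps S v, (wt S v W a : ℂ) *
        ee ((t : ℝ) * ((∑ i ∈ S, (a i : ℝ) * (σ i : ℝ)) / 2 ^ v + θ)) := by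
  rw [prodF_expand h2 S hv hW hWv, sum_mul]
  refine sum_congr rfl fun a _ => ?_
  rw [mul_assoc, ← ee_add]
  congr 2
  have : ∑ i ∈ S, (a i : ℝ) * (((t * σ i : ℤ)) : ℝ) = t * ∑ i ∈ S, (a i : ℝ) * (σ i : ℝ) := by
    rw [mul_sum]
    refine sum_congr rfl fun i _ => ?_
    push_cast
    ring
  rw [this]
  ring

end Pool.Agent.H9.TC
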