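import Pool.Agent.H9.TC.Stm
import Pool.Agent.H9.TC.Basic

/-!
Project TC, row G: Markov and union bound.
-/

namespace Pool.Agent.H9.TC

open Finset

theorem gg (h1 : EStmt) (h2 : PStmt) : GStmt := by
  classical
  intro q S v W T uf L g9 B σ s δ hv hW hWv hT hg hL hK
  set R : ℝ := (T : ℝ) ^ 2 * ((W : ℝ) / 2 ^ v) ^ S.card with hR
  have hRpos : 0 < R := by
    have h3 : (0 : ℝ) < T := by exact_mod_cast hT
    have h4 : (0 : ℝ) < W := by exact_mod_cast hW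
    positivity
  set c : ℝ := 1 / 4 * (1 / 2) ^ (L + g9) * R with hc
  have hcpos : 0 < c := by positivity
  have hL1 : ¬ (2 : ℤ) ^ L ∣ 1 := by
    intro h
    have h3 := Int.le_of_dvd one_pos h
    have h4 : (2 : ℤ) ≤ 2 ^ L := by
      calc (2 : ℤ) = 2 ^ 1 := by norm_num
        _ ≤ 2 ^ L := pow_le_pow_right₀ (by norm_num) hL
    omega
  have hKmax : (1 : ℤ) ≤ 2 * 4 ^ (L + g9) := by
    have : (1 : ℤ) ≤ 4 ^ (L + g9) := one_le_pow₀ (by norm_num)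
    omega
  have hδB : 0 ≤ δ * B := by
    have h3 := hK 1 (by rw [abs_one]; exact hKmax) hL1
    have h4 : 0 ≤ ∑ b ∈ range B,
        PhiR S v W T (σ b) (((1 : ℤ) : ℝ) * (s b : ℝ) / 2 ^ (uf + L)) :=
      sum_nonneg fun b _ => (h2 q S v W T (σ b) _ hv hW hWv).1
    have h5 : 0 ≤ δ * B * R := h4.trans h3
    exact nonneg_of_mul_nonneg_left h5 hRpos
  -- the frequencies
  set F : Finset ℤ := (Icc (-(2 * 4 ^ (L + g9) : ℤ)) (2 * 4 ^ (L + g9))).filter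
    (fun K => ¬ (2 : ℤ) ^ L ∣ K) with hF
  have hcard : (F.card : ℝ) ≤ 4 * 4 ^ (L + g9) + 1 := by
    have h3 : F.card ≤ (Icc (-(2 * 4 ^ (L + g9) : ℤ)) (2 * 4 ^ (L + g9))).card :=
      card_filter_le _ _
    rw [Int.card_Icc] at h3
    have h4 : ((2 * 4 ^ (L + g9) + 1 - -(2 * 4 ^ (L + g9)) : ℤ)).toNat = 4 * 4 ^ (L + g9) + 1 := by
      have h5 : (2 * 4 ^ (L + g9) + 1 - -(2 * 4 ^ (L + g9)) : ℤ) =
          ((4 * 4 ^ (L + g9) + 1 : ℕ) : ℤ) := by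
        push_cast
        ring
      rw [h5]
      exact Int.toNat_natCast _
    rw [h4] at h3
    exact_mod_cast h3
  have hcnt : cnt B (fun b => ¬ Dir S v W T uf L g9 (σ b) (s b)) ≤
      ∑ K ∈ F, cnt B (fun b => c < PhiR S v W T (σ b) ((K : ℝ) * (s b : ℝ) / 2 ^ (uf + L))) := by
    refine (cnt_mono ?_).trans (cnt_exists B F _)
    intro b _ hb
    by_contra hcon
    apply hb
    refine h1 q S v W T uf L g9 (σ b) (s b) hv hW hWv hT hg hL ?_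
    intro K hK1 hK2
    by_contra hlt
    apply hcon
    refine ⟨K, ?_, not_le.1 hlt⟩
    rw [hF, mem_filter, mem_Icc]
    exact ⟨abs_le.1 hK1, hK2⟩
  have heach : ∀ K ∈ F,
      (cnt B (fun b => c < PhiR S v W T (σ b) ((K : ℝ) * (s b : ℝ) / 2 ^ (uf + L))) : ℝ) ≤
        4 * 2 ^ (L + g9) * (δ * B) := by
    intro K hKF
    rw [hF, mem_filter, mem_Icc] at hKF
    have h3 := hK K (abs_le.2 hKF.1) hKF.2
    have h4 := cnt_markov (M := B)
      (P := fun b => c < PhiR S v W T (σ b) ((K : ℝ) * (s b : ℝ) / 2 ^ (uf + L)))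
      (f := fun b => PhiR S v W T (σ b) ((K : ℝ) * (s b : ℝ) / 2 ^ (uf + L))) (c := c)
      (fun b _ => (h2 q S v W T (σ b) _ hv hW hWv).1) (fun b _ h => h.le)
    have h5 := h4.trans h3
    have h6 : c * (4 * 2 ^ (L + g9) * (δ * B)) = δ * B * R := by
      rw [hc]
      have h7 : ((1 : ℝ) / 2) ^ (L + g9) * 2 ^ (L + g9) = 1 := by
        rw [← mul_pow]
        norm_num
      calc 1 / 4 * (1 / 2) ^ (L + g9) * R * (4 * 2 ^ (L + g9) * (δ * B)) =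
          ((1 / 2) ^ (L + g9) * 2 ^ (L + g9)) * (δ * B * R) := by ring
        _ = δ * B * R := by rw [h7, one_mul]
    rw [← h6] at h5
    exact le_of_mul_le_mul_left h5 hcpos
  have hnn : 0 ≤ 4 * 2 ^ (L + g9) * (δ * B) := by positivity
  calc (cnt B (fun b => ¬ Dir S v W T uf L g9 (σ b) (s b)) : ℝ) ≤
      ((∑ K ∈ F, cnt B (fun b => c < PhiR S v W T (σ b)
        ((K : ℝ) * (s b : ℝ) / 2 ^ (uf + L))) : ℕ) : ℝ) := by exact_mod_cast hcnt
    _ = ∑ K ∈ F, (cnt B (fun b => c < PhiR S v W T (σ b)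
        ((K : ℝ) * (s b : ℝ) / 2 ^ (uf + L))) : ℝ) := by push_cast; rfl
    _ ≤ ∑ _K ∈ F, 4 * 2 ^ (L + g9) * (δ * B) := sum_le_sum heach
    _ = F.card * (4 * 2 ^ (L + g9) * (δ * B)) := by rw [sum_const, nsmul_eq_mul]
    _ ≤ (4 * 4 ^ (L + g9) + 1) * (4 * 2 ^ (L + g9) * (δ * B)) :=
        mul_le_mul_of_nonneg_right hcard hnn
    _ = (4 * 4 ^ (L + g9) + 1) * (4 * 2 ^ (L + g9)) * δ * B := by ring

end Pool.Agent.H9.TC
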