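import Pool.Agent.H9.TC.Stm
import Pool.Agent.H9.TC.Basic

/-!
Project TC, row G3: lower bound for `t sigma` modulo `2^va` for all `1 <= t <= 2^τ`.
-/

namespace Pool.Agent.H9.TC

open Finset

theorem g3_quarter (τ : ℕ) : (1 / 4 : ℝ) ^ τ = 1 / (2 ^ τ * 2 ^ τ) := by
  rw [← mul_pow, div_pow, one_pow]
  norm_num

/-- the inner exponential sum -/
theorem g3_inner (hq : QStmt) (α τ va β : ℕ) (hτ : α + 3 ≤ 3 * τ) (h1 : 16 * τ ≤ va)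
    (h2 : va + 16 * τ ≤ 2 * β) (hα : 1 ≤ α) (l k a : ℤ) (t : ℕ) (ht : 1 ≤ t) (ht2 : t ≤ 2 ^ τ)
    (ha0 : a ≠ 0) (ha : |a| ≤ 2 ^ (4 * τ)) :
    ‖∑ b ∈ range (2 ^ β), ee ((a : ℝ) *
      (((t : ℤ) * ((α : ℤ) * (b : ℤ) ^ 2 + l * b + k) : ℤ) : ℝ) / 2 ^ va)‖ ≤
      2 * (2 : ℝ) ^ β * (1 / 4) ^ τ := by
  have hN0 : a * (α : ℤ) * (t : ℤ) ≠ 0 := by
    refine mul_ne_zero (mul_ne_zero ha0 ?_) ?_
    · exact_mod_cast (by omega : α ≠ 0)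
    · exact_mod_cast (by omega : t ≠ 0)
  have hNlt : |a * (α : ℤ) * (t : ℤ)| < (2 : ℤ) ^ (5 * τ + α) := by
    rw [abs_mul, abs_mul, Nat.abs_cast, Nat.abs_cast]
    have h3 : (α : ℤ) < 2 ^ α := by exact_mod_cast Nat.lt_two_pow_self
    have h4 : (t : ℤ) ≤ 2 ^ τ := by exact_mod_cast ht2
    have h5 : (2 : ℤ) ^ (5 * τ + α) = 2 ^ (4 * τ) * 2 ^ α * 2 ^ τ := by
      rw [← pow_add, ← pow_add]
      congr 1
      ring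
    rw [h5]
    have h6 : (0 : ℤ) < (t : ℤ) := by exact_mod_cast ht
    have h7 : |a| * (α : ℤ) < 2 ^ (4 * τ) * 2 ^ α :=
      lt_of_le_of_lt (mul_le_mul_of_nonneg_right ha (by positivity))
        (mul_lt_mul_of_pos_left h3 (by positivity))
    exact lt_of_lt_of_le (mul_lt_mul_of_pos_right h7 h6)
      (mul_le_mul_of_nonneg_left h4 (by positivity))
  have hnd : ¬ (2 : ℤ) ^ (5 * τ + α) ∣ a * (α : ℤ) * (t : ℤ) := by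
    intro hdvd
    have := Int.le_of_dvd (abs_pos.2 hN0) ((dvd_abs _ _).2 hdvd)
    omega
  have h3 := hq (a * (α : ℤ) * (t : ℤ)) va (5 * τ + α) β ((a : ℝ) * t * l / 2 ^ va)
    ((a : ℝ) * t * k / 2 ^ va) hnd (by omega) (by omega)
  have h4 : ∀ b : ℕ, (a : ℝ) * (((t : ℤ) * ((α : ℤ) * (b : ℤ) ^ 2 + l * b + k) : ℤ) : ℝ) / 2 ^ va =
      ((a * (α : ℤ) * (t : ℤ) : ℤ) : ℝ) * (b : ℝ) ^ 2 / 2 ^ va + (a : ℝ) * t * l / 2 ^ va * b +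
        (a : ℝ) * t * k / 2 ^ va := by
    intro b
    push_cast
    ring
  simp only [h4]
  refine le_of_sq_le_sq ?_ (by positivity)
  refine h3.trans ?_
  have h5 : ((1 : ℝ) / 2) ^ ((va - (5 * τ + α) - 3) / 2) ≤ (1 / 2) ^ (4 * τ) :=
    pow_le_pow_of_le_one (by norm_num) (by norm_num) (by omega)
  have h6 : ((1 : ℝ) / 2) ^ (β - (va + 1) / 2) ≤ (1 / 2) ^ (4 * τ) :=
    pow_le_pow_of_le_one (by norm_num) (by norm_num) (by omega)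
  have h7 : ((1 : ℝ) / 2) ^ (4 * τ) = ((1 / 4) ^ τ) ^ 2 := by
    rw [← pow_mul, show (1 / 4 : ℝ) = (1 / 2) ^ 2 by norm_num, ← pow_mul]
    congr 1
    ring
  have h8 : (4 : ℝ) ^ β = (2 ^ β) ^ 2 := by
    rw [← pow_mul, show (4 : ℝ) = 2 ^ 2 by norm_num, ← pow_mul]
    congr 1
    ring
  rw [h7] at h5 h6
  rw [h8]
  have h9 : (0 : ℝ) ≤ (2 ^ β) ^ 2 := by positivity
  have h10 : (0 : ℝ) ≤ ((1 / 4 : ℝ) ^ τ) ^ 2 := by positivity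
  calc ((2 : ℝ) ^ β) ^ 2 * ((1 / 2) ^ ((va - (5 * τ + α) - 3) / 2) + (1 / 2) ^ (β - (va + 1) / 2))
      ≤ ((2 : ℝ) ^ β) ^ 2 * (((1 / 4) ^ τ) ^ 2 + ((1 / 4) ^ τ) ^ 2) :=
        mul_le_mul_of_nonneg_left (add_le_add h5 h6) h9
    _ ≤ (2 * (2 : ℝ) ^ β * (1 / 4) ^ τ) ^ 2 := by
        have : (2 * (2 : ℝ) ^ β * (1 / 4) ^ τ) ^ 2 -
          ((2 : ℝ) ^ β) ^ 2 * (((1 / 4) ^ τ) ^ 2 + ((1 / 4) ^ τ) ^ 2) =
          2 * (((2 : ℝ) ^ β) ^ 2 * ((1 / 4) ^ τ) ^ 2) := by ring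
        have h11 : (0 : ℝ) ≤ 2 * (((2 : ℝ) ^ β) ^ 2 * ((1 / 4) ^ τ) ^ 2) := by positivity
        linarith

/-- the Fourier bound -/
theorem g3_fourier (hf1 : F1Stmt) (hf2 : F2Stmt) (x : ℕ → ℤ) (B v W A : ℕ) (D : ℝ) (hD : 0 ≤ D)
    (hv : 1 ≤ v) (hW : 1 ≤ W) (hWv : W ≤ 2 ^ (v - 1)) (hA : 1 ≤ A)
    (h : ∀ a : ℤ, a ≠ 0 → |a| ≤ A →
      ‖∑ b ∈ range B, ee ((a : ℝ) * (x b : ℝ) / 2 ^ v)‖ ≤ D) :
    ∑ b ∈ range B, Fj v W (x b) ≤ (W : ℝ) / 2 ^ v * B + (2 : ℝ) ^ v / (2 * W * A) * B + D := by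
  classical
  obtain ⟨_, hF0, _, _, _, hFh0, hFh⟩ := hf1 v W hv hW hWv
  obtain ⟨hinv, hmass, htail⟩ := hf2 v W hv hW hWv
  have htriv : ∀ a : ℤ, ‖∑ b ∈ range B, ee ((a : ℝ) * (x b : ℝ) / 2 ^ v)‖ ≤ B := by
    intro a
    refine (norm_sum_le _ _).trans ?_
    simp only [norm_ee]
    simp
  have h1 : ((∑ b ∈ range B, Fj v W (x b) : ℝ) : ℂ) =
      ∑ a ∈ reps v, (Fh v W a : ℂ) * ∑ b ∈ range B, ee ((a : ℝ) * (x b : ℝ) / 2 ^ v) := by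
    rw [Complex.ofReal_sum]
    simp only [hinv, mul_sum]
    exact sum_comm
  have h2 : ∑ b ∈ range B, Fj v W (x b) ≤
      ∑ a ∈ reps v, Fh v W a * ‖∑ b ∈ range B, ee ((a : ℝ) * (x b : ℝ) / 2 ^ v)‖ := by
    have h3 : ∑ b ∈ range B, Fj v W (x b) ≤ ‖((∑ b ∈ range B, Fj v W (x b) : ℝ) : ℂ)‖ := by
      rw [Complex.norm_real]
      exact le_abs_self _
    refine h3.trans ?_
    rw [h1]
    refine (norm_sum_le _ _).trans (sum_le_sum fun a _ => ?_)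
    rw [norm_mul, Complex.norm_real, Real.norm_eq_abs, abs_of_nonneg (hFh0 a)]
  refine h2.trans ?_
  have h3 : ∀ a ∈ reps v, Fh v W a * ‖∑ b ∈ range B, ee ((a : ℝ) * (x b : ℝ) / 2 ^ v)‖ ≤
      (if a = 0 then Fh v W a * B else 0) + (if (A : ℤ) < |a| then Fh v W a * B else 0) +
        Fh v W a * D := by
    intro a _
    have h0 := hFh0 a
    have hB : (0 : ℝ) ≤ Fh v W a * B := by positivity
    have hDD : 0 ≤ Fh v W a * D := by positivity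
    have h4 : Fh v W a * ‖∑ b ∈ range B, ee ((a : ℝ) * (x b : ℝ) / 2 ^ v)‖ ≤ Fh v W a * B :=
      mul_le_mul_of_nonneg_left (htriv a) h0
    by_cases ha : a = 0
    · rw [if_pos ha]
      split_ifs <;> linarith
    · by_cases hb : (A : ℤ) < |a|
      · rw [if_neg ha, if_pos hb]
        linarith
      · rw [if_neg ha, if_neg hb]
        have := mul_le_mul_of_nonneg_left (h a ha (not_lt.1 hb)) h0
        linarith
  refine (sum_le_sum h3).trans ?_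
  rw [sum_add_distrib, sum_add_distrib, ← sum_mul, hmass, one_mul]
  have h4 : ∑ a ∈ reps v, (if a = 0 then Fh v W a * B else 0) ≤ (W : ℝ) / 2 ^ v * B := by
    rw [sum_ite_eq' (reps v) (0 : ℤ) (fun a => Fh v W a * B)]
    split_ifs
    · rw [hFh]
    · positivity
  have h5 : ∑ a ∈ reps v, (if (A : ℤ) < |a| then Fh v W a * B else 0) ≤
      (2 : ℝ) ^ v / (2 * W * A) * B := by
    rw [← sum_filter, ← sum_mul]
    exact mul_le_mul_of_nonneg_right (htail A hA) (Nat.cast_nonneg _)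
  linarith

/-- the count for one `t` -/
theorem g3_one (hf1 : F1Stmt) (hf2 : F2Stmt) (hq : QStmt) (α τ va β : ℕ) (hτ1 : 1 ≤ τ)
    (hτ : α + 3 ≤ 3 * τ) (h1 : 16 * τ ≤ va) (h2 : va + 16 * τ ≤ 2 * β) (hα : 1 ≤ α) (l k : ℤ)
    (t : ℕ) (ht : 1 ≤ t) (ht2 : t ≤ 2 ^ τ) :
    (cnt (2 ^ β) (fun b => small va ((2 : ℤ) ^ (va - 2 * τ))
      ((t : ℤ) * ((α : ℤ) * (b : ℤ) ^ 2 + l * b + k))) : ℝ) ≤ 10 * (2 : ℝ) ^ β * (1 / 4) ^ τ := by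
  have hv : 1 ≤ va := by omega
  have hW : 1 ≤ 2 ^ (va - 2 * τ + 1) := Nat.one_le_two_pow
  have hWv : 2 ^ (va - 2 * τ + 1) ≤ 2 ^ (va - 1) :=
    Nat.pow_le_pow_right (by norm_num) (by omega)
  have hA : 1 ≤ 2 ^ (4 * τ) := Nat.one_le_two_pow
  have h3 := g3_fourier hf1 hf2 (fun b => (t : ℤ) * ((α : ℤ) * (b : ℤ) ^ 2 + l * b + k)) (2 ^ β) va
    (2 ^ (va - 2 * τ + 1)) (2 ^ (4 * τ)) (2 * (2 : ℝ) ^ β * (1 / 4) ^ τ) (by positivity) hv hW hWv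
    hA (fun a ha0 ha => g3_inner hq α τ va β hτ h1 h2 hα l k a t ht ht2 ha0 (by exact_mod_cast ha))
  obtain ⟨_, hF0, _, _, hhalf, _, _⟩ := hf1 va (2 ^ (va - 2 * τ + 1)) hv hW hWv
  have h4 := cnt_markov (M := 2 ^ β) (P := fun b => small va ((2 : ℤ) ^ (va - 2 * τ))
      ((t : ℤ) * ((α : ℤ) * (b : ℤ) ^ 2 + l * b + k)))
      (f := fun b => Fj va (2 ^ (va - 2 * τ + 1)) ((t : ℤ) * ((α : ℤ) * (b : ℤ) ^ 2 + l * b + k)))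
      (c := 1 / 2) (fun b _ => hF0 _) (fun b _ hb => by
        obtain ⟨s, hs1, hs2⟩ := hb
        refine hhalf _ s ?_ hs2
        push_cast
        rw [pow_succ]
        linarith)
  have h5 : (((2 : ℕ) ^ (va - 2 * τ + 1) : ℕ) : ℝ) / 2 ^ va = 2 * (1 / 4) ^ τ := by
    have : (2 : ℝ) ^ va = 2 ^ (va - 2 * τ) * (2 ^ τ * 2 ^ τ) := by
      rw [← pow_add, ← pow_add]
      congr 1
      omega
    have h4' := g3_quarter τ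
    rw [this, h4']
    push_cast
    rw [pow_succ]
    field_simp
  have h6 : (2 : ℝ) ^ va / (2 * (((2 : ℕ) ^ (va - 2 * τ + 1) : ℕ) : ℝ) *
      (((2 : ℕ) ^ (4 * τ) : ℕ) : ℝ)) = (1 / 4) * (1 / 4) ^ τ := by
    have : (2 : ℝ) ^ va = 2 ^ (va - 2 * τ) * (2 ^ τ * 2 ^ τ) := by
      rw [← pow_add, ← pow_add]
      congr 1
      omega
    have h4' := g3_quarter τ
    have h5' : (2 : ℝ) ^ (4 * τ) = 2 ^ τ * 2 ^ τ * (2 ^ τ * 2 ^ τ) := by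
      rw [← pow_add, ← pow_add]
      congr 1
      ring
    rw [this, h4']
    push_cast
    rw [pow_succ, h5']
    field_simp
    norm_num
  rw [h5, h6] at h3
  have h7 : (0 : ℝ) ≤ (2 : ℝ) ^ β * (1 / 4) ^ τ := by positivity
  push_cast at h3 h4
  have h8 := h4.trans h3
  nlinarith [h8, h7]

/-- (G3) -/
theorem g3 (h1 : F1Stmt) (h2 : F2Stmt) (hq : QStmt) : G3Stmt := by
  intro α hα
  refine ⟨10 + 2 ^ (α + 3), fun τ va β hτ1 hva hβ l k => ?_⟩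
  by_cases hτ : α + 3 ≤ 3 * τ
  · have h3 : (cnt (2 ^ β) (fun b => ∃ t : ℕ, 1 ≤ t ∧ t ≤ 2 ^ τ ∧
        small va ((2 : ℤ) ^ (va - 2 * τ)) ((t : ℤ) * ((α : ℤ) * (b : ℤ) ^ 2 + l * b + k))) : ℝ) ≤
        ∑ t ∈ Icc (1 : ℕ) (2 ^ τ), (cnt (2 ^ β) (fun b => small va ((2 : ℤ) ^ (va - 2 * τ))
          (((t : ℕ) : ℤ) * ((α : ℤ) * (b : ℤ) ^ 2 + l * b + k))) : ℝ) := by
      have h4 := cnt_exists (2 ^ β) (Icc (1 : ℕ) (2 ^ τ)) (fun t b => small va ((2 : ℤ) ^ (va - 2 * τ))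
          (((t : ℕ) : ℤ) * ((α : ℤ) * (b : ℤ) ^ 2 + l * b + k)))
      have h5 : cnt (2 ^ β) (fun b => ∃ t : ℕ, 1 ≤ t ∧ t ≤ 2 ^ τ ∧
          small va ((2 : ℤ) ^ (va - 2 * τ)) ((t : ℤ) * ((α : ℤ) * (b : ℤ) ^ 2 + l * b + k))) ≤
          cnt (2 ^ β) (fun b => ∃ t ∈ Icc (1 : ℕ) (2 ^ τ), small va ((2 : ℤ) ^ (va - 2 * τ))
          (((t : ℕ) : ℤ) * ((α : ℤ) * (b : ℤ) ^ 2 + l * b + k))) := by
        refine cnt_mono fun b _ hb => ?_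
        obtain ⟨t, ht1, ht2, ht3⟩ := hb
        exact ⟨t, mem_Icc.2 ⟨ht1, ht2⟩, ht3⟩
      exact_mod_cast h5.trans h4
    have h4 : ∑ t ∈ Icc (1 : ℕ) (2 ^ τ), (cnt (2 ^ β) (fun b => small va ((2 : ℤ) ^ (va - 2 * τ))
          (((t : ℕ) : ℤ) * ((α : ℤ) * (b : ℤ) ^ 2 + l * b + k))) : ℝ) ≤
        ∑ _t ∈ Icc (1 : ℕ) (2 ^ τ), 10 * (2 : ℝ) ^ β * (1 / 4) ^ τ :=
      sum_le_sum fun t ht => g3_one h1 h2 hq α τ va β hτ1 hτ hva hβ hα l k t (mem_Icc.1 ht).1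
        (mem_Icc.1 ht).2
    rw [sum_const, Nat.card_Icc, nsmul_eq_mul, Nat.add_sub_cancel] at h4
    have h5 : (((2 : ℕ) ^ τ : ℕ) : ℝ) * (10 * (2 : ℝ) ^ β * (1 / 4) ^ τ) * 2 ^ τ = 10 * 2 ^ β := by
      have h4' := g3_quarter τ
      rw [h4']
      push_cast
      field_simp
    have h6 := mul_le_mul_of_nonneg_right (h3.trans h4) (by positivity : (0 : ℝ) ≤ 2 ^ τ)
    rw [h5] at h6
    refine h6.trans ?_
    have h7 : (0 : ℝ) ≤ 2 ^ (α + 3) * 2 ^ β := by positivity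
    linarith
  · have h3 : (cnt (2 ^ β) (fun b => ∃ t : ℕ, 1 ≤ t ∧ t ≤ 2 ^ τ ∧
        small va ((2 : ℤ) ^ (va - 2 * τ)) ((t : ℤ) * ((α : ℤ) * (b : ℤ) ^ 2 + l * b + k))) : ℝ) ≤
        2 ^ β := by
      exact_mod_cast cnt_le _ _
    have h4 : (2 : ℝ) ^ τ ≤ 2 ^ (α + 3) := pow_le_pow_right₀ (by norm_num) (by omega)
    calc _ ≤ (2 : ℝ) ^ β * 2 ^ (α + 3) := mul_le_mul h3 h4 (by positivity) (by positivity)
      _ ≤ (10 + 2 ^ (α + 3)) * 2 ^ β := by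
        have h7 : (0 : ℝ) ≤ 2 ^ β := by positivity
        linarith

end Pool.Agent.H9.TC
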