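import Pool.Agent.H9.TC.Stm

/-!
Project TC, row TC-5: the contraction recursion.
-/

set_option autoImplicit false

namespace Pool.Agent.H9.TC

open Finset

theorem kk_card (k J : ℕ) : (box k J).card = J * J ^ (k * 2) := by
  unfold box
  rw [card_product, Fintype.card_piFinset]
  simp

/-- the point `a + A b` of the box -/
def kkg {k : ℕ} (A : ℕ) (a b : ℕ × (Fin k × Bool → ℕ)) : ℕ × (Fin k × Bool → ℕ) :=
  (a.1 + A * b.1, fun x => a.2 x + A * b.2 x)

theorem kk_mem {k J : ℕ} {j : ℕ × (Fin k × Bool → ℕ)} :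
    j ∈ box k J ↔ j.1 < J ∧ ∀ x, j.2 x < J := by
  unfold box
  simp [Fintype.mem_piFinset]

theorem kk_sum {k : ℕ} {A B : ℕ} (hA : 0 < A) (F : ℕ × (Fin k × Bool → ℕ) → ℝ) :
    ∑ j ∈ box k (A * B), F j = ∑ a ∈ box k A, ∑ b ∈ box k B, F (kkg A a b) := by
  rw [← sum_product']
  symm
  refine sum_nbij' (fun p => kkg A p.1 p.2)
    (fun j => ((j.1 % A, fun x => j.2 x % A), (j.1 / A, fun x => j.2 x / A))) ?_ ?_ ?_ ?_ ?_
  · rintro ⟨a, b⟩ h
    rw [mem_product, kk_mem, kk_mem] at h
    obtain ⟨⟨h1, h2⟩, h3, h4⟩ := h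
    rw [kk_mem]
    have key : ∀ u v : ℕ, u < A → v < B → u + A * v < A * B := by
      intro u v hu hv
      calc u + A * v < A + A * v := by omega
        _ = A * (v + 1) := by ring
        _ ≤ A * B := Nat.mul_le_mul_left _ hv
    exact ⟨key _ _ h1 h3, fun x => key _ _ (h2 x) (h4 x)⟩
  · intro j h
    rw [kk_mem] at h
    rw [mem_product, kk_mem, kk_mem]
    exact ⟨⟨Nat.mod_lt _ hA, fun x => Nat.mod_lt _ hA⟩,
      Nat.div_lt_of_lt_mul h.1, fun x => Nat.div_lt_of_lt_mul (h.2 x)⟩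
  · rintro ⟨a, b⟩ h
    rw [mem_product, kk_mem, kk_mem] at h
    obtain ⟨⟨h1, h2⟩, h3, h4⟩ := h
    have e1 : ∀ u v : ℕ, u < A → (u + A * v) % A = u := fun u v hu => by
      rw [Nat.add_mul_mod_self_left, Nat.mod_eq_of_lt hu]
    have e2 : ∀ u v : ℕ, u < A → (u + A * v) / A = v := fun u v hu => by
      rw [Nat.add_mul_div_left _ _ hA, Nat.div_eq_of_lt hu, zero_add]
    simp only [kkg]
    refine Prod.ext (Prod.ext (e1 _ _ h1) (funext fun x => e1 _ _ (h2 x)))
      (Prod.ext (e2 _ _ h1) (funext fun x => e2 _ _ (h2 x)))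
  · intro j _
    simp only [kkg]
    refine Prod.ext (Nat.mod_add_div _ _) (funext fun x => Nat.mod_add_div _ _)
  · intro p _
    rfl

theorem kk_psi {k : ℕ} (A : ℕ) (t0 : ℤ) (t : Fin k → ℤ) (η : Fin k → Bool)
    (a b : ℕ × (Fin k × Bool → ℕ)) :
    psi t0 t η (kkg A a b) = psi t0 t η a + A * psi t0 t η b := by
  unfold psi kkg
  push_cast
  rw [mul_add, mul_sum]
  have : ∑ l, ((a.2 (l, η l) : ℤ) + A * b.2 (l, η l)) * t l =
      ∑ l, (a.2 (l, η l) : ℤ) * t l + ∑ l, A * ((b.2 (l, η l) : ℤ) * t l) := by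
    rw [← sum_add_distrib]
    exact sum_congr rfl fun l _ => by ring
  rw [this]
  ring

theorem kk_TW_abs (u v : ℕ) (x : ℤ) : |TW u v x| = 1 := by
  unfold TW
  rw [abs_prod]
  refine prod_eq_one fun i _ => ?_
  split_ifs <;> simp

theorem kk_TW_split {L0 L : ℕ} (h : L0 ≤ L) (x : ℤ) :
    TW 0 L x = TW 0 L0 x * TW 0 (L - L0) (x / 2 ^ L0) := by
  unfold TW
  rw [← prod_Ico_consecutive _ (Nat.zero_le L0) h]
  congr 1
  rw [prod_Ico_eq_prod_range, prod_Ico_eq_prod_range]
  simp only [tsub_zero, zero_add]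
  refine prod_congr rfl fun i _ => ?_
  have : x / 2 ^ (L0 + i) = x / 2 ^ L0 / 2 ^ i := by
    rw [pow_add, Int.ediv_ediv_of_nonneg (by positivity)]
  rw [this]

theorem kk_TW_low (L0 : ℕ) (x h : ℤ) : TW 0 L0 (x + 2 ^ L0 * h) = TW 0 L0 x := by
  unfold TW
  refine prod_congr rfl fun i hi => ?_
  rw [mem_Ico] at hi
  have e1 : (2 : ℤ) ^ L0 * h = (2 ^ (L0 - i - 1) * h * 2) * 2 ^ i := by
    have : (2 : ℤ) ^ L0 = 2 ^ (L0 - i - 1) * 2 * 2 ^ i := by
      rw [← pow_succ, ← pow_add]
      congr 1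
      omega
    rw [this]
    ring
  have e2 : (x + 2 ^ L0 * h) / 2 ^ i = x / 2 ^ i + 2 ^ (L0 - i - 1) * h * 2 := by
    rw [e1, Int.add_mul_ediv_right _ _ (by positivity)]
  rw [e2]
  have e3 : (x / 2 ^ i + 2 ^ (L0 - i - 1) * h * 2) % 2 = (x / 2 ^ i) % 2 := by omega
  rw [e3]

/-- (K). -/
theorem kk (h : K1Stmt) : KStmt := by
  intro k
  obtain ⟨L0, hL0, hK1⟩ := h k
  set n : ℕ := (box k (2 ^ L0)).card with hn
  have hn2 : (2 : ℝ) ≤ n := by
    have : 2 ≤ n := by
      rw [hn, kk_card]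
      have h1 : 2 ≤ 2 ^ L0 := by
        calc 2 = 2 ^ 1 := rfl
          _ ≤ 2 ^ L0 := Nat.pow_le_pow_right (by norm_num) hL0
      have h2 : 0 < (2 ^ L0) ^ (k * 2) := by positivity
      nlinarith
    exact_mod_cast this
  set c : ℝ := 1 - 2 / n with hc
  have hc0 : 0 ≤ c := by
    rw [hc]
    have : (2 : ℝ) / n ≤ 1 := by
      rw [div_le_one (by linarith)]
      exact hn2
    linarith
  have hc1 : c < 1 := by
    rw [hc]
    have : (0 : ℝ) < 2 / n := by positivity
    linarith
  have hcn : c * n = n - 2 := by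
    rw [hc]
    field_simp
  refine ⟨L0, hL0, c, hc0, hc1, ?_⟩
  intro Z
  induction Z using Nat.strong_induction_on with
  | _ Z ih =>
    intro L hZL N
    by_cases hZ : Z < L0
    · rw [Nat.div_eq_of_lt hZ, pow_zero, one_mul]
      calc |∑ j ∈ box k (2 ^ Z), ∏ η, TW 0 L (N η + psi 1 (fun _ => 1) η j)|
          ≤ ∑ j ∈ box k (2 ^ Z), |∏ η, TW 0 L (N η + psi 1 (fun _ => 1) η j)| :=
            abs_sum_le_sum_abs _ _
        _ = ∑ j ∈ box k (2 ^ Z), 1 := by
            refine sum_congr rfl fun j _ => ?_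
            rw [abs_prod]
            exact prod_eq_one fun η _ => kk_TW_abs _ _ _
        _ = (box k (2 ^ Z)).card := by simp
    · push Not at hZ
      have hpow : 2 ^ Z = 2 ^ L0 * 2 ^ (Z - L0) := by
        rw [← pow_add]
        congr 1
        omega
      have hZL0 : Z / L0 = (Z - L0) / L0 + 1 := by
        conv_lhs => rw [show Z = (Z - L0) + L0 by omega]
        rw [Nat.add_div_right _ (by omega)]
      let s : ℕ × (Fin k × Bool → ℕ) → ℝ := fun a =>
        ∏ η, TW 0 L0 (N η + psi 1 (fun _ => 1) η a)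
      let G : ℕ × (Fin k × Bool → ℕ) → ℝ := fun a =>
        ∑ b ∈ box k (2 ^ (Z - L0)), ∏ η, TW 0 (L - L0)
          ((N η + psi 1 (fun _ => 1) η a) / 2 ^ L0 + psi 1 (fun _ => 1) η b)
      set Bd : ℝ := c ^ ((Z - L0) / L0) * (box k (2 ^ (Z - L0))).card with hBd
      have hG : ∀ a, |G a| ≤ Bd := fun a =>
        ih (Z - L0) (by omega) (L - L0) (by omega)
          (fun η => (N η + psi 1 (fun _ => 1) η a) / 2 ^ L0)
      have hs : ∀ a, |s a| = 1 := by
        intro a
        simp only [s]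
        rw [abs_prod]
        exact prod_eq_one fun η _ => kk_TW_abs _ _ _
      have hBd0 : 0 ≤ Bd := (abs_nonneg _).trans (hG (0, fun _ => 0))
      have hsum : ∑ j ∈ box k (2 ^ Z), ∏ η, TW 0 L (N η + psi 1 (fun _ => 1) η j) =
          ∑ a ∈ box k (2 ^ L0), s a * G a := by
        rw [hpow, kk_sum (by positivity)]
        refine sum_congr rfl fun a _ => ?_
        simp only [s, G]
        rw [mul_sum]
        refine sum_congr rfl fun b _ => ?_
        rw [← prod_mul_distrib]
        refine prod_congr rfl fun η _ => ?_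
        have e1 : N η + psi 1 (fun _ => 1) η (kkg (2 ^ L0) a b) =
            (N η + psi 1 (fun _ => 1) η a) + 2 ^ L0 * psi 1 (fun _ => 1) η b := by
          rw [kk_psi]
          push_cast
          ring
        rw [e1, kk_TW_split (le_trans hZ hZL), kk_TW_low, mul_comm ((2 : ℤ) ^ L0),
          Int.add_mul_ediv_right _ _ (by positivity)]
      obtain ⟨j, hj, j', hj', hq, hsg⟩ := hK1 N
      have hsj : s j = -s j' := hsg
      have hGj : G j = G j' := by
        simp only [G]
        refine sum_congr rfl fun b _ => prod_congr rfl fun η _ => ?_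
        rw [hq η]
      have hne : j ≠ j' := by
        rintro rfl
        have h1 := hs j
        have h2 : s j = 0 := by linarith
        rw [h2] at h1
        simp at h1
      have hj'2 : j' ∈ (box k (2 ^ L0)).erase j := mem_erase.2 ⟨hne.symm, hj'⟩
      have hsum2 : ∑ a ∈ box k (2 ^ L0), s a * G a =
          ∑ a ∈ ((box k (2 ^ L0)).erase j).erase j', s a * G a := by
        rw [← add_sum_erase _ _ hj, ← add_sum_erase _ _ hj'2, hsj, hGj]
        ring
      have hcard : ((((box k (2 ^ L0)).erase j).erase j').card : ℝ) = n - 2 := by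
        rw [card_erase_of_mem hj'2, card_erase_of_mem hj, ← hn]
        have : 2 ≤ n := by exact_mod_cast hn2
        have e : n - 1 - 1 = n - 2 := by omega
        rw [e]
        push_cast [Nat.cast_sub this]
        ring
      rw [hsum, hsum2]
      calc |∑ a ∈ ((box k (2 ^ L0)).erase j).erase j', s a * G a|
          ≤ ∑ a ∈ ((box k (2 ^ L0)).erase j).erase j', |s a * G a| := abs_sum_le_sum_abs _ _
        _ ≤ ∑ a ∈ ((box k (2 ^ L0)).erase j).erase j', Bd := by
            refine sum_le_sum fun a _ => ?_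
            rw [abs_mul, hs, one_mul]
            exact hG a
        _ = (n - 2) * Bd := by
            rw [sum_const, nsmul_eq_mul, hcard]
        _ = c ^ (Z / L0) * (box k (2 ^ Z)).card := by
            have e1 : ((box k (2 ^ Z)).card : ℝ) = n * (box k (2 ^ (Z - L0))).card := by
              rw [hn, kk_card, kk_card, kk_card, hpow]
              push_cast
              rw [mul_pow]
              ring
            rw [e1, hZL0, pow_succ, hBd, ← hcn]
            ring

end Pool.Agent.H9.TC
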