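import Pool.Agent.H9.TC.Stm

/-!
Project TC (MP_b6022c_nt), row TC-4: the claim of the contraction lemma.
-/

namespace Pool.Agent.H9.TC

open Finset

/-! ### signs -/

theorem k1_sq (u v : ℕ) (x : ℤ) : TW u v x * TW u v x = 1 := by
  unfold TW
  rw [← Finset.prod_mul_distrib]
  refine Finset.prod_eq_one fun i _ => ?_
  split_ifs <;> norm_num

/-- the digits of `x` and `x + 1` -/
theorem k1_succ (L v : ℕ) (hv : v < L) (x y : ℤ) (hx : x + 1 = 2 ^ v * (2 * y + 1)) :
    TW 0 L x * TW 0 L (x + 1) = (-1) ^ (v + 1) := by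
  unfold TW
  rw [← Finset.prod_mul_distrib]
  have h1 : ∀ i ∈ Ico 0 L, ((if (x / 2 ^ i) % 2 = 0 then (1 : ℝ) else -1) *
      (if ((x + 1) / 2 ^ i) % 2 = 0 then (1 : ℝ) else -1)) = if i ≤ v then -1 else 1 := by
    intro i _
    have hx' : x = 2 ^ v * (2 * y + 1) - 1 := by linarith
    rcases lt_trichotomy i v with h | h | h
    · obtain ⟨d, rfl⟩ : ∃ d, v = i + (d + 1) := ⟨v - i - 1, by omega⟩
      have hp : (0 : ℤ) < 2 ^ i := by positivity
      obtain ⟨w, hw⟩ : ∃ w : ℤ, w = 2 ^ d * (2 * y + 1) := ⟨_, rfl⟩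
      have e1 : (x + 1) / 2 ^ i = w * 2 := by
        rw [hx, pow_add, pow_succ]
        rw [show (2 : ℤ) ^ i * (2 ^ d * 2) * (2 * y + 1) = 2 ^ i * (2 ^ d * (2 * y + 1) * 2) by
          ring, ← hw]
        exact Int.mul_ediv_cancel_left _ hp.ne'
      have e2 : x / 2 ^ i = w * 2 - 1 := by
        have e3 : x = 2 ^ i - 1 + (w * 2 - 1) * 2 ^ i := by
          rw [hx', pow_add, pow_succ, hw]
          ring
        rw [e3, Int.add_mul_ediv_right _ _ hp.ne',
          Int.ediv_eq_zero_of_lt (by linarith) (by linarith), zero_add]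
      have g1 : w * 2 % 2 = 0 := by omega
      have g2 : ¬ (w * 2 - 1) % 2 = 0 := by omega
      have g3 : i ≤ i + (d + 1) := by omega
      rw [e1, e2, if_pos g1, if_neg g2, if_pos g3]
      norm_num
    · subst h
      have hp : (0 : ℤ) < 2 ^ i := by positivity
      have e1 : (x + 1) / 2 ^ i = 2 * y + 1 := by
        rw [hx]
        exact Int.mul_ediv_cancel_left _ hp.ne'
      have e2 : x / 2 ^ i = 2 * y := by
        have e3 : x = 2 ^ i - 1 + (2 * y) * 2 ^ i := by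
          rw [hx']
          ring
        rw [e3, Int.add_mul_ediv_right _ _ hp.ne',
          Int.ediv_eq_zero_of_lt (by linarith) (by linarith), zero_add]
      have g1 : ¬ (2 * y + 1) % 2 = 0 := by omega
      have g2 : (2 * y) % 2 = 0 := by omega
      rw [e1, e2, if_neg g1, if_pos g2, if_pos le_rfl]
      norm_num
    · obtain ⟨d, rfl⟩ : ∃ d, i = v + (d + 1) := ⟨i - v - 1, by omega⟩
      have hp : (0 : ℤ) < 2 ^ v := by positivity
      have e1 : (x + 1) / 2 ^ v = 2 * y + 1 := by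
        rw [hx]
        exact Int.mul_ediv_cancel_left _ hp.ne'
      have e2 : x / 2 ^ v = 2 * y := by
        have e3 : x = 2 ^ v - 1 + (2 * y) * 2 ^ v := by
          rw [hx']
          ring
        rw [e3, Int.add_mul_ediv_right _ _ hp.ne',
          Int.ediv_eq_zero_of_lt (by linarith) (by linarith), zero_add]
      have e4 : ∀ w : ℤ, w / 2 ^ (v + (d + 1)) = w / 2 ^ v / 2 / 2 ^ d := by
        intro w
        rw [pow_add, pow_succ', ← Int.ediv_ediv_of_nonneg hp.le,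
          ← Int.ediv_ediv_of_nonneg (by norm_num : (0 : ℤ) ≤ 2)]
      have e5 : (x + 1) / 2 ^ (v + (d + 1)) = x / 2 ^ (v + (d + 1)) := by
        rw [e4, e4, e1, e2]
        congr 1
        omega
      rw [e5, if_neg (by omega : ¬ v + (d + 1) ≤ v)]
      split_ifs <;> norm_num
  rw [Finset.prod_congr rfl h1, Finset.prod_ite, Finset.prod_const, Finset.prod_const_one,
    mul_one]
  congr 1
  have h2 : (Ico 0 L).filter (fun i => i ≤ v) = range (v + 1) := by
    ext i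
    simp only [mem_filter, mem_Ico, mem_range]
    omega
  rw [h2, card_range]

theorem k1_val (h : ℕ) (z : ℤ) (hz : ¬ (2 : ℤ) ^ h ∣ z) :
    ∃ v < h, ∃ y : ℤ, z = 2 ^ v * (2 * y + 1) := by
  induction h with
  | zero => exact absurd (by rw [pow_zero]; exact one_dvd z) hz
  | succ h ih =>
    by_cases h1 : (2 : ℤ) ^ h ∣ z
    · obtain ⟨w, hw⟩ := h1
      refine ⟨h, Nat.lt_succ_self h, w / 2, ?_⟩
      have h2 : w % 2 = 1 := by
        by_contra h3
        have h4 : w = 2 * (w / 2) := by omega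
        apply hz
        rw [hw, pow_succ]
        exact mul_dvd_mul_left _ ⟨w / 2, h4⟩
      rw [hw]
      congr 1
      omega
    · obtain ⟨v, hv, y, hy⟩ := ih h1
      exact ⟨v, hv.trans (Nat.lt_succ_self h), y, hy⟩

/-- the four point product away from the carry -/
theorem k1_four_pos (L h : ℕ) (hL : h < L) (x : ℤ) (hx : ¬ (2 : ℤ) ^ h ∣ x + 1) :
    (TW 0 L x * TW 0 L (x + 1)) * (TW 0 L (x + 2 ^ h) * TW 0 L (x + 2 ^ h + 1)) = 1 := by
  obtain ⟨v, hv, y, hy⟩ := k1_val h _ hx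
  obtain ⟨d, rfl⟩ : ∃ d, h = v + (d + 1) := ⟨h - v - 1, by omega⟩
  rw [k1_succ L v (by omega) x y hy, k1_succ L v (by omega) (x + 2 ^ (v + (d + 1))) (y + 2 ^ d) (by
    rw [show x + 2 ^ (v + (d + 1)) + 1 = x + 1 + 2 ^ (v + (d + 1)) by ring, hy, pow_add,
      pow_succ]
    ring), ← pow_add, ← two_mul, pow_mul]
  norm_num

/-- the four point product at the carry -/
theorem k1_four_neg (L h : ℕ) (hL : h + 1 < L) (x : ℤ) (q : ℤ)
    (hx : x + 1 = 2 ^ h + 2 ^ (h + 2) * q) :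
    (TW 0 L x * TW 0 L (x + 1)) * (TW 0 L (x + 2 ^ h) * TW 0 L (x + 2 ^ h + 1)) = -1 := by
  rw [k1_succ L h (by omega) x (2 * q) (by
    rw [hx, pow_add]
    ring), k1_succ L (h + 1) hL (x + 2 ^ h) q (by
    rw [show x + 2 ^ h + 1 = x + 1 + 2 ^ h by ring, hx, pow_add, pow_succ]
    ring), pow_succ (-1 : ℝ) (h + 1), ← mul_assoc, ← pow_add, ← two_mul, pow_mul]
  norm_num

/-! ### choice of the parameters -/

/-- avoiding finitely many residues -/
theorem k1_avoid {ι : Type} [Fintype ι] (h : ℕ) (hc : Fintype.card ι < 2 ^ h) (c : ι → ℤ) :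
    ∃ y : ℕ, y < 2 ^ h ∧ ∀ i, ¬ (2 : ℤ) ^ h ∣ c i + (y : ℤ) := by
  classical
  have h1 : ((univ : Finset ι).image fun i => ((-c i) % 2 ^ h).toNat).card <
      (range (2 ^ h)).card := by
    rw [card_range]
    exact lt_of_le_of_lt Finset.card_image_le (by rwa [Finset.card_univ])
  obtain ⟨y, hy, hy'⟩ := Finset.exists_mem_notMem_of_card_lt_card h1
  rw [mem_range] at hy
  refine ⟨y, hy, fun i hi => hy' ?_⟩
  rw [mem_image]
  refine ⟨i, mem_univ i, ?_⟩
  have hp : (0 : ℤ) < 2 ^ h := by positivity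
  have h2 : (-c i) % 2 ^ h = (y : ℤ) := by
    have h3 : (-c i) % 2 ^ h = (y : ℤ) % 2 ^ h := by
      apply Int.ModEq.symm
      rw [Int.modEq_iff_dvd]
      have h4 : -c i - (y : ℤ) = -(c i + y) := by ring
      rw [h4]
      exact (dvd_neg).2 hi
    rw [h3]
    exact Int.emod_eq_of_lt (Int.natCast_nonneg y) (by exact_mod_cast hy)
  rw [h2, Int.toNat_natCast]

/-- the sum over the coordinates equal to `false` -/
def k1_sm {k : ℕ} (x : Fin k → ℕ) (η : Fin k → Bool) : ℤ := ∑ l, if η l then 0 else (x l : ℤ)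

theorem k1_choice (h : ℕ) : ∀ k : ℕ, k < h → ∀ c : (Fin k → Bool) → ℤ,
    ∃ x : Fin k → ℕ, (∀ l, x l < 2 ^ h) ∧
      ∀ η, η ≠ (fun _ => true) → ¬ (2 : ℤ) ^ h ∣ c η + k1_sm x η := by
  intro k
  induction k with
  | zero =>
    intro _ c
    exact ⟨fun _ => 0, fun l => l.elim0, fun η hη => absurd (funext fun l => l.elim0) hη⟩
  | succ k ih =>
    intro hk c
    obtain ⟨x, hx, hxc⟩ := ih (by omega) fun η => c (Fin.cons true η)
    obtain ⟨y, hy, hyc⟩ := k1_avoid (ι := Fin k → Bool) h (by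
      rw [Fintype.card_fun, Fintype.card_bool, Fintype.card_fin]
      exact Nat.pow_lt_pow_right (by norm_num) (by omega))
      fun η => c (Fin.cons false η) + k1_sm x η
    refine ⟨Fin.cons y x, fun l => ?_, fun η hη => ?_⟩
    · refine Fin.cases ?_ (fun l => ?_) l
      · simpa using hy
      · simpa using hx l
    · obtain ⟨b, η', rfl⟩ : ∃ b η', η = (Fin.cons b η' : Fin (k + 1) → Bool) :=
        ⟨η 0, Fin.tail η, (Fin.cons_self_tail η).symm⟩
      have e1 : k1_sm (Fin.cons y x : Fin (k + 1) → ℕ) (Fin.cons b η' : Fin (k + 1) → Bool) =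
          (if b then 0 else (y : ℤ)) + k1_sm x η' := by
        unfold k1_sm
        rw [Fin.sum_univ_succ]
        simp
      rw [e1]
      cases b with
      | false =>
        have h1 := hyc η'
        simp only [Bool.false_eq_true, if_false]
        rw [show c (Fin.cons false η') + ((y : ℤ) + k1_sm x η') =
          c (Fin.cons false η') + k1_sm x η' + y by ring]
        exact h1
      | true =>
        simp only [if_true, zero_add]
        refine hxc η' fun h1 => hη ?_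
        rw [h1]
        funext l
        refine Fin.cases ?_ (fun l => ?_) l <;> simp

theorem k1_sm_nonneg {k : ℕ} (x : Fin k → ℕ) (η : Fin k → Bool) : 0 ≤ k1_sm x η :=
  Finset.sum_nonneg fun l _ => by
    split_ifs
    · exact le_rfl
    · exact Int.natCast_nonneg _

theorem k1_sm_le {k h : ℕ} (x : Fin k → ℕ) (hx : ∀ l, x l < 2 ^ h) (η : Fin k → Bool) :
    k1_sm x η ≤ k * 2 ^ h := by
  unfold k1_sm
  have h1 : ∀ l ∈ (univ : Finset (Fin k)), (if η l then 0 else (x l : ℤ)) ≤ 2 ^ h := by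
    intro l _
    split_ifs
    · positivity
    · exact_mod_cast (hx l).le
  have h2 := Finset.sum_le_sum h1
  rw [Finset.sum_const, Finset.card_univ, Fintype.card_fin, nsmul_eq_mul] at h2
  exact h2

/-- translation away from the end of the blocks -/
theorem k1_shift (k : ℕ) (P X : ℤ) (hX : 0 < X) (hP : (2 ^ k + 1) * X ≤ P)
    (N : (Fin k → Bool) → ℤ) :
    ∃ β : ℕ, β ≤ 2 ^ k ∧ ∀ η, (N η + β * X) % P < P - X := by
  classical
  by_contra hcon
  push Not at hcon
  choose! f hf using hcon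
  have h1 : (univ : Finset (Fin k → Bool)).card < (range (2 ^ k + 1)).card := by
    rw [card_range, Finset.card_univ, Fintype.card_fun, Fintype.card_bool, Fintype.card_fin]
    exact Nat.lt_succ_self _
  obtain ⟨b, hb, b', hb', hne, he⟩ := Finset.exists_ne_map_eq_of_card_lt_of_maps_to h1
    (f := f) (fun _ _ => mem_univ _)
  rw [mem_range] at hb hb'
  -- the arithmetic
  have key : ∀ b b' : ℕ, b < b' → b' ≤ 2 ^ k → ∀ n : ℤ, P - X ≤ (n + b * X) % P →
      P - X ≤ (n + b' * X) % P → False := by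
    intro b b' hbb hb2 n h2 h3
    have hk : (0 : ℤ) < 2 ^ k := by positivity
    have hP0 : 0 < P := by nlinarith
    have hbb' : (b : ℤ) + 1 ≤ b' := by exact_mod_cast hbb
    have hb2' : (b' : ℤ) ≤ 2 ^ k := by exact_mod_cast hb2
    have hb0 : (0 : ℤ) ≤ b := Int.natCast_nonneg b
    have hr1 := Int.emod_lt_of_pos (n + b * X) hP0
    set r := (n + b * X) % P with hr
    have hD1 : X ≤ ((b' : ℤ) - b) * X := by nlinarith
    have hD2 : ((b' : ℤ) - b) * X ≤ P - X := by nlinarith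
    have e1 : n + b * X = r + P * ((n + b * X) / P) := (Int.emod_add_mul_ediv _ _).symm
    have e2 : n + b' * X = (r + ((b' : ℤ) - b) * X - P) + P * ((n + b * X) / P + 1) := by
      linear_combination e1
    rw [e2, Int.add_mul_emod_self_left, Int.emod_eq_of_lt (by linarith) (by linarith)] at h3
    linarith
  rcases lt_or_gt_of_ne hne with h2 | h2
  · refine key b b' h2 (by omega) (N (f b)) (hf b (by omega)) ?_
    rw [he]
    exact hf b' (by omega)
  · refine key b' b h2 (by omega) (N (f b')) (hf b' (by omega)) ?_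
    rw [← he]
    exact hf b (by omega)

theorem k1 : K1Stmt := by
  intro k
  obtain ⟨L0, hL0⟩ : ∃ L0 : ℕ, (2 ^ k + 1) * ((k + 1) * 2 ^ (k + 4)) ≤ 2 ^ L0 :=
    ⟨_, (Nat.lt_two_pow_self).le⟩
  have hL4 : k + 4 ≤ L0 := by
    rw [← Nat.pow_le_pow_iff_right (by norm_num : 1 < 2)]
    refine le_trans ?_ hL0
    have h1 : 1 * (1 * 2 ^ (k + 4)) ≤ (2 ^ k + 1) * ((k + 1) * 2 ^ (k + 4)) :=
      Nat.mul_le_mul (Nat.succ_le_succ (Nat.zero_le _))
        (Nat.mul_le_mul_right _ (Nat.succ_le_succ (Nat.zero_le _)))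
    simpa using h1
  refine ⟨L0, by omega, fun N => ?_⟩
  have hL0' : ((2 : ℤ) ^ k + 1) * (((k : ℤ) + 1) * 2 ^ (k + 4)) ≤ 2 ^ L0 := by
    exact_mod_cast hL0
  set X : ℤ := ((k : ℤ) + 1) * 2 ^ (k + 4) with hX
  have hk4 : (0 : ℤ) < 2 ^ (k + 4) := by positivity
  have hk0 : (0 : ℤ) ≤ k := Int.natCast_nonneg k
  have hX0 : 0 < X := by positivity
  obtain ⟨β, hβ, hβN⟩ := k1_shift k (2 ^ L0) X hX0 hL0' N
  -- the choice of `j_0`
  have hh2 : (0 : ℤ) < 2 ^ (k + 1 + 2) := by positivity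
  obtain ⟨j0, hj0, q, hq⟩ : ∃ j0 : ℕ, j0 < 2 ^ (k + 1 + 2) ∧ ∃ q : ℤ,
      N (fun _ => true) + β * X + j0 + 1 = 2 ^ (k + 1) + 2 ^ (k + 1 + 2) * q := by
    set a : ℤ := 2 ^ (k + 1) - 1 - (N (fun _ => true) + β * X) with ha
    have h1 := Int.emod_nonneg a hh2.ne'
    have h2 := Int.emod_lt_of_pos a hh2
    refine ⟨(a % 2 ^ (k + 1 + 2)).toNat, ?_, -(a / 2 ^ (k + 1 + 2)), ?_⟩
    · zify
      rw [Int.toNat_of_nonneg h1]
      exact h2
    · rw [Int.toNat_of_nonneg h1]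
      have h3 := Int.emod_add_mul_ediv a (2 ^ (k + 1 + 2))
      linear_combination h3 + ha
  obtain ⟨x, hx, hxc⟩ := k1_choice (k + 1) k (Nat.lt_succ_self k)
    fun η => N η + β * X + j0 + 1
  -- the points
  set pt : ℕ → ℕ × (Fin k × Bool → ℕ) := fun i =>
    (β * ((k + 1) * 2 ^ (k + 4)) + j0 + i, fun lb => if lb.2 then 0 else x lb.1) with hpt
  have hpsi : ∀ i η, N η + psi 1 (fun _ => 1) η (pt i) =
      N η + β * X + j0 + k1_sm x η + i := by
    intro i η
    unfold psi k1_sm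
    have e1 : ∀ l : Fin k, (((pt i).2 (l, η l) : ℕ) : ℤ) * 1 = if η l then 0 else (x l : ℤ) := by
      intro l
      show (((if η l then 0 else x l : ℕ)) : ℤ) * 1 = _
      split_ifs <;> simp
    rw [Finset.sum_congr rfl fun l _ => e1 l]
    show N η + ((((β * ((k + 1) * 2 ^ (k + 4)) + j0 + i : ℕ)) : ℤ) * 1 + _) = _
    rw [hX]
    push_cast
    ring
  have p1 : (2 : ℤ) ^ (k + 4) = 2 ^ (k + 1) * 8 := by rw [pow_add, pow_add]; ring
  have p2 : (2 : ℤ) ^ (k + 1 + 2) = 2 ^ (k + 1) * 4 := by rw [pow_add]; norm_num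
  have p3 : (0 : ℤ) < 2 ^ (k + 1) := by positivity
  have p4 : (2 : ℤ) ≤ 2 ^ (k + 1) := by
    rw [pow_succ]
    have : (1 : ℤ) ≤ 2 ^ k := one_le_pow₀ (by norm_num)
    linarith
  have hj0' : (j0 : ℤ) < 2 ^ (k + 1) * 4 := by
    rw [← p2]
    exact_mod_cast hj0
  have hβ' : (β : ℤ) ≤ 2 ^ k := by exact_mod_cast hβ
  have hβX : (β : ℤ) * X ≤ 2 ^ k * X := mul_le_mul_of_nonneg_right hβ' hX0.le
  have hXge : 2 ^ (k + 4) ≤ X := by
    rw [hX]
    nlinarith
  have hbox : ∀ i : ℕ, (i : ℤ) ≤ 2 ^ (k + 1) + 1 → pt i ∈ box k (2 ^ L0) := by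
    intro i hi
    unfold box
    rw [Finset.mem_product, Finset.mem_range, Fintype.mem_piFinset]
    refine ⟨?_, fun lb => ?_⟩
    · show β * ((k + 1) * 2 ^ (k + 4)) + j0 + i < 2 ^ L0
      have h1 : (β : ℤ) * (((k : ℤ) + 1) * 2 ^ (k + 4)) + j0 + i < 2 ^ L0 := by
        rw [← hX]
        linarith
      exact_mod_cast h1
    · rw [Finset.mem_range]
      show (if lb.2 then 0 else x lb.1) < 2 ^ L0
      split_ifs
      · positivity
      · exact (hx _).trans_le (Nat.pow_le_pow_right (by norm_num) (by omega))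
  have hquo : ∀ i : ℕ, (i : ℤ) ≤ 2 ^ (k + 1) + 1 → ∀ η,
      (N η + psi 1 (fun _ => 1) η (pt i)) / 2 ^ L0 = (N η + β * X) / 2 ^ L0 := by
    intro i hi η
    have hp : (0 : ℤ) < 2 ^ L0 := by positivity
    have h1 := k1_sm_nonneg x η
    have h2 := k1_sm_le x hx η
    have h3 := hβN η
    have h4 := Int.emod_nonneg (N η + β * X) hp.ne'
    have h5 := Int.emod_add_mul_ediv (N η + β * X) (2 ^ L0)
    have hi0 : (0 : ℤ) ≤ i := Int.natCast_nonneg i
    have hj00 : (0 : ℤ) ≤ j0 := Int.natCast_nonneg j0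
    rw [hpsi]
    have h6 : N η + β * X + j0 + k1_sm x η + i =
        ((N η + β * X) % 2 ^ L0 + (j0 + k1_sm x η + i)) +
          ((N η + β * X) / 2 ^ L0) * 2 ^ L0 := by
      linear_combination -h5
    have h7 : (j0 : ℤ) + k1_sm x η + i ≤ X := by
      rw [hX, p1]
      nlinarith
    rw [h6, Int.add_mul_ediv_right _ _ hp.ne', Int.ediv_eq_zero_of_lt (by linarith)
      (by linarith), zero_add]
  -- the signs
  set Pr : ℕ → ℝ := fun i => ∏ η, TW 0 L0 (N η + psi 1 (fun _ => 1) η (pt i)) with hPr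
  have hsq : ∀ i, Pr i * Pr i = 1 := by
    intro i
    show (∏ η, TW 0 L0 (N η + psi 1 (fun _ => 1) η (pt i))) *
      (∏ η, TW 0 L0 (N η + psi 1 (fun _ => 1) η (pt i))) = 1
    rw [← Finset.prod_mul_distrib]
    exact Finset.prod_eq_one fun η _ => k1_sq _ _ _
  have hfour : (Pr 0 * Pr 1) * (Pr (2 ^ (k + 1)) * Pr (2 ^ (k + 1) + 1)) = -1 := by
    show ((∏ η, TW 0 L0 (N η + psi 1 (fun _ => 1) η (pt 0))) *
      (∏ η, TW 0 L0 (N η + psi 1 (fun _ => 1) η (pt 1)))) *
      ((∏ η, TW 0 L0 (N η + psi 1 (fun _ => 1) η (pt (2 ^ (k + 1))))) *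
      (∏ η, TW 0 L0 (N η + psi 1 (fun _ => 1) η (pt (2 ^ (k + 1) + 1))))) = -1
    rw [← Finset.prod_mul_distrib, ← Finset.prod_mul_distrib, ← Finset.prod_mul_distrib]
    have e1 : ∀ η ∈ (univ : Finset (Fin k → Bool)),
        TW 0 L0 (N η + psi 1 (fun _ => 1) η (pt 0)) *
        TW 0 L0 (N η + psi 1 (fun _ => 1) η (pt 1)) *
        (TW 0 L0 (N η + psi 1 (fun _ => 1) η (pt (2 ^ (k + 1)))) *
        TW 0 L0 (N η + psi 1 (fun _ => 1) η (pt (2 ^ (k + 1) + 1)))) =
        if η = (fun _ => true) then -1 else 1 := by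
      intro η _
      rw [hpsi, hpsi, hpsi, hpsi]
      set y : ℤ := N η + β * X + j0 + k1_sm x η with hy
      have g0 : y + ((0 : ℕ) : ℤ) = y := by simp
      have g1 : y + ((1 : ℕ) : ℤ) = y + 1 := by simp
      have g2 : y + ((2 ^ (k + 1) : ℕ) : ℤ) = y + 2 ^ (k + 1) := by push_cast; ring
      have g3 : y + ((2 ^ (k + 1) + 1 : ℕ) : ℤ) = y + 2 ^ (k + 1) + 1 := by push_cast; ring
      rw [g0, g1, g2, g3]
      split_ifs with hη
      · refine k1_four_neg L0 (k + 1) (by omega) y q ?_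
        have e2 : k1_sm x η = 0 := by
          unfold k1_sm
          rw [hη]
          exact Finset.sum_eq_zero fun l _ => by simp
        rw [hy, e2, hη, ← hq]
        ring
      · refine k1_four_pos L0 (k + 1) (by omega) y ?_
        have h1 := hxc η hη
        rw [hy]
        have e2 : N η + β * X + j0 + k1_sm x η + 1 = N η + β * X + j0 + 1 + k1_sm x η := by ring
        rw [e2]
        exact h1
    rw [Finset.prod_congr rfl e1, Finset.prod_ite_eq' univ (fun _ => true) (fun _ => (-1 : ℝ)),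
      if_pos (mem_univ _)]
  have hcast : ((2 ^ (k + 1) : ℕ) : ℤ) = 2 ^ (k + 1) := by push_cast; ring
  have hcast1 : ((2 ^ (k + 1) + 1 : ℕ) : ℤ) = 2 ^ (k + 1) + 1 := by push_cast; ring
  have fin : ∀ i i' : ℕ, (i : ℤ) ≤ 2 ^ (k + 1) + 1 → (i' : ℤ) ≤ 2 ^ (k + 1) + 1 →
      Pr i * Pr i' = -1 → ∃ j ∈ box k (2 ^ L0), ∃ j' ∈ box k (2 ^ L0),
      (∀ η, (N η + psi 1 (fun _ => 1) η j) / 2 ^ L0 = (N η + psi 1 (fun _ => 1) η j') / 2 ^ L0) ∧
      ∏ η, TW 0 L0 (N η + psi 1 (fun _ => 1) η j) =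
        -∏ η, TW 0 L0 (N η + psi 1 (fun _ => 1) η j') := by
    intro i i' hi hi' h1
    refine ⟨pt i, hbox i hi, pt i', hbox i' hi', fun η => ?_, ?_⟩
    · rw [hquo i hi η, hquo i' hi' η]
    · show Pr i = -Pr i'
      have h2 := hsq i'
      linear_combination (Pr i') * h1 - (Pr i) * h2
  have hcases : Pr 0 * Pr 1 = 1 ∨ Pr 0 * Pr 1 = -1 := by
    have h1 : (Pr 0 * Pr 1) ^ 2 = 1 := by
      have h2 := hsq 0
      have h3 := hsq 1
      calc (Pr 0 * Pr 1) ^ 2 = (Pr 0 * Pr 0) * (Pr 1 * Pr 1) := by ring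
        _ = 1 := by rw [h2, h3, one_mul]
    exact sq_eq_one_iff.1 h1
  rcases hcases with h1 | h1
  · rw [h1, one_mul] at hfour
    exact fin (2 ^ (k + 1)) (2 ^ (k + 1) + 1) (by rw [hcast]; linarith) (by rw [hcast1]) hfour
  · exact fin 0 1 (by simp; linarith) (by push_cast; linarith) h1

end Pool.Agent.H9.TC
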