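import Pool.Agent.H9.TC.Exp

/-!
Project TC, row TC-9: first moment of `PhiR` from bounds for exponential sums.
-/

namespace Pool.Agent.H9.TC

open Finset

/-- Total weight of the frequency vectors with one coordinate beyond `A`. -/
theorem m0_tail_one (h2 : F2Stmt) {q : ℕ} (S : Finset (Fin q)) {v W A : ℕ}
    (hv : 1 ≤ v) (hW : 1 ≤ W) (hWv : W ≤ 2 ^ (v - 1)) (hA : 1 ≤ A) (i : Fin q) (hi : i ∈ S) :
    ∑ a ∈ exps S v, (if (A : ℤ) < |a i| then wt S v W a else 0) ≤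
      (2 : ℝ) ^ v / (2 * W * A) := by
  classical
  have hF := h2 v W hv hW hWv
  have hkey : ∑ a ∈ exps S v, (if (A : ℤ) < |a i| then wt S v W a else 0) =
      ∏ j ∈ S, ∑ b ∈ reps v, (if j = i then (if (A : ℤ) < |b| then Fh v W b else 0)
        else Fh v W b) := by
    rw [prod_exps S v (fun j b => if j = i then (if (A : ℤ) < |b| then Fh v W b else 0)
        else Fh v W b)]
    refine sum_congr rfl fun a _ => ?_
    unfold wt
    by_cases hc : (A : ℤ) < |a i|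
    · rw [if_pos hc]
      refine prod_congr rfl fun j _ => ?_
      by_cases hj : j = i
      · subst hj
        simp [hc]
      · simp [hj]
    · rw [if_neg hc]
      symm
      refine prod_eq_zero hi ?_
      simp [hc]
  rw [hkey, ← mul_prod_erase S _ hi]
  have hrest : ∏ j ∈ S.erase i, ∑ b ∈ reps v,
      (if j = i then (if (A : ℤ) < |b| then Fh v W b else 0) else Fh v W b) = 1 := by
    refine prod_eq_one fun j hj => ?_
    have hji : j ≠ i := (mem_erase.1 hj).1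
    simp only [if_neg hji]
    exact hF.2.1
  rw [hrest, mul_one]
  simp only [if_true]
  rw [← sum_filter]
  exact hF.2.2 A hA

/-- Total weight of the bad frequency vectors. -/
theorem m0_tail (h1 : F1Stmt) (h2 : F2Stmt) {q : ℕ} (S : Finset (Fin q)) {v W A : ℕ}
    (hv : 1 ≤ v) (hW : 1 ≤ W) (hWv : W ≤ 2 ^ (v - 1)) (hA : 1 ≤ A) :
    ∑ a ∈ exps S v, (if (∀ i ∈ S, |a i| ≤ (A : ℤ)) then 0 else wt S v W a) ≤
      S.card * 2 ^ v / (2 * W * A) := by
  classical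
  have hw := fun a => wt_nonneg h1 S hv hW hWv a
  have hstep : ∀ a ∈ exps S v, (if (∀ i ∈ S, |a i| ≤ (A : ℤ)) then 0 else wt S v W a) ≤
      ∑ i ∈ S, (if (A : ℤ) < |a i| then wt S v W a else 0) := by
    intro a _
    have hnn : ∀ i ∈ S, (0 : ℝ) ≤ (if (A : ℤ) < |a i| then wt S v W a else 0) := by
      intro i _
      split_ifs
      · exact hw a
      · exact le_rfl
    by_cases hc : ∀ i ∈ S, |a i| ≤ (A : ℤ)
    · rw [if_pos hc]
      exact sum_nonneg hnn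
    · rw [if_neg hc]
      push Not at hc
      obtain ⟨i, hi, hai⟩ := hc
      have := single_le_sum hnn hi
      simpa [hai] using this
  refine (sum_le_sum hstep).trans ?_
  rw [sum_comm]
  refine (sum_le_sum fun i hi => m0_tail_one h2 S hv hW hWv hA i hi).trans ?_
  rw [sum_const, nsmul_eq_mul, mul_div_assoc]

/-- The contribution of one pair as a weighted sum of exponential sums. -/
theorem m0_pair (h1 : F1Stmt) (h2 : F2Stmt) {q : ℕ} (S : Finset (Fin q)) {v W B : ℕ}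
    (hv : 1 ≤ v) (hW : 1 ≤ W) (hWv : W ≤ 2 ^ (v - 1)) (σ : ℕ → Fin q → ℤ) (θ : ℕ → ℝ) (t : ℤ) :
    ∑ b ∈ range B, (∏ i ∈ S, Fj v W (t * σ b i)) *
        Real.cos (2 * Real.pi * ((t : ℝ) * θ b)) ≤
      ∑ a ∈ exps S v, wt S v W a * ‖∑ b ∈ range B,
        ee ((t : ℝ) * ((∑ i ∈ S, (a i : ℝ) * (σ b i : ℝ)) / 2 ^ v + θ b))‖ := by
  have hC : ∑ b ∈ range B, ((∏ i ∈ S, Fj v W (t * σ b i) : ℝ) : ℂ) * ee ((t : ℝ) * θ b) =
      ∑ a ∈ exps S v, (wt S v W a : ℂ) * ∑ b ∈ range B,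
        ee ((t : ℝ) * ((∑ i ∈ S, (a i : ℝ) * (σ b i : ℝ)) / 2 ^ v + θ b)) := by
    have h3 : ∀ b ∈ range B,
        ((∏ i ∈ S, Fj v W (t * σ b i) : ℝ) : ℂ) * ee ((t : ℝ) * θ b) =
        ∑ a ∈ exps S v, (wt S v W a : ℂ) *
          ee ((t : ℝ) * ((∑ i ∈ S, (a i : ℝ) * (σ b i : ℝ)) / 2 ^ v + θ b)) :=
      fun b _ => phi_term h2 S hv hW hWv (σ b) t (θ b)
    rw [sum_congr rfl h3, sum_comm]
    refine sum_congr rfl fun a _ => ?_
    rw [mul_sum]
  have hre : ∑ b ∈ range B, (∏ i ∈ S, Fj v W (t * σ b i)) *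
        Real.cos (2 * Real.pi * ((t : ℝ) * θ b)) =
      (∑ b ∈ range B, ((∏ i ∈ S, Fj v W (t * σ b i) : ℝ) : ℂ) * ee ((t : ℝ) * θ b)).re := by
    rw [Complex.re_sum]
    refine sum_congr rfl fun b _ => ?_
    rw [Complex.re_ofReal_mul, ee_re]
  rw [hre, hC]
  refine (Complex.re_le_norm _).trans ((norm_sum_le _ _).trans ?_)
  refine sum_le_sum fun a _ => ?_
  rw [norm_mul, Complex.norm_real, Real.norm_of_nonneg (wt_nonneg h1 S hv hW hWv a)]

theorem m0_norm_le (B : ℕ) (x : ℕ → ℝ) : ‖∑ b ∈ range B, ee (x b)‖ ≤ B := by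
  refine (norm_sum_le _ _).trans ?_
  simp [norm_ee]

/-- The bound for one pair. -/
theorem m0_pair_le (h1 : F1Stmt) (h2 : F2Stmt) {q : ℕ} (S : Finset (Fin q)) {v W T A B : ℕ}
    (hv : 1 ≤ v) (hW : 1 ≤ W) (hWv : W ≤ 2 ^ (v - 1)) (hA : 1 ≤ A)
    (σ : ℕ → Fin q → ℤ) (θ : ℕ → ℝ) {δ : ℝ} (hδ : 0 ≤ δ)
    (hb : ∀ t : ℤ, t ≠ 0 → |t| < T → ∀ a : Fin q → ℤ, (∀ i ∈ S, |a i| ≤ A) →
      ‖∑ b ∈ range B, ee ((t : ℝ) * ((∑ i ∈ S, (a i : ℝ) * (σ b i : ℝ)) / 2 ^ v + θ b))‖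
        ≤ δ * B) (t : ℤ) (ht : |t| < T) :
    ∑ b ∈ range B, (∏ i ∈ S, Fj v W (t * σ b i)) *
        Real.cos (2 * Real.pi * ((t : ℝ) * θ b)) ≤
      (if t = 0 then (B : ℝ) else 0) + (δ * B + S.card * 2 ^ v / (2 * W * A) * B) := by
  classical
  have hw := fun a => wt_nonneg h1 S hv hW hWv a
  have hB : (0 : ℝ) ≤ B := Nat.cast_nonneg B
  have hs := sum_wt h2 S hv hW hWv
  have htail0 : (0 : ℝ) ≤ S.card * 2 ^ v / (2 * W * A) := by positivity
  refine (m0_pair h1 h2 S hv hW hWv σ θ t).trans ?_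
  by_cases h0 : t = 0
  · rw [if_pos h0]
    have h3 : ∑ a ∈ exps S v, wt S v W a * ‖∑ b ∈ range B,
        ee ((t : ℝ) * ((∑ i ∈ S, (a i : ℝ) * (σ b i : ℝ)) / 2 ^ v + θ b))‖ ≤
        ∑ a ∈ exps S v, wt S v W a * B :=
      sum_le_sum fun a _ => mul_le_mul_of_nonneg_left (m0_norm_le B _) (hw a)
    rw [← sum_mul, hs, one_mul] at h3
    have h4 : 0 ≤ δ * B + S.card * 2 ^ v / (2 * W * A) * B := by positivity
    linarith
  · rw [if_neg h0, zero_add]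
    have h3 : ∀ a ∈ exps S v, wt S v W a * ‖∑ b ∈ range B,
        ee ((t : ℝ) * ((∑ i ∈ S, (a i : ℝ) * (σ b i : ℝ)) / 2 ^ v + θ b))‖ ≤
        wt S v W a * (δ * B) +
          (if (∀ i ∈ S, |a i| ≤ (A : ℤ)) then 0 else wt S v W a) * B := by
      intro a _
      by_cases hc : ∀ i ∈ S, |a i| ≤ (A : ℤ)
      · rw [if_pos hc, zero_mul, add_zero]
        exact mul_le_mul_of_nonneg_left (hb t h0 ht a hc) (hw a)
      · rw [if_neg hc]
        have h5 := mul_le_mul_of_nonneg_left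
          (m0_norm_le B (fun b => (t : ℝ) * ((∑ i ∈ S, (a i : ℝ) * (σ b i : ℝ)) / 2 ^ v + θ b)))
          (hw a)
        have h6 : 0 ≤ wt S v W a * (δ * B) := mul_nonneg (hw a) (mul_nonneg hδ hB)
        linarith
    refine (sum_le_sum h3).trans ?_
    rw [sum_add_distrib, ← sum_mul, ← sum_mul, hs, one_mul]
    have h7 := mul_le_mul_of_nonneg_right (m0_tail h1 h2 S hv hW hWv hA) hB
    linarith

theorem m0 (h1 : F1Stmt) (h2 : F2Stmt) : M0Stmt := by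
  intro q S v W T A B σ θ δ hv hW hWv hA hδ hb
  unfold PhiR
  rw [sum_comm]
  have hpair : ∀ t1 ∈ range T, ∑ b ∈ range B, ∑ t2 ∈ range T,
      (∏ i ∈ S, Fj v W (((t1 : ℤ) - (t2 : ℤ)) * σ b i)) *
        Real.cos (2 * Real.pi * (((t1 : ℝ) - (t2 : ℝ)) * θ b)) ≤
      B + T * (δ * B + S.card * 2 ^ v / (2 * W * A) * B) := by
    intro t1 ht1
    rw [sum_comm]
    have h3 : ∀ t2 ∈ range T, ∑ b ∈ range B,
        (∏ i ∈ S, Fj v W (((t1 : ℤ) - (t2 : ℤ)) * σ b i)) *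
          Real.cos (2 * Real.pi * (((t1 : ℝ) - (t2 : ℝ)) * θ b)) ≤
        (if t1 = t2 then (B : ℝ) else 0) +
          (δ * B + S.card * 2 ^ v / (2 * W * A) * B) := by
      intro t2 ht2
      have ha := mem_range.1 ht1
      have hc := mem_range.1 ht2
      have hlt : |(t1 : ℤ) - (t2 : ℤ)| < T := by
        rw [abs_lt]
        constructor <;> omega
      have h4 := m0_pair_le h1 h2 S hv hW hWv hA σ θ hδ hb ((t1 : ℤ) - (t2 : ℤ)) hlt
      have h5 : (((t1 : ℤ) - (t2 : ℤ) : ℤ) : ℝ) = (t1 : ℝ) - (t2 : ℝ) := by push_cast; ring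
      rw [h5] at h4
      have h6 : ((t1 : ℤ) - (t2 : ℤ) = 0) ↔ t1 = t2 := by omega
      simp only [h6] at h4
      exact h4
    refine (sum_le_sum h3).trans ?_
    rw [sum_add_distrib, sum_ite_eq, if_pos ht1, sum_const, card_range, nsmul_eq_mul]
  refine (sum_le_sum hpair).trans ?_
  rw [sum_const, card_range, nsmul_eq_mul]
  apply le_of_eq
  ring

end Pool.Agent.H9.TC
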