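import Pool.Agent.H9.TC.Stm

/-!
Project TC (MP_b6022c_nt), row TC-28: the truncated Theorem A.
-/

set_option autoImplicit false

namespace Pool.Agent.H9.TC

open Finset

theorem p5_sum_mul (f : ℕ → ℝ) (A B : ℕ) :
    ∑ n ∈ range (A * B), f n = ∑ i ∈ range A, ∑ j ∈ range B, f (i * B + j) := by
  induction A with
  | zero => simp
  | succ A ih => rw [Nat.succ_mul, Finset.sum_range_add, ih, Finset.sum_range_succ]

theorem p5_absTW (u v : ℕ) (x : ℤ) : |TW u v x| = 1 := by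
  unfold TW
  rw [Finset.abs_prod]
  refine Finset.prod_eq_one fun i _ => ?_
  split_ifs <;> simp

/-- parameters -/
theorem p5_par (q : ℕ) : ∀ P : ℕ, ∃ ν0 : ℕ, ∀ ν ≥ ν0,
    P ≤ mu q ν ∧ aa q ν + mu q ν = ν ∧ be q ν + 9 * mu q ν = aa q ν ∧ 9 * mu q ν ≤ be q ν := by
  intro P
  have hC : 1 ≤ C1 q := by
    unfold C1
    omega
  refine ⟨400 * C1 q * P, fun ν hν => ?_⟩
  have h1 : 0 < 400 * C1 q := by omega
  have h2 : P ≤ pp q ν := by
    unfold pp
    rw [Nat.le_div_iff_mul_le h1, mul_comm]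
    exact hν
  have h3 : 400 * mu q ν ≤ ν := by
    unfold mu pp
    rw [← mul_assoc]
    exact Nat.mul_div_le _ _
  have h4 : P ≤ mu q ν := by
    unfold mu
    exact h2.trans (Nat.le_mul_of_pos_left _ hC)
  unfold be aa
  refine ⟨h4, ?_, ?_, ?_⟩ <;> omega

/-- the estimate for one residue class -/
theorem p5_one (h0 : V0Stmt) (F : ℤ → ℝ) (hF : ∀ x, |F x| ≤ 1) (J0 B M r : ℕ) (Bs A : ℤ)
    (ε1 : ℝ) (hJ : 1 ≤ J0) (hoff : ∀ j < J0, ∀ j' < J0, j ≠ j' →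
      |∑ b ∈ range B, ∑ m ∈ range M, F (Bs + b + A * m + j * r) * F (Bs + b + A * m + j' * r)| ≤
        ε1 * (B * M)) (hε1 : 0 ≤ ε1) :
    (∑ b ∈ range B, ∑ m ∈ range M, F (Bs + b + A * m)) ^ 2 ≤
      ((M : ℝ) * B) ^ 2 * (1 / J0 + ε1) + (M : ℝ) ^ 2 * (2 * J0 * r * B) := by
  have hJ0 : (0 : ℝ) < J0 := by exact_mod_cast hJ
  rw [Finset.sum_comm]
  have h1 := sq_sum_le_card_mul_sum_sq (s := range M)
    (f := fun m : ℕ => ∑ b ∈ range B, F (Bs + b + A * m))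
  rw [Finset.card_range] at h1
  refine h1.trans ?_
  have h2 : ∀ m ∈ range M, (∑ b ∈ range B, F (Bs + b + A * m)) ^ 2 ≤
      (B : ℝ) / (J0 : ℝ) ^ 2 * (∑ j ∈ range J0, ∑ j' ∈ range J0, ∑ b ∈ range B,
        F (Bs + b + A * m + j * r) * F (Bs + b + A * m + j' * r)) + 2 * J0 * r * B := by
    intro m _
    have h3 := h0 (fun x => F (Bs + x + A * m)) (fun x => hF _) J0 B r hJ
    refine h3.trans (le_of_eq ?_)
    congr 2
    refine Finset.sum_congr rfl fun j _ => Finset.sum_congr rfl fun j' _ =>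
      Finset.sum_congr rfl fun b _ => ?_
    congr 2 <;> ring
  have h3 : ∑ m ∈ range M, ∑ j ∈ range J0, ∑ j' ∈ range J0, ∑ b ∈ range B,
        F (Bs + b + A * m + j * r) * F (Bs + b + A * m + j' * r) ≤
      J0 * (B * M) + (J0 : ℝ) ^ 2 * (ε1 * (B * M)) := by
    have h4 : ∑ m ∈ range M, ∑ j ∈ range J0, ∑ j' ∈ range J0, ∑ b ∈ range B,
        F (Bs + b + A * m + j * r) * F (Bs + b + A * m + j' * r) =
        ∑ j ∈ range J0, ∑ j' ∈ range J0, ∑ b ∈ range B, ∑ m ∈ range M,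
        F (Bs + b + A * m + j * r) * F (Bs + b + A * m + j' * r) := by
      rw [Finset.sum_comm]
      refine Finset.sum_congr rfl fun j _ => ?_
      rw [Finset.sum_comm]
      refine Finset.sum_congr rfl fun j' _ => ?_
      rw [Finset.sum_comm]
    rw [h4]
    have h5 : ∀ j ∈ range J0, ∀ j' ∈ range J0, ∑ b ∈ range B, ∑ m ∈ range M,
        F (Bs + b + A * m + j * r) * F (Bs + b + A * m + j' * r) ≤
        (if j = j' then (B : ℝ) * M else 0) + ε1 * (B * M) := by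
      intro j hj j' hj'
      have hpos : 0 ≤ ε1 * ((B : ℝ) * M) := by positivity
      split_ifs with h
      · have h6 : ∑ b ∈ range B, ∑ m ∈ range M,
            F (Bs + b + A * m + j * r) * F (Bs + b + A * m + j' * r) ≤
            ∑ _b ∈ range B, ∑ _m ∈ range M, (1 : ℝ) := by
          refine Finset.sum_le_sum fun b _ => Finset.sum_le_sum fun m _ => ?_
          refine le_trans (le_abs_self _) ?_
          rw [abs_mul]
          exact mul_le_one₀ (hF _) (abs_nonneg _) (hF _)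
        simp only [Finset.sum_const, Finset.card_range, nsmul_eq_mul, mul_one] at h6
        linarith
      · rw [zero_add]
        exact (le_abs_self _).trans (hoff j (Finset.mem_range.1 hj) j' (Finset.mem_range.1 hj') h)
    refine (Finset.sum_le_sum fun j hj => Finset.sum_le_sum fun j' hj' => h5 j hj j' hj').trans ?_
    refine le_of_eq ?_
    have h7 : ∀ j ∈ range J0, ∑ j' ∈ range J0,
        ((if j = j' then (B : ℝ) * M else 0) + ε1 * (B * M)) =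
        (B : ℝ) * M + J0 * (ε1 * (B * M)) := by
      intro j hj
      rw [Finset.sum_add_distrib, Finset.sum_ite_eq, if_pos hj, Finset.sum_const,
        Finset.card_range, nsmul_eq_mul]
    rw [Finset.sum_congr rfl h7, Finset.sum_const, Finset.card_range, nsmul_eq_mul]
    ring
  calc (M : ℝ) * ∑ m ∈ range M, (∑ b ∈ range B, F (Bs + b + A * m)) ^ 2
      ≤ (M : ℝ) * ∑ m ∈ range M, ((B : ℝ) / (J0 : ℝ) ^ 2 * (∑ j ∈ range J0, ∑ j' ∈ range J0,
        ∑ b ∈ range B, F (Bs + b + A * m + j * r) * F (Bs + b + A * m + j' * r)) +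
          2 * J0 * r * B) :=
        mul_le_mul_of_nonneg_left (Finset.sum_le_sum h2) (Nat.cast_nonneg M)
    _ = (M : ℝ) * ((B : ℝ) / (J0 : ℝ) ^ 2 * ∑ m ∈ range M, (∑ j ∈ range J0, ∑ j' ∈ range J0,
        ∑ b ∈ range B, F (Bs + b + A * m + j * r) * F (Bs + b + A * m + j' * r)) +
          M * (2 * J0 * r * B)) := by
        rw [Finset.sum_add_distrib, Finset.sum_const, Finset.card_range, nsmul_eq_mul,
          Finset.mul_sum]
    _ ≤ (M : ℝ) * ((B : ℝ) / (J0 : ℝ) ^ 2 * (J0 * (B * M) + (J0 : ℝ) ^ 2 * (ε1 * (B * M))) +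
          M * (2 * J0 * r * B)) := by
        gcongr
    _ = _ := by
        field_simp

theorem p5 (h0 : V0Stmt) (ha : P5aStmt) : P5Stmt := by
  intro q1 c d e f C' ε hq1 hc hd hε
  -- constants
  obtain ⟨J0, hJ0⟩ := exists_nat_gt (12 / ε ^ 2)
  have hε2 : 0 < ε ^ 2 := by positivity
  have hJpos : (0 : ℝ) < J0 := lt_trans (by positivity) hJ0
  have hJ1 : 1 ≤ J0 := by exact_mod_cast hJpos
  have hJinv : 1 / (J0 : ℝ) ≤ ε ^ 2 / 12 := by
    rw [div_le_div_iff₀ hJpos (by norm_num)]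
    rw [div_lt_iff₀ hε2] at hJ0
    linarith
  obtain ⟨ν1, hν1⟩ := ha q1 c d e f C' J0 (ε ^ 2 / 12) hq1 hc hd (by positivity)
  obtain ⟨P, hP⟩ := exists_nat_gt (24 * J0 / ε ^ 2 + 4 / ε)
  obtain ⟨ν2, hν2⟩ := p5_par (q1 + q1) (P + 1)
  refine ⟨max ν1 ν2, fun ν hν N hN1 hN2 => ?_⟩
  obtain ⟨hmu, haa, hbe, hbe2⟩ := hν2 ν ((le_max_right _ _).trans hν)
  have hP5a := hν1 ν ((le_max_left _ _).trans hν)
  set μ := mu (q1 + q1) ν with hμ
  set a := aa (q1 + q1) ν with haad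
  set β := be (q1 + q1) ν with hbed
  -- the size of `2 ^ μ`
  have hμP : 24 * J0 / ε ^ 2 + 4 / ε ≤ (2 : ℝ) ^ μ := by
    have h1 : (P : ℝ) ≤ (2 : ℝ) ^ P := by
      exact_mod_cast (Nat.lt_two_pow_self (n := P)).le
    have h2 : (2 : ℝ) ^ P ≤ 2 ^ μ := pow_le_pow_right₀ (by norm_num) (by omega)
    linarith
  have hμ1 : 24 * J0 / ε ^ 2 ≤ (2 : ℝ) ^ μ := by
    have : 0 ≤ 4 / ε := by positivity
    linarith
  have hμ2 : 4 / ε ≤ (2 : ℝ) ^ μ := by
    have : 0 ≤ 24 * J0 / ε ^ 2 := by positivity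
    linarith
  have h2a : 0 < 2 ^ a := by positivity
  have hνa : ν = a + μ := haa.symm
  set M := N / 2 ^ a with hM
  have hM1 : 2 ^ (μ - 1) ≤ M := by
    rw [hM, Nat.le_div_iff_mul_le h2a, ← pow_add]
    have h3 : μ - 1 + a = ν - 1 := by omega
    rw [h3]
    exact hN1
  have hM2 : M ≤ 2 ^ μ := by
    rw [hM]
    refine Nat.div_le_of_le_mul ?_
    rw [← pow_add, ← hνa]
    exact hN2
  -- the function
  set F : ℤ → ℝ := fun x => ∏ i, TW 0 (2 * ν + C') (cub c (d i) (e i) (f i) x) with hFdef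
  have hF1 : ∀ x, |F x| ≤ 1 := by
    intro x
    rw [hFdef]
    show |∏ i, TW 0 (2 * ν + C') (cub c (d i) (e i) (f i) x)| ≤ 1
    rw [Finset.abs_prod]
    refine le_of_eq (Finset.prod_eq_one fun i _ => p5_absTW _ _ _)
  have hsplit : ∑ n ∈ range N, F n = ∑ n ∈ range (M * 2 ^ a), F n +
      ∑ n ∈ range (N % 2 ^ a), F ((M * 2 ^ a + n : ℕ) : ℤ) := by
    have h3 : N = M * 2 ^ a + N % 2 ^ a := by
      rw [hM, mul_comm]
      exact (Nat.div_add_mod N (2 ^ a)).symm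
    conv_lhs => rw [h3]
    rw [Finset.sum_range_add]
  have hrest : |∑ n ∈ range (N % 2 ^ a), F ((M * 2 ^ a + n : ℕ) : ℤ)| ≤ ε / 2 * N := by
    have h3 : |∑ n ∈ range (N % 2 ^ a), F ((M * 2 ^ a + n : ℕ) : ℤ)| ≤ ((N % 2 ^ a : ℕ) : ℝ) := by
      refine (Finset.abs_sum_le_sum_abs _ _).trans ?_
      refine (Finset.sum_le_sum fun n _ => hF1 _).trans ?_
      rw [Finset.sum_const, Finset.card_range, nsmul_eq_mul, mul_one]
    have h4 : ((N % 2 ^ a : ℕ) : ℝ) ≤ (2 : ℝ) ^ a := by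
      exact_mod_cast (Nat.mod_lt N h2a).le
    have h5 : (2 : ℝ) ^ a * 2 ^ μ ≤ 2 * N := by
      have h6 : 2 ^ a * 2 ^ μ ≤ 2 * N := by
        rw [← pow_add, ← hνa]
        calc 2 ^ ν = 2 * 2 ^ (ν - 1) := by
              rw [← pow_succ']
              congr 1
              omega
          _ ≤ 2 * N := Nat.mul_le_mul_left _ hN1
      exact_mod_cast h6
    have h6 : (2 : ℝ) ^ a * (4 / ε) ≤ 2 * N :=
      (mul_le_mul_of_nonneg_left hμ2 (by positivity)).trans h5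
    rw [mul_div_assoc', div_le_iff₀ hε] at h6
    linarith
  -- the main part
  have hdec : ∑ n ∈ range (M * 2 ^ a), F n = ∑ s ∈ range (2 ^ (9 * μ)),
      ∑ b ∈ range (2 ^ β), ∑ m ∈ range M, F ((2 : ℤ) ^ β * s + b + (2 : ℤ) ^ a * m) := by
    rw [p5_sum_mul (fun n => F n) M (2 ^ a)]
    have h3 : 2 ^ a = 2 ^ (9 * μ) * 2 ^ β := by
      rw [← pow_add]
      congr 1
      omega
    have h4 : ∀ m : ℕ, ∑ j ∈ range (2 ^ a), F ((m * 2 ^ a + j : ℕ) : ℤ) =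
        ∑ s ∈ range (2 ^ (9 * μ)), ∑ b ∈ range (2 ^ β),
          F ((2 : ℤ) ^ β * s + b + (2 : ℤ) ^ a * m) := by
      intro m
      have h5 := p5_sum_mul (fun j => F ((m * 2 ^ a + j : ℕ) : ℤ)) (2 ^ (9 * μ)) (2 ^ β)
      rw [← h3] at h5
      rw [h5]
      refine Finset.sum_congr rfl fun s _ => Finset.sum_congr rfl fun b _ => ?_
      congr 1
      push_cast
      ring
    rw [Finset.sum_congr rfl fun m _ => h4 m, Finset.sum_comm]
    refine Finset.sum_congr rfl fun s _ => ?_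
    rw [Finset.sum_comm]
  have hs : ∀ s ∈ range (2 ^ (9 * μ)), |∑ b ∈ range (2 ^ β), ∑ m ∈ range M,
      F ((2 : ℤ) ^ β * s + b + (2 : ℤ) ^ a * m)| ≤ ε / 2 * (M * 2 ^ β) := by
    intro s hs
    obtain ⟨r, hr, hoff⟩ := hP5a M hM1 hM2 s (Finset.mem_range.1 hs)
    have h3 := p5_one h0 F hF1 J0 (2 ^ β) M r ((2 : ℤ) ^ β * s) ((2 : ℤ) ^ a) (ε ^ 2 / 12) hJ1
      (by
        intro j hj j' hj' hne
        have h4 := hoff j hj j' hj' hne
        have h5 : ∀ b m : ℕ, F ((2 : ℤ) ^ β * s + b + (2 : ℤ) ^ a * m + j * r) *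
            F ((2 : ℤ) ^ β * s + b + (2 : ℤ) ^ a * m + j' * r) =
            ∏ i, (TW 0 (2 * ν + C') (cub c (d i) (e i) (f i)
              ((2 : ℤ) ^ β * s + b + (2 : ℤ) ^ a * m + j * r)) *
            TW 0 (2 * ν + C') (cub c (d i) (e i) (f i)
              ((2 : ℤ) ^ β * s + b + (2 : ℤ) ^ a * m + j' * r))) := by
          intro b m
          rw [hFdef, Finset.prod_mul_distrib]
        simp only [h5]
        push_cast
        exact h4) (by positivity)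
    have h4 : (2 * J0 * r * ((2 ^ β : ℕ) : ℝ)) ≤ ((2 ^ β : ℕ) : ℝ) ^ 2 * (ε ^ 2 / 12) := by
      have h5 : (r : ℝ) * 2 ^ μ ≤ ((2 ^ β : ℕ) : ℝ) := by
        have h6 : r * 2 ^ μ ≤ 2 ^ β := by
          calc r * 2 ^ μ ≤ 2 ^ (8 * μ) * 2 ^ μ := Nat.mul_le_mul_right _ hr
            _ = 2 ^ (9 * μ) := by
                rw [← pow_add]
                congr 1
                omega
            _ ≤ 2 ^ β := Nat.pow_le_pow_right (by norm_num) hbe2
        exact_mod_cast h6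
      have h6 : (r : ℝ) * (24 * J0 / ε ^ 2) ≤ ((2 ^ β : ℕ) : ℝ) :=
        (mul_le_mul_of_nonneg_left hμ1 (Nat.cast_nonneg r)).trans h5
      have h7 : (2 * J0 * (r : ℝ)) ≤ ((2 ^ β : ℕ) : ℝ) * (ε ^ 2 / 12) := by
        have h8 : (r : ℝ) * (24 * J0 / ε ^ 2) * (ε ^ 2 / 12) = 2 * J0 * r := by
          field_simp
          ring
        rw [← h8]
        exact mul_le_mul_of_nonneg_right h6 (by positivity)
      calc (2 * J0 * r * ((2 ^ β : ℕ) : ℝ)) ≤ ((2 ^ β : ℕ) : ℝ) * (ε ^ 2 / 12) * ((2 ^ β : ℕ) : ℝ) :=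
            mul_le_mul_of_nonneg_right h7 (Nat.cast_nonneg _)
        _ = _ := by ring
    have h5 : (∑ b ∈ range (2 ^ β), ∑ m ∈ range M,
        F ((2 : ℤ) ^ β * s + b + (2 : ℤ) ^ a * m)) ^ 2 ≤ (ε / 2 * (M * 2 ^ β)) ^ 2 := by
      refine h3.trans ?_
      have h6 : ((M : ℝ) * ((2 ^ β : ℕ) : ℝ)) ^ 2 * (1 / J0 + ε ^ 2 / 12) ≤
          ((M : ℝ) * ((2 ^ β : ℕ) : ℝ)) ^ 2 * (ε ^ 2 / 12 + ε ^ 2 / 12) :=
        mul_le_mul_of_nonneg_left (by linarith) (sq_nonneg _)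
      have h7 : (M : ℝ) ^ 2 * (2 * J0 * r * ((2 ^ β : ℕ) : ℝ)) ≤
          (M : ℝ) ^ 2 * (((2 ^ β : ℕ) : ℝ) ^ 2 * (ε ^ 2 / 12)) :=
        mul_le_mul_of_nonneg_left h4 (sq_nonneg _)
      push_cast at h6 h7 ⊢
      nlinarith
    exact abs_le_of_sq_le_sq h5 (by positivity)
  have hmain : |∑ n ∈ range (M * 2 ^ a), F n| ≤ ε / 2 * N := by
    rw [hdec]
    refine (Finset.abs_sum_le_sum_abs _ _).trans ((Finset.sum_le_sum hs).trans ?_)
    rw [Finset.sum_const, Finset.card_range, nsmul_eq_mul]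
    have h3 : M * (2 ^ (9 * μ) * 2 ^ β) ≤ N := by
      have h4 : 2 ^ (9 * μ) * 2 ^ β = 2 ^ a := by
        rw [← pow_add]
        congr 1
        omega
      rw [h4, hM]
      exact Nat.div_mul_le_self N (2 ^ a)
    have h5 : (M : ℝ) * ((2 : ℝ) ^ (9 * μ) * 2 ^ β) ≤ N := by exact_mod_cast h3
    push_cast
    calc (2 : ℝ) ^ (9 * μ) * (ε / 2 * (M * 2 ^ β)) = ε / 2 * (M * (2 ^ (9 * μ) * 2 ^ β)) := by ring
      _ ≤ ε / 2 * N := mul_le_mul_of_nonneg_left h5 (by positivity)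
  show |∑ n ∈ range N, F n| ≤ ε * N
  rw [hsplit]
  refine (abs_add_le _ _).trans ?_
  linarith

end Pool.Agent.H9.TC
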