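import Pool.Agent.H9.TC.Main0
import Pool.Agent.H9.TC.Del
import Pool.Agent.H9.TC.P5a
import Pool.Agent.H9.TC.P5

/-!
Project TC: Theorem A without hypotheses.
-/

namespace Pool.Agent.H9.TC

theorem thmAStmt : ThmAStmt := thmA v0 (p5 v0 (p5a coreStmt dd del)) cut

end Pool.Agent.H9.TC
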