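import Pool.Agent.H9.TC.NCom

/-!
Project TC (MP_b6022c_nt), row TC-14.
-/

namespace Pool.Agent.H9.TC

open Finset

theorem n2 (h0 : M0Stmt) (hq : QStmt) (hg : GStmt) : N2Stmt := by
  intro q α L g9 hq1 hα hL
  refine ⟨(4 * 4 ^ (L + g9) + 1) * (4 * 2 ^ (L + g9)) * (1 + 2 + q),
    α + q + L + 3 * g9 + 2 * (L + g9) + 20, ?_⟩
  intro p hp v uf β hv hvuf hβ lam kap is
  have hp1 : 1 ≤ p := by omega
  have e1 : (12 * q + 12) * p = 12 * (q * p) + 12 * p := by ring
  have e2 : (16 * q + 16) * p = 16 * (q * p) + 16 * p := by ring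
  have e3 : (2 * q + 2) * p = 2 * (q * p) + 2 * p := by ring
  have e4 : (8 * q + 4) * p = 8 * (q * p) + 4 * p := by ring
  have e5 : (4 * q + 2) * p = 4 * (q * p) + 2 * p := by ring
  have e6 : (2 * q + 3) * p = 2 * (q * p) + 3 * p := by ring
  have hvp : 2 * p ≤ v := by omega
  have hcard : (univ : Finset (Fin q)).card = q := by
    rw [Finset.card_univ, Fintype.card_fin]
  apply ncom h0 hg q q le_rfl hq1 univ v (2 ^ (v - 2 * p)) L g9 2 (by norm_num) p uf β
    (by omega) Nat.one_le_two_pow (nWv v p hp1) (by omega) hL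
  · rw [hcard, nW v p hvp, ← pow_mul]
    apply le_of_eq
    congr 1
    ring
  · rw [hcard]
    exact ntail q v p hvp q (Nat.cast_nonneg q)
  · intro K hK hKL t ht htT a ha
    have hs := nsum (univ : Finset (Fin q)) a (2 ^ ((2 * q + 3) * p)) (by positivity) ha
    have hK2 := nK L g9 K hK
    obtain ⟨d, hd⟩ := Nat.exists_eq_add_of_le (show v ≤ uf + L by omega)
    have hdL : L ≤ d := by omega
    apply nbound hq q p univ α v (uf + L) (d + (2 * q + 3) * p + q + (2 * (L + g9) + 1)) β hα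
      lam kap a is t (2 ^ d * (∑ i, a i) + K) ((K : ℝ) / 2 ^ (uf + L)) ?_ ?_ ?_ ht htT ?_ ?_
      (fun b => (K : ℝ) * (sig α lam kap b is : ℝ) / 2 ^ (uf + L)) (fun b => by ring)
    · rw [hd]
      push_cast
      rw [pow_add]
      field_simp
    · intro hc
      apply hKL
      have h1 : K = 2 ^ d * (-∑ i, a i) := by linarith
      rw [h1]
      exact (pow_dvd_pow 2 hdL).mul_right _
    · have hq2 : (q : ℤ) ≤ 2 ^ q := by exact_mod_cast (Nat.lt_two_pow_self).le
      have h1 : |2 ^ d * (∑ i, a i) + K| ≤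
          2 ^ d * (2 ^ q * 2 ^ ((2 * q + 3) * p)) + 2 ^ (2 * (L + g9) + 1) := by
        refine (abs_add_le _ _).trans (add_le_add ?_ hK2)
        rw [abs_mul, abs_of_nonneg (by positivity : (0 : ℤ) ≤ 2 ^ d)]
        have h3 : |∑ i, a i| ≤ 2 ^ q * 2 ^ ((2 * q + 3) * p) :=
          hs.trans (mul_le_mul_of_nonneg_right hq2 (by positivity))
        exact mul_le_mul_of_nonneg_left h3 (by positivity)
      have h2 : ∀ x y : ℤ, 2 ≤ x → 2 ≤ y → x + y ≤ x * y := by
        intro x y hx hy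
        nlinarith
      refine h1.trans ?_
      have e7 : (2 : ℤ) ^ (d + (2 * q + 3) * p + q + (2 * (L + g9) + 1)) =
          2 ^ d * (2 ^ q * 2 ^ ((2 * q + 3) * p)) * 2 ^ (2 * (L + g9) + 1) := by
        rw [pow_add _ _ (2 * (L + g9) + 1), pow_add _ _ q, pow_add _ d]
        ring
      rw [e7]
      have h3 : (2 : ℤ) ≤ 2 ^ d * (2 ^ q * 2 ^ ((2 * q + 3) * p)) := by
        have h4 : (2 : ℤ) ≤ 2 ^ d := by
          calc (2 : ℤ) = 2 ^ 1 := by norm_num
            _ ≤ 2 ^ d := pow_le_pow_right₀ (by norm_num) (by omega)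
        have h5 : (1 : ℤ) ≤ 2 ^ q * 2 ^ ((2 * q + 3) * p) := by
          rw [← pow_add]
          exact one_le_pow₀ (by norm_num)
        nlinarith
      have h6 : (2 : ℤ) ≤ 2 ^ (2 * (L + g9) + 1) := by
        calc (2 : ℤ) = 2 ^ 1 := by norm_num
          _ ≤ _ := pow_le_pow_right₀ (by norm_num) (by omega)
      exact h2 _ _ h3 h6
    · omega
    · omega

end Pool.Agent.H9.TC
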