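import Pool.Agent.H9.TC.NCom

/-!
Project TC (MP_b6022c_nt), row TC-15.
-/

namespace Pool.Agent.H9.TC

open Finset

theorem n3 (h0 : M0Stmt) (hq : QStmt) (hg : GStmt) : N3Stmt := by
  intro q α L g9 hq1 hα hL
  refine ⟨(4 * 4 ^ (L + g9) + 1) * (4 * 2 ^ (L + g9)) * (1 + 2 + q),
    α + q + L + 3 * g9 + 2 * (L + g9) + 20, ?_⟩
  intro p hp v uf β huf hv hβ lam kap is
  have hp1 : 1 ≤ p := by omega
  have e1 : (12 * q + 12) * p = 12 * (q * p) + 12 * p := by ring
  have e2 : (16 * q + 16) * p = 16 * (q * p) + 16 * p := by ring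
  have e3 : (2 * q + 2) * p = 2 * (q * p) + 2 * p := by ring
  have e4 : (8 * q + 4) * p = 8 * (q * p) + 4 * p := by ring
  have e5 : (4 * q + 2) * p = 4 * (q * p) + 2 * p := by ring
  have e6 : (2 * q + 3) * p = 2 * (q * p) + 3 * p := by ring
  have e8 : (2 * q + 4) * p = 2 * (q * p) + 4 * p := by ring
  have hvp : 2 * p ≤ v := by omega
  have hcard : (univ : Finset (Fin q)).card = q := by
    rw [Finset.card_univ, Fintype.card_fin]
  apply ncom h0 hg q q le_rfl hq1 univ v (2 ^ (v - 2 * p)) L g9 2 (by norm_num) p uf β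
    (by omega) Nat.one_le_two_pow (nWv v p hp1) (by omega) hL
  · rw [hcard, nW v p hvp, ← pow_mul]
    apply le_of_eq
    congr 1
    ring
  · rw [hcard]
    exact ntail q v p hvp q (Nat.cast_nonneg q)
  · intro K hK hKL t ht htT a ha
    have hs := nsum (univ : Finset (Fin q)) a (2 ^ ((2 * q + 3) * p)) (by positivity) ha
    have hK2 := nK L g9 K hK
    have hK0 : K ≠ 0 := by
      rintro rfl
      exact hKL (dvd_zero _)
    obtain ⟨d, hd⟩ := Nat.exists_eq_add_of_le (show uf + L ≤ v by omega)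
    have hdL : (2 * q + 4) * p ≤ d := by omega
    have hAs : |∑ i, a i| < 2 ^ d := by
      have h1 : (q : ℤ) < 2 ^ p := by
        have h2 : q < 2 ^ q := Nat.lt_two_pow_self
        have h3 : 2 ^ q ≤ 2 ^ p := Nat.pow_le_pow_right (by norm_num) (by omega)
        exact_mod_cast lt_of_lt_of_le h2 h3
      calc |∑ i, a i| ≤ q * 2 ^ ((2 * q + 3) * p) := hs
        _ < 2 ^ p * 2 ^ ((2 * q + 3) * p) := by
            apply mul_lt_mul_of_pos_right h1 (by positivity)
        _ = 2 ^ ((2 * q + 4) * p) := by rw [← pow_add]; congr 1; ring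
        _ ≤ 2 ^ d := pow_le_pow_right₀ (by norm_num) hdL
    apply nbound hq q p univ α v v (d + (2 * (L + g9) + 2)) β hα
      lam kap a is t ((∑ i, a i) + 2 ^ d * K) ((K : ℝ) / 2 ^ (uf + L)) ?_ ?_ ?_ ht htT ?_ ?_
      (fun b => (K : ℝ) * (sig α lam kap b is : ℝ) / 2 ^ (uf + L)) (fun b => by ring)
    · rw [hd]
      push_cast
      rw [pow_add]
      field_simp
    · intro hc
      have h1 : (∑ i, a i) = 2 ^ d * (-K) := by linarith
      rw [h1, abs_mul, abs_of_nonneg (by positivity : (0 : ℤ) ≤ 2 ^ d), abs_neg] at hAs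
      have h2 : 1 ≤ |K| := Int.one_le_abs hK0
      have h3 : (0 : ℤ) < 2 ^ d := by positivity
      nlinarith
    · have h1 : |(∑ i, a i) + 2 ^ d * K| ≤ 2 ^ d + 2 ^ d * 2 ^ (2 * (L + g9) + 1) := by
        refine (abs_add_le _ _).trans (add_le_add hAs.le ?_)
        rw [abs_mul, abs_of_nonneg (by positivity : (0 : ℤ) ≤ 2 ^ d)]
        exact mul_le_mul_of_nonneg_left hK2 (by positivity)
      refine h1.trans ?_
      have h2 : (1 : ℤ) ≤ 2 ^ (2 * (L + g9) + 1) := one_le_pow₀ (by norm_num)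
      have h3 : (0 : ℤ) < 2 ^ d := by positivity
      have h4 : (2 : ℤ) ^ (d + (2 * (L + g9) + 2)) = 2 ^ d * (2 * 2 ^ (2 * (L + g9) + 1)) := by
        rw [pow_add]
        congr 1
        rw [pow_succ 2 (2 * (L + g9) + 1)]
        ring
      rw [h4]
      nlinarith
    · omega
    · omega

end Pool.Agent.H9.TC
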