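import Pool.Agent.H9.TC.NCom

/-!
Project TC (MP_b6022c_nt), row TC-16.
-/

namespace Pool.Agent.H9.TC

open Finset

theorem n4 (h0 : M0Stmt) (hq : QStmt) (hg : GStmt) : N4Stmt := by
  intro q α L g9 hq1 hα hL
  refine ⟨(4 * 4 ^ (L + g9) + 1) * (4 * 2 ^ (L + g9)) * (1 + 2 + q),
    α + q + L + 3 * g9 + 2 * (L + g9) + 20, ?_⟩
  intro p hp v1 uf β huf hβ lam kap is
  have hp1 : 1 ≤ p := by omega
  have e1 : (12 * q + 12) * p = 12 * (q * p) + 12 * p := by ring
  have e2 : (16 * q + 16) * p = 16 * (q * p) + 16 * p := by ring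
  have e3 : (2 * q + 2) * p = 2 * (q * p) + 2 * p := by ring
  have e4 : (8 * q + 4) * p = 8 * (q * p) + 4 * p := by ring
  have e5 : (4 * q + 2) * p = 4 * (q * p) + 2 * p := by ring
  have e6 : (2 * q + 3) * p = 2 * (q * p) + 3 * p := by ring
  apply ncom h0 hg q q le_rfl hq1 (∅ : Finset (Fin q)) 1 1 L g9 2 (by norm_num) p uf β
    le_rfl le_rfl (by norm_num) (by omega) hL
  · rw [Finset.card_empty, pow_zero]
    exact pow_le_one₀ (by norm_num) (by norm_num)
  · rw [Finset.card_empty]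
    simp only [Nat.cast_zero, zero_mul, zero_div]
    positivity
  · intro K hK hKL t ht htT a ha
    have hK2 := nK L g9 K hK
    have hK0 : K ≠ 0 := by
      rintro rfl
      exact hKL (dvd_zero _)
    apply nbound hq q p (∅ : Finset (Fin q)) α 1 (uf + L) (v1 + (2 * (L + g9) + 1)) β hα
      lam kap a is t (2 ^ v1 * K) ((K : ℝ) * 2 ^ v1 / 2 ^ (uf + L)) ?_ ?_ ?_ ht htT ?_ ?_
      (fun b => (K : ℝ) * (((2 : ℤ) ^ v1 * sig α lam kap b is : ℤ) : ℝ) / 2 ^ (uf + L))
      (fun b => by push_cast; ring)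
    · simp only [Finset.sum_empty, Int.cast_zero, zero_div, zero_add]
      push_cast
      ring
    · exact mul_ne_zero (by positivity) hK0
    · rw [abs_mul, abs_of_nonneg (by positivity : (0 : ℤ) ≤ 2 ^ v1), pow_add]
      exact mul_le_mul_of_nonneg_left hK2 (by positivity)
    · omega
    · omega

end Pool.Agent.H9.TC
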