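import Pool.Agent.H9.TC.NCom

/-!
Project TC (MP_b6022c_nt), row TC-17.
-/

namespace Pool.Agent.H9.TC

open Finset

theorem n5 (h0 : M0Stmt) (hq : QStmt) (hl : QlStmt) (hg : GStmt) : N5Stmt := by
  intro q α L g9 hq1 hα hL
  refine ⟨(4 * 4 ^ (L + g9) + 1) * (4 * 2 ^ (L + g9)) * (1 + 2 + q),
    α + q + L + 3 * g9 + 2 * (L + g9) + 20, ?_⟩
  intro p hp uf β Λ huf hβ hβ2 hΛ lam kap is i' hne hΛ2
  have hp1 : 1 ≤ p := by omega
  have e1 : (12 * q + 12) * p = 12 * (q * p) + 12 * p := by ring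
  have e2 : (16 * q + 16) * p = 16 * (q * p) + 16 * p := by ring
  have e3 : (2 * q + 2) * p = 2 * (q * p) + 2 * p := by ring
  have e4 : (8 * q + 4) * p = 8 * (q * p) + 4 * p := by ring
  have e5 : (4 * q + 2) * p = 4 * (q * p) + 2 * p := by ring
  have e6 : (2 * q + 3) * p = 2 * (q * p) + 3 * p := by ring
  have e9 : (2 * q + 1) * p = 2 * (q * p) + p := by ring
  have e10 : (2 * 1 + 1) * p = 3 * p := by ring
  have hqp : p ≤ q * p := Nat.le_mul_of_pos_left p (by omega)
  have hvp : 2 * p ≤ uf + L := by omega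
  have hx : (1 / 2 : ℝ) ^ ((2 * q + 1) * p) ≤ (1 / 2) ^ ((2 * 1 + 1) * p) :=
    pow_le_pow_of_le_one (by norm_num) (by norm_num) (by omega)
  apply ncom h0 hg q 1 hq1 hq1 {i'} (uf + L) (2 ^ (uf + L - 2 * p)) L g9 2 (by norm_num) p uf β
    (by omega) Nat.one_le_two_pow (nWv (uf + L) p hp1) (by omega) hL
  · rw [Finset.card_singleton, nW (uf + L) p hvp, pow_one]
  · rw [Finset.card_singleton, Nat.cast_one]
    refine (ntail q (uf + L) p hvp 1 zero_le_one).trans ?_
    have hq1' : (1 : ℝ) ≤ q := by exact_mod_cast hq1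
    exact mul_le_mul hq1' hx (by positivity) (by positivity)
  · intro K hK hKL t ht htT a ha
    have hK2 := nK L g9 K hK
    have hK0 : K ≠ 0 := by
      rintro rfl
      exact hKL (dvd_zero _)
    have ha' : |a i'| ≤ 2 ^ ((2 * q + 3) * p) := ha i' (Finset.mem_singleton_self i')
    by_cases hN : a i' + K = 0
    · -- the linear case
      have hN1 : ¬ (2 : ℤ) ^ (uf + L) ∣ t * K * (lam is - lam i') := by
        intro hdvd
        have hne0 : t * K * (lam is - lam i') ≠ 0 :=
          mul_ne_zero (mul_ne_zero ht hK0) (sub_ne_zero.2 hne)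
        have h5 := Int.le_of_dvd (abs_pos.2 hne0) ((dvd_abs _ _).2 hdvd)
        have h9 : 0 < |K| := abs_pos.2 hK0
        have h10 : 0 < |lam is - lam i'| := abs_pos.2 (sub_ne_zero.2 hne)
        have h6 : |t * K * (lam is - lam i')| <
            2 ^ ((2 * q + 2) * p + (2 * (L + g9) + 1) + Λ) := by
          rw [abs_mul, abs_mul, pow_add, pow_add]
          calc |t| * |K| * |lam is - lam i'|
              < 2 ^ ((2 * q + 2) * p) * |K| * |lam is - lam i'| := by gcongr
            _ ≤ 2 ^ ((2 * q + 2) * p) * 2 ^ (2 * (L + g9) + 1) * 2 ^ Λ := by gcongr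
        have h7 : (2 : ℤ) ^ ((2 * q + 2) * p + (2 * (L + g9) + 1) + Λ) ≤ 2 ^ (uf + L) :=
          pow_le_pow_right₀ (by norm_num) (by omega)
        omega
      have h4 : ∀ b : ℕ, ee ((t : ℝ) * ((∑ i ∈ {i'}, (a i : ℝ) * (sig α lam kap b i : ℝ)) /
          2 ^ (uf + L) + (K : ℝ) * (sig α lam kap b is : ℝ) / 2 ^ (uf + L))) =
          ee (((t * K * (lam is - lam i') : ℤ) : ℝ) * (b : ℝ) / 2 ^ (uf + L) +
            (t : ℝ) * K * (kap is - kap i') / 2 ^ (uf + L)) := by
        intro b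
        congr 1
        rw [Finset.sum_singleton]
        have h5 : (a i' : ℝ) = -K := by
          have : a i' = -K := by omega
          rw [this]
          push_cast
          ring
        rw [h5]
        unfold sig
        push_cast
        ring
      simp only [h4]
      refine (hl _ (uf + L) (2 ^ β) _ hN1).trans ?_
      have h8 : (1 : ℝ) ≤ 2 ^ (β - (uf + L)) * (1 / 2) ^ ((2 * 1 + 1) * p) := by
        have h9 : (2 : ℝ) ^ (β - (uf + L)) = 2 ^ ((2 * 1 + 1) * p) *
            2 ^ (β - (uf + L) - (2 * 1 + 1) * p) := by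
          rw [← pow_add]
          congr 1
          omega
        rw [h9]
        have h10 : (2 : ℝ) ^ ((2 * 1 + 1) * p) * (1 / 2) ^ ((2 * 1 + 1) * p) = 1 := by
          rw [← mul_pow]
          norm_num
        have h11 : (1 : ℝ) ≤ 2 ^ (β - (uf + L) - (2 * 1 + 1) * p) :=
          one_le_pow₀ (by norm_num)
        calc (1 : ℝ) ≤ 2 ^ (β - (uf + L) - (2 * 1 + 1) * p) := h11
          _ = ((2 : ℝ) ^ ((2 * 1 + 1) * p) * (1 / 2) ^ ((2 * 1 + 1) * p)) *
              2 ^ (β - (uf + L) - (2 * 1 + 1) * p) := by rw [h10, one_mul]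
          _ = _ := by ring
      have h12 : (2 : ℝ) ^ β = 2 ^ (uf + L) * 2 ^ (β - (uf + L)) := by
        rw [← pow_add]
        congr 1
        omega
      rw [h12]
      have h13 : (0 : ℝ) < 2 ^ (uf + L) := by positivity
      calc (2 : ℝ) ^ (uf + L) ≤ 2 ^ (uf + L) *
            (2 * (2 ^ (β - (uf + L)) * (1 / 2) ^ ((2 * 1 + 1) * p))) := by nlinarith
        _ = _ := by ring
    · -- the quadratic case
      have h1 : ‖∑ b ∈ range (2 ^ β), ee ((t : ℝ) * ((∑ i ∈ {i'}, (a i : ℝ) *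
          (sig α lam kap b i : ℝ)) / 2 ^ (uf + L) + (K : ℝ) * (sig α lam kap b is : ℝ) /
          2 ^ (uf + L)))‖ ≤ 2 * (1 / 2) ^ ((2 * q + 1) * p) * 2 ^ β := by
        apply nbound hq q p {i'} α (uf + L) (uf + L) ((2 * q + 3) * p + (2 * (L + g9) + 2)) β hα
          lam kap a is t (a i' + K) ((K : ℝ) / 2 ^ (uf + L)) ?_ hN ?_ ht htT ?_ ?_
          (fun b => (K : ℝ) * (sig α lam kap b is : ℝ) / 2 ^ (uf + L)) (fun b => by ring)
        · rw [Finset.sum_singleton]
          push_cast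
          ring
        · refine (abs_add_le _ _).trans ((add_le_add ha' hK2).trans ?_)
          have h2 : (1 : ℤ) ≤ 2 ^ (2 * (L + g9) + 1) := one_le_pow₀ (by norm_num)
          have h3 : (1 : ℤ) ≤ 2 ^ ((2 * q + 3) * p) := one_le_pow₀ (by norm_num)
          have h4 : (2 : ℤ) ^ ((2 * q + 3) * p + (2 * (L + g9) + 2)) =
              2 ^ ((2 * q + 3) * p) * (2 * 2 ^ (2 * (L + g9) + 1)) := by
            rw [pow_add]
            congr 1
            rw [pow_succ 2 (2 * (L + g9) + 1)]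
            ring
          rw [h4]
          nlinarith
        · omega
        · omega
      refine h1.trans ?_
      have h2 : (0 : ℝ) < 2 ^ β := by positivity
      gcongr

end Pool.Agent.H9.TC
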