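import Pool.Agent.H9.TC.Stm

/-!
Project TC (MP_b6022c_nt), row TC-8: positivity of `PhiR`.
-/

set_option autoImplicit false

namespace Pool.Agent.H9.TC

open Finset

theorem pos_ee_add (x y : ℝ) : ee (x + y) = ee x * ee y := by
  unfold ee
  rw [← Complex.exp_add]
  congr 1
  push_cast
  ring

theorem pos_ee_zero : ee 0 = 1 := by
  unfold ee
  simp

theorem pos_ee_conj (x : ℝ) : (starRingEnd ℂ) (ee x) = ee (-x) := by
  unfold ee
  rw [← Complex.exp_conj]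
  congr 1
  rw [map_mul, Complex.conj_ofReal, Complex.conj_I]
  push_cast
  ring

theorem pos_ee_re (x : ℝ) : (ee x).re = Real.cos (2 * Real.pi * x) := by
  unfold ee
  rw [Complex.exp_ofReal_mul_I_re]

theorem pos_ee_sum {ι : Type*} (s : Finset ι) (f : ι → ℝ) : ee (∑ i ∈ s, f i) = ∏ i ∈ s, ee (f i) := by
  classical
  induction s using Finset.induction_on with
  | empty => rw [Finset.sum_empty, Finset.prod_empty, pos_ee_zero]
  | insert a s ha ih => rw [Finset.sum_insert ha, Finset.prod_insert ha, pos_ee_add, ih]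

/-- the index set of the expansion -/
noncomputable def posI {q : ℕ} (S : Finset (Fin q)) (v : ℕ) : Finset ({i // i ∈ S} → ℤ) :=
  Fintype.piFinset (fun _ => reps v)

/-- the weight of a term of the expansion -/
noncomputable def posW {q : ℕ} (S : Finset (Fin q)) (v W : ℕ) (a : {i // i ∈ S} → ℤ) : ℝ :=
  ∏ i, Fh v W (a i)

/-- the frequency of a term of the expansion -/
noncomputable def posT {q : ℕ} (S : Finset (Fin q)) (v : ℕ) (σ : Fin q → ℤ)
    (a : {i // i ∈ S} → ℤ) : ℝ := (∑ i, (a i : ℝ) * (σ i.1 : ℝ)) / 2 ^ v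

/-- expansion of the product of the kernels -/
theorem pos_expand (h2 : F2Stmt) {q : ℕ} (S : Finset (Fin q)) (v W : ℕ) (hv : 1 ≤ v) (hW : 1 ≤ W)
    (hWv : W ≤ 2 ^ (v - 1)) (σ : Fin q → ℤ) (t : ℤ) :
    ((∏ i ∈ S, Fj v W (t * σ i) : ℝ) : ℂ) =
      ∑ a ∈ posI S v, (posW S v W a : ℂ) * ee ((t : ℝ) * posT S v σ a) := by
  rw [← Finset.prod_coe_sort S (fun i => Fj v W (t * σ i))]
  push_cast
  have h1 : ∀ i : {i // i ∈ S}, (Fj v W (t * σ i.1) : ℂ) =
      ∑ a ∈ reps v, (Fh v W a : ℂ) * ee ((a : ℝ) * ((t * σ i.1 : ℤ) : ℝ) / 2 ^ v) :=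
    fun i => (h2 v W hv hW hWv).1 (t * σ i.1)
  rw [Finset.prod_congr rfl fun i _ => h1 i, Finset.prod_univ_sum]
  refine Finset.sum_congr rfl fun a _ => ?_
  rw [Finset.prod_mul_distrib]
  congr 1
  · unfold posW
    push_cast
    rfl
  · rw [← pos_ee_sum]
    congr 1
    unfold posT
    rw [Finset.sum_div, Finset.mul_sum]
    refine Finset.sum_congr rfl fun i _ => ?_
    push_cast
    ring

theorem pos_sq (T : ℕ) (y : ℝ) :
    (∑ t1 ∈ range T, ∑ t2 ∈ range T, ee (((t1 : ℝ) - (t2 : ℝ)) * y)).re =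
      ‖∑ t ∈ range T, ee ((t : ℝ) * y)‖ ^ 2 := by
  have h1 : ∑ t1 ∈ range T, ∑ t2 ∈ range T, ee (((t1 : ℝ) - (t2 : ℝ)) * y) =
      (∑ t ∈ range T, ee ((t : ℝ) * y)) * (starRingEnd ℂ) (∑ t ∈ range T, ee ((t : ℝ) * y)) := by
    rw [map_sum, Finset.sum_mul_sum]
    refine Finset.sum_congr rfl fun t1 _ => Finset.sum_congr rfl fun t2 _ => ?_
    rw [pos_ee_conj, ← pos_ee_add]
    congr 1
    ring
  rw [h1, Complex.mul_conj, Complex.ofReal_re, Complex.normSq_eq_norm_sq]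

/-- `PhiR` as a sum of squares -/
theorem pos_eq (h2 : F2Stmt) {q : ℕ} (S : Finset (Fin q)) (v W T : ℕ) (hv : 1 ≤ v) (hW : 1 ≤ W)
    (hWv : W ≤ 2 ^ (v - 1)) (σ : Fin q → ℤ) (θ : ℝ) :
    PhiR S v W T σ θ = ∑ a ∈ posI S v, posW S v W a *
      ‖∑ t ∈ range T, ee ((t : ℝ) * (posT S v σ a + θ))‖ ^ 2 := by
  have h1 : PhiR S v W T σ θ = (∑ t1 ∈ range T, ∑ t2 ∈ range T,
      ((∏ i ∈ S, Fj v W (((t1 : ℤ) - (t2 : ℤ)) * σ i) : ℝ) : ℂ) *
        ee (((t1 : ℝ) - (t2 : ℝ)) * θ)).re := by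
    unfold PhiR
    rw [Complex.re_sum]
    refine Finset.sum_congr rfl fun t1 _ => ?_
    rw [Complex.re_sum]
    refine Finset.sum_congr rfl fun t2 _ => ?_
    rw [Complex.re_ofReal_mul, pos_ee_re]
  have h3 : ∑ t1 ∈ range T, ∑ t2 ∈ range T,
      ((∏ i ∈ S, Fj v W (((t1 : ℤ) - (t2 : ℤ)) * σ i) : ℝ) : ℂ) *
        ee (((t1 : ℝ) - (t2 : ℝ)) * θ) =
      ∑ a ∈ posI S v, (posW S v W a : ℂ) * ∑ t1 ∈ range T, ∑ t2 ∈ range T,
        ee (((t1 : ℝ) - (t2 : ℝ)) * (posT S v σ a + θ)) := by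
    have h4 : ∀ t1 t2 : ℕ, ((∏ i ∈ S, Fj v W (((t1 : ℤ) - (t2 : ℤ)) * σ i) : ℝ) : ℂ) *
        ee (((t1 : ℝ) - (t2 : ℝ)) * θ) = ∑ a ∈ posI S v, (posW S v W a : ℂ) *
        ee (((t1 : ℝ) - (t2 : ℝ)) * (posT S v σ a + θ)) := by
      intro t1 t2
      rw [pos_expand h2 S v W hv hW hWv σ ((t1 : ℤ) - (t2 : ℤ)), Finset.sum_mul]
      refine Finset.sum_congr rfl fun a _ => ?_
      rw [mul_assoc, ← pos_ee_add]
      congr 2
      push_cast
      ring
    simp only [h4]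
    have h5 : ∀ t1 : ℕ, ∑ t2 ∈ range T, ∑ a ∈ posI S v, (posW S v W a : ℂ) *
        ee (((t1 : ℝ) - (t2 : ℝ)) * (posT S v σ a + θ)) =
        ∑ a ∈ posI S v, ∑ t2 ∈ range T, (posW S v W a : ℂ) *
        ee (((t1 : ℝ) - (t2 : ℝ)) * (posT S v σ a + θ)) := fun t1 => Finset.sum_comm
    simp only [h5]
    rw [Finset.sum_comm]
    refine Finset.sum_congr rfl fun a _ => ?_
    rw [Finset.mul_sum]
    exact Finset.sum_congr rfl fun t1 _ => (Finset.mul_sum _ _ _).symm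
  rw [h1, h3, Complex.re_sum]
  refine Finset.sum_congr rfl fun a _ => ?_
  rw [Complex.re_ofReal_mul, pos_sq]

theorem pos (h1 : F1Stmt) (h2 : F2Stmt) : PStmt := by
  intro q S v W T σ θ hv hW hWv
  obtain ⟨-, hF0, -, -, -, hFh, hFh0⟩ := h1 v W hv hW hWv
  have hw : ∀ a, 0 ≤ posW S v W a := fun a => Finset.prod_nonneg fun i _ => hFh _
  refine ⟨?_, ?_, ?_⟩
  · rw [pos_eq h2 S v W T hv hW hWv]
    exact Finset.sum_nonneg fun a _ => mul_nonneg (hw a) (sq_nonneg _)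
  · unfold PhiR
    refine Finset.sum_le_sum fun t1 _ => Finset.sum_le_sum fun t2 _ => ?_
    refine mul_le_mul_of_nonneg_left ?_ (Finset.prod_nonneg fun i _ => hF0 _)
    rw [mul_zero, mul_zero, Real.cos_zero]
    exact Real.cos_le_one _
  · rw [pos_eq h2 S v W T hv hW hWv]
    have h0 : (fun _ => 0 : {i // i ∈ S} → ℤ) ∈ posI S v := by
      unfold posI reps
      rw [Fintype.mem_piFinset]
      intro i
      rw [Finset.mem_Ioc]
      have h3 : (0 : ℤ) < 2 ^ (v - 1) := by positivity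
      exact ⟨by linarith, h3.le⟩
    refine le_trans (le_of_eq ?_) (Finset.single_le_sum
      (f := fun a => posW S v W a * ‖∑ t ∈ range T, ee ((t : ℝ) * (posT S v σ a + 0))‖ ^ 2)
      (fun a _ => mul_nonneg (hw a) (sq_nonneg _)) h0)
    have h3 : posT S v σ (fun _ => 0) = 0 := by
      unfold posT
      simp
    have h4 : posW S v W (fun _ => 0) = ((W : ℝ) / 2 ^ v) ^ S.card := by
      unfold posW
      rw [Finset.prod_const, hFh0, Finset.card_univ, Fintype.card_coe]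
    show _ = posW S v W (fun _ => 0) *
      ‖∑ t ∈ range T, ee ((t : ℝ) * (posT S v σ (fun _ => 0) + 0))‖ ^ 2
    rw [h3, h4]
    simp only [add_zero, mul_zero, pos_ee_zero, Finset.sum_const, Finset.card_range,
      nsmul_eq_mul, mul_one, Complex.norm_natCast]
    ring

end Pool.Agent.H9.TC
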