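import Pool.Agent.H9.TC.Stm

/-!
Project TC (MP_b6022c_nt), row TC-12: quadratic exponential sums whose denominators are powers
of two.
-/

namespace Pool.Agent.H9.TC

open Finset

namespace QAux

theorem ee_add (x y : ℝ) : ee (x + y) = ee x * ee y := by
  unfold ee
  rw [← Complex.exp_add]
  congr 1
  push_cast
  ring

theorem norm_ee (x : ℝ) : ‖ee x‖ = 1 := by
  unfold ee
  exact Complex.norm_exp_ofReal_mul_I _

theorem ee_int (n : ℤ) : ee (n : ℝ) = 1 := by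
  unfold ee
  rw [Complex.exp_eq_one_iff]
  refine ⟨n, ?_⟩
  push_cast
  ring

theorem ee_zero : ee 0 = 1 := by
  have := ee_int 0
  simpa using this

theorem ee_nat_mul (n : ℕ) (x : ℝ) : ee ((n : ℝ) * x) = ee x ^ n := by
  unfold ee
  rw [← Complex.exp_nat_mul]
  congr 1
  push_cast
  ring

theorem ee_conj (x : ℝ) : (starRingEnd ℂ) (ee x) = ee (-x) := by
  unfold ee
  rw [← Complex.exp_conj]
  congr 1
  rw [map_mul, Complex.conj_I, Complex.conj_ofReal]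
  push_cast
  ring

theorem ee_eq_one {x : ℝ} (h : ee x = 1) : ∃ n : ℤ, x = n := by
  unfold ee at h
  rw [Complex.exp_eq_one_iff] at h
  obtain ⟨n, hn⟩ := h
  refine ⟨n, ?_⟩
  have hI : (((2 * Real.pi * x : ℝ) : ℂ)) = ((n * (2 * Real.pi) : ℝ) : ℂ) := by
    have h2 : (((2 * Real.pi * x : ℝ) : ℂ)) * Complex.I
        = ((n * (2 * Real.pi) : ℝ) : ℂ) * Complex.I := by
      rw [hn]
      push_cast
      ring
    exact mul_right_cancel₀ Complex.I_ne_zero h2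
  have h3 : 2 * Real.pi * x = n * (2 * Real.pi) := by exact_mod_cast hI
  have hpi : (2 * Real.pi) ≠ 0 := by positivity
  have h4 : (2 * Real.pi) * x = (2 * Real.pi) * n := by linarith
  exact mul_left_cancel₀ hpi h4

/-- Splitting a sum over `range (m * n)`. -/
theorem sum_split (m n : ℕ) (f : ℕ → ℂ) :
    ∑ b ∈ range (m * n), f b = ∑ c ∈ range m, ∑ x ∈ range n, f (m * x + c) := by
  rw [Finset.sum_comm]
  induction n with
  | zero => simp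
  | succ n ih =>
    rw [Nat.mul_succ, Finset.sum_range_add, ih, Finset.sum_range_succ]

/-- The complete linear sum. -/
theorem lin_sum (r s : ℕ) (hrs : r ≤ s) (n : ℤ) (h : ¬ (2 : ℤ) ^ r ∣ n) :
    ∑ c ∈ range (2 ^ s), ee ((n : ℝ) * (c : ℝ) / 2 ^ r) = 0 := by
  have h1 : ∀ c : ℕ, ee ((n : ℝ) * (c : ℝ) / 2 ^ r) = ee ((n : ℝ) / 2 ^ r) ^ c := by
    intro c
    rw [← ee_nat_mul]
    congr 1
    ring
  have hz : ee ((n : ℝ) / 2 ^ r) ≠ 1 := by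
    intro h2
    obtain ⟨k, hk⟩ := ee_eq_one h2
    apply h
    refine ⟨k, ?_⟩
    have h3 : (n : ℝ) = 2 ^ r * k := by
      rw [div_eq_iff (by positivity)] at hk
      linarith
    exact_mod_cast h3
  have hp : ee ((n : ℝ) / 2 ^ r) ^ (2 ^ s) = 1 := by
    rw [← ee_nat_mul]
    have h4 : ((2 ^ s : ℕ) : ℝ) * ((n : ℝ) / 2 ^ r) = ((n * 2 ^ (s - r) : ℤ) : ℝ) := by
      have h5 : (2 : ℝ) ^ s = 2 ^ (s - r) * 2 ^ r := by
        rw [← pow_add, Nat.sub_add_cancel hrs]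
      push_cast
      rw [h5]
      field_simp
    rw [h4, ee_int]
  calc ∑ c ∈ range (2 ^ s), ee ((n : ℝ) * (c : ℝ) / 2 ^ r)
      = ∑ c ∈ range (2 ^ s), ee ((n : ℝ) / 2 ^ r) ^ c := Finset.sum_congr rfl (fun c _ => h1 c)
    _ = 0 := by
        rw [geom_sum_eq hz, hp]
        simp

/-- Counting residues. -/
theorem cnt_res (M d y : ℕ) (hd : 0 < d) :
    (((range M).filter (fun x => x ≡ y [MOD d])).card : ℝ) ≤ (M : ℝ) / d + 1 := by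
  have h1 := Nat.count_modEq_card M hd y
  rw [Nat.count_eq_card_filter_range] at h1
  rw [h1]
  have h2 : ((M / d : ℕ) : ℝ) ≤ (M : ℝ) / d := Nat.cast_div_le
  have h3 : (((if y % d < M % d then 1 else 0 : ℕ)) : ℝ) ≤ 1 := by
    split_ifs <;> simp
  push_cast at h3 ⊢
  linarith

/-- The square of a linear sum, opened. -/
theorem sq_open (M : ℕ) (φ : ℝ) :
    ((‖∑ x ∈ range M, ee ((x : ℝ) * φ)‖ ^ 2 : ℝ) : ℂ) =
      ∑ x ∈ range M, ∑ y ∈ range M, ee (((x : ℝ) - (y : ℝ)) * φ) := by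
  rw [← Complex.normSq_eq_norm_sq, Complex.normSq_eq_conj_mul_self, map_sum, mul_comm,
    Finset.sum_mul_sum]
  refine Finset.sum_congr rfl (fun x _ => Finset.sum_congr rfl (fun y _ => ?_))
  rw [ee_conj, ← ee_add]
  congr 1
  ring

/-- The second moment of the linear sums. -/
theorem second_moment (p : ℤ) (hp : ¬ (2 : ℤ) ∣ p) (r s M : ℕ) (hrs : r ≤ s) (θ : ℝ) :
    ∑ c ∈ range (2 ^ s), ‖∑ x ∈ range M, ee ((x : ℝ) * ((p : ℝ) * c / 2 ^ r + θ))‖ ^ 2 ≤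
      2 ^ s * (M * ((M : ℝ) / 2 ^ r + 1)) := by
  have hcop : IsCoprime ((2 : ℤ) ^ r) p := by
    apply IsCoprime.pow_left
    rw [Prime.coprime_iff_not_dvd Int.prime_two]
    exact hp
  -- open the squares
  have h1 : ((∑ c ∈ range (2 ^ s),
      ‖∑ x ∈ range M, ee ((x : ℝ) * ((p : ℝ) * c / 2 ^ r + θ))‖ ^ 2 : ℝ) : ℂ) =
      ∑ x ∈ range M, ∑ y ∈ range M, ee (((x : ℝ) - (y : ℝ)) * θ) *
        ∑ c ∈ range (2 ^ s), ee (((((x : ℤ) - (y : ℤ)) * p : ℤ) : ℝ) * (c : ℝ) / 2 ^ r) := by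
    rw [Complex.ofReal_sum]
    calc ∑ c ∈ range (2 ^ s),
          ((‖∑ x ∈ range M, ee ((x : ℝ) * ((p : ℝ) * c / 2 ^ r + θ))‖ ^ 2 : ℝ) : ℂ)
        = ∑ c ∈ range (2 ^ s), ∑ x ∈ range M, ∑ y ∈ range M,
            ee (((x : ℝ) - (y : ℝ)) * ((p : ℝ) * c / 2 ^ r + θ)) :=
          Finset.sum_congr rfl (fun c _ => sq_open M _)
      _ = ∑ x ∈ range M, ∑ c ∈ range (2 ^ s), ∑ y ∈ range M,
            ee (((x : ℝ) - (y : ℝ)) * ((p : ℝ) * c / 2 ^ r + θ)) := Finset.sum_comm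
      _ = ∑ x ∈ range M, ∑ y ∈ range M, ∑ c ∈ range (2 ^ s),
            ee (((x : ℝ) - (y : ℝ)) * ((p : ℝ) * c / 2 ^ r + θ)) :=
          Finset.sum_congr rfl (fun x _ => Finset.sum_comm)
      _ = _ := by
          refine Finset.sum_congr rfl (fun x _ => Finset.sum_congr rfl (fun y _ => ?_))
          rw [Finset.mul_sum]
          refine Finset.sum_congr rfl (fun c _ => ?_)
          rw [← ee_add]
          congr 1
          push_cast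
          ring
  have h2 : ∀ x y : ℕ,
      ‖ee (((x : ℝ) - (y : ℝ)) * θ) *
        ∑ c ∈ range (2 ^ s), ee (((((x : ℤ) - (y : ℤ)) * p : ℤ) : ℝ) * (c : ℝ) / 2 ^ r)‖ ≤
      if y ≡ x [MOD 2 ^ r] then (2 : ℝ) ^ s else 0 := by
    intro x y
    rw [norm_mul, norm_ee, one_mul]
    split_ifs with hxy
    · calc ‖∑ c ∈ range (2 ^ s), ee (((((x : ℤ) - (y : ℤ)) * p : ℤ) : ℝ) * (c : ℝ) / 2 ^ r)‖
          ≤ ∑ c ∈ range (2 ^ s),
              ‖ee (((((x : ℤ) - (y : ℤ)) * p : ℤ) : ℝ) * (c : ℝ) / 2 ^ r)‖ := norm_sum_le _ _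
        _ = ∑ c ∈ range (2 ^ s), (1 : ℝ) := Finset.sum_congr rfl (fun c _ => norm_ee _)
        _ = 2 ^ s := by simp
    · rw [lin_sum r s hrs, norm_zero]
      intro hd
      apply hxy
      have h3 : (2 : ℤ) ^ r ∣ (x : ℤ) - (y : ℤ) := hcop.dvd_of_dvd_mul_right hd
      rw [Nat.modEq_iff_dvd]
      push_cast
      exact h3
  have h3 : ‖((∑ c ∈ range (2 ^ s),
      ‖∑ x ∈ range M, ee ((x : ℝ) * ((p : ℝ) * c / 2 ^ r + θ))‖ ^ 2 : ℝ) : ℂ)‖ ≤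
      2 ^ s * (M * ((M : ℝ) / 2 ^ r + 1)) := by
    rw [h1]
    calc ‖∑ x ∈ range M, ∑ y ∈ range M, ee (((x : ℝ) - (y : ℝ)) * θ) *
        ∑ c ∈ range (2 ^ s), ee (((((x : ℤ) - (y : ℤ)) * p : ℤ) : ℝ) * (c : ℝ) / 2 ^ r)‖
        ≤ ∑ x ∈ range M, ∑ y ∈ range M, ‖ee (((x : ℝ) - (y : ℝ)) * θ) *
        ∑ c ∈ range (2 ^ s), ee (((((x : ℤ) - (y : ℤ)) * p : ℤ) : ℝ) * (c : ℝ) / 2 ^ r)‖ :=
          (norm_sum_le _ _).trans (Finset.sum_le_sum (fun x _ => norm_sum_le _ _))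
      _ ≤ ∑ x ∈ range M, ∑ y ∈ range M, (if y ≡ x [MOD 2 ^ r] then (2 : ℝ) ^ s else 0) :=
          Finset.sum_le_sum (fun x _ => Finset.sum_le_sum (fun y _ => h2 x y))
      _ = ∑ x ∈ range M,
            (((range M).filter (fun y => y ≡ x [MOD 2 ^ r])).card : ℝ) * (2 : ℝ) ^ s := by
          refine Finset.sum_congr rfl (fun x _ => ?_)
          rw [← Finset.sum_filter, Finset.sum_const, nsmul_eq_mul]
      _ ≤ ∑ x ∈ range M, ((M : ℝ) / 2 ^ r + 1) * (2 : ℝ) ^ s := by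
          refine Finset.sum_le_sum (fun x _ => ?_)
          have h4 := cnt_res M (2 ^ r) x (by positivity)
          push_cast at h4
          exact mul_le_mul_of_nonneg_right h4 (by positivity)
      _ = 2 ^ s * (M * ((M : ℝ) / 2 ^ r + 1)) := by
          rw [Finset.sum_const, card_range, nsmul_eq_mul]
          ring
  rw [Complex.norm_real, Real.norm_eq_abs] at h3
  exact (le_abs_self _).trans h3

end QAux

open QAux

theorem qq : QStmt := by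
  intro N2 E X β θ ζ hN hXE hEβ
  have hN0 : N2 ≠ 0 := by
    rintro rfl
    exact hN (dvd_zero _)
  -- the odd part
  obtain ⟨u, p, hp, hNp⟩ : ∃ (u : ℕ) (p : ℤ), ¬ (2 : ℤ) ∣ p ∧ N2 = 2 ^ u * p := by
    have hf : FiniteMultiplicity (2 : ℤ) N2 :=
      Int.finiteMultiplicity_iff.mpr ⟨by norm_num, hN0⟩
    obtain ⟨c, hc1, hc2⟩ := hf.exists_eq_pow_mul_and_not_dvd
    exact ⟨_, c, hc2, hc1⟩
  have huX : u < X := by
    by_contra h
    exact hN (hNp ▸ (pow_dvd_pow 2 (not_lt.mp h)).mul_right p)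
  obtain ⟨e, he⟩ : ∃ e, E = u + e := ⟨E - u, by omega⟩
  obtain ⟨s, hs⟩ : ∃ s, s = (e + 1) / 2 := ⟨_, rfl⟩
  obtain ⟨r, hr⟩ : ∃ r, e = s + 1 + r := ⟨e - s - 1, by omega⟩
  obtain ⟨w, hw⟩ : ∃ w, 2 * s = e + w := ⟨2 * s - e, by omega⟩
  obtain ⟨m, hm⟩ : ∃ m, β = s + m := ⟨β - s, by omega⟩
  have hrs : r ≤ s := by omega
  -- the shape of the phase
  have hphase : ∀ c x : ℕ,
      ee ((N2 : ℝ) * (((2 ^ s * x + c : ℕ) : ℝ)) ^ 2 / 2 ^ E + θ * ((2 ^ s * x + c : ℕ) : ℝ) + ζ) =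
      ee ((p : ℝ) * (c : ℝ) ^ 2 / 2 ^ e + θ * c + ζ) *
        ee ((x : ℝ) * ((p : ℝ) * c / 2 ^ r + θ * 2 ^ s)) := by
    intro c x
    rw [← ee_add]
    have h1 : (N2 : ℝ) * (((2 ^ s * x + c : ℕ) : ℝ)) ^ 2 / 2 ^ E
        + θ * ((2 ^ s * x + c : ℕ) : ℝ) + ζ
        = ((p : ℝ) * (c : ℝ) ^ 2 / 2 ^ e + θ * c + ζ +
            (x : ℝ) * ((p : ℝ) * c / 2 ^ r + θ * 2 ^ s)) + ((p * 2 ^ w * (x : ℤ) ^ 2 : ℤ) : ℝ) := by
      have hA : (N2 : ℝ) / 2 ^ E = (p : ℝ) / 2 ^ e := by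
        rw [hNp, he, pow_add]
        push_cast
        field_simp
      have hB : (2 : ℝ) ^ e = 2 ^ s * 2 * 2 ^ r := by
        rw [hr, pow_add, pow_add, pow_one]
      have hC : ((2 : ℝ) ^ s) ^ 2 = 2 ^ e * 2 ^ w := by
        rw [← pow_add, ← hw, ← pow_mul, mul_comm]
      have hD : (N2 : ℝ) * (((2 ^ s * x + c : ℕ) : ℝ)) ^ 2 / 2 ^ E
          = (p : ℝ) / 2 ^ e * (((2 ^ s * x + c : ℕ) : ℝ)) ^ 2 := by
        rw [← hA]
        ring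
      have hE1 : (p : ℝ) / 2 ^ e * (((2 ^ s * x + c : ℕ) : ℝ)) ^ 2
          = (p : ℝ) * (c : ℝ) ^ 2 / 2 ^ e + (x : ℝ) * ((p : ℝ) * c / 2 ^ r)
            + (p : ℝ) * 2 ^ w * (x : ℝ) ^ 2 := by
        have h2 : (((2 ^ s * x + c : ℕ) : ℝ)) ^ 2
            = (2 ^ e * 2 ^ w) * (x : ℝ) ^ 2 + 2 * 2 ^ s * x * c + (c : ℝ) ^ 2 := by
          rw [← hC]
          push_cast
          ring
        have h3 : (2 : ℝ) ^ e ≠ 0 := by positivity
        have h4 : (p : ℝ) / 2 ^ e * (2 * 2 ^ s * x * c) = (x : ℝ) * ((p : ℝ) * c / 2 ^ r) := by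
          rw [hB]
          field_simp
        have h5 : (p : ℝ) / 2 ^ e * ((2 ^ e * 2 ^ w) * (x : ℝ) ^ 2)
            = (p : ℝ) * 2 ^ w * (x : ℝ) ^ 2 := by
          field_simp
        rw [h2, mul_add, mul_add, h4, h5]
        ring
      rw [hD, hE1]
      push_cast
      ring
    rw [h1, ee_add _ (((p * 2 ^ w * (x : ℤ) ^ 2 : ℤ) : ℝ)), ee_int, mul_one]
  -- splitting
  have hsplit : ∑ b ∈ range (2 ^ β), ee ((N2 : ℝ) * (b : ℝ) ^ 2 / 2 ^ E + θ * b + ζ) =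
      ∑ c ∈ range (2 ^ s), ee ((p : ℝ) * (c : ℝ) ^ 2 / 2 ^ e + θ * c + ζ) *
        ∑ x ∈ range (2 ^ m), ee ((x : ℝ) * ((p : ℝ) * c / 2 ^ r + θ * 2 ^ s)) := by
    have h1 : (2 : ℕ) ^ β = 2 ^ s * 2 ^ m := by rw [hm, pow_add]
    rw [h1, sum_split]
    refine Finset.sum_congr rfl (fun c _ => ?_)
    rw [Finset.mul_sum]
    exact Finset.sum_congr rfl (fun x _ => hphase c x)
  have hnorm : ‖∑ b ∈ range (2 ^ β), ee ((N2 : ℝ) * (b : ℝ) ^ 2 / 2 ^ E + θ * b + ζ)‖ ≤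
      ∑ c ∈ range (2 ^ s),
        ‖∑ x ∈ range (2 ^ m), ee ((x : ℝ) * ((p : ℝ) * c / 2 ^ r + θ * 2 ^ s))‖ := by
    rw [hsplit]
    refine (norm_sum_le _ _).trans (le_of_eq ?_)
    refine Finset.sum_congr rfl (fun c _ => ?_)
    rw [norm_mul, norm_ee, one_mul]
  have hsq : ‖∑ b ∈ range (2 ^ β), ee ((N2 : ℝ) * (b : ℝ) ^ 2 / 2 ^ E + θ * b + ζ)‖ ^ 2 ≤
      (2 : ℝ) ^ s * ∑ c ∈ range (2 ^ s),
        ‖∑ x ∈ range (2 ^ m), ee ((x : ℝ) * ((p : ℝ) * c / 2 ^ r + θ * 2 ^ s))‖ ^ 2 := by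
    have h1 := pow_le_pow_left₀ (norm_nonneg _) hnorm 2
    refine h1.trans ?_
    have h2 := sq_sum_le_card_mul_sum_sq (s := range (2 ^ s))
      (f := fun c : ℕ =>
        ‖∑ x ∈ range (2 ^ m), ee ((x : ℝ) * ((p : ℝ) * c / 2 ^ r + θ * 2 ^ s))‖)
    rw [card_range] at h2
    push_cast at h2
    exact h2
  have hmom := second_moment p hp r s (2 ^ m) hrs (θ * 2 ^ s)
  have hcomb : ‖∑ b ∈ range (2 ^ β), ee ((N2 : ℝ) * (b : ℝ) ^ 2 / 2 ^ E + θ * b + ζ)‖ ^ 2 ≤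
      (2 : ℝ) ^ s * (2 ^ s * (((2 ^ m : ℕ) : ℝ) * ((((2 ^ m : ℕ) : ℝ)) / 2 ^ r + 1))) :=
    hsq.trans (mul_le_mul_of_nonneg_left hmom (by positivity))
  have hval : (2 : ℝ) ^ s * (2 ^ s * (((2 ^ m : ℕ) : ℝ) * ((((2 ^ m : ℕ) : ℝ)) / 2 ^ r + 1))) =
      (4 : ℝ) ^ β * ((1 / 2) ^ r + (1 / 2) ^ m) := by
    have h4 : (4 : ℝ) ^ β = (2 ^ s * 2 ^ m) ^ 2 := by
      rw [← pow_add, ← hm, ← pow_mul, mul_comm β 2, pow_mul]
      norm_num
    have h5 : ((1 : ℝ) / 2) ^ r = 1 / 2 ^ r := by rw [one_div_pow]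
    have h6 : ((1 : ℝ) / 2) ^ m = 1 / 2 ^ m := by rw [one_div_pow]
    rw [h4, h5, h6]
    push_cast
    field_simp
  refine hcomb.trans ?_
  rw [hval]
  refine mul_le_mul_of_nonneg_left ?_ (by positivity)
  refine add_le_add ?_ ?_
  · exact pow_le_pow_of_le_one (by norm_num) (by norm_num) (by omega)
  · exact pow_le_pow_of_le_one (by norm_num) (by norm_num) (by omega)

end Pool.Agent.H9.TC
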