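import Pool.Agent.H9.TC.Stm

/-!
Project TC, row TC-13: linear exponential sums.
-/

set_option autoImplicit false

namespace Pool.Agent.H9.TC

open Finset

theorem ql_add (x y : ℝ) : ee (x + y) = ee x * ee y := by
  unfold ee
  rw [← Complex.exp_add]
  congr 1
  push_cast
  ring

theorem ql_norm (x : ℝ) : ‖ee x‖ = 1 := by
  unfold ee
  exact Complex.norm_exp_ofReal_mul_I _

theorem ql_pow (x : ℝ) (n : ℕ) : ee (x * n) = ee x ^ n := by
  unfold ee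
  rw [← Complex.exp_nat_mul]
  congr 1
  push_cast
  ring

theorem ql_int (n : ℤ) : ee (n : ℝ) = 1 := by
  unfold ee
  rw [Complex.exp_eq_one_iff]
  exact ⟨n, by push_cast; ring⟩

theorem ql_ne {N1 : ℤ} {E : ℕ} (h : ¬ (2 : ℤ) ^ E ∣ N1) : ee ((N1 : ℝ) / 2 ^ E) ≠ 1 := by
  intro h1
  unfold ee at h1
  rw [Complex.exp_eq_one_iff] at h1
  obtain ⟨n, hn⟩ := h1
  apply h
  refine ⟨n, ?_⟩
  have h2 : ((2 * Real.pi * ((N1 : ℝ) / 2 ^ E) : ℝ) : ℂ) * Complex.I =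
      ((2 * Real.pi * (n : ℝ) : ℝ) : ℂ) * Complex.I := by
    rw [hn]
    push_cast
    ring
  have h3 := mul_right_cancel₀ Complex.I_ne_zero h2
  have h4 : (2 * Real.pi * ((N1 : ℝ) / 2 ^ E) : ℝ) = 2 * Real.pi * (n : ℝ) := by
    exact_mod_cast h3
  have h5 : (N1 : ℝ) / 2 ^ E = n := mul_left_cancel₀ (by positivity) h4
  have h6 : (N1 : ℝ) = 2 ^ E * n := by
    field_simp at h5
    linarith
  exact_mod_cast h6

/-- (Q'). -/
theorem ql : QlStmt := by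
  intro N1 E B ζ hN
  set z : ℂ := ee ((N1 : ℝ) / 2 ^ E) with hz
  have hz1 : z ≠ 1 := ql_ne hN
  have hzE : z ^ (2 ^ E) = 1 := by
    rw [hz, ← ql_pow, ← ql_int N1]
    congr 1
    push_cast
    field_simp
  have h1 : ∀ b : ℕ, ee ((N1 : ℝ) * (b : ℝ) / 2 ^ E + ζ) = z ^ b * ee ζ := by
    intro b
    rw [ql_add, hz, ← ql_pow]
    congr 2
    ring
  have h2 : ∑ b ∈ range B, ee ((N1 : ℝ) * (b : ℝ) / 2 ^ E + ζ) = (∑ b ∈ range B, z ^ b) * ee ζ := by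
    rw [sum_mul]
    exact sum_congr rfl fun b _ => h1 b
  have h3 : ∑ b ∈ range B, z ^ b = ∑ b ∈ range (B % 2 ^ E), z ^ b := by
    have h4 : z ^ B = z ^ (B % 2 ^ E) := by
      conv_lhs => rw [← Nat.div_add_mod B (2 ^ E), pow_add, pow_mul, hzE, one_pow, one_mul]
    rw [geom_sum_eq hz1, geom_sum_eq hz1, h4]
  have h5 : ‖z‖ = 1 := ql_norm _
  rw [h2, norm_mul, ql_norm, mul_one, h3]
  calc ‖∑ b ∈ range (B % 2 ^ E), z ^ b‖ ≤ ∑ b ∈ range (B % 2 ^ E), ‖z ^ b‖ := norm_sum_le _ _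
    _ = (B % 2 ^ E : ℕ) := by simp [h5]
    _ ≤ 2 ^ E := by
      have := (Nat.mod_lt B (pow_pos (by norm_num : 0 < 2) E)).le
      exact_mod_cast this

end Pool.Agent.H9.TC
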