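import Pool.Agent.H9.TC.V0
import Pool.Agent.H9.TC.V
import Pool.Agent.H9.TC.K1
import Pool.Agent.H9.TC.K
import Pool.Agent.H9.TC.F1
import Pool.Agent.H9.TC.F2
import Pool.Agent.H9.TC.P
import Pool.Agent.H9.TC.M0
import Pool.Agent.H9.TC.E
import Pool.Agent.H9.TC.G
import Pool.Agent.H9.TC.Q
import Pool.Agent.H9.TC.Ql
import Pool.Agent.H9.TC.N2
import Pool.Agent.H9.TC.N3
import Pool.Agent.H9.TC.N4
import Pool.Agent.H9.TC.N5
import Pool.Agent.H9.TC.G1
import Pool.Agent.H9.TC.G3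
import Pool.Agent.H9.TC.A
import Pool.Agent.H9.TC.CD
import Pool.Agent.H9.TC.CP
import Pool.Agent.H9.TC.CG
import Pool.Agent.H9.TC.Core
import Pool.Agent.H9.TC.D
import Pool.Agent.H9.TC.Cut
import Pool.Agent.H9.TC.ThmA
import Pool.Agent.H9.TC.Fin

/-!
Project TC: the rows put together up to the core proposition.
-/

namespace Pool.Agent.H9.TC

theorem posStmt : PStmt := pos f1 f2

theorem m0Stmt : M0Stmt := m0 f1 f2

theorem gStmt : GStmt := gg (ex f1 f2 posStmt) posStmt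

theorem g1Stmt : G1Stmt := g1 f1 f2 qq

theorem cpStmt : CPStmt :=
  cp (n2 m0Stmt qq gStmt) (n3 m0Stmt qq gStmt) (n4 m0Stmt qq gStmt) (n5 m0Stmt qq ql gStmt)
    g1Stmt (g3 f1 f2 qq)

theorem coreStmt : CoreStmt := core (kk k1) cpStmt (cg adj (cd vdc)) g1Stmt

end Pool.Agent.H9.TC
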