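import Pool.Agent.H9.TC.Stm

/-!
Project TC (MP_b6022c_nt), row TC-2: single shift van der Corput.
-/

set_option autoImplicit false

namespace Pool.Agent.H9.TC

open Finset

/-- shifting a sum by one costs at most two -/
theorem v0_step (G : ℤ → ℝ) (hG : ∀ x, |G x| ≤ 1) (B : ℕ) (s : ℤ) :
    |∑ b ∈ range B, G ((b : ℤ) + (s + 1)) - ∑ b ∈ range B, G ((b : ℤ) + s)| ≤ 2 := by
  have h1 : ∑ b ∈ range B, G ((b : ℤ) + (s + 1)) - ∑ b ∈ range B, G ((b : ℤ) + s) =
      G ((B : ℤ) + s) - G (((0 : ℕ) : ℤ) + s) := by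
    rw [← Finset.sum_sub_distrib, ← Finset.sum_range_sub (fun b : ℕ => G ((b : ℤ) + s)) B]
    refine Finset.sum_congr rfl fun b _ => ?_
    congr 2
    push_cast
    ring
  rw [h1]
  have h2 := abs_sub (G ((B : ℤ) + s)) (G (((0 : ℕ) : ℤ) + s))
  have h3 := hG ((B : ℤ) + s)
  have h4 := hG (((0 : ℕ) : ℤ) + s)
  linarith

/-- shifting a sum by `s` costs at most `2 s` -/
theorem v0_shift (G : ℤ → ℝ) (hG : ∀ x, |G x| ≤ 1) (B s : ℕ) :
    |∑ b ∈ range B, G ((b : ℤ) + (s : ℤ)) - ∑ b ∈ range B, G (b : ℤ)| ≤ 2 * s := by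
  induction s with
  | zero => simp
  | succ s ih =>
    have h1 := v0_step G hG B (s : ℤ)
    have h2 : ((s + 1 : ℕ) : ℤ) = (s : ℤ) + 1 := by push_cast; ring
    rw [h2]
    push_cast
    calc |∑ b ∈ range B, G ((b : ℤ) + ((s : ℤ) + 1)) - ∑ b ∈ range B, G (b : ℤ)|
        ≤ |∑ b ∈ range B, G ((b : ℤ) + ((s : ℤ) + 1)) - ∑ b ∈ range B, G ((b : ℤ) + s)| +
          |∑ b ∈ range B, G ((b : ℤ) + s) - ∑ b ∈ range B, G (b : ℤ)| := abs_sub_le _ _ _
      _ ≤ 2 + 2 * s := add_le_add h1 ih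
      _ = 2 * (s + 1) := by ring

theorem v0 : V0Stmt := by
  intro G hG J B r hJ
  have hJ0 : (0 : ℝ) < J := by exact_mod_cast hJ
  set S := ∑ b ∈ range B, G (b : ℤ) with hS
  set A : ℕ → ℝ := fun j => ∑ b ∈ range B, G ((b : ℤ) + j * r) with hA
  set T : ℝ := ∑ j ∈ range J, A j with hT
  have hB : ∀ f : ℕ → ℝ, (∀ b, |f b| ≤ 1) → |∑ b ∈ range B, f b| ≤ B := by
    intro f hf
    calc |∑ b ∈ range B, f b| ≤ ∑ b ∈ range B, |f b| := Finset.abs_sum_le_sum_abs _ _
      _ ≤ ∑ _b ∈ range B, (1 : ℝ) := Finset.sum_le_sum fun b _ => hf b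
      _ = B := by simp
  have hS1 : |S| ≤ B := hB _ fun b => hG _
  have hA1 : ∀ j, |A j| ≤ B := fun j => hB _ fun b => hG _
  have hT1 : |T| ≤ J * B := by
    calc |T| ≤ ∑ j ∈ range J, |A j| := Finset.abs_sum_le_sum_abs _ _
      _ ≤ ∑ _j ∈ range J, (B : ℝ) := Finset.sum_le_sum fun j _ => hA1 j
      _ = J * B := by simp
  have hd : ∀ j ∈ range J, |A j - S| ≤ 2 * (j * r) := by
    intro j _
    have h1 := v0_shift G hG B (j * r)
    push_cast at h1
    exact h1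
  -- the difference of `J S` and `T`
  have hJr : |T - J * S| ≤ J * (J * r) := by
    have h1 : T - J * S = ∑ j ∈ range J, (A j - S) := by
      rw [Finset.sum_sub_distrib, Finset.sum_const, Finset.card_range, nsmul_eq_mul]
    rw [h1]
    calc |∑ j ∈ range J, (A j - S)| ≤ ∑ j ∈ range J, |A j - S| := Finset.abs_sum_le_sum_abs _ _
      _ ≤ ∑ j ∈ range J, 2 * ((j : ℝ) * r) := Finset.sum_le_sum hd
      _ = ((∑ j ∈ range J, (j : ℝ)) * 2) * r := by
          rw [Finset.sum_mul, Finset.sum_mul]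
          exact Finset.sum_congr rfl fun j _ => by ring
      _ ≤ (J * J) * r := by
          refine mul_le_mul_of_nonneg_right ?_ (Nat.cast_nonneg r)
          have h2 := Finset.sum_range_id_mul_two J
          have h3 : (∑ j ∈ range J, (j : ℝ)) * 2 = ((J * (J - 1) : ℕ) : ℝ) := by
            rw [← h2]
            push_cast
            rfl
          rw [h3]
          have h4 : J * (J - 1) ≤ J * J := Nat.mul_le_mul_left _ (Nat.sub_le _ _)
          exact_mod_cast h4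
      _ = J * (J * r) := by ring
  -- Cauchy-Schwarz
  have hCS : T ^ 2 ≤ B * ∑ j ∈ range J, ∑ j' ∈ range J, ∑ b ∈ range B,
      G ((b : ℤ) + j * r) * G ((b : ℤ) + j' * r) := by
    have h1 : T = ∑ b ∈ range B, ∑ j ∈ range J, G ((b : ℤ) + j * r) := by
      rw [hT, hA, Finset.sum_comm]
    rw [h1]
    have h2 := sq_sum_le_card_mul_sum_sq (s := range B)
      (f := fun b : ℕ => ∑ j ∈ range J, G ((b : ℤ) + j * r))
    rw [Finset.card_range] at h2
    refine h2.trans (le_of_eq ?_)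
    congr 1
    have h3 : ∀ b : ℕ, (∑ j ∈ range J, G ((b : ℤ) + j * r)) ^ 2 =
        ∑ j ∈ range J, ∑ j' ∈ range J, G ((b : ℤ) + j * r) * G ((b : ℤ) + j' * r) := by
      intro b
      rw [sq, Finset.sum_mul_sum]
    rw [Finset.sum_congr rfl fun b _ => h3 b, Finset.sum_comm]
    refine Finset.sum_congr rfl fun j _ => ?_
    rw [Finset.sum_comm]
  -- conclusion
  have hmain : (J * S) ^ 2 ≤ T ^ 2 + 2 * B * J ^ 3 * r := by
    have h1 : (J * S) ^ 2 - T ^ 2 = (J * S - T) * (J * S + T) := by ring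
    have h2 : (J * S - T) * (J * S + T) ≤ |J * S - T| * |J * S + T| := by
      rw [← abs_mul]
      exact le_abs_self _
    have h3 : |J * S - T| ≤ J * (J * r) := by
      rw [abs_sub_comm]
      exact hJr
    have h4 : |J * S + T| ≤ 2 * (J * B) := by
      calc |J * S + T| ≤ |J * S| + |T| := abs_add_le _ _
        _ ≤ J * B + J * B := by
            refine add_le_add ?_ hT1
            rw [abs_mul, Nat.abs_cast]
            exact mul_le_mul_of_nonneg_left hS1 hJ0.le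
        _ = 2 * (J * B) := by ring
    have h5 : |J * S - T| * |J * S + T| ≤ (J * (J * r)) * (2 * (J * B)) :=
      mul_le_mul h3 h4 (abs_nonneg _) (by positivity)
    nlinarith
  have hJ2 : (0 : ℝ) < (J : ℝ) ^ 2 := by positivity
  have h6 : (J : ℝ) ^ 2 * S ^ 2 ≤ (J : ℝ) ^ 2 * ((B : ℝ) / (J : ℝ) ^ 2 *
      (∑ j ∈ range J, ∑ j' ∈ range J, ∑ b ∈ range B,
        G ((b : ℤ) + j * r) * G ((b : ℤ) + j' * r)) + 2 * J * r * B) := by
    have h7 : (J : ℝ) ^ 2 * ((B : ℝ) / (J : ℝ) ^ 2 *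
      (∑ j ∈ range J, ∑ j' ∈ range J, ∑ b ∈ range B,
        G ((b : ℤ) + j * r) * G ((b : ℤ) + j' * r)) + 2 * J * r * B) =
        B * (∑ j ∈ range J, ∑ j' ∈ range J, ∑ b ∈ range B,
          G ((b : ℤ) + j * r) * G ((b : ℤ) + j' * r)) + 2 * B * J ^ 3 * r := by
      field_simp
    rw [h7, ← mul_pow]
    linarith
  exact le_of_mul_le_mul_left h6 hJ2

end Pool.Agent.H9.TC
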